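import Mathlib

set_option autoImplicit false

namespace Pool.Agent.Helper93.Be

noncomputable section

def cl (x : ℝ) : ℝ := max 0 (min 1 x)

lemma cl_le {x : ℝ} (h : x ≤ 0) : cl x = 0 := by
  unfold cl; rw [min_eq_right (by linarith), max_eq_left h]

lemma cl_ge {x : ℝ} (h : 1 ≤ x) : cl x = 1 := by
  unfold cl; rw [min_eq_left h, max_eq_right (by norm_num)]

lemma cl_mid {x : ℝ} (h0 : 0 ≤ x) (h1 : x ≤ 1) : cl x = x := by
  unfold cl; rw [min_eq_right h1, max_eq_right h0]

lemma cl_nonneg (x : ℝ) : 0 ≤ cl x := le_max_left _ _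

lemma cl_le_one (x : ℝ) : cl x ≤ 1 := max_le (by norm_num) (min_le_left _ _)

@[fun_prop]
lemma cl_cont : Continuous cl := by unfold cl; fun_prop

def t1 (X : ℝ) : ℝ := max (min (3*X) (min (X*(3/2)+1/4) (3/4))) (X*(3/2)-1/2)
def d1 (X : ℝ) : ℝ := max 0 (min (3*X-1) (5-6*X))

lemma t1_a {X : ℝ} (h0 : 0 ≤ X) (h : X ≤ 1/6) : t1 X = 3*X := by
  unfold t1
  rw [min_eq_left (a := X*(3/2)+1/4) (by linarith), min_eq_left (by linarith), max_eq_left (by linarith)]
lemma t1_b {X : ℝ} (h0 : 1/6 ≤ X) (h : X ≤ 1/3) : t1 X = X*(3/2)+1/4 := by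
  unfold t1
  rw [min_eq_left (a := X*(3/2)+1/4) (by linarith), min_eq_right (by linarith), max_eq_left (by linarith)]
lemma t1_c {X : ℝ} (h0 : 1/3 ≤ X) (h : X ≤ 5/6) : t1 X = 3/4 := by
  unfold t1
  rw [min_eq_right (a := X*(3/2)+1/4) (by linarith), min_eq_right (by linarith), max_eq_left (by linarith)]
lemma t1_d {X : ℝ} (h0 : 5/6 ≤ X) : t1 X = X*(3/2)-1/2 := by
  unfold t1
  rw [min_eq_right (a := X*(3/2)+1/4) (by linarith), min_eq_right (by linarith), max_eq_right (by linarith)]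
lemma d1_a {X : ℝ} (h : X ≤ 1/3) : d1 X = 0 := by
  unfold d1
  rw [min_eq_left (by linarith), max_eq_left (by linarith)]
lemma d1_b {X : ℝ} (h0 : 1/3 ≤ X) (h : X ≤ 2/3) : d1 X = 3*X-1 := by
  unfold d1
  rw [min_eq_left (by linarith), max_eq_right (by linarith)]
lemma d1_c {X : ℝ} (h0 : 2/3 ≤ X) (h : X ≤ 5/6) : d1 X = 5-6*X := by
  unfold d1
  rw [min_eq_right (by linarith), max_eq_right (by linarith)]
lemma d1_d {X : ℝ} (h0 : 5/6 ≤ X) : d1 X = 0 := by
  unfold d1
  rw [min_eq_right (by linarith), max_eq_left (by linarith)]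

@[fun_prop]
lemma t1_cont : Continuous t1 := by unfold t1; fun_prop
@[fun_prop]
lemma d1_cont : Continuous d1 := by unfold d1; fun_prop

lemma t1_rng {X : ℝ} (h0 : 0 ≤ X) (h1 : X ≤ 1) : 0 ≤ t1 X ∧ t1 X ≤ 1 := by
  rcases le_total X (1/6) with h | h
  · rw [t1_a h0 h]; constructor <;> linarith
  rcases le_total X (1/3) with h' | h'
  · rw [t1_b h h']; constructor <;> linarith
  rcases le_total X (5/6) with h'' | h''
  · rw [t1_c h' h'']; constructor <;> norm_num
  · rw [t1_d h'']; constructor <;> linarith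

lemma d1_rng (X : ℝ) : 0 ≤ d1 X ∧ d1 X ≤ 1 := by
  rcases le_total X (1/3) with h' | h'
  · rw [d1_a h']; constructor <;> linarith
  rcases le_total X (2/3) with h | h
  · rw [d1_b h' h]; constructor <;> linarith
  rcases le_total X (5/6) with h'' | h''
  · rw [d1_c h h'']; constructor <;> linarith
  · rw [d1_d h'']; constructor <;> linarith

lemma t1_of_d1 {X : ℝ} (h : 0 < d1 X) : t1 X = 3/4 := by
  rcases le_total X (1/3) with h' | h'
  · rw [d1_a h'] at h; exact absurd h (lt_irrefl _)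
  rcases le_total X (5/6) with h'' | h''
  · exact t1_c h' h''
  · rw [d1_d h''] at h; exact absurd h (lt_irrefl _)

def topT (x m : ℝ) : ℝ :=
  max (cl x - 2*(1 - cl (3*m-2))) (min (t1 (cl x)) (cl x + 2*(1 - cl (3*m-2))))
def topD (x m : ℝ) : ℝ := max 0 (d1 (cl x) - 2*cl (3*m-2))
def top1 (x m : ℝ) : ℝ := max 0 (2*topT x m - 1)
def top2 (x m : ℝ) : ℝ := min 1 (2*topT x m) - topD x m
def bot1 (x m : ℝ) : ℝ := 1 - top1 (1-x) (1-m)
def bot2 (x m : ℝ) : ℝ := 1 - top2 (1-x) (1-m)
def al1 (x : ℝ) : ℝ := max 0 (2*cl x - 1)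
def al2 (x : ℝ) : ℝ := min 1 (2*cl x)

@[fun_prop]
lemma topT_cont : Continuous (fun p : ℝ × ℝ => topT p.1 p.2) := by unfold topT; fun_prop
@[fun_prop]
lemma topD_cont : Continuous (fun p : ℝ × ℝ => topD p.1 p.2) := by unfold topD; fun_prop
lemma top1_cont : Continuous (fun p : ℝ × ℝ => top1 p.1 p.2) := by unfold top1; fun_prop
lemma top2_cont : Continuous (fun p : ℝ × ℝ => top2 p.1 p.2) := by unfold top2; fun_prop
lemma bot1_cont : Continuous (fun p : ℝ × ℝ => bot1 p.1 p.2) := by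
  unfold bot1
  exact continuous_const.sub (top1_cont.comp (by fun_prop : Continuous fun p : ℝ × ℝ => ((1 - p.1, 1 - p.2) : ℝ × ℝ)))
lemma bot2_cont : Continuous (fun p : ℝ × ℝ => bot2 p.1 p.2) := by
  unfold bot2
  exact continuous_const.sub (top2_cont.comp (by fun_prop : Continuous fun p : ℝ × ℝ => ((1 - p.1, 1 - p.2) : ℝ × ℝ)))
@[fun_prop]
lemma al1_cont : Continuous al1 := by unfold al1; fun_prop
@[fun_prop]
lemma al2_cont : Continuous al2 := by unfold al2; fun_prop

lemma topT_half {x m : ℝ} (h : cl (3*m-2) ≤ 1/2) : topT x m = t1 (cl x) := by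
  have h0 := cl_nonneg x
  have h1 := cl_le_one x
  have h2 := t1_rng h0 h1
  unfold topT
  rw [min_eq_left (by linarith), max_eq_right (by linarith)]

lemma topT_rng (x m : ℝ) : 0 ≤ topT x m ∧ topT x m ≤ 1 := by
  have h0 := cl_nonneg x
  have h1 := cl_le_one x
  have h2 := t1_rng h0 h1
  have h3 := cl_nonneg (3*m-2)
  have h4 := cl_le_one (3*m-2)
  unfold topT
  constructor
  · exact le_max_of_le_right (le_min (by linarith) (by linarith))
  · exact max_le (by linarith) (min_le_of_left_le (by linarith))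

lemma topD_nonneg (x m : ℝ) : 0 ≤ topD x m := le_max_left _ _

lemma topD_le (x m : ℝ) : topD x m ≤ 1 := by
  have := (d1_rng (cl x)).2
  have h3 := cl_nonneg (3*m-2)
  unfold topD
  exact max_le (by norm_num) (by linarith)

lemma topT_of_topD {x m : ℝ} (h : 0 < topD x m) : topT x m = 3/4 := by
  unfold topD at h
  have h' : 0 < d1 (cl x) - 2*cl (3*m-2) := by
    rcases lt_max_iff.1 h with h | h
    · exact absurd h (lt_irrefl _)
    · exact h
  have h2 := (d1_rng (cl x)).2
  have h3 := cl_nonneg (3*m-2)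
  rw [topT_half (by linarith)]
  exact t1_of_d1 (by linarith)

lemma top1_rng (x m : ℝ) : 0 ≤ top1 x m ∧ top1 x m ≤ 1 := by
  have := topT_rng x m
  unfold top1
  exact ⟨le_max_left _ _, max_le (by norm_num) (by linarith)⟩

lemma top2_rng (x m : ℝ) : 0 ≤ top2 x m ∧ top2 x m ≤ 1 := by
  have h := topT_rng x m
  have hd := topD_nonneg x m
  have hd' := topD_le x m
  unfold top2
  refine ⟨?_, by linarith [min_le_left 1 (2*topT x m)]⟩
  rcases hd.lt_or_eq with h0 | h0
  · rw [topT_of_topD h0, min_eq_left (by norm_num)]; linarith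
  · rw [← h0, sub_zero]; exact le_min (by norm_num) (by linarith)

lemma bot1_rng (x m : ℝ) : 0 ≤ bot1 x m ∧ bot1 x m ≤ 1 := by
  have := top1_rng (1-x) (1-m)
  unfold bot1
  constructor <;> linarith
lemma bot2_rng (x m : ℝ) : 0 ≤ bot2 x m ∧ bot2 x m ≤ 1 := by
  have := top2_rng (1-x) (1-m)
  unfold bot2
  constructor <;> linarith

lemma topT_left {x m : ℝ} (h : x ≤ 0) : topT x m = 0 := by
  have h3 := cl_nonneg (3*m-2)
  have h4 := cl_le_one (3*m-2)
  unfold topT
  rw [cl_le h, t1_a le_rfl (by norm_num), min_eq_left (by linarith), max_eq_right (by linarith)]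
  norm_num
lemma topD_left {x m : ℝ} (h : x ≤ 0) : topD x m = 0 := by
  have h3 := cl_nonneg (3*m-2)
  unfold topD
  rw [cl_le h, d1_a (by norm_num), max_eq_left (by linarith)]
lemma topT_right {x m : ℝ} (h : 1 ≤ x) : topT x m = 1 := by
  have h3 := cl_nonneg (3*m-2)
  have h4 := cl_le_one (3*m-2)
  unfold topT
  rw [cl_ge h, t1_d (by norm_num), min_eq_left (by linarith), max_eq_right (by linarith)]
  norm_num
lemma topD_right {x m : ℝ} (h : 1 ≤ x) : topD x m = 0 := by
  have h3 := cl_nonneg (3*m-2)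
  unfold topD
  rw [cl_ge h, d1_d (by norm_num), max_eq_left (by linarith)]

lemma top1_left {x m : ℝ} (h : x ≤ 0) : top1 x m = 0 := by
  unfold top1; rw [topT_left h]; norm_num
lemma top2_left {x m : ℝ} (h : x ≤ 0) : top2 x m = 0 := by
  unfold top2; rw [topT_left h, topD_left h]; norm_num
lemma top1_right {x m : ℝ} (h : 1 ≤ x) : top1 x m = 1 := by
  unfold top1; rw [topT_right h]; norm_num
lemma top2_right {x m : ℝ} (h : 1 ≤ x) : top2 x m = 1 := by
  unfold top2; rw [topT_right h, topD_right h]; norm_num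
lemma bot1_left {x m : ℝ} (h : x ≤ 0) : bot1 x m = 0 := by
  unfold bot1; rw [top1_right (by linarith)]; norm_num
lemma bot2_left {x m : ℝ} (h : x ≤ 0) : bot2 x m = 0 := by
  unfold bot2; rw [top2_right (by linarith)]; norm_num
lemma bot1_right {x m : ℝ} (h : 1 ≤ x) : bot1 x m = 1 := by
  unfold bot1; rw [top1_left (by linarith)]; norm_num
lemma bot2_right {x m : ℝ} (h : 1 ≤ x) : bot2 x m = 1 := by
  unfold bot2; rw [top2_left (by linarith)]; norm_num

lemma topT_lo {x m : ℝ} (h : m ≤ 2/3) : topT x m = t1 (cl x) := by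
  apply topT_half; rw [cl_le (by linarith)]; norm_num
lemma topD_lo {x m : ℝ} (h : m ≤ 2/3) : topD x m = d1 (cl x) := by
  have := (d1_rng (cl x)).1
  unfold topD; rw [cl_le (by linarith : 3*m-2 ≤ 0), max_eq_right (by linarith)]; ring
lemma topT_hi {x m : ℝ} (h : 1 ≤ m) : topT x m = cl x := by
  unfold topT
  rw [cl_ge (by linarith : 1 ≤ 3*m-2)]
  norm_num
lemma topD_hi {x m : ℝ} (h : 1 ≤ m) : topD x m = 0 := by
  have := (d1_rng (cl x)).2
  unfold topD; rw [cl_ge (by linarith : 1 ≤ 3*m-2), max_eq_left (by linarith)]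

lemma top1_lo {x m : ℝ} (h : m ≤ 2/3) : top1 x m = top1 x 0 := by
  unfold top1; rw [topT_lo h, topT_lo (by norm_num)]
lemma top2_lo {x m : ℝ} (h : m ≤ 2/3) : top2 x m = top2 x 0 := by
  unfold top2; rw [topT_lo h, topT_lo (by norm_num), topD_lo h, topD_lo (by norm_num)]
lemma top1_hi {x m : ℝ} (h : 1 ≤ m) : top1 x m = al1 x := by
  unfold top1 al1; rw [topT_hi h]
lemma top2_hi {x m : ℝ} (h : 1 ≤ m) : top2 x m = al2 x := by
  unfold top2 al2; rw [topT_hi h, topD_hi h, sub_zero]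
lemma bot1_hi {x m : ℝ} (h : 1/3 ≤ m) : bot1 x m = bot1 x 1 := by
  unfold bot1; rw [top1_lo (by linarith), top1_lo (m := 1-1) (by norm_num)]
lemma bot2_hi {x m : ℝ} (h : 1/3 ≤ m) : bot2 x m = bot2 x 1 := by
  unfold bot2; rw [top2_lo (by linarith), top2_lo (m := 1-1) (by norm_num)]

lemma cl_symm (x : ℝ) : cl (1 - x) = 1 - cl x := by
  rcases le_total x 0 with h | h
  · rw [cl_le h, cl_ge (by linarith)]; ring
  rcases le_total x 1 with h' | h'
  · rw [cl_mid h h', cl_mid (by linarith) (by linarith)]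
  · rw [cl_ge h', cl_le (by linarith)]; ring

lemma bot1_lo {x m : ℝ} (h : m ≤ 0) : bot1 x m = al2 x := by
  unfold bot1 al2; rw [top1_hi (by linarith)]; unfold al1; rw [cl_symm]
  rcases le_total (cl x) (1/2) with h' | h'
  · rw [max_eq_right (by linarith), min_eq_right (by linarith)]; ring
  · rw [max_eq_left (by linarith), min_eq_left (by linarith)]; ring
lemma bot2_lo {x m : ℝ} (h : m ≤ 0) : bot2 x m = al1 x := by
  unfold bot2 al1; rw [top2_hi (by linarith)]; unfold al2; rw [cl_symm]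
  rcases le_total (cl x) (1/2) with h' | h'
  · rw [max_eq_left (by linarith), min_eq_left (by linarith)]; ring
  · rw [max_eq_right (by linarith), min_eq_right (by linarith)]; ring

lemma top1_zero (x : ℝ) : top1 x 0 = max 0 (2*t1 (cl x) - 1) := by
  unfold top1; rw [topT_lo (by norm_num)]
lemma top2_zero (x : ℝ) : top2 x 0 = min 1 (2*t1 (cl x)) - d1 (cl x) := by
  unfold top2; rw [topT_lo (by norm_num), topD_lo (by norm_num)]

/-- the values of the two arcs -/
lemma al1_a {x : ℝ} (h : x ≤ 1/2) : al1 x = 0 := by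
  unfold al1
  rcases le_total x 0 with h0 | h0
  · rw [cl_le h0]; norm_num
  · rw [cl_mid h0 (by linarith), max_eq_left (by linarith)]
lemma al1_b {x : ℝ} (h : 1/2 ≤ x) (h1 : x ≤ 1) : al1 x = 2*x-1 := by
  unfold al1
  rw [cl_mid (by linarith) h1, max_eq_right (by linarith)]
lemma al1_c {x : ℝ} (h : 1 ≤ x) : al1 x = 1 := by
  unfold al1
  rw [cl_ge h]; norm_num
lemma al2_a {x : ℝ} (h : x ≤ 0) : al2 x = 0 := by
  unfold al2
  rw [cl_le h]; norm_num
lemma al2_b {x : ℝ} (h : 0 ≤ x) (h1 : x ≤ 1/2) : al2 x = 2*x := by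
  unfold al2
  rw [cl_mid h (by linarith), min_eq_right (by linarith)]
lemma al2_c {x : ℝ} (h : 1/2 ≤ x) : al2 x = 1 := by
  unfold al2
  rcases le_total x 1 with h0 | h0
  · rw [cl_mid (by linarith) h0, min_eq_left (by linarith)]
  · rw [cl_ge h0]; norm_num

lemma al1_rng (x : ℝ) : 0 ≤ al1 x ∧ al1 x ≤ 1 := by
  have := cl_le_one x
  unfold al1
  exact ⟨le_max_left _ _, max_le (by norm_num) (by linarith)⟩
lemma al2_rng (x : ℝ) : 0 ≤ al2 x ∧ al2 x ≤ 1 := by
  have := cl_nonneg x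
  unfold al2
  exact ⟨le_min (by norm_num) (by linarith), min_le_left _ _⟩

/-- identity on the upper side of the middle band -/
lemma idTop1 (x : ℝ) : (al1 (3*x) + al1 (3*x-2))/2 = top1 x 0 := by
  rw [top1_zero]
  rcases le_total x 0 with h | h
  · rw [cl_le h, t1_a le_rfl (by norm_num), al1_a (by linarith), al1_a (by linarith)]; norm_num
  rcases le_total x (1/6) with h1 | h1
  · rw [cl_mid h (by linarith), t1_a h h1, al1_a (by linarith), al1_a (by linarith), max_eq_left (by linarith)]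
    norm_num
  rcases le_total x (1/3) with h2 | h2
  · rw [cl_mid h (by linarith), t1_b h1 h2, al1_b (by linarith) (by linarith), al1_a (by linarith),
      max_eq_right (by linarith)]
    ring
  rcases le_total x (5/6) with h3 | h3
  · rw [cl_mid h (by linarith), t1_c h2 h3, al1_c (by linarith), al1_a (by linarith)]
    norm_num
  rcases le_total x 1 with h4 | h4
  · rw [cl_mid h h4, t1_d h3, al1_c (by linarith), al1_b (by linarith) (by linarith),
      max_eq_right (by linarith)]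
    ring
  · rw [cl_ge h4, t1_d (by norm_num), al1_c (by linarith), al1_c (by linarith)]
    norm_num

lemma idTop2 (x : ℝ) : al2 (3*x) + al2 (3*x-2) - cl (3*x-1) = top2 x 0 := by
  rw [top2_zero]
  rcases le_total x 0 with h | h
  · rw [cl_le h, t1_a le_rfl (by norm_num), d1_a (by norm_num), al2_a (by linarith), al2_a (by linarith),
      cl_le (by linarith)]; norm_num
  rcases le_total x (1/6) with h1 | h1
  · rw [cl_mid h (by linarith), t1_a h h1, d1_a (by linarith), al2_b (by linarith) (by linarith),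
      al2_a (by linarith), cl_le (by linarith), min_eq_right (by linarith)]
    ring
  rcases le_total x (1/3) with h2 | h2
  · rw [cl_mid h (by linarith), t1_b h1 h2, d1_a h2, al2_c (by linarith), al2_a (by linarith),
      cl_le (by linarith), min_eq_left (by linarith)]
    ring
  rcases le_total x (2/3) with h3 | h3
  · rw [cl_mid h (by linarith), t1_c h2 (by linarith), d1_b h2 h3, al2_c (by linarith), al2_a (by linarith),
      cl_mid (by linarith) (by linarith), min_eq_left (by linarith)]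
    ring
  rcases le_total x (5/6) with h4 | h4
  · rw [cl_mid h (by linarith), t1_c h2 h4, d1_c h3 h4, al2_c (by linarith),
      al2_b (by linarith) (by linarith), cl_ge (by linarith), min_eq_left (by linarith)]
    ring
  rcases le_total x 1 with h5 | h5
  · rw [cl_mid h h5, t1_d h4, d1_d h4, al2_c (by linarith), al2_c (by linarith),
      cl_ge (by linarith), min_eq_left (by linarith)]
    ring
  · rw [cl_ge h5, t1_d (by norm_num), d1_d (by norm_num), al2_c (by linarith), al2_c (by linarith),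
      cl_ge (by linarith)]
    norm_num

lemma al1_symm (x : ℝ) : al1 (1 - x) = 1 - al2 x := by
  have := bot1_lo (x := x) (m := 0) le_rfl
  unfold bot1 at this; rw [top1_hi (by norm_num)] at this; linarith
lemma al2_symm (x : ℝ) : al2 (1 - x) = 1 - al1 x := by
  have := bot2_lo (x := x) (m := 0) le_rfl
  unfold bot2 at this; rw [top2_hi (by norm_num)] at this; linarith

lemma idBot1 (x : ℝ) : (al2 (3*x) + al2 (3*x-2))/2 = bot1 x 1 := by
  unfold bot1
  rw [show (1:ℝ) - 1 = 0 by norm_num, ← idTop1, show 3*(1-x) = 1 - (3*x-2) by ring,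
    show (1 - (3*x-2) - 2 : ℝ) = 1 - 3*x by ring, al1_symm, al1_symm]
  ring

lemma idBot2 (x : ℝ) : al1 (3*x) + al1 (3*x-2) - cl (3*x-1) = bot2 x 1 := by
  unfold bot2
  rw [show (1:ℝ) - 1 = 0 by norm_num, ← idTop2, show 3*(1-x) = 1 - (3*x-2) by ring,
    show (1 - (3*x-2) - 2 : ℝ) = 1 - 3*x by ring, al2_symm, al2_symm,
    show (1 - (3*x-2) - 1 : ℝ) = 1 - (3*x-1) by ring, cl_symm]
  ring

/-- the operator -/
def T (Θ : ℝ × ℝ → ℝ × ℝ) (p : ℝ × ℝ) : ℝ × ℝ :=
  (((Θ (3*p.1, 2-3*p.2)).2 + (Θ (3*p.1-2, 2-3*p.2)).2)/2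
      + (top1 p.1 p.2 - top1 p.1 0) + (bot1 p.1 p.2 - bot1 p.1 1),
   (Θ (3*p.1, 2-3*p.2)).1 + (Θ (3*p.1-2, 2-3*p.2)).1 - cl (3*p.1-1)
      + (top2 p.1 p.2 - top2 p.1 0) + (bot2 p.1 p.2 - bot2 p.1 1))

structure BC (Θ : ℝ × ℝ → ℝ × ℝ) : Prop where
  cont : Continuous Θ
  left : ∀ x m, x ≤ 0 → Θ (x, m) = (0, 0)
  right : ∀ x m, 1 ≤ x → Θ (x, m) = (1, 1)
  bot : ∀ x m, m ≤ 0 → Θ (x, m) = (al2 x, al1 x)
  top : ∀ x m, 1 ≤ m → Θ (x, m) = (al1 x, al2 x)
  r1 : ∀ p, 0 ≤ (Θ p).1 ∧ (Θ p).1 ≤ 1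
  r2 : ∀ p, 0 ≤ (Θ p).2 ∧ (Θ p).2 ≤ 1

lemma T_low {Θ : ℝ × ℝ → ℝ × ℝ} (h : BC Θ) {x m : ℝ} (hm : m ≤ 1/3) :
    T Θ (x, m) = (bot1 x m, bot2 x m) := by
  unfold T
  simp only
  rw [h.top _ _ (by linarith), h.top _ _ (by linarith), top1_lo (by linarith), top2_lo (by linarith)]
  simp only
  rw [idBot1, idBot2]
  ext <;> simp

lemma T_high {Θ : ℝ × ℝ → ℝ × ℝ} (h : BC Θ) {x m : ℝ} (hm : 2/3 ≤ m) :
    T Θ (x, m) = (top1 x m, top2 x m) := by
  unfold T
  simp only
  rw [h.bot _ _ (by linarith), h.bot _ _ (by linarith), bot1_hi (by linarith), bot2_hi (by linarith)]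
  simp only
  rw [idTop1, idTop2]
  ext <;> simp

lemma T_left {Θ : ℝ × ℝ → ℝ × ℝ} (h : BC Θ) {x m : ℝ} (hm : 1/3 ≤ m) (hm' : m ≤ 2/3) (hx : x ≤ 1/3) :
    T Θ (x, m) = ((Θ (3*x, 2-3*m)).2/2, (Θ (3*x, 2-3*m)).1) := by
  unfold T
  simp only
  rw [h.left (3*x-2) _ (by linarith), top1_lo hm', top2_lo hm', bot1_hi hm, bot2_hi hm, cl_le (by linarith)]
  ext <;> simp

lemma T_gap {Θ : ℝ × ℝ → ℝ × ℝ} (h : BC Θ) {x m : ℝ} (hm : 1/3 ≤ m) (hm' : m ≤ 2/3) (hx : 1/3 ≤ x)
    (hx' : x ≤ 2/3) : T Θ (x, m) = (1/2, 2-3*x) := by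
  unfold T
  simp only
  rw [h.left (3*x-2) _ (by linarith), h.right (3*x) _ (by linarith), top1_lo hm', top2_lo hm', bot1_hi hm,
    bot2_hi hm, cl_mid (by linarith) (by linarith)]
  ext
  · simp
  · simp; ring

lemma T_right {Θ : ℝ × ℝ → ℝ × ℝ} (h : BC Θ) {x m : ℝ} (hm : 1/3 ≤ m) (hm' : m ≤ 2/3) (hx : 2/3 ≤ x) :
    T Θ (x, m) = ((1 + (Θ (3*x-2, 2-3*m)).2)/2, (Θ (3*x-2, 2-3*m)).1) := by
  unfold T
  simp only
  rw [h.right (3*x) _ (by linarith), top1_lo hm', top2_lo hm', bot1_hi hm, bot2_hi hm, cl_ge (by linarith)]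
  ext <;> simp

lemma T_BC {Θ : ℝ × ℝ → ℝ × ℝ} (h : BC Θ) : BC (T Θ) := by
  have hc := h.cont
  refine ⟨?_, ?_, ?_, ?_, ?_, ?_, ?_⟩
  · unfold T
    have h1 : Continuous fun p : ℝ × ℝ => top1 p.1 0 :=
      top1_cont.comp (by fun_prop : Continuous fun p : ℝ × ℝ => ((p.1, 0) : ℝ × ℝ))
    have h2 : Continuous fun p : ℝ × ℝ => top2 p.1 0 :=
      top2_cont.comp (by fun_prop : Continuous fun p : ℝ × ℝ => ((p.1, 0) : ℝ × ℝ))
    have h3 : Continuous fun p : ℝ × ℝ => bot1 p.1 1 :=
      bot1_cont.comp (by fun_prop : Continuous fun p : ℝ × ℝ => ((p.1, 1) : ℝ × ℝ))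
    have h4 : Continuous fun p : ℝ × ℝ => bot2 p.1 1 :=
      bot2_cont.comp (by fun_prop : Continuous fun p : ℝ × ℝ => ((p.1, 1) : ℝ × ℝ))
    have h5 : Continuous fun p : ℝ × ℝ => Θ (3*p.1, 2-3*p.2) := hc.comp (by fun_prop)
    have h6 : Continuous fun p : ℝ × ℝ => Θ (3*p.1-2, 2-3*p.2) := hc.comp (by fun_prop)
    have h7 := top1_cont
    have h8 := top2_cont
    have h9 := bot1_cont
    have h10 := bot2_cont
    exact ((((h5.snd.add h6.snd).div_const 2).add (h7.sub h1)).add (h9.sub h3)).prodMk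
      ((((h5.fst.add h6.fst).sub (cl_cont.comp (by fun_prop : Continuous fun p : ℝ × ℝ => 3*p.1-1))).add
        (h8.sub h2)).add (h10.sub h4))
  · intro x m hx
    rcases le_total m (1/3) with hm | hm
    · rw [T_low h hm, bot1_left hx, bot2_left hx]
    rcases le_total m (2/3) with hm' | hm'
    · rw [T_left h hm hm' (by linarith), h.left _ _ (by linarith)]; simp
    · rw [T_high h hm', top1_left hx, top2_left hx]
  · intro x m hx
    rcases le_total m (1/3) with hm | hm
    · rw [T_low h hm, bot1_right hx, bot2_right hx]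
    rcases le_total m (2/3) with hm' | hm'
    · rw [T_right h hm hm' (by linarith), h.right _ _ (by linarith)]; norm_num
    · rw [T_high h hm', top1_right hx, top2_right hx]
  · intro x m hm
    rw [T_low h (by linarith), bot1_lo hm, bot2_lo hm]
  · intro x m hm
    rw [T_high h (by linarith), top1_hi hm, top2_hi hm]
  · rintro ⟨x, m⟩
    rcases le_total m (1/3) with hm | hm
    · rw [T_low h hm]; exact bot1_rng x m
    rcases le_total m (2/3) with hm' | hm'
    · rcases le_total x (1/3) with hx | hx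
      · rw [T_left h hm hm' hx]
        have := h.r2 (3*x, 2-3*m)
        simp only; constructor <;> linarith
      rcases le_total x (2/3) with hx' | hx'
      · rw [T_gap h hm hm' hx hx']; norm_num
      · rw [T_right h hm hm' hx']
        have := h.r2 (3*x-2, 2-3*m)
        simp only; constructor <;> linarith
    · rw [T_high h hm']; exact top1_rng x m
  · rintro ⟨x, m⟩
    rcases le_total m (1/3) with hm | hm
    · rw [T_low h hm]; exact bot2_rng x m
    rcases le_total m (2/3) with hm' | hm'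
    · rcases le_total x (1/3) with hx | hx
      · rw [T_left h hm hm' hx]
        have := h.r1 (3*x, 2-3*m)
        simp only; constructor <;> linarith
      rcases le_total x (2/3) with hx' | hx'
      · rw [T_gap h hm hm' hx hx']; simp only; constructor <;> linarith
      · rw [T_right h hm hm' hx']
        have := h.r1 (3*x-2, 2-3*m)
        simp only; constructor <;> linarith
    · rw [T_high h hm']; exact top2_rng x m

/-- starting function -/
def Th0 (p : ℝ × ℝ) : ℝ × ℝ :=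
  (al2 p.1 + cl p.2 * (al1 p.1 - al2 p.1), al1 p.1 + cl p.2 * (al2 p.1 - al1 p.1))

lemma Th0_BC : BC Th0 := by
  refine ⟨?_, ?_, ?_, ?_, ?_, ?_, ?_⟩
  · unfold Th0; fun_prop
  · intro x m hx
    unfold Th0; simp only
    rw [al2_a hx, al1_a (by linarith)]; simp
  · intro x m hx
    unfold Th0; simp only
    rw [al2_c (by linarith), al1_c hx]; simp
  · intro x m hm
    unfold Th0; simp only
    rw [cl_le hm]; simp
  · intro x m hm
    unfold Th0; simp only
    rw [cl_ge hm]; ext <;> simp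
  · rintro ⟨x, m⟩
    have h1 := al1_rng x
    have h2 := al2_rng x
    have h3 := cl_nonneg m
    have h4 := cl_le_one m
    unfold Th0; simp only
    constructor <;> nlinarith
  · rintro ⟨x, m⟩
    have h1 := al1_rng x
    have h2 := al2_rng x
    have h3 := cl_nonneg m
    have h4 := cl_le_one m
    unfold Th0; simp only
    constructor <;> nlinarith

lemma T_diff {Θ Ξ : ℝ × ℝ → ℝ × ℝ} (h : BC Θ) (h' : BC Ξ) {A B : ℝ}
    (hA : ∀ p, |(Θ p).1 - (Ξ p).1| ≤ A) (hB : ∀ p, |(Θ p).2 - (Ξ p).2| ≤ B) (p : ℝ × ℝ) :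
    |(T Θ p).1 - (T Ξ p).1| ≤ B/2 ∧ |(T Θ p).2 - (T Ξ p).2| ≤ A := by
  obtain ⟨x, m⟩ := p
  have hA0 : 0 ≤ A := le_trans (abs_nonneg _) (hA (0,0))
  have hB0 : 0 ≤ B := le_trans (abs_nonneg _) (hB (0,0))
  unfold T
  simp only
  rcases le_total x (1/2) with hx | hx
  · rw [h.left (3*x-2) _ (by linarith), h'.left (3*x-2) _ (by linarith)]
    simp only
    have h1 := hA (3*x, 2-3*m)
    have h2 := hB (3*x, 2-3*m)
    constructor
    · rw [show ∀ a b c d : ℝ, (a + 0)/2 + c + d - ((b + 0)/2 + c + d) = (a - b)/2 by intros; ring,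
        abs_div, abs_two]
      linarith
    · rw [show ∀ a b c d e : ℝ, a + 0 - e + c + d - (b + 0 - e + c + d) = (a - b) by intros; ring]
      exact h1
  · rw [h.right (3*x) _ (by linarith), h'.right (3*x) _ (by linarith)]
    simp only
    have h1 := hA (3*x-2, 2-3*m)
    have h2 := hB (3*x-2, 2-3*m)
    constructor
    · rw [show ∀ a b c d : ℝ, (1 + a)/2 + c + d - ((1 + b)/2 + c + d) = (a - b)/2 by intros; ring,
        abs_div, abs_two]
      linarith
    · rw [show ∀ a b c d e : ℝ, 1 + a - e + c + d - (1 + b - e + c + d) = (a - b) by intros; ring]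
      exact h1

def Thn (n : ℕ) : ℝ × ℝ → ℝ × ℝ := T^[n] Th0

lemma Thn_succ (n : ℕ) : Thn (n+1) = T (Thn n) := by
  unfold Thn; rw [Function.iterate_succ_apply']

lemma Thn_BC (n : ℕ) : BC (Thn n) := by
  induction n with
  | zero => exact Th0_BC
  | succ n ih => rw [Thn_succ]; exact T_BC ih

lemma Thn_diff (n : ℕ) : (∀ p, |(Thn (n+1) p).1 - (Thn n p).1| ≤ (3/4)^n) ∧
    (∀ p, |(Thn (n+1) p).2 - (Thn n p).2| ≤ (4/3)*(3/4)^n) := by
  induction n with
  | zero =>
    have h0 := Thn_BC 0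
    have h1 := Thn_BC 1
    constructor
    · intro p
      have := h0.r1 p
      have := h1.r1 p
      rw [abs_le]; norm_num; constructor <;> linarith
    · intro p
      have := h0.r2 p
      have := h1.r2 p
      rw [abs_le]; norm_num; constructor <;> linarith
  | succ n ih =>
    have key := T_diff (Thn_BC (n+1)) (Thn_BC n) ih.1 ih.2
    rw [← Thn_succ, ← Thn_succ] at key
    have hpos : (0:ℝ) < (3/4)^n := by positivity
    constructor
    · intro p
      refine (key p).1.trans ?_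
      rw [pow_succ]; nlinarith
    · intro p
      refine (key p).2.trans ?_
      rw [pow_succ]; nlinarith

lemma Thn_dist (p : ℝ × ℝ) (n : ℕ) : dist (Thn n p) (Thn (n+1) p) ≤ (4/3)*(3/4)^n := by
  have h := Thn_diff n
  have hpos : (0:ℝ) < (3/4)^n := by positivity
  rw [Prod.dist_eq, Real.dist_eq, Real.dist_eq]
  refine max_le ?_ ?_
  · rw [abs_sub_comm]; exact (h.1 p).trans (by linarith)
  · rw [abs_sub_comm]; exact h.2 p

lemma Thn_lim (p : ℝ × ℝ) : ∃ w, Filter.Tendsto (fun n => Thn n p) Filter.atTop (nhds w) :=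
  cauchySeq_tendsto_of_complete (cauchySeq_of_le_geometric (3/4) (4/3) (by norm_num) (Thn_dist p))

def Th (p : ℝ × ℝ) : ℝ × ℝ := (Thn_lim p).choose

lemma Th_tendsto (p : ℝ × ℝ) : Filter.Tendsto (fun n => Thn n p) Filter.atTop (nhds (Th p)) :=
  (Thn_lim p).choose_spec

lemma Th_dist (p : ℝ × ℝ) (n : ℕ) : dist (Thn n p) (Th p) ≤ (4/3)*(3/4)^n/(1-3/4) :=
  dist_le_of_le_geometric_of_tendsto (3/4) (4/3) (by norm_num) (Thn_dist p) (Th_tendsto p) n

lemma Th_cont : Continuous Th := by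
  have hu : TendstoUniformly Thn Th Filter.atTop := by
    rw [Metric.tendstoUniformly_iff]
    intro ε hε
    have : Filter.Tendsto (fun n : ℕ => (4/3)*(3/4:ℝ)^n/(1-3/4)) Filter.atTop (nhds 0) := by
      have h := tendsto_pow_atTop_nhds_zero_of_lt_one (r := (3/4:ℝ)) (by norm_num) (by norm_num)
      have h2 := (h.const_mul (4/3)).div_const (1-3/4)
      simpa using h2
    filter_upwards [this.eventually (gt_mem_nhds hε)] with n hn p
    rw [dist_comm]
    exact lt_of_le_of_lt (Th_dist p n) hn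
  exact hu.continuous (Filter.Frequently.of_forall fun n => (Thn_BC n).cont)

lemma Th_BC : BC Th := by
  refine ⟨Th_cont, ?_, ?_, ?_, ?_, ?_, ?_⟩
  · intro x m hx
    refine tendsto_nhds_unique (Th_tendsto (x,m)) ?_
    simp only [(Thn_BC _).left x m hx]; exact tendsto_const_nhds
  · intro x m hx
    refine tendsto_nhds_unique (Th_tendsto (x,m)) ?_
    simp only [(Thn_BC _).right x m hx]; exact tendsto_const_nhds
  · intro x m hx
    refine tendsto_nhds_unique (Th_tendsto (x,m)) ?_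
    simp only [(Thn_BC _).bot x m hx]; exact tendsto_const_nhds
  · intro x m hx
    refine tendsto_nhds_unique (Th_tendsto (x,m)) ?_
    simp only [(Thn_BC _).top x m hx]; exact tendsto_const_nhds
  · intro p
    have h := (continuous_fst.tendsto _).comp (Th_tendsto p)
    exact ⟨ge_of_tendsto' h fun n => ((Thn_BC n).r1 p).1, le_of_tendsto' h fun n => ((Thn_BC n).r1 p).2⟩
  · intro p
    have h := (continuous_snd.tendsto _).comp (Th_tendsto p)
    exact ⟨ge_of_tendsto' h fun n => ((Thn_BC n).r2 p).1, le_of_tendsto' h fun n => ((Thn_BC n).r2 p).2⟩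

lemma Th_fix : T Th = Th := by
  funext p
  have h1 : Filter.Tendsto (fun n => Thn (n+1) p) Filter.atTop (nhds (Th p)) :=
    (Th_tendsto p).comp (Filter.tendsto_add_atTop_nat 1)
  have h2 : Filter.Tendsto (fun n => Thn (n+1) p) Filter.atTop (nhds (T Th p)) := by
    simp only [Thn_succ]
    unfold T
    have ha := Th_tendsto (3*p.1, 2-3*p.2)
    have hb := Th_tendsto (3*p.1-2, 2-3*p.2)
    have ha1 := (continuous_fst.tendsto _).comp ha
    have ha2 := (continuous_snd.tendsto _).comp ha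
    have hb1 := (continuous_fst.tendsto _).comp hb
    have hb2 := (continuous_snd.tendsto _).comp hb
    exact ((((ha2.add hb2).div_const 2).add_const _).add_const _).prodMk_nhds
      ((((ha1.add hb1).sub_const _).add_const _).add_const _)
  exact tendsto_nhds_unique h2 h1

end

end Pool.Agent.Helper93.Be
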