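import Pool.Agent.Helper93.BeA

set_option autoImplicit false

namespace Pool.Agent.Helper93.Be

open Filter Topology

noncomputable section

def gen (p : ℝ × ℝ) : Prop :=
  ∀ a b c : ℚ, (a:ℝ) * p.1 + b * p.2 + c = 0 → a = 0 ∧ b = 0 ∧ c = 0

def RA (g : ℝ × ℝ → ℝ) (p : ℝ × ℝ) : Prop :=
  ∃ a b c : ℚ, ∀ᶠ q in 𝓝 p, g q = (a:ℝ)*q.1 + b*q.2 + c

def LA (Θ : ℝ × ℝ → ℝ × ℝ) (p : ℝ × ℝ) : Prop :=
  ∃ (a b c : ℚ) (A B : ℝ × ℝ), ∀ᶠ q in 𝓝 p, Θ q = A + ((a:ℝ)*q.1 + b*q.2 + c) • B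

lemma gen.aff {p : ℝ × ℝ} (h : gen p) {α₁ β₁ α₂ β₂ : ℚ} (h1 : α₁ ≠ 0) (h2 : α₂ ≠ 0) :
    gen ((α₁:ℝ)*p.1 + β₁, (α₂:ℝ)*p.2 + β₂) := by
  intro a b c hz
  simp only at hz
  have := h (a*α₁) (b*α₂) (a*β₁ + b*β₂ + c) (by push_cast; linarith)
  obtain ⟨ha, hb, hc⟩ := this
  have ha' : a = 0 := by rcases mul_eq_zero.1 ha with h | h; exacts [h, absurd h h1]
  have hb' : b = 0 := by rcases mul_eq_zero.1 hb with h | h; exacts [h, absurd h h2]
  subst ha' hb'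
  refine ⟨rfl, rfl, by simpa using hc⟩

lemma RA.const (p : ℝ × ℝ) (c : ℚ) : RA (fun _ => (c:ℝ)) p := ⟨0, 0, c, by simp⟩
lemma RA.fst (p : ℝ × ℝ) : RA (fun q => q.1) p := ⟨1, 0, 0, by simp⟩
lemma RA.snd (p : ℝ × ℝ) : RA (fun q => q.2) p := ⟨0, 1, 0, by simp⟩
lemma RA.congr {f g : ℝ × ℝ → ℝ} {p : ℝ × ℝ} (h : RA f p) (e : ∀ q, g q = f q) : RA g p := by
  obtain ⟨a, b, c, h⟩ := h
  exact ⟨a, b, c, h.mono fun q hq => by rw [e, hq]⟩
lemma RA.add {f g : ℝ × ℝ → ℝ} {p : ℝ × ℝ} (hf : RA f p) (hg : RA g p) : RA (fun q => f q + g q) p := by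
  obtain ⟨a, b, c, h⟩ := hf
  obtain ⟨a', b', c', h'⟩ := hg
  refine ⟨a+a', b+b', c+c', ?_⟩
  filter_upwards [h, h'] with q hq hq'
  rw [hq, hq']; push_cast; ring
lemma RA.smul {f : ℝ × ℝ → ℝ} {p : ℝ × ℝ} (r : ℚ) (hf : RA f p) : RA (fun q => (r:ℝ) * f q) p := by
  obtain ⟨a, b, c, h⟩ := hf
  refine ⟨r*a, r*b, r*c, ?_⟩
  filter_upwards [h] with q hq
  rw [hq]; push_cast; ring
lemma RA.max {f g : ℝ × ℝ → ℝ} {p : ℝ × ℝ} (hp : gen p) (hf : RA f p) (hg : RA g p) :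
    RA (fun q => max (f q) (g q)) p := by
  obtain ⟨a, b, c, h⟩ := hf
  obtain ⟨a', b', c', h'⟩ := hg
  have c1 : Continuous fun q : ℝ × ℝ => (a:ℝ)*q.1 + b*q.2 + c := by fun_prop
  have c2 : Continuous fun q : ℝ × ℝ => (a':ℝ)*q.1 + b'*q.2 + c' := by fun_prop
  rcases lt_trichotomy ((a:ℝ)*p.1 + b*p.2 + c) ((a':ℝ)*p.1 + b'*p.2 + c') with hlt | heq | hgt
  · refine ⟨a', b', c', ?_⟩
    filter_upwards [h, h', c1.continuousAt.eventually_lt c2.continuousAt hlt] with q h1 h2 h3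
    rw [h1, h2, max_eq_right h3.le]
  · obtain ⟨e1, e2, e3⟩ := hp (a-a') (b-b') (c-c') (by push_cast; linarith)
    refine ⟨a, b, c, ?_⟩
    filter_upwards [h, h'] with q h1 h2
    rw [h1, h2, sub_eq_zero.1 e1, sub_eq_zero.1 e2, sub_eq_zero.1 e3, max_self]
  · refine ⟨a, b, c, ?_⟩
    filter_upwards [h, h', c2.continuousAt.eventually_lt c1.continuousAt hgt] with q h1 h2 h3
    rw [h1, h2, max_eq_left h3.le]
lemma RA.neg {f : ℝ × ℝ → ℝ} {p : ℝ × ℝ} (hf : RA f p) : RA (fun q => - f q) p :=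
  (hf.smul (-1)).congr fun q => by push_cast; ring
lemma RA.sub {f g : ℝ × ℝ → ℝ} {p : ℝ × ℝ} (hf : RA f p) (hg : RA g p) : RA (fun q => f q - g q) p :=
  (hf.add hg.neg).congr fun q => by ring
lemma RA.min {f g : ℝ × ℝ → ℝ} {p : ℝ × ℝ} (hp : gen p) (hf : RA f p) (hg : RA g p) :
    RA (fun q => min (f q) (g q)) p :=
  (RA.max hp hf.neg hg.neg).neg.congr fun q => by
    rw [max_neg_neg, neg_neg]
lemma RA.cl {f : ℝ × ℝ → ℝ} {p : ℝ × ℝ} (hp : gen p) (hf : RA f p) : RA (fun q => cl (f q)) p :=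
  (RA.max hp (RA.const p 0) (RA.min hp (RA.const p 1) hf)).congr fun q => by
    unfold Be.cl; push_cast; rfl

lemma RA.t1 {f : ℝ × ℝ → ℝ} {p : ℝ × ℝ} (hp : gen p) (hf : RA f p) : RA (fun q => t1 (f q)) p := by
  refine (RA.max hp (RA.min hp (hf.smul 3) (RA.min hp ((hf.smul (3/2)).add (RA.const p (1/4)))
    (RA.const p (3/4)))) ((hf.smul (3/2)).sub (RA.const p (1/2)))).congr fun q => ?_
  unfold Be.t1; push_cast; ring_nf
lemma RA.d1 {f : ℝ × ℝ → ℝ} {p : ℝ × ℝ} (hp : gen p) (hf : RA f p) : RA (fun q => d1 (f q)) p := by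
  refine (RA.max hp (RA.const p 0) (RA.min hp ((hf.smul 3).sub (RA.const p 1))
    ((RA.const p 5).sub (hf.smul 6)))).congr fun q => ?_
  unfold Be.d1; push_cast; ring_nf

lemma RA.topT {p : ℝ × ℝ} (hp : gen p) : RA (fun q => topT q.1 q.2) p := by
  have hX := RA.cl hp (RA.fst p)
  have ht := RA.cl hp (((RA.snd p).smul 3).sub (RA.const p 2))
  have hu := ((RA.const p 1).sub ht).smul 2
  refine (RA.max hp (hX.sub hu) (RA.min hp (RA.t1 hp hX) (hX.add hu))).congr fun q => ?_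
  unfold Be.topT; push_cast; ring_nf

lemma RA.topD {p : ℝ × ℝ} (hp : gen p) : RA (fun q => topD q.1 q.2) p := by
  have hX := RA.cl hp (RA.fst p)
  have ht := RA.cl hp (((RA.snd p).smul 3).sub (RA.const p 2))
  refine (RA.max hp (RA.const p 0) ((RA.d1 hp hX).sub (ht.smul 2))).congr fun q => ?_
  unfold Be.topD; push_cast; ring_nf

/-- if `t` and `d` are locally rational affine, `d ≥ 0`, and `d > 0` forces `t` to a constant value,
then the path of (t,d) is locally rank one. -/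
lemma rank_aux {p : ℝ × ℝ} (hp : gen p) {t d : ℝ × ℝ → ℝ} (ht : RA t p) (hd : RA d p)
    (hd0 : ∀ q, 0 ≤ d q) (t0 : ℝ) (hc : ∀ᶠ q in 𝓝 p, 0 < d q → t q = t0) :
    (∃ a b c : ℚ, ∀ᶠ q in 𝓝 p, t q = t0 ∧ d q = (a:ℝ)*q.1 + b*q.2 + c) ∨
    (∃ a b c : ℚ, (∀ᶠ q in 𝓝 p, t q = (a:ℝ)*q.1 + b*q.2 + c) ∧ ∀ᶠ q in 𝓝 p, d q = 0) := by
  obtain ⟨a, b, c, hd⟩ := hd
  have c1 : Continuous fun q : ℝ × ℝ => (a:ℝ)*q.1 + b*q.2 + c := by fun_prop
  have hpd := hd.self_of_nhds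
  rcases (hd0 p).lt_or_eq with h | h
  · left
    refine ⟨a, b, c, ?_⟩
    have hpos : ∀ᶠ q in 𝓝 p, 0 < (a:ℝ)*q.1 + b*q.2 + c :=
      c1.continuousAt.eventually (lt_mem_nhds (by rw [hpd] at h; exact h))
    filter_upwards [hd, hc, hpos] with q h1 h2 h3
    exact ⟨h2 (by rw [h1]; exact h3), h1⟩
  · right
    obtain ⟨e1, e2, e3⟩ := hp a b c (by rw [← hpd, ← h])
    obtain ⟨a', b', c', ht⟩ := ht
    refine ⟨a', b', c', ht, ?_⟩
    filter_upwards [hd] with q h1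
    rw [h1, e1, e2, e3]; simp

lemma LA_top {p : ℝ × ℝ} (hp : gen p) : LA (fun q => (top1 q.1 q.2, top2 q.1 q.2)) p := by
  rcases rank_aux hp (RA.topT hp) (RA.topD hp) (fun q => topD_nonneg _ _) (3/4)
    (Eventually.of_forall fun q h => topT_of_topD h) with ⟨a, b, c, h⟩ | ⟨a, b, c, h, h'⟩
  · refine ⟨a, b, c, (1/2, 1), (0, -1), ?_⟩
    filter_upwards [h] with q ⟨h1, h2⟩
    unfold top1 top2
    rw [h1, h2]
    ext
    · simp; norm_num
    · simp; rw [min_eq_left (by norm_num)]; ring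
  · have c1 : Continuous fun q : ℝ × ℝ => (a:ℝ)*q.1 + b*q.2 + c := by fun_prop
    rcases lt_trichotomy ((a:ℝ)*p.1 + b*p.2 + c) (1/2) with hlt | heq | hgt
    · refine ⟨a, b, c, (0, 0), (0, 2), ?_⟩
      filter_upwards [h, h', c1.continuousAt.eventually (gt_mem_nhds hlt)] with q h1 h2 h3
      unfold top1 top2
      rw [h1, h2, max_eq_left (by linarith), min_eq_right (by linarith)]
      ext
      · simp
      · simp; ring
    · obtain ⟨e1, e2, e3⟩ := hp a b (c-1/2) (by push_cast; linarith)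
      refine ⟨0, 0, 0, (0, 1), (0, 0), ?_⟩
      filter_upwards [h, h'] with q h1 h2
      have e3' : (c:ℝ) = 1/2 := by
        have : c = 1/2 := by linarith
        rw [this]; norm_num
      unfold top1 top2
      rw [h1, h2, e1, e2, e3']
      ext
      · simp
      · simp
    · refine ⟨a, b, c, (-1, 1), (2, 0), ?_⟩
      filter_upwards [h, h', c1.continuousAt.eventually (lt_mem_nhds hgt)] with q h1 h2 h3
      unfold top1 top2
      rw [h1, h2, max_eq_right (by linarith), min_eq_left (by linarith)]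
      ext
      · simp; ring
      · simp

lemma LA.comp_aff {Θ : ℝ × ℝ → ℝ × ℝ} {p : ℝ × ℝ} {α₁ β₁ α₂ β₂ : ℚ}
    (h : LA Θ ((α₁:ℝ)*p.1 + β₁, (α₂:ℝ)*p.2 + β₂)) :
    LA (fun q => Θ ((α₁:ℝ)*q.1 + β₁, (α₂:ℝ)*q.2 + β₂)) p := by
  obtain ⟨a, b, c, A, B, h⟩ := h
  refine ⟨a*α₁, b*α₂, a*β₁+b*β₂+c, A, B, ?_⟩
  have hc : Continuous fun q : ℝ × ℝ => (((α₁:ℝ)*q.1 + β₁, (α₂:ℝ)*q.2 + β₂) : ℝ × ℝ) := by fun_prop
  have := hc.continuousAt.eventually h
  filter_upwards [this] with q hq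
  rw [hq]; push_cast; congr 2; ring

lemma LA.congr {Θ Ξ : ℝ × ℝ → ℝ × ℝ} {p : ℝ × ℝ} (h : LA Θ p) (e : ∀ᶠ q in 𝓝 p, Ξ q = Θ q) : LA Ξ p := by
  obtain ⟨a, b, c, A, B, h⟩ := h
  refine ⟨a, b, c, A, B, ?_⟩
  filter_upwards [h, e] with q h1 h2
  rw [h2, h1]

/-- post composition with an affine map of the plane given by its matrix -/
lemma LA.post {Θ : ℝ × ℝ → ℝ × ℝ} {p : ℝ × ℝ} (h : LA Θ p) (m11 m12 m21 m22 v1 v2 : ℝ) :
    LA (fun q => (m11*(Θ q).1 + m12*(Θ q).2 + v1, m21*(Θ q).1 + m22*(Θ q).2 + v2)) p := by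
  obtain ⟨a, b, c, A, B, h⟩ := h
  refine ⟨a, b, c, (m11*A.1 + m12*A.2 + v1, m21*A.1 + m22*A.2 + v2), (m11*B.1+m12*B.2, m21*B.1+m22*B.2), ?_⟩
  filter_upwards [h] with q hq
  rw [hq]
  ext <;> simp <;> ring

lemma LA_bot {p : ℝ × ℝ} (hp : gen p) : LA (fun q => (bot1 q.1 q.2, bot2 q.1 q.2)) p := by
  have hg := hp.aff (α₁ := -1) (β₁ := 1) (α₂ := -1) (β₂ := 1) (by norm_num) (by norm_num)
  have h := (LA.comp_aff (LA_top hg)).post (-1) 0 0 (-1) 1 1
  refine h.congr (Eventually.of_forall fun q => ?_)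
  unfold bot1 bot2
  simp only
  push_cast
  rw [show (-1 * q.1 + 1 : ℝ) = 1 - q.1 by ring, show (-1 * q.2 + 1 : ℝ) = 1 - q.2 by ring]
  ext <;> simp <;> ring

lemma gen.snd_ne {p : ℝ × ℝ} (h : gen p) (r : ℚ) : p.2 ≠ r := by
  intro e
  have := h 0 1 (-r) (by push_cast; linarith)
  exact one_ne_zero this.2.1
lemma gen.fst_ne {p : ℝ × ℝ} (h : gen p) (r : ℚ) : p.1 ≠ r := by
  intro e
  have := h 1 0 (-r) (by push_cast; linarith)
  exact one_ne_zero this.1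

lemma Th_low {q : ℝ × ℝ} (h : q.2 ≤ 1/3) : Th q = (bot1 q.1 q.2, bot2 q.1 q.2) := by
  rw [← Th_fix]; exact T_low Th_BC h
lemma Th_high {q : ℝ × ℝ} (h : 2/3 ≤ q.2) : Th q = (top1 q.1 q.2, top2 q.1 q.2) := by
  rw [← Th_fix]; exact T_high Th_BC h

lemma LA_Th_aux (n : ℕ) : ∀ p : ℝ × ℝ, gen p → 1/6 < 3^n * |p.2 - 1/2| → LA Th p := by
  have base : ∀ p : ℝ × ℝ, gen p → 1/6 < |p.2 - 1/2| → LA Th p := by
    intro p hp h
    rcases lt_abs.1 h with h | h
    · have h' : 2/3 < p.2 := by linarith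
      refine (LA_top hp).congr ?_
      filter_upwards [continuous_snd.continuousAt.eventually (lt_mem_nhds h')] with q hq
      exact Th_high hq.le
    · have h' : p.2 < 1/3 := by linarith
      refine (LA_bot hp).congr ?_
      filter_upwards [continuous_snd.continuousAt.eventually (gt_mem_nhds h')] with q hq
      exact Th_low hq.le
  induction n with
  | zero => intro p hp h; exact base p hp (by simpa using h)
  | succ n ih =>
    intro p hp h
    by_cases hb : 1/6 < |p.2 - 1/2|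
    · exact base p hp hb
    push Not at hb
    rw [abs_le] at hb
    have h1 : 1/3 < p.2 := lt_of_le_of_ne (by linarith) (by
      have := (hp.snd_ne (1/3)).symm; push_cast at this; exact this)
    have h2 : p.2 < 2/3 := lt_of_le_of_ne (by linarith) (by
      have := (hp.snd_ne (2/3)); push_cast at this; exact this)
    have e1 := continuous_snd.continuousAt.eventually (lt_mem_nhds h1)
    have e2 := continuous_snd.continuousAt.eventually (gt_mem_nhds h2)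
    have hx1 : p.1 ≠ 1/3 := by have := (hp.fst_ne (1/3)); push_cast at this; exact this
    have hx2 : p.1 ≠ 2/3 := by have := (hp.fst_ne (2/3)); push_cast at this; exact this
    rcases lt_or_gt_of_ne hx1 with hx | hx
    · have hg := hp.aff (α₁ := 3) (β₁ := 0) (α₂ := -3) (β₂ := 2) (by norm_num) (by norm_num)
      have h3 := ih _ hg (by
        simp only; push_cast
        rw [show (-3 * p.2 + 2 - 1/2 : ℝ) = -(3*(p.2 - 1/2)) by ring, abs_neg, abs_mul,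
          abs_of_pos (by norm_num : (0:ℝ) < 3), ← mul_assoc]
        rw [pow_succ] at h; exact h)
      refine ((LA.comp_aff h3).post 0 (1/2) 1 0 0 0).congr ?_
      filter_upwards [e1, e2, continuous_fst.continuousAt.eventually (gt_mem_nhds hx)] with q h4 h5 h6
      have := T_left Th_BC (x := q.1) (m := q.2) (le_of_lt h4) (le_of_lt h5) (le_of_lt h6)
      rw [Th_fix] at this
      rw [show q = (q.1, q.2) from rfl, this]
      push_cast
      rw [show (-3*q.2 + 2 : ℝ) = 2 - 3*q.2 by ring, show (3*q.1 + 0 : ℝ) = 3*q.1 by ring]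
      ext <;> simp; ring
    rcases lt_or_gt_of_ne hx2 with hx' | hx'
    · refine ⟨1, 0, 0, (1/2, 2), (0, -3), ?_⟩
      filter_upwards [e1, e2, continuous_fst.continuousAt.eventually (lt_mem_nhds hx),
        continuous_fst.continuousAt.eventually (gt_mem_nhds hx')] with q h4 h5 h6 h7
      have := T_gap Th_BC (x := q.1) (m := q.2) (le_of_lt h4) (le_of_lt h5) (le_of_lt h6) (le_of_lt h7)
      rw [Th_fix] at this
      rw [show q = (q.1, q.2) from rfl, this]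
      ext
      · simp
      · simp; ring
    · have hg := hp.aff (α₁ := 3) (β₁ := -2) (α₂ := -3) (β₂ := 2) (by norm_num) (by norm_num)
      have h3 := ih _ hg (by
        simp only; push_cast
        rw [show (-3 * p.2 + 2 - 1/2 : ℝ) = -(3*(p.2 - 1/2)) by ring, abs_neg, abs_mul,
          abs_of_pos (by norm_num : (0:ℝ) < 3), ← mul_assoc]
        rw [pow_succ] at h; exact h)
      refine ((LA.comp_aff h3).post 0 (1/2) 1 0 (1/2) 0).congr ?_
      filter_upwards [e1, e2, continuous_fst.continuousAt.eventually (lt_mem_nhds hx')] with q h4 h5 h6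
      have := T_right Th_BC (x := q.1) (m := q.2) (le_of_lt h4) (le_of_lt h5) (le_of_lt h6)
      rw [Th_fix] at this
      rw [show q = (q.1, q.2) from rfl, this]
      push_cast
      rw [show (-3*q.2 + 2 : ℝ) = 2 - 3*q.2 by ring, show (3*q.1 + -2 : ℝ) = 3*q.1 - 2 by ring]
      ext <;> simp; ring

lemma LA_Th {p : ℝ × ℝ} (hp : gen p) : LA Th p := by
  have hne : p.2 ≠ 1/2 := by have := (hp.snd_ne (1/2)); push_cast at this; exact this
  have hpos : 0 < |p.2 - 1/2| := abs_pos.2 (sub_ne_zero.2 hne)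
  obtain ⟨n, hn⟩ := pow_unbounded_of_one_lt (1/6/|p.2-1/2|) (by norm_num : (1:ℝ) < 3)
  exact LA_Th_aux n p hp (by rwa [div_lt_iff₀ hpos] at hn)

end

end Pool.Agent.Helper93.Be
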