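import Pool.Agent.Helper93.BeB

set_option autoImplicit false

namespace Pool.Agent.Helper93.Be

open Filter Topology

noncomputable section

def ubT (s c : ℝ) : ℝ := max (s - 2*(1 - cl (3*c-2))) (min (cl (4*s-1)) (s + 2*(1 - cl (3*c-2))))
def ubD (s c : ℝ) : ℝ := max 0 (max (1-4*s) (2*s-1) - 2*cl (3*c-2))
def lbT (s c : ℝ) : ℝ := max (s - 2*(1 - cl (1-3*c))) (min (cl (4*s)) (s + 2*(1 - cl (1-3*c))))
def lbH (s c : ℝ) : ℝ := max 0 (min (4*s-1) (2-2*s) - 2*cl (1-3*c))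

def F1 (s c : ℝ) : ℝ := (Th (2*s, 3*c-1)).1 + (ubT s c - ubT s 0) + (lbT s c - lbT s 1)
def F2 (s c : ℝ) : ℝ := (Th (2*s, 3*c-1)).2 - cl (2*s-1) - (ubD s c - ubD s 0) + (lbH s c - lbH s 1)

lemma F1_cont : Continuous fun p : ℝ × ℝ => F1 p.1 p.2 := by
  have h : Continuous fun p : ℝ × ℝ => Th (2*p.1, 3*p.2-1) := Th_cont.comp (by fun_prop)
  unfold F1 ubT lbT
  have h1 := h.fst
  fun_prop
lemma F2_cont : Continuous fun p : ℝ × ℝ => F2 p.1 p.2 := by
  have h : Continuous fun p : ℝ × ℝ => Th (2*p.1, 3*p.2-1) := Th_cont.comp (by fun_prop)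
  unfold F2 ubD lbH
  have h1 := h.snd
  fun_prop

lemma ubT_lo {s c : ℝ} (hc : c ≤ 2/3) : ubT s c = ubT s 0 := by
  unfold ubT; rw [cl_le (by linarith), cl_le (x := 3*0-2) (by norm_num)]
lemma ubD_lo {s c : ℝ} (hc : c ≤ 2/3) : ubD s c = ubD s 0 := by
  unfold ubD; rw [cl_le (by linarith), cl_le (x := 3*0-2) (by norm_num)]
lemma lbT_hi {s c : ℝ} (hc : 1/3 ≤ c) : lbT s c = lbT s 1 := by
  unfold lbT; rw [cl_le (by linarith), cl_le (x := 1-3*1) (by norm_num)]
lemma lbH_hi {s c : ℝ} (hc : 1/3 ≤ c) : lbH s c = lbH s 1 := by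
  unfold lbH; rw [cl_le (by linarith), cl_le (x := 1-3*1) (by norm_num)]

lemma ubT_half {s c : ℝ} (h0 : 0 ≤ s) (h1 : s ≤ 1) (h : cl (3*c-2) ≤ 1/2) : ubT s c = cl (4*s-1) := by
  have a := cl_nonneg (4*s-1)
  have b := cl_le_one (4*s-1)
  unfold ubT
  rw [min_eq_left (by linarith), max_eq_right (by linarith)]
lemma lbT_half {s c : ℝ} (h0 : 0 ≤ s) (h1 : s ≤ 1) (h : cl (1-3*c) ≤ 1/2) : lbT s c = cl (4*s) := by
  have a := cl_nonneg (4*s)
  have b := cl_le_one (4*s)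
  unfold lbT
  rw [min_eq_left (by linarith), max_eq_right (by linarith)]

lemma ubT_rng {s c : ℝ} (h0 : 0 ≤ s) (h1 : s ≤ 1) : 0 ≤ ubT s c ∧ ubT s c ≤ 1 := by
  have a := cl_nonneg (4*s-1)
  have b := cl_le_one (4*s-1)
  have a' := cl_nonneg (3*c-2)
  have b' := cl_le_one (3*c-2)
  unfold ubT
  exact ⟨le_max_of_le_right (le_min a (by linarith)), max_le (by linarith) (min_le_of_left_le b)⟩
lemma lbT_rng {s c : ℝ} (h0 : 0 ≤ s) (h1 : s ≤ 1) : 0 ≤ lbT s c ∧ lbT s c ≤ 1 := by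
  have a := cl_nonneg (4*s)
  have b := cl_le_one (4*s)
  have a' := cl_nonneg (1-3*c)
  have b' := cl_le_one (1-3*c)
  unfold lbT
  exact ⟨le_max_of_le_right (le_min a (by linarith)), max_le (by linarith) (min_le_of_left_le b)⟩
lemma ubD_rng {s c : ℝ} (h0 : 0 ≤ s) (h1 : s ≤ 1) : 0 ≤ ubD s c ∧ ubD s c ≤ 1 := by
  have a' := cl_nonneg (3*c-2)
  unfold ubD
  refine ⟨le_max_left _ _, max_le (by norm_num) ?_⟩
  have : max (1-4*s) (2*s-1) ≤ 1 := max_le (by linarith) (by linarith)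
  linarith
lemma min_le_one' (s : ℝ) : min (4*s-1) (2-2*s) ≤ 1 := by
  rcases le_total s (1/2) with h | h
  · exact min_le_of_left_le (by linarith)
  · exact min_le_of_right_le (by linarith)
lemma lbH_rng (s c : ℝ) : 0 ≤ lbH s c ∧ lbH s c ≤ 1 := by
  have a' := cl_nonneg (1-3*c)
  have := min_le_one' s
  unfold lbH
  exact ⟨le_max_left _ _, max_le (by norm_num) (by linarith)⟩

lemma F_low {s c : ℝ} (h0 : 0 ≤ s) (h1 : s ≤ 1) (hc : c ≤ 1/3) : F1 s c = lbT s c ∧ F2 s c = lbH s c := by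
  have e1 : al2 (2*s) = lbT s 1 := by
    rw [lbT_half h0 h1 (by rw [cl_le (by norm_num)]; norm_num)]
    rcases le_total s (1/4) with h | h
    · rw [al2_b (by linarith) (by linarith), cl_mid (by linarith) (by linarith)]; ring
    · rw [al2_c (by linarith), cl_ge (by linarith)]
  have e2 : al1 (2*s) - cl (2*s-1) = lbH s 1 := by
    unfold lbH
    rw [cl_le (x := 1-3*1) (by norm_num)]
    rcases le_total s (1/4) with h | h
    · rw [al1_a (by linarith), cl_le (by linarith), min_eq_left (by linarith), max_eq_left (by linarith)]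
      ring
    rcases le_total s (1/2) with h' | h'
    · rw [al1_b (by linarith) (by linarith), cl_le (by linarith), min_eq_left (by linarith),
        max_eq_right (by linarith)]
      ring
    · rw [al1_c (by linarith), cl_mid (by linarith) (by linarith), min_eq_right (by linarith),
        max_eq_right (by linarith)]
      ring
  unfold F1 F2
  rw [Th_BC.bot _ _ (by linarith), ubT_lo (c := c) (by linarith), ubD_lo (c := c) (by linarith)]
  constructor
  · simp only; rw [e1]; ring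
  · simp only; rw [e2]; ring

lemma F_high {s c : ℝ} (h0 : 0 ≤ s) (h1 : s ≤ 1) (hc : 2/3 ≤ c) : F1 s c = ubT s c ∧ F2 s c = 1 - ubD s c := by
  have e1 : al1 (2*s) = ubT s 0 := by
    rw [ubT_half h0 h1 (by rw [cl_le (by norm_num)]; norm_num)]
    rcases le_total s (1/4) with h | h
    · rw [al1_a (by linarith), cl_le (by linarith)]
    rcases le_total s (1/2) with h' | h'
    · rw [al1_b (by linarith) (by linarith), cl_mid (by linarith) (by linarith)]; ring
    · rw [al1_c (by linarith), cl_ge (by linarith)]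
  have e2 : al2 (2*s) - cl (2*s-1) = 1 - ubD s 0 := by
    unfold ubD
    rw [cl_le (x := 3*0-2) (by norm_num)]
    rcases le_total s (1/4) with h | h
    · rw [al2_b (by linarith) (by linarith), cl_le (by linarith), max_eq_left (a := 1-4*s) (by linarith),
        max_eq_right (by linarith)]
      ring
    rcases le_total s (1/2) with h' | h'
    · have : max (1-4*s) (2*s-1) ≤ 0 := max_le (by linarith) (by linarith)
      rw [al2_c (by linarith), cl_le (by linarith), max_eq_left (by linarith)]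
    · rw [al2_c (by linarith), cl_mid (by linarith) (by linarith), max_eq_right (a := 1-4*s) (by linarith),
        max_eq_right (by linarith)]
      ring
  unfold F1 F2
  rw [Th_BC.top _ _ (by linarith), lbT_hi (c := c) (by linarith), lbH_hi (c := c) (by linarith)]
  constructor
  · simp only; rw [e1]; ring
  · simp only; rw [e2]; ring

lemma F_midL {s c : ℝ} (hc : 1/3 ≤ c) (hc' : c ≤ 2/3) (hs : s ≤ 1/2) :
    F1 s c = (Th (2*s, 3*c-1)).1 ∧ F2 s c = (Th (2*s, 3*c-1)).2 := by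
  unfold F1 F2
  rw [lbT_hi hc, lbH_hi hc, ubT_lo hc', ubD_lo hc', cl_le (by linarith : 2*s-1 ≤ 0)]
  constructor <;> ring

lemma F_midR {s c : ℝ} (hc : 1/3 ≤ c) (hc' : c ≤ 2/3) (hs : 1/2 ≤ s) (hs' : s ≤ 1) :
    F1 s c = 1 ∧ F2 s c = 2 - 2*s := by
  unfold F1 F2
  rw [lbT_hi hc, lbH_hi hc, ubT_lo hc', ubD_lo hc', cl_mid (x := 2*s-1) (by linarith) (by linarith),
    Th_BC.right _ _ (by linarith)]
  constructor <;> ring

lemma F_rng {s c : ℝ} (h0 : 0 ≤ s) (h1 : s ≤ 1) :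
    (0 ≤ F1 s c ∧ F1 s c ≤ 1) ∧ (0 ≤ F2 s c ∧ F2 s c ≤ 1) := by
  rcases le_total c (1/3) with hc | hc
  · rw [(F_low h0 h1 hc).1, (F_low h0 h1 hc).2]
    exact ⟨lbT_rng h0 h1, lbH_rng s c⟩
  rcases le_total c (2/3) with hc' | hc'
  · rcases le_total s (1/2) with hs | hs
    · rw [(F_midL hc hc' hs).1, (F_midL hc hc' hs).2]
      exact ⟨Th_BC.r1 _, Th_BC.r2 _⟩
    · rw [(F_midR hc hc' hs h1).1, (F_midR hc hc' hs h1).2]
      exact ⟨⟨by norm_num, le_rfl⟩, by linarith, by linarith⟩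
  · rw [(F_high h0 h1 hc').1, (F_high h0 h1 hc').2]
    have := ubD_rng (c := c) h0 h1
    exact ⟨ubT_rng h0 h1, by linarith, by linarith⟩

lemma F_zero {s : ℝ} (h0 : 0 ≤ s) (h1 : s ≤ 1) : F1 s 0 = s ∧ F2 s 0 = 0 := by
  rw [(F_low h0 h1 (by norm_num)).1, (F_low h0 h1 (by norm_num)).2]
  unfold lbT lbH
  have := min_le_one' s
  rw [cl_ge (x := 1-3*0) (by norm_num)]
  constructor
  · rw [max_eq_left]
    · ring
    · exact min_le_of_right_le (by linarith)
  · rw [max_eq_left (by linarith)]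

lemma F_one {s : ℝ} (h0 : 0 ≤ s) (h1 : s ≤ 1) : F1 s 1 = s ∧ F2 s 1 = 1 := by
  rw [(F_high h0 h1 (by norm_num)).1, (F_high h0 h1 (by norm_num)).2]
  unfold ubT ubD
  rw [cl_ge (x := 3*1-2) (by norm_num)]
  constructor
  · rw [max_eq_left]
    · ring
    · exact min_le_of_right_le (by linarith)
  · have : max (1-4*s) (2*s-1) ≤ 1 := max_le (by linarith) (by linarith)
    rw [max_eq_left (by linarith)]; ring

lemma F_per (c : ℝ) : F1 1 c = F1 0 c + 1 ∧ F2 1 c = F2 0 c := by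
  rcases le_total c (1/3) with hc | hc
  · rw [(F_low le_rfl zero_le_one hc).1, (F_low le_rfl zero_le_one hc).2,
      (F_low zero_le_one le_rfl hc).1, (F_low zero_le_one le_rfl hc).2]
    have a' := cl_nonneg (1-3*c)
    have b' := cl_le_one (1-3*c)
    unfold lbT lbH
    rw [cl_ge (x := 4*1) (by norm_num), cl_le (x := 4*0) (by norm_num), min_eq_left (by linarith),
      max_eq_right (by linarith), min_eq_left (b := 0 + 2*(1 - cl (1-3*c))) (by linarith),
      max_eq_right (a := 0 - 2*(1 - cl (1-3*c))) (by linarith)]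
    refine ⟨by ring, ?_⟩
    rw [min_eq_right (by norm_num), min_eq_left (by norm_num), max_eq_left (by linarith), max_eq_left (by linarith)]
  rcases le_total c (2/3) with hc' | hc'
  · rw [(F_midR hc hc' (by norm_num) le_rfl).1, (F_midR hc hc' (by norm_num) le_rfl).2,
      (F_midL hc hc' (by norm_num)).1, (F_midL hc hc' (by norm_num)).2, Th_BC.left _ _ (by norm_num)]
    norm_num
  · rw [(F_high le_rfl zero_le_one hc').1, (F_high le_rfl zero_le_one hc').2,
      (F_high zero_le_one le_rfl hc').1, (F_high zero_le_one le_rfl hc').2]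
    have a' := cl_nonneg (3*c-2)
    have b' := cl_le_one (3*c-2)
    unfold ubT ubD
    rw [cl_ge (x := 4*1-1) (by norm_num), cl_le (x := 4*0-1) (by norm_num), min_eq_left (by linarith),
      max_eq_right (by linarith), min_eq_left (b := 0 + 2*(1 - cl (3*c-2))) (by linarith),
      max_eq_right (a := 0 - 2*(1 - cl (3*c-2))) (by linarith)]
    refine ⟨by ring, ?_⟩
    rw [max_eq_right (a := 1-4*1) (by norm_num), max_eq_left (a := 1-4*0) (by norm_num)]
    norm_num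

/-- the periodic displacement -/
def Dv (p : ℝ × ℝ) : ℝ × ℝ :=
  (F1 (Int.fract p.1) (cl p.2) - Int.fract p.1, F2 (Int.fract p.1) (cl p.2) - cl p.2)

lemma Dv_cont : Continuous Dv := by
  have h1 : Continuous fun p : ℝ × ℝ => F1 (Int.fract p.1) (cl p.2) - Int.fract p.1 := by
    refine ContinuousOn.comp_fract (f := fun (p : ℝ × ℝ) x => F1 x (cl p.2) - x) ?_ continuous_fst ?_
    · apply Continuous.continuousOn
      have : Continuous fun q : (ℝ × ℝ) × ℝ => ((q.2, cl q.1.2) : ℝ × ℝ) := by fun_prop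
      exact (F1_cont.comp this).sub continuous_snd
    · intro p; rw [(F_per _).1]; ring
  have h2 : Continuous fun p : ℝ × ℝ => F2 (Int.fract p.1) (cl p.2) - cl p.2 := by
    refine ContinuousOn.comp_fract (f := fun (p : ℝ × ℝ) x => F2 x (cl p.2) - cl p.2) ?_ continuous_fst ?_
    · apply Continuous.continuousOn
      have : Continuous fun q : (ℝ × ℝ) × ℝ => ((q.2, cl q.1.2) : ℝ × ℝ) := by fun_prop
      exact (F2_cont.comp this).sub (by fun_prop)
    · intro p; rw [(F_per _).2]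
  exact h1.prodMk h2

lemma Dv_norm (p : ℝ × ℝ) : ‖Dv p‖ ≤ 1 := by
  have h0 := Int.fract_nonneg p.1
  have h1 := (Int.fract_lt_one p.1).le
  have h := F_rng (c := cl p.2) h0 h1
  have a := cl_nonneg p.2
  have b := cl_le_one p.2
  unfold Dv
  rw [Prod.norm_def, Real.norm_eq_abs, Real.norm_eq_abs]
  refine max_le ?_ ?_ <;> rw [abs_le] <;> constructor <;> simp only <;> linarith [h.1.1, h.1.2, h.2.1, h.2.2]

lemma Dv_lo {p : ℝ × ℝ} (h : p.2 ≤ 0) : Dv p = 0 := by
  have h0 := Int.fract_nonneg p.1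
  have h1 := (Int.fract_lt_one p.1).le
  unfold Dv
  rw [cl_le h, (F_zero h0 h1).1, (F_zero h0 h1).2]
  ext <;> simp
lemma Dv_hi {p : ℝ × ℝ} (h : 1 ≤ p.2) : Dv p = 0 := by
  have h0 := Int.fract_nonneg p.1
  have h1 := (Int.fract_lt_one p.1).le
  unfold Dv
  rw [cl_ge h, (F_one h0 h1).1, (F_one h0 h1).2]
  ext <;> simp

def phiTerm (n : ℕ) (p : ℝ × ℝ) : ℝ × ℝ := ((1/2:ℝ)^n) • Dv ((2:ℝ)^n*p.1, (2:ℝ)^n*p.2-1)

def Phi (p : ℝ × ℝ) : ℝ × ℝ := p + ∑' n, phiTerm n p

lemma phiTerm_norm (n : ℕ) (p : ℝ × ℝ) : ‖phiTerm n p‖ ≤ (1/2)^n := by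
  unfold phiTerm
  rw [norm_smul, Real.norm_eq_abs, abs_of_pos (by positivity)]
  have := Dv_norm ((2:ℝ)^n*p.1, (2:ℝ)^n*p.2-1)
  have h2 : (0:ℝ) < (1/2)^n := by positivity
  nlinarith

lemma Phi_cont : Continuous Phi := by
  unfold Phi
  refine continuous_id.add (continuous_tsum (fun n => ?_) (summable_geometric_two) phiTerm_norm)
  have h : Continuous fun p : ℝ × ℝ => (((2:ℝ)^n*p.1, (2:ℝ)^n*p.2-1) : ℝ × ℝ) := by fun_prop
  have h2 : Continuous fun p : ℝ × ℝ => Dv ((2:ℝ)^n*p.1, (2:ℝ)^n*p.2-1) := Dv_cont.comp h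
  exact h2.const_smul ((1/2:ℝ)^n)

lemma Phi_zero {p : ℝ × ℝ} (h : p.2 ≤ 0) : Phi p = p := by
  have : ∀ n, phiTerm n p = 0 := fun n => by
    unfold phiTerm
    rw [Dv_lo, smul_zero]
    have : (0:ℝ) < 2^n := by positivity
    simp only; nlinarith
  unfold Phi; simp [this]

lemma Phi_big {p : ℝ × ℝ} (h : 2 ≤ p.2) : Phi p = p := by
  have : ∀ n, phiTerm n p = 0 := fun n => by
    unfold phiTerm
    rw [Dv_hi, smul_zero]
    have : (1:ℝ) ≤ 2^n := one_le_pow₀ (by norm_num)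
    simp only; nlinarith
  unfold Phi; simp [this]

lemma Phi_single {p : ℝ × ℝ} {n : ℕ} (h1 : 1 ≤ (2:ℝ)^n*p.2) (h2 : (2:ℝ)^n*p.2 ≤ 2) :
    Phi p = p + phiTerm n p := by
  unfold Phi
  rw [tsum_eq_single n]
  intro m hm
  unfold phiTerm
  rcases lt_or_gt_of_ne hm with hlt | hgt
  · rw [Dv_lo, smul_zero]
    have e : (2:ℝ)^n = 2^m * 2^(n-m) := by rw [← pow_add]; congr 1; omega
    have e2 : (2:ℝ) ≤ 2^(n-m) := by
      calc (2:ℝ) = 2^1 := by norm_num
        _ ≤ 2^(n-m) := pow_le_pow_right₀ (by norm_num) (by omega)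
    have hp : 0 < p.2 := by
      by_contra hneg
      push Not at hneg
      have : (0:ℝ) < 2^n := by positivity
      nlinarith
    have h3 : 0 < (2:ℝ)^m * p.2 := by positivity
    have h4 : (2:ℝ)^m*p.2*2^(n-m) ≤ 2 := by
      calc (2:ℝ)^m*p.2*2^(n-m) = 2^n * p.2 := by rw [e]; ring
        _ ≤ 2 := h2
    simp only
    nlinarith
  · rw [Dv_hi, smul_zero]
    have e : (2:ℝ)^m = 2^n * 2^(m-n) := by rw [← pow_add]; congr 1; omega
    have e2 : (2:ℝ) ≤ 2^(m-n) := by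
      calc (2:ℝ) = 2^1 := by norm_num
        _ ≤ 2^(m-n) := pow_le_pow_right₀ (by norm_num) (by omega)
    simp only
    rw [e]
    nlinarith

lemma exists_scale {c : ℝ} (h : 0 < c) (h' : c < 2) : ∃ n : ℕ, 1 ≤ (2:ℝ)^n*c ∧ (2:ℝ)^n*c ≤ 2 := by
  rcases le_total 1 c with h1 | h1
  · exact ⟨0, by simpa using h1, by simpa using h'.le⟩
  · have hx : 1 ≤ 1/c := by rw [le_div_iff₀ h]; linarith
    obtain ⟨n, hn, hn'⟩ := exists_nat_pow_near hx (by norm_num : (1:ℝ) < 2)
    rw [le_div_iff₀ h] at hn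
    rw [div_lt_iff₀ h] at hn'
    refine ⟨n+1, hn'.le, ?_⟩
    rw [pow_succ]; linarith

lemma Phi_formula {p : ℝ × ℝ} {n : ℕ} (h1 : 1 ≤ (2:ℝ)^n*p.2) (h2 : (2:ℝ)^n*p.2 ≤ 2) :
    Phi p = ((1/2)^n * (⌊(2:ℝ)^n*p.1⌋ + F1 (Int.fract ((2:ℝ)^n*p.1)) ((2:ℝ)^n*p.2-1)),
      (1/2)^n * (1 + F2 (Int.fract ((2:ℝ)^n*p.1)) ((2:ℝ)^n*p.2-1))) := by
  rw [Phi_single h1 h2]
  have e : ((1/2:ℝ)^n) * 2^n = 1 := by rw [← mul_pow]; norm_num
  have hfl : Int.fract ((2:ℝ)^n*p.1) = (2:ℝ)^n*p.1 - ⌊(2:ℝ)^n*p.1⌋ := rfl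
  unfold phiTerm Dv
  simp only
  rw [cl_mid (x := (2:ℝ)^n*p.2-1) (by linarith) (by linarith)]
  ext
  · simp only [Prod.fst_add, Prod.smul_fst, smul_eq_mul]
    rw [mul_sub]
    rw [show ∀ y : ℝ, (1/2:ℝ)^n * Int.fract ((2:ℝ)^n*p.1) = (1/2:ℝ)^n * 2^n*p.1 - (1/2)^n*⌊(2:ℝ)^n*p.1⌋ by
      intro y; rw [hfl]; ring]
    · rw [e]; ring
    · exact 0
  · simp only [Prod.snd_add, Prod.smul_snd, smul_eq_mul]
    have : p.2 = (1/2:ℝ)^n * 2^n * p.2 := by rw [e]; ring
    linear_combination this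

lemma Phi_pos {p : ℝ × ℝ} (h : 0 < p.2) (h' : p.2 < 2) : 0 < (Phi p).2 := by
  obtain ⟨n, h1, h2⟩ := exists_scale h h'
  rw [Phi_formula h1 h2]
  have := (F_rng (c := (2:ℝ)^n*p.2-1) (Int.fract_nonneg ((2:ℝ)^n*p.1)) (Int.fract_lt_one _).le).2.1
  simp only
  positivity

lemma Phi_disp {p : ℝ × ℝ} (h : 0 ≤ p.2) : ‖Phi p - p‖ ≤ p.2 := by
  rcases h.eq_or_lt with h0 | h0
  · rw [Phi_zero h0.symm.le, sub_self, norm_zero]; exact h
  rcases le_or_gt 2 p.2 with h2 | h2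
  · rw [Phi_big h2, sub_self, norm_zero]; exact h
  obtain ⟨n, h1, h2⟩ := exists_scale h0 h2
  rw [Phi_single h1 h2, add_sub_cancel_left]
  refine (phiTerm_norm n p).trans ?_
  have e : ((1/2:ℝ)^n) * 2^n = 1 := by rw [← mul_pow]; norm_num
  have : (0:ℝ) < (1/2)^n := by positivity
  nlinarith

/-! local structure -/

lemma RA.ubT {p : ℝ × ℝ} (hp : gen p) : RA (fun q => ubT q.1 q.2) p := by
  have ht := RA.cl hp (((RA.snd p).smul 3).sub (RA.const p 2))
  have hu := ((RA.const p 1).sub ht).smul 2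
  have hc := RA.cl hp (((RA.fst p).smul 4).sub (RA.const p 1))
  refine (RA.max hp ((RA.fst p).sub hu) (RA.min hp hc ((RA.fst p).add hu))).congr fun q => ?_
  unfold Be.ubT; push_cast; ring_nf
lemma RA.ubD {p : ℝ × ℝ} (hp : gen p) : RA (fun q => ubD q.1 q.2) p := by
  have ht := RA.cl hp (((RA.snd p).smul 3).sub (RA.const p 2))
  refine (RA.max hp (RA.const p 0) ((RA.max hp ((RA.const p 1).sub ((RA.fst p).smul 4))
    (((RA.fst p).smul 2).sub (RA.const p 1))).sub (ht.smul 2))).congr fun q => ?_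
  unfold Be.ubD; push_cast; ring_nf
lemma RA.lbT {p : ℝ × ℝ} (hp : gen p) : RA (fun q => lbT q.1 q.2) p := by
  have ht := RA.cl hp ((RA.const p 1).sub ((RA.snd p).smul 3))
  have hu := ((RA.const p 1).sub ht).smul 2
  have hc := RA.cl hp ((RA.fst p).smul 4)
  refine (RA.max hp ((RA.fst p).sub hu) (RA.min hp hc ((RA.fst p).add hu))).congr fun q => ?_
  unfold Be.lbT; push_cast; ring_nf
lemma RA.lbH {p : ℝ × ℝ} (hp : gen p) : RA (fun q => lbH q.1 q.2) p := by
  have ht := RA.cl hp ((RA.const p 1).sub ((RA.snd p).smul 3))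
  refine (RA.max hp (RA.const p 0) ((RA.min hp (((RA.fst p).smul 4).sub (RA.const p 1))
    ((RA.const p 2).sub ((RA.fst p).smul 2))).sub (ht.smul 2))).congr fun q => ?_
  unfold Be.lbH; push_cast; ring_nf

lemma LA_F {p : ℝ × ℝ} (hp : gen p) (h0 : 0 < p.1) (h1 : p.1 < 1) : LA (fun q => (F1 q.1 q.2, F2 q.1 q.2)) p := by
  have e0 := continuous_fst.continuousAt.eventually (lt_mem_nhds h0)
  have e1 := continuous_fst.continuousAt.eventually (gt_mem_nhds h1)
  have n1 : p.2 ≠ 1/3 := by have := (hp.snd_ne (1/3)); push_cast at this; exact this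
  have n2 : p.2 ≠ 2/3 := by have := (hp.snd_ne (2/3)); push_cast at this; exact this
  have n3 : p.1 ≠ 1/2 := by have := (hp.fst_ne (1/2)); push_cast at this; exact this
  rcases lt_or_gt_of_ne n1 with hc | hc
  · have e2 := continuous_snd.continuousAt.eventually (gt_mem_nhds hc)
    have key : ∀ᶠ q in 𝓝 p, 0 < lbH q.1 q.2 → lbT q.1 q.2 = 1 := by
      filter_upwards [e0, e1] with q a b h
      unfold lbH at h
      rcases lt_max_iff.1 h with h | h
      · exact absurd h (lt_irrefl _)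
      have := min_le_one' q.1
      have a' := cl_nonneg (1-3*q.2)
      have hm := min_le_left (4*q.1-1) (2-2*q.1)
      rw [lbT_half a.le b.le (by linarith), cl_ge (by linarith)]
    rcases rank_aux hp (RA.lbT hp) (RA.lbH hp) (fun q => (lbH_rng _ _).1) 1 key with
      ⟨a, b, c, h⟩ | ⟨a, b, c, h, h'⟩
    · refine ⟨a, b, c, (1, 0), (0, 1), ?_⟩
      filter_upwards [h, e0, e1, e2] with q ⟨k1, k2⟩ k3 k4 k5
      rw [(F_low (le_of_lt k3) (le_of_lt k4) (le_of_lt k5)).1, (F_low (le_of_lt k3) (le_of_lt k4) (le_of_lt k5)).2, k1, k2]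
      ext <;> simp
    · refine ⟨a, b, c, (0, 0), (1, 0), ?_⟩
      filter_upwards [h, h', e0, e1, e2] with q k1 k2 k3 k4 k5
      rw [(F_low (le_of_lt k3) (le_of_lt k4) (le_of_lt k5)).1, (F_low (le_of_lt k3) (le_of_lt k4) (le_of_lt k5)).2, k1, k2]
      ext <;> simp
  rcases lt_or_gt_of_ne n2 with hc' | hc'
  · have e2 := continuous_snd.continuousAt.eventually (lt_mem_nhds hc)
    have e3 := continuous_snd.continuousAt.eventually (gt_mem_nhds hc')
    rcases lt_or_gt_of_ne n3 with hs | hs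
    · have hg := hp.aff (α₁ := 2) (β₁ := 0) (α₂ := 3) (β₂ := -1) (by norm_num) (by norm_num)
      refine (LA.comp_aff (LA_Th hg)).congr ?_
      filter_upwards [e2, e3, continuous_fst.continuousAt.eventually (gt_mem_nhds hs)] with q k1 k2 k3
      rw [(F_midL (le_of_lt k1) (le_of_lt k2) (le_of_lt k3)).1, (F_midL (le_of_lt k1) (le_of_lt k2) (le_of_lt k3)).2]
      push_cast
      rw [show (2*q.1 + 0 : ℝ) = 2*q.1 by ring, show (3*q.2 + -1 : ℝ) = 3*q.2-1 by ring]
    · refine ⟨1, 0, 0, (1, 2), (0, -2), ?_⟩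
      filter_upwards [e2, e3, e1, continuous_fst.continuousAt.eventually (lt_mem_nhds hs)] with q k1 k2 k3 k4
      rw [(F_midR (le_of_lt k1) (le_of_lt k2) (le_of_lt k4) (le_of_lt k3)).1,
        (F_midR (le_of_lt k1) (le_of_lt k2) (le_of_lt k4) (le_of_lt k3)).2]
      ext
      · simp
      · simp; ring
  · have e2 := continuous_snd.continuousAt.eventually (lt_mem_nhds hc')
    have key : ∃ t0 : ℝ, ∀ᶠ q in 𝓝 p, 0 < ubD q.1 q.2 → ubT q.1 q.2 = t0 := by
      rcases lt_or_gt_of_ne n3 with hs | hs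
      · refine ⟨0, ?_⟩
        filter_upwards [e0, e1, continuous_fst.continuousAt.eventually (gt_mem_nhds hs)] with q a b c h
        unfold ubD at h
        rcases lt_max_iff.1 h with h | h
        · exact absurd h (lt_irrefl _)
        have a' := cl_nonneg (3*q.2-2)
        have hm : max (1-4*q.1) (2*q.1-1) ≤ 1 := max_le (by linarith) (by linarith)
        have hpos : 0 < max (1-4*q.1) (2*q.1-1) := by linarith
        rcases lt_max_iff.1 hpos with h' | h'
        · rw [ubT_half a.le b.le (by linarith), cl_le (by linarith)]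
        · linarith
      · refine ⟨1, ?_⟩
        filter_upwards [e0, e1, continuous_fst.continuousAt.eventually (lt_mem_nhds hs)] with q a b c h
        unfold ubD at h
        rcases lt_max_iff.1 h with h | h
        · exact absurd h (lt_irrefl _)
        have a' := cl_nonneg (3*q.2-2)
        have hm : max (1-4*q.1) (2*q.1-1) ≤ 1 := max_le (by linarith) (by linarith)
        rw [ubT_half a.le b.le (by linarith), cl_ge (by linarith)]
    obtain ⟨t0, key⟩ := key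
    rcases rank_aux hp (RA.ubT hp) (RA.ubD hp) (fun q => le_max_left _ _) t0 key with
      ⟨a, b, c, h⟩ | ⟨a, b, c, h, h'⟩
    · refine ⟨a, b, c, (t0, 1), (0, -1), ?_⟩
      filter_upwards [h, e0, e1, e2] with q ⟨k1, k2⟩ k3 k4 k5
      rw [(F_high (le_of_lt k3) (le_of_lt k4) (le_of_lt k5)).1, (F_high (le_of_lt k3) (le_of_lt k4) (le_of_lt k5)).2, k1, k2]
      ext
      · simp
      · simp; ring
    · refine ⟨a, b, c, (0, 1), (1, 0), ?_⟩
      filter_upwards [h, h', e0, e1, e2] with q k1 k2 k3 k4 k5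
      rw [(F_high (le_of_lt k3) (le_of_lt k4) (le_of_lt k5)).1, (F_high (le_of_lt k3) (le_of_lt k4) (le_of_lt k5)).2, k1, k2]
      ext <;> simp

lemma LA_Phi {p : ℝ × ℝ} (hp : gen p) (h0 : 0 < p.2) (h2 : p.2 < 2) : LA Phi p := by
  obtain ⟨n, h1, h3⟩ := exists_scale h0 h2
  have hpow : (0:ℝ) < 2^n := by positivity
  have hpq : ((2:ℚ)^n) ≠ 0 := by positivity
  set z : ℤ := ⌊(2:ℝ)^n*p.1⌋ with hz
  have hg := hp.aff (α₁ := 2^n) (β₁ := -z) (α₂ := 2^n) (β₂ := -1) hpq hpq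
  have h1' : 1 < (2:ℝ)^n*p.2 := by
    refine lt_of_le_of_ne h1 fun e => ?_
    have := hp 0 (2^n) (-1) (by push_cast; linarith)
    exact hpq this.2.1
  have h3' : (2:ℝ)^n*p.2 < 2 := by
    refine lt_of_le_of_ne h3 fun e => ?_
    have := hp 0 (2^n) (-2) (by push_cast; linarith)
    exact hpq this.2.1
  have hz1 : (z:ℝ) < (2:ℝ)^n*p.1 := by
    refine lt_of_le_of_ne (Int.floor_le _) fun e => ?_
    have := hp (2^n) 0 (-z) (by push_cast; rw [e]; ring)
    exact hpq this.1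
  have hz2 : (2:ℝ)^n*p.1 < z + 1 := Int.lt_floor_add_one _
  have hF := LA_F hg (by simp only; push_cast; linarith) (by simp only; push_cast; linarith)
  have hL := (LA.comp_aff hF).post ((1/2)^n) 0 0 ((1/2)^n) ((1/2)^n*z) ((1/2)^n)
  refine hL.congr ?_
  have c1 : Continuous fun q : ℝ × ℝ => (2:ℝ)^n*q.2 := by fun_prop
  have c2 : Continuous fun q : ℝ × ℝ => (2:ℝ)^n*q.1 := by fun_prop
  filter_upwards [c1.continuousAt.eventually (lt_mem_nhds h1'), c1.continuousAt.eventually (gt_mem_nhds h3'),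
    c2.continuousAt.eventually (lt_mem_nhds hz1), c2.continuousAt.eventually (gt_mem_nhds hz2)] with q k1 k2 k3 k4
  have hfl : ⌊(2:ℝ)^n*q.1⌋ = z := Int.floor_eq_iff.2 ⟨le_of_lt k3, k4⟩
  have hfr : Int.fract ((2:ℝ)^n*q.1) = (2:ℝ)^n*q.1 - z := by rw [← hfl]; rfl
  rw [Phi_formula (le_of_lt k1) (le_of_lt k2), hfl, hfr]
  push_cast
  rw [show ((2:ℝ)^n*q.1 + -z) = (2:ℝ)^n*q.1 - z by ring, show ((2:ℝ)^n*q.2 + -1) = (2:ℝ)^n*q.2 - 1 by ring]
  ext <;> simp <;> ring

end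

end Pool.Agent.Helper93.Be
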