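import Pool.Agent.Helper93.BeC

set_option autoImplicit false

namespace Pool.Agent.Helper93.Be

open Filter Topology Metric

noncomputable section

abbrev E3 := Fin 3 → ℝ
abbrev Idx := ℕ × (Fin 3 → ℤ)

def lin (u : E3) (k : ℝ) (p : E3) : ℝ := u 0 * p 0 + u 1 * p 1 + u 2 * p 2 + k

lemma lin_cont (u : E3) (k : ℝ) : Continuous (lin u k) := by unfold lin; fun_prop

def nn (n w : ℝ × ℝ) : ℝ := n.1*w.1 + n.2*w.2

lemma nn_abs (n w : ℝ × ℝ) : |nn n w| ≤ (|n.1| + |n.2|) * ‖w‖ := by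
  unfold nn
  have h1 : |w.1| ≤ ‖w‖ := by rw [Prod.norm_def]; exact le_max_left _ _
  have h2 : |w.2| ≤ ‖w‖ := by rw [Prod.norm_def]; exact le_max_right _ _
  calc |n.1 * w.1 + n.2 * w.2| ≤ |n.1 * w.1| + |n.2 * w.2| := abs_add_le _ _
    _ = |n.1| * |w.1| + |n.2| * |w.2| := by rw [abs_mul, abs_mul]
    _ ≤ |n.1| * ‖w‖ + |n.2| * ‖w‖ := by gcongr
    _ = _ := by ring

structure Nd where
  c : E3
  r : ℝ
  r0 : 0 ≤ r
  r1 : r ≤ 1
  u : E3
  hu : u ≠ 0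
  k : ℝ
  a : ℝ × ℝ
  b : ℝ × ℝ
  M : ℝ
  M0 : 0 < M
  M1 : M ≤ 1

def Nd.aff (D : Nd) (p : E3) : ℝ × ℝ := D.a + lin D.u D.k p • D.b

def Nd.B (D : Nd) : Set E3 := ball D.c D.r

structure Stp (D : Nd) (δ : ℝ) where
  Δ : E3 → ℝ × ℝ
  n : ℝ × ℝ
  ch : Idx → Nd
  P : Set (E3 × ℝ)
  cont : Continuous Δ
  bd : ∀ p, ‖Δ p‖ ≤ δ
  zero : ∀ p, p ∉ D.B → Δ p = 0
  nb : nn n D.b = 0
  n1 : |n.1| + |n.2| ≤ 1
  pos : ∀ p ∈ D.B, 0 < nn n (Δ p)
  sub : ∀ i, (ch i).B ⊆ D.B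
  disj : ∀ i j, i ≠ j → Disjoint (ch i).B (ch j).B
  rad : ∀ i, (ch i).r ≤ D.r/2
  agree : ∀ i, ∀ p ∈ (ch i).B, (ch i).aff p = D.aff p + Δ p
  marg : ∀ i, (ch i).M ≤ D.M ∧ ∀ p ∈ (ch i).B, (ch i).M ≤ nn n (Δ p)
  Pc : P.Countable
  Pn : ∀ q ∈ P, q.1 ≠ 0
  cover : ∀ p ∈ D.B, (∀ i, p ∉ (ch i).B) → ∃ q ∈ P, lin q.1 q.2 p = 0

/-! dyadic cubes -/

def cen (i : Idx) : E3 := fun j => ((i.2 j : ℝ) + 1/2) / 2^i.1
def rho (m : ℕ) : ℝ := (1/2) / 2^m

lemma rho_pos (m : ℕ) : 0 < rho m := by unfold rho; positivity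

def cube (i : Idx) : Set E3 := ball (cen i) (rho i.1)

lemma mem_cube {i : Idx} {p : E3} : p ∈ cube i ↔ ∀ j, (i.2 j : ℝ) < 2^i.1 * p j ∧ 2^i.1 * p j < i.2 j + 1 := by
  unfold cube
  rw [mem_ball, dist_pi_lt_iff (rho_pos _)]
  refine forall_congr' fun j => ?_
  have hp : (0:ℝ) < 2^i.1 := by positivity
  rw [Real.dist_eq, abs_lt]
  unfold cen rho
  have e : p j - ((i.2 j : ℝ) + 1/2) / 2^i.1 = (2^i.1 * p j - ((i.2 j : ℝ) + 1/2)) / 2^i.1 := by
    field_simp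
  rw [e, ← neg_div, div_lt_div_iff_of_pos_right hp, div_lt_div_iff_of_pos_right hp]
  constructor
  · rintro ⟨h1, h2⟩; constructor <;> linarith
  · rintro ⟨h1, h2⟩; constructor <;> linarith

lemma cube_nested {i j : Idx} (hm : j.1 ≤ i.1) {q : E3} (hi : q ∈ cube i) (hj : q ∈ cube j) :
    cube i ⊆ cube j := by
  intro p hp
  rw [mem_cube] at *
  intro l
  have h1 := hi l
  have h2 := hj l
  have h3 := hp l
  obtain ⟨d, hd⟩ := Nat.exists_eq_add_of_le hm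
  have hK : (0:ℝ) < 2^d := by positivity
  have e : (2:ℝ)^i.1 = 2^d * 2^j.1 := by rw [hd, pow_add]; ring
  rw [e] at h1 h3
  have a1 : ((i.2 l : ℤ) : ℝ) < (((j.2 l + 1) * 2^d : ℤ) : ℝ) := by
    push_cast
    nlinarith
  have a2 : (((j.2 l) * 2^d : ℤ) : ℝ) < ((i.2 l + 1 : ℤ) : ℝ) := by
    push_cast
    nlinarith
  have b1 : i.2 l + 1 ≤ (j.2 l + 1) * 2^d := by
    have := Int.cast_lt.1 a1; omega
  have b2 : (j.2 l) * 2^d ≤ i.2 l := by
    have := Int.cast_lt.1 a2; omega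
  have b1' : ((i.2 l : ℝ) + 1) ≤ ((j.2 l : ℝ) + 1) * 2^d := by exact_mod_cast b1
  have b2' : (j.2 l : ℝ) * 2^d ≤ i.2 l := by exact_mod_cast b2
  constructor
  · by_contra hc
    push Not at hc
    have : 2^d * (2^j.1 * p l) ≤ 2^d * (j.2 l : ℝ) := mul_le_mul_of_nonneg_left hc hK.le
    nlinarith
  · by_contra hc
    push Not at hc
    have : 2^d * ((j.2 l : ℝ) + 1) ≤ 2^d * (2^j.1 * p l) := mul_le_mul_of_nonneg_left hc hK.le
    nlinarith

lemma cube_eq {i j : Idx} (hm : i.1 = j.1) {q : E3} (hi : q ∈ cube i) (hj : q ∈ cube j) : i = j := by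
  rw [mem_cube] at hi hj
  refine Prod.ext hm (funext fun l => ?_)
  have h1 := hi l
  have h2 := hj l
  rw [hm] at h1
  have a1 : (i.2 l : ℝ) < j.2 l + 1 := by linarith
  have a2 : (j.2 l : ℝ) < i.2 l + 1 := by linarith
  have b1 : i.2 l < j.2 l + 1 := by exact_mod_cast a1
  have b2 : j.2 l < i.2 l + 1 := by exact_mod_cast a2
  omega

/-! choice of the normal direction and of the scaling parameter -/

lemma exists_normal (b : ℝ × ℝ) : ∃ n : ℝ × ℝ, nn n b = 0 ∧ |n.1| + |n.2| ≤ 1 ∧ 0 < nn n n := by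
  by_cases hb : b = 0
  · refine ⟨(1, 0), ?_, ?_, ?_⟩ <;> simp [nn, hb]
  · have hs : 0 < |b.1| + |b.2| := by
      by_contra h
      push Not at h
      have h1 := abs_nonneg b.1
      have h2 := abs_nonneg b.2
      apply hb
      ext
      · simpa using abs_eq_zero.1 (by linarith : |b.1| = 0)
      · simpa using abs_eq_zero.1 (by linarith : |b.2| = 0)
    refine ⟨(-b.2/(|b.1| + |b.2|), b.1/(|b.1| + |b.2|)), ?_, ?_, ?_⟩
    · unfold nn; simp only; field_simp; ring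
    · simp only [abs_div, abs_neg]
      rw [abs_of_pos hs, ← add_div, add_comm |b.2|, div_self hs.ne']
    · unfold nn; simp only
      have : -b.2/(|b.1| + |b.2|) * (-b.2/(|b.1| + |b.2|)) + b.1/(|b.1| + |b.2|) * (b.1/(|b.1| + |b.2|))
          = (b.1^2 + b.2^2)/(|b.1| + |b.2|)^2 := by field_simp; ring
      rw [this]
      apply div_pos _ (by positivity)
      rcases eq_or_ne b.1 0 with h1 | h1
      · rcases eq_or_ne b.2 0 with h2 | h2
        · rw [h1, h2] at hs; simp at hs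
        · positivity
      · positivity

lemma exists_scaling (u : E3) {η : ℝ} (hη : 0 < η) :
    ∃ t : ℝ, 0 < t ∧ t < η ∧ ∀ (q : ℚ) (i : Fin 3), t ≠ q * u i := by
  have hc : (Set.range fun x : ℚ × Fin 3 => (x.1:ℝ) * u x.2).Countable := Set.countable_range _
  obtain ⟨t, ht, ht'⟩ := (hc.dense_compl ℝ).exists_between hη
  refine ⟨t, ht'.1, ht'.2, fun q i e => ht ⟨(q, i), e.symm⟩⟩

/-- locally rank one affine -/
def Loc (g : E3 → ℝ × ℝ) (s : Set E3) : Prop :=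
  ∃ (u' : E3) (k' : ℝ) (a' b' : ℝ × ℝ), u' ≠ 0 ∧ ∀ q ∈ s, g q = a' + lin u' k' q • b'

def ev (i : Fin 3) : E3 := Pi.single i 1

lemma ev_self (i : Fin 3) : ev i i = 1 := by simp [ev]
lemma ev_ne {i j : Fin 3} (h : j ≠ i) : ev i j = 0 := by simp [ev, h]

lemma lin_ev (i : Fin 3) (k : ℝ) (p : E3) : lin (ev i) k p = p i + k := by
  fin_cases i <;> simp [lin, ev]

lemma lin_comb (u : E3) (α s k k' : ℝ) (i : Fin 3) (p : E3) :
    lin (α • u - s • ev i) (α*k + k') p = α * lin u k p - s * p i + k' := by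
  fin_cases i <;> simp [lin, ev] <;> ring

def PA (c : E3) : Set (E3 × ℝ) :=
  Set.range (fun x : Fin 3 × Fin 3 × ℚ => (ev x.1 - (x.2.2:ℝ) • ev x.2.1, -(c x.1 - x.2.2 * c x.2.1)))

def PB (u : E3) (k : ℝ) (c : E3) (r t : ℝ) : Set (E3 × ℝ) :=
  Set.range (fun x : ℚ × ℚ × ℚ × ℚ × Fin 3 =>
    ((x.1:ℝ) • u - ((x.2.1:ℝ)*t*x.2.2.2.1) • ev x.2.2.2.2,
      (x.1:ℝ)*k + ((x.2.1:ℝ)*t*(r + x.2.2.2.1*c x.2.2.2.2) + x.2.2.1)))

def PC : Set (E3 × ℝ) :=
  Set.range (fun x : ℕ × ℤ × Fin 3 => (ev x.2.2, -((x.2.1:ℝ)/2^x.1)))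

lemma lin_PA (c : E3) (i j : Fin 3) (σ : ℝ) (p : E3) :
    lin (ev i - σ • ev j) (-(c i - σ * c j)) p = (p i - c i) - σ*(p j - c j) := by
  have := lin_comb (ev i) 1 σ (-(c i)) (σ * c j) j p
  rw [one_smul, lin_ev] at this
  have e : (-(c i - σ * c j)) = 1 * -(c i) + σ * c j := by ring
  rw [e, this]; ring

lemma near_face {c p : E3} (h : ∀ q ∈ PA c, q.1 ≠ 0 → lin q.1 q.2 p ≠ 0) :
    ∃ (i : Fin 3) (σ : ℚ), (σ = 1 ∨ σ = -1) ∧ ∀ᶠ q in 𝓝 p, dist q c = (σ:ℝ)*(q i - c i) := by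
  obtain ⟨i, hi⟩ := Finite.exists_max (fun i => |p i - c i|)
  have hs : ∀ j, j ≠ i → |p j - c j| < |p i - c i| := by
    intro j hj
    refine lt_of_le_of_ne (hi j) fun e => ?_
    rcases abs_eq_abs.1 e with e | e
    · refine h _ ⟨(j, i, 1), rfl⟩ ?_ ?_
      · intro h0
        have := congrFun h0 j
        simp [ev_self, ev_ne hj] at this
      · simp only [lin_PA]; push_cast; linarith
    · refine h _ ⟨(j, i, -1), rfl⟩ ?_ ?_
      · intro h0
        have := congrFun h0 j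
        simp [ev_self, ev_ne hj] at this
      · simp only [lin_PA]; push_cast; linarith
  have hne : p i - c i ≠ 0 := by
    intro e
    refine h _ ⟨(i, i, 0), rfl⟩ ?_ ?_
    · intro h0
      have := congrFun h0 i
      simp [ev_self] at this
    · simp only [lin_PA]; push_cast; linarith
  have hd : ∀ᶠ q in 𝓝 p, dist q c = |q i - c i| := by
    have : ∀ᶠ q : E3 in 𝓝 p, ∀ j, j ≠ i → |q j - c j| < |q i - c i| := by
      rw [eventually_all]
      intro j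
      by_cases hj : j = i
      · exact Eventually.of_forall fun q h' => absurd hj h'
      · have c1 : Continuous fun q : E3 => |q j - c j| := by fun_prop
        have c2 : Continuous fun q : E3 => |q i - c i| := by fun_prop
        filter_upwards [c1.continuousAt.eventually_lt c2.continuousAt (hs j hj)] with q hq _
        exact hq
    filter_upwards [this] with q hq
    refine le_antisymm ((dist_pi_le_iff (abs_nonneg _)).2 fun j => ?_) (dist_le_pi_dist q c i)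
    rw [Real.dist_eq]
    by_cases hj : j = i
    · rw [hj]
    · exact (hq j hj).le
  rcases hne.lt_or_gt with hl | hg
  · refine ⟨i, -1, Or.inr rfl, ?_⟩
    have c1 : Continuous fun q : E3 => q i - c i := by fun_prop
    filter_upwards [hd, c1.continuousAt.eventually (gt_mem_nhds hl)] with q h1 h2
    rw [h1, abs_of_neg h2]; push_cast; ring
  · refine ⟨i, 1, Or.inl rfl, ?_⟩
    have c1 : Continuous fun q : E3 => q i - c i := by fun_prop
    filter_upwards [hd, c1.continuousAt.eventually (lt_mem_nhds hg)] with q h1 h2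
    rw [h1, abs_of_pos h2]; push_cast; ring

def LL (c : E3) (r t : ℝ) (p : E3) : ℝ := t * max 0 (r - dist p c)

lemma LL_cont (c : E3) (r t : ℝ) : Continuous (LL c r t) := by unfold LL; fun_prop

lemma vec_ne {u : E3} (hu : u ≠ 0) {t : ℝ} (hq : ∀ (q : ℚ) (i : Fin 3), t ≠ q * u i)
    {α β σ : ℚ} (hσ : σ = 1 ∨ σ = -1) {i : Fin 3} (h : (α:ℝ) • u - ((β:ℝ)*t*σ) • ev i = 0) :
    α = 0 ∧ β = 0 := by
  have hσ0 : (σ:ℝ) ≠ 0 := by
    rcases hσ with h | h <;> rw [h] <;> norm_num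
  have h1 := congrFun h i
  simp only [Pi.sub_apply, Pi.smul_apply, ev_self, smul_eq_mul, mul_one, Pi.zero_apply] at h1
  by_cases hβ : β = 0
  · refine ⟨?_, hβ⟩
    by_contra hα
    apply hu
    rw [hβ] at h
    have : (α:ℝ) • u = 0 := by simpa using h
    rcases smul_eq_zero.1 this with h' | h'
    · exact absurd (by exact_mod_cast h') hα
    · exact h'
  · exfalso
    have hβ' : (β:ℝ) ≠ 0 := by exact_mod_cast hβ
    apply hq (α/(β*σ)) i
    push_cast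
    field_simp
    linarith

lemma loc_near {D : Nd} {t : ℝ} (ht : 0 < t) (ht1 : t < 1) (hq : ∀ (q : ℚ) (i : Fin 3), t ≠ q * D.u i)
    {p : E3} (hp : p ∈ D.B)
    (hA : ∀ q ∈ PA D.c, q.1 ≠ 0 → lin q.1 q.2 p ≠ 0)
    (hB : ∀ q ∈ PB D.u D.k D.c D.r t, q.1 ≠ 0 → lin q.1 q.2 p ≠ 0) :
    ∃ (v : E3) (κ : ℝ) (A B : ℝ × ℝ), v ≠ 0 ∧
      ∀ᶠ q in 𝓝 p, Phi (lin D.u D.k q, LL D.c D.r t q) = A + lin v κ q • B := by
  obtain ⟨i, σ, hσ, hd⟩ := near_face hA
  have hpr : dist p D.c < D.r := hp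
  have hL : ∀ᶠ q in 𝓝 p, LL D.c D.r t q = t*(D.r + σ*D.c i) - t*σ*q i := by
    have c1 : Continuous fun q : E3 => dist q D.c := by fun_prop
    filter_upwards [hd, c1.continuousAt.eventually (gt_mem_nhds hpr)] with q h1 h2
    unfold LL
    rw [max_eq_right (by linarith), h1]; ring
  have hLp := hL.self_of_nhds
  have key : ∀ (α β γ : ℚ) (q : E3), lin ((α:ℝ) • D.u - ((β:ℝ)*t*σ) • ev i)
      ((α:ℝ)*D.k + ((β:ℝ)*t*(D.r + σ*D.c i) + γ)) q =
      (α:ℝ) * lin D.u D.k q + β * (t*(D.r + σ*D.c i) - t*σ*q i) + γ := by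
    intro α β γ q
    rw [lin_comb]; ring
  have hgen : gen (lin D.u D.k p, LL D.c D.r t p) := by
    intro α β γ h
    simp only at h
    rw [hLp] at h
    have h0 : α = 0 ∧ β = 0 := by
      by_contra hc
      refine hB _ ⟨(α, β, γ, σ, i), rfl⟩ (fun hz => hc (vec_ne D.hu hq hσ hz)) ?_
      simp only
      rw [key, h]
    refine ⟨h0.1, h0.2, ?_⟩
    rw [h0.1, h0.2] at h
    simpa using h
  have hLpos : 0 < LL D.c D.r t p := by
    unfold LL
    apply mul_pos ht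
    exact lt_max_of_lt_right (by linarith)
  have hLlt : LL D.c D.r t p < 2 := by
    unfold LL
    have h1 : max 0 (D.r - dist p D.c) ≤ 1 := max_le zero_le_one (by linarith [D.r1, dist_nonneg (x := p) (y := D.c)])
    have h0 : 0 ≤ max 0 (D.r - dist p D.c) := le_max_left _ _
    nlinarith
  obtain ⟨α, β, γ, A, B, h⟩ := LA_Phi hgen hLpos hLlt
  have hc : ContinuousAt (fun q => (lin D.u D.k q, LL D.c D.r t q)) p :=
    ((lin_cont _ _).prodMk (LL_cont _ _ _)).continuousAt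
  have h' := hc.eventually h
  by_cases hv : (α:ℝ) • D.u - ((β:ℝ)*t*σ) • ev i = 0
  · obtain ⟨e1, e2⟩ := vec_ne D.hu hq hσ hv
    refine ⟨D.u, 0, A + (γ:ℝ) • B, 0, D.hu, ?_⟩
    filter_upwards [h'] with q hq'
    rw [hq', e1, e2]; simp
  · refine ⟨_, (α:ℝ)*D.k + ((β:ℝ)*t*(D.r + σ*D.c i) + γ), A, B, hv, ?_⟩
    filter_upwards [h', hL] with q h1 h2
    rw [h1, h2, key]

end

end Pool.Agent.Helper93.Be
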