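import Pool.Agent.Helper93.BeD

set_option autoImplicit false

namespace Pool.Agent.Helper93.Be

open Filter Topology Metric

noncomputable section

lemma nn_smul_add (n b w : ℝ × ℝ) (x y : ℝ) (h : nn n b = 0) : nn n (x • b + y • w) = y * nn n w := by
  have : nn n (x • b + y • w) = x * nn n b + y * nn n w := by
    simp [nn]; ring
  rw [this, h]; ring

lemma nn_cont (n : ℝ × ℝ) : Continuous (nn n) := by unfold nn; fun_prop

theorem exists_stp (D : Nd) {δ : ℝ} (hδ : 0 < δ) : Nonempty (Stp D δ) := by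
  classical
  obtain ⟨n, hnb, hn1, hnn⟩ := exists_normal D.b
  have hη : 0 < min 1 (δ/(‖D.b‖+2)) := by positivity
  obtain ⟨t, ht0, htη, htq⟩ := exists_scaling D.u hη
  have ht1 : t < 1 := htη.trans_le (min_le_left _ _)
  have htδ : t*(‖D.b‖+2) < δ := by
    have := htη.trans_le (min_le_right _ _)
    rwa [lt_div_iff₀ (by positivity)] at this
  set L := LL D.c D.r t with hL
  set ℓ := lin D.u D.k with hℓ
  have hL0 : ∀ p, 0 ≤ L p := fun p => mul_nonneg ht0.le (le_max_left _ _)
  have hLt : ∀ p, L p ≤ t := by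
    intro p
    have h1 : max 0 (D.r - dist p D.c) ≤ 1 := max_le zero_le_one (by linarith [D.r1, dist_nonneg (x := p) (y := D.c)])
    rw [hL]; unfold LL
    nlinarith
  let Δ : E3 → ℝ × ℝ := fun p => ((Phi (ℓ p, L p)).1 - ℓ p) • D.b + (Phi (ℓ p, L p)).2 • n
  have hΔ : ∀ p, Δ p = ((Phi (ℓ p, L p)).1 - ℓ p) • D.b + (Phi (ℓ p, L p)).2 • n := fun _ => rfl
  have hΔc : Continuous Δ := by
    have c1 : Continuous fun p => Phi (ℓ p, L p) := Phi_cont.comp ((lin_cont _ _).prodMk (LL_cont _ _ _))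
    have c2 : Continuous ℓ := lin_cont _ _
    exact ((c1.fst.sub c2).smul continuous_const).add (c1.snd.smul continuous_const)
  have hnn1 : ‖n‖ ≤ 1 := by
    rw [Prod.norm_def, Real.norm_eq_abs, Real.norm_eq_abs]
    exact max_le (by linarith [abs_nonneg n.2]) (by linarith [abs_nonneg n.1])
  have hbd : ∀ p, ‖Δ p‖ ≤ δ := by
    intro p
    have h := Phi_disp (p := (ℓ p, L p)) (hL0 p)
    rw [Prod.norm_def] at h
    have h1 : |(Phi (ℓ p, L p)).1 - ℓ p| ≤ L p := (le_max_left _ _).trans h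
    have h2 : |(Phi (ℓ p, L p)).2 - L p| ≤ L p := (le_max_right _ _).trans h
    have h3 : |(Phi (ℓ p, L p)).2| ≤ 2 * L p := by
      have := abs_le.1 h2
      rw [abs_le]; constructor <;> linarith [hL0 p]
    rw [hΔ]
    calc _ ≤ ‖((Phi (ℓ p, L p)).1 - ℓ p) • D.b‖ + ‖(Phi (ℓ p, L p)).2 • n‖ := norm_add_le _ _
      _ = |(Phi (ℓ p, L p)).1 - ℓ p| * ‖D.b‖ + |(Phi (ℓ p, L p)).2| * ‖n‖ := by
          rw [norm_smul, norm_smul, Real.norm_eq_abs, Real.norm_eq_abs]
      _ ≤ L p * ‖D.b‖ + (2 * L p) * 1 := by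
          have := hL0 p
          gcongr
      _ = L p * (‖D.b‖ + 2) := by ring
      _ ≤ t * (‖D.b‖ + 2) := by
          gcongr; exact hLt p
      _ ≤ δ := htδ.le
  have hz : ∀ p, p ∉ D.B → Δ p = 0 := by
    intro p hp
    have h1 : D.r ≤ dist p D.c := not_lt.1 hp
    have h2 : L p = 0 := by
      rw [hL]; unfold LL
      rw [max_eq_left (by linarith), mul_zero]
    rw [hΔ, h2, Phi_zero le_rfl]; simp
  have hpos : ∀ p ∈ D.B, 0 < nn n (Δ p) := by
    intro p hp
    rw [hΔ, nn_smul_add _ _ _ _ _ hnb]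
    apply mul_pos _ hnn
    apply Phi_pos
    · simp only
      rw [hL]; unfold LL
      apply mul_pos ht0
      exact lt_max_of_lt_right (by linarith [show dist p D.c < D.r from hp])
    · simp only
      linarith [hLt p]
  let Adm : Idx → Prop := fun i => closedBall (cen i) (rho i.1) ⊆ D.B ∧ rho i.1 ≤ D.r/2 ∧
    Loc (fun q => D.aff q + Δ q) (cube i)
  let Sel : Idx → Prop := fun i => Adm i ∧ ∀ j, j.1 < i.1 → Adm j → Disjoint (cube i) (cube j)
  have hch : ∀ i, ∃ N : Nd, N.B ⊆ D.B ∧ N.r ≤ D.r/2 ∧ (∀ p ∈ N.B, N.aff p = D.aff p + Δ p) ∧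
      N.M ≤ D.M ∧ (∀ p ∈ N.B, N.M ≤ nn n (Δ p)) ∧ (Sel i → N.B = cube i) ∧ (¬ Sel i → N.B = ∅) := by
    intro i
    by_cases hi : Sel i
    · obtain ⟨h1, h2, u', k', a', b', hu', h3⟩ := hi.1
      have hne : (closedBall (cen i) (rho i.1)).Nonempty := ⟨_, mem_closedBall_self (rho_pos _).le⟩
      obtain ⟨x, hx, hxm⟩ := (isCompact_closedBall (cen i) (rho i.1)).exists_isMinOn hne
        (((nn_cont n).comp hΔc).continuousOn)
      have hμ : 0 < nn n (Δ x) := hpos x (h1 hx)
      refine ⟨⟨cen i, rho i.1, (rho_pos _).le, h2.trans (by linarith [D.r1]), u', hu', k', a', b',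
        min D.M (nn n (Δ x)), lt_min D.M0 hμ, (min_le_left _ _).trans D.M1⟩, ?_, h2, ?_, min_le_left _ _, ?_,
        fun _ => rfl, fun h => absurd hi h⟩
      · exact ball_subset_closedBall.trans h1
      · intro p hp
        exact (h3 p hp).symm
      · intro p hp
        exact (min_le_right _ _).trans (hxm (ball_subset_closedBall hp))
    · have hB : ball D.c (0:ℝ) = ∅ := ball_zero
      refine ⟨⟨D.c, 0, le_rfl, zero_le_one, D.u, D.hu, 0, 0, 0, D.M, D.M0, D.M1⟩, ?_, ?_, ?_, le_rfl, ?_,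
        fun h => absurd h hi, fun _ => hB⟩
      · unfold Nd.B; rw [hB]; exact Set.empty_subset _
      · simp only; linarith [D.r0]
      · intro p hp
        unfold Nd.B at hp; rw [hB] at hp; exact absurd hp (Set.notMem_empty _)
      · intro p hp
        unfold Nd.B at hp; rw [hB] at hp; exact absurd hp (Set.notMem_empty _)
  choose ch hsub hrad hagree hM1 hM2 hs1 hs2 using hch
  have hPAc : (PA D.c ∪ PB D.u D.k D.c D.r t ∪ PC).Countable :=
    ((Set.countable_range _).union (Set.countable_range _)).union (Set.countable_range _)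
  refine ⟨⟨Δ, n, ch, {q | q.1 ≠ 0} ∩ (PA D.c ∪ PB D.u D.k D.c D.r t ∪ PC), hΔc, hbd, hz, hnb, hn1, hpos, hsub, ?_,
    hrad, hagree, fun i => ⟨hM1 i, hM2 i⟩, hPAc.mono Set.inter_subset_right, fun q hq => hq.1, ?_⟩⟩
  · intro i j hij
    by_cases hi : Sel i
    · by_cases hj : Sel j
      · rw [hs1 i hi, hs1 j hj]
        rcases lt_trichotomy i.1 j.1 with h | h | h
        · exact (hj.2 i h hi.1).symm
        · rw [Set.disjoint_left]
          intro q hq hq'
          exact hij (cube_eq h hq hq')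
        · exact hi.2 j h hj.1
      · rw [hs2 j hj]; exact Set.disjoint_empty _
    · rw [hs2 i hi]; exact Set.empty_disjoint _
  · intro p hp hno
    by_contra hc
    push Not at hc
    have hA : ∀ q ∈ PA D.c, q.1 ≠ 0 → lin q.1 q.2 p ≠ 0 := fun q hq h0 => hc q ⟨h0, Or.inl (Or.inl hq)⟩
    have hB : ∀ q ∈ PB D.u D.k D.c D.r t, q.1 ≠ 0 → lin q.1 q.2 p ≠ 0 :=
      fun q hq h0 => hc q ⟨h0, Or.inl (Or.inr hq)⟩
    have hC : ∀ q ∈ PC, q.1 ≠ 0 → lin q.1 q.2 p ≠ 0 := fun q hq h0 => hc q ⟨h0, Or.inr hq⟩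
    obtain ⟨v, κ, A, B, hv, hloc⟩ := loc_near ht0 ht1 htq hp hA hB
    obtain ⟨ε, hε, hεs⟩ := Metric.eventually_nhds_iff_ball.1
      (hloc.and (isOpen_ball.mem_nhds hp : ∀ᶠ q in 𝓝 p, q ∈ D.B))
    -- the cube of order m around p
    let z : ℕ → Idx := fun m => (m, fun l => ⌊(2:ℝ)^m * p l⌋)
    have hz' : ∀ m, p ∈ cube (z m) := by
      intro m
      rw [mem_cube]
      intro l
      refine ⟨lt_of_le_of_ne (Int.floor_le _) fun e => ?_, Int.lt_floor_add_one _⟩
      refine hC _ ⟨(m, ⌊(2:ℝ)^m * p l⌋, l), rfl⟩ ?_ ?_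
      · intro h0
        have := congrFun h0 l
        simp [ev_self] at this
      · simp only [lin_ev]
        have h2 : (0:ℝ) < 2^m := by positivity
        have e' : ((⌊(2:ℝ)^m * p l⌋ : ℤ) : ℝ) = (2:ℝ)^m * p l := e
        rw [e']; field_simp; ring
    have hDr : 0 < D.r := by
      have : dist p D.c < D.r := hp
      linarith [dist_nonneg (x := p) (y := D.c)]
    have hex : ∃ m, Adm (z m) := by
      obtain ⟨m, hm⟩ := exists_pow_lt_of_lt_one (show 0 < min ε (D.r/2) by positivity) (by norm_num : (1/2:ℝ) < 1)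
      have hr : rho m = (1/2)*(1/2)^m := by unfold rho; rw [div_pow, one_pow]; ring
      have hrε : 2 * rho m < ε := by
        rw [hr]; linarith [hm.trans_le (min_le_left _ _)]
      have hrr : rho m ≤ D.r/2 := by
        rw [hr]
        have := hm.trans_le (min_le_right _ _)
        have h0 : (0:ℝ) < (1/2)^m := by positivity
        linarith
      have hsubε : closedBall (cen (z m)) (rho m) ⊆ ball p ε := by
        intro q hq
        have h1 : dist q (cen (z m)) ≤ rho m := hq
        have h2 : dist p (cen (z m)) < rho m := hz' m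
        have h3 := dist_triangle_right q p (cen (z m))
        exact mem_ball.2 (by linarith)
      refine ⟨m, fun q hq => (hεs q (hsubε hq)).2, hrr, v, κ, D.a + A.1 • D.b + A.2 • n, B.1 • D.b + B.2 • n, hv, ?_⟩
      intro q hq
      have h1 := (hεs q (hsubε (ball_subset_closedBall hq))).1
      simp only [hΔ]
      unfold Nd.aff
      rw [← hℓ]
      rw [← hℓ, ← hL] at h1
      rw [h1]
      simp only [Prod.fst_add, Prod.snd_add, Prod.smul_fst, Prod.smul_snd, smul_eq_mul]
      module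
    classical
    let m := Nat.find hex
    have hm : Adm (z m) := Nat.find_spec hex
    have hmin : ∀ m' < m, ¬ Adm (z m') := fun m' h => Nat.find_min hex h
    have hsel : Sel (z m) := by
      refine ⟨hm, fun j hj hja => ?_⟩
      by_contra hd
      rw [Set.not_disjoint_iff] at hd
      obtain ⟨q, hq1, hq2⟩ := hd
      have hjm : j.1 ≤ (z m).1 := hj.le
      have hpj : p ∈ cube j := cube_nested hjm hq1 hq2 (hz' m)
      have : z j.1 = j := cube_eq rfl (hz' j.1) hpj
      exact hmin j.1 hj (by rw [this]; exact hja)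
    apply hno (z m)
    rw [hs1 _ hsel]
    exact hz' m

end

end Pool.Agent.Helper93.Be
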