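import Pool.Agent.Helper93.BeE

set_option autoImplicit false

namespace Pool.Agent.Helper93.Be

open Filter Topology Metric

noncomputable section

def root : Nd where
  c := fun _ => 1/2
  r := 1/2
  r0 := by norm_num
  r1 := by norm_num
  u := ev 0
  hu := by
    intro h
    have := congrFun h 0
    simp [ev_self] at this
  k := 0
  a := 0
  b := (1, 0)
  M := 1
  M0 := one_pos
  M1 := le_rfl

def step (D : Nd) (k : ℕ) : Stp D (D.M * (1/2)^(k+2)) :=
  Classical.choice (exists_stp D (mul_pos D.M0 (by positivity)))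

def node : List Idx → Nd
  | [] => root
  | i :: ν => (step (node ν) (Encodable.encode ν)).ch i

def St (ν : List Idx) : Stp (node ν) ((node ν).M * (1/2)^(Encodable.encode ν + 2)) :=
  step (node ν) (Encodable.encode ν)

lemma node_cons (i : Idx) (ν : List Idx) : node (i :: ν) = (St ν).ch i := rfl

lemma node_sub {ν κ : List Idx} (h : ν <:+ κ) : (node κ).B ⊆ (node ν).B ∧ (node κ).M ≤ (node ν).M := by
  obtain ⟨μ, rfl⟩ := h
  induction μ with
  | nil => exact ⟨subset_rfl, le_rfl⟩
  | cons i μ ih =>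
    rw [List.cons_append, node_cons]
    exact ⟨((St (μ ++ ν)).sub i).trans ih.1, ((St (μ ++ ν)).marg i).1.trans ih.2⟩

lemma node_rad (ν : List Idx) : (node ν).r ≤ (1/2)^(ν.length + 1) := by
  induction ν with
  | nil => exact le_of_eq (by simp [node, root])
  | cons i ν ih =>
    rw [node_cons]
    have := (St ν).rad i
    refine this.trans ?_
    rw [List.length_cons, pow_succ _ (ν.length + 1)]
    linarith

open Classical in
def Tm (ν κ : List Idx) (p : E3) : ℝ × ℝ := if ν <:+ κ then (St κ).Δ p else 0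

def G (ν : List Idx) (p : E3) : ℝ × ℝ := ∑' κ, Tm ν κ p

lemma T_bd (ν κ : List Idx) (p : E3) : ‖Tm ν κ p‖ ≤ (node ν).M * (1/2)^(Encodable.encode κ + 2) := by
  unfold Tm
  split_ifs with h
  · refine ((St κ).bd p).trans ?_
    have := (node_sub h).2
    gcongr
  · rw [norm_zero]
    have := (node ν).M0
    positivity

lemma sum_enc : Summable fun κ : List Idx => (1/2:ℝ)^(Encodable.encode κ + 2) := by
  have := (summable_geometric_two_encode (ι := List Idx)).mul_right ((1/2:ℝ)^2)
  refine this.congr fun κ => ?_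
  rw [pow_add]

lemma tsum_enc : ∑' κ : List Idx, (1/2:ℝ)^(Encodable.encode κ + 2) ≤ 1/2 := by
  have h1 : ∑' κ : List Idx, (1/2:ℝ)^(Encodable.encode κ + 2) ≤ ∑' n : ℕ, (1/2:ℝ)^n * (1/4) := by
    refine Summable.tsum_le_tsum_of_inj (Encodable.encode) Encodable.encode_injective (fun c _ => by positivity)
      (fun κ => ?_) sum_enc (summable_geometric_two.mul_right _)
    rw [pow_add]; norm_num
  rw [tsum_mul_right, tsum_geometric_two] at h1
  linarith

lemma T_summable (ν : List Idx) (p : E3) : Summable fun κ => Tm ν κ p :=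
  Summable.of_norm_bounded (sum_enc.mul_left _) (fun κ => T_bd ν κ p)

lemma G_bd (ν : List Idx) (p : E3) : ‖G ν p‖ ≤ (node ν).M / 2 := by
  have h := tsum_of_norm_bounded (sum_enc.mul_left (node ν).M).hasSum (fun κ => T_bd ν κ p)
  rw [tsum_mul_left] at h
  refine h.trans ?_
  have := tsum_enc
  have := (node ν).M0
  nlinarith

lemma G_cont (ν : List Idx) : Continuous (G ν) := by
  refine continuous_tsum (fun κ => ?_) (sum_enc.mul_left (node ν).M) (fun κ p => T_bd ν κ p)
  unfold Tm
  split_ifs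
  · exact (St κ).cont
  · exact continuous_const

lemma T_zero {ν κ : List Idx} {p : E3} (h : p ∉ (node ν).B) : Tm ν κ p = 0 := by
  unfold Tm
  split_ifs with h'
  · exact (St κ).zero p fun hp => h ((node_sub h').1 hp)
  · rfl

lemma G_zero {ν : List Idx} {p : E3} (h : p ∉ (node ν).B) : G ν p = 0 := by
  unfold G
  simp [T_zero h]

/-- a proper extension passes through a child -/
lemma suff_cases {ν κ : List Idx} (h : ν <:+ κ) : κ = ν ∨ ∃ i, (i :: ν) <:+ κ := by
  obtain ⟨μ, rfl⟩ := h
  rcases List.eq_nil_or_concat μ with rfl | ⟨μ', i, rfl⟩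
  · left; rfl
  · right; exact ⟨i, μ', by simp⟩

lemma suff_self_ne (i : Idx) (ν : List Idx) : ¬ (i :: ν) <:+ ν := by
  intro h
  have := h.length_le
  simp at this

lemma G_child {i : Idx} {ν : List Idx} {p : E3} (h : p ∈ (node (i :: ν)).B) :
    G ν p = (St ν).Δ p + G (i :: ν) p := by
  have hs : G ν p - G (i :: ν) p = (St ν).Δ p := by
    unfold G
    rw [← (T_summable ν p).tsum_sub (T_summable (i :: ν) p)]
    rw [tsum_eq_single ν]
    · unfold Tm
      rw [if_pos (List.suffix_rfl), if_neg (suff_self_ne i ν), sub_zero]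
    · intro κ hκ
      unfold Tm
      by_cases h1 : (i :: ν) <:+ κ
      · rw [if_pos ((List.suffix_cons i ν).trans h1), if_pos h1, sub_self]
      · rw [if_neg h1, sub_zero]
        split_ifs with h2
        · rcases suff_cases h2 with e | ⟨j, hj⟩
          · exact absurd e hκ
          · have hij : j ≠ i := by
              rintro rfl; exact h1 hj
            apply (St κ).zero
            intro hp
            have hpj : p ∈ (node (j :: ν)).B := (node_sub hj).1 hp
            exact Set.disjoint_left.1 ((St ν).disj j i hij) hpj h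
        · rfl
  rw [← hs]; abel

lemma G_none {ν : List Idx} {p : E3} (h : ∀ i, p ∉ (node (i :: ν)).B) : G ν p = (St ν).Δ p := by
  unfold G
  rw [tsum_eq_single ν]
  · unfold Tm
    rw [if_pos (List.suffix_rfl)]
  · intro κ hκ
    unfold Tm
    split_ifs with h2
    · rcases suff_cases h2 with e | ⟨j, hj⟩
      · exact absurd e hκ
      · apply (St κ).zero
        intro hp
        exact h j ((node_sub hj).1 hp)
    · rfl

lemma nn_le {n : ℝ × ℝ} (h : |n.1| + |n.2| ≤ 1) (w : ℝ × ℝ) : |nn n w| ≤ ‖w‖ := by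
  refine (nn_abs n w).trans ?_
  have := norm_nonneg w
  nlinarith

def gg (ν : List Idx) (p : E3) : ℝ := nn (St ν).n (G ν p)

lemma gg_cont (ν : List Idx) : Continuous (gg ν) := (nn_cont _).comp (G_cont ν)

lemma gg_zero {ν : List Idx} {p : E3} (h : p ∉ (node ν).B) : gg ν p = 0 := by
  unfold gg
  rw [G_zero h]; simp [nn]

lemma nn_add (n v w : ℝ × ℝ) : nn n (v + w) = nn n v + nn n w := by simp [nn]; ring
lemma nn_sub (n v w : ℝ × ℝ) : nn n (v - w) = nn n v - nn n w := by simp [nn]; ring
lemma nn_smul (n w : ℝ × ℝ) (x : ℝ) : nn n (x • w) = x * nn n w := by simp [nn]; ring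

lemma gg_pos {ν : List Idx} {p : E3} (h : p ∈ (node ν).B) : 0 < gg ν p := by
  unfold gg
  by_cases hc : ∃ i, p ∈ (node (i :: ν)).B
  · obtain ⟨i, hi⟩ := hc
    rw [G_child hi, nn_add]
    have h1 := ((St ν).marg i).2 p hi
    rw [← node_cons] at h1
    have h2 := (nn_le (St ν).n1 (G (i :: ν) p)).trans (G_bd _ _)
    have h3 := (abs_le.1 h2).1
    have h4 := (node (i :: ν)).M0
    linarith
  · push Not at hc
    rw [G_none hc]
    exact (St ν).pos p h

def hh (p : E3) : ℝ × ℝ := (node []).aff p + G [] p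

lemma hh_cont : Continuous hh := by
  have : Continuous (node []).aff := by
    unfold Nd.aff
    exact continuous_const.add ((lin_cont _ _).smul continuous_const)
  exact this.add (G_cont _)

lemma hh_eq {ν : List Idx} {p : E3} (h : p ∈ (node ν).B) : hh p = (node ν).aff p + G ν p := by
  induction ν with
  | nil => rfl
  | cons i ν ih =>
    have h1 : p ∈ (node ν).B := (St ν).sub i h
    rw [ih h1, G_child h]
    have := (St ν).agree i p h
    rw [node_cons, this]
    abel

def psi (ν : List Idx) (w : ℝ × ℝ) : ℝ := max 0 (nn (St ν).n (w - (node ν).a))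

lemma psi_nonneg (ν : List Idx) (w : ℝ × ℝ) : 0 ≤ psi ν w := le_max_left _ _

lemma psi_lip (ν : List Idx) (w w' : ℝ × ℝ) : |psi ν w - psi ν w'| ≤ ‖w - w'‖ := by
  have h1 := nn_le (St ν).n1 (w - w')
  have h2 : nn (St ν).n (w - w') = nn (St ν).n (w - (node ν).a) - nn (St ν).n (w' - (node ν).a) := by
    simp only [nn_sub]; ring
  refine le_trans ?_ h1
  rw [h2]
  unfold psi
  have := abs_max_sub_max_le_abs (nn (St ν).n (w - (node ν).a)) (nn (St ν).n (w' - (node ν).a)) 0
  rwa [max_comm 0, max_comm 0]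

lemma psi_cont (ν : List Idx) : Continuous (psi ν) := by
  unfold psi
  exact continuous_const.max ((nn_cont _).comp (continuous_id.sub continuous_const))

lemma gg_psi {ν : List Idx} {p : E3} (h : p ∈ (node ν).B) : gg ν p = psi ν (hh p) := by
  have h1 : nn (St ν).n (hh p - (node ν).a) = gg ν p := by
    rw [hh_eq h]
    unfold gg Nd.aff
    simp only [nn_sub, nn_add, nn_smul]
    rw [(St ν).nb]; ring
  unfold psi
  rw [h1, max_eq_right (gg_pos h).le]

lemma gg_or (ν : List Idx) (p : E3) : gg ν p = 0 ∨ gg ν p = psi ν (hh p) := by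
  by_cases h : p ∈ (node ν).B
  · exact Or.inr (gg_psi h)
  · exact Or.inl (gg_zero h)

lemma mem_of_gg {ν : List Idx} {p : E3} (h : 0 < gg ν p) : p ∈ (node ν).B := by
  by_contra hc
  rw [gg_zero hc] at h
  exact lt_irrefl _ h

/-- all bad planes -/
def bad : Set (E3 × ℝ) :=
  (⋃ ν : List Idx, (St ν).P) ∪ Set.range (fun x : Fin 3 × ℚ => (ev x.1, (x.2:ℝ)))

lemma bad_countable : bad.Countable :=
  (Set.countable_iUnion fun ν => (St ν).Pc).union (Set.countable_range _)

lemma bad_ne {q : E3 × ℝ} (h : q ∈ bad) : q.1 ≠ 0 := by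
  rcases h with h | ⟨x, rfl⟩
  · obtain ⟨ν, hν⟩ := Set.mem_iUnion.1 h
    exact (St ν).Pn q hν
  · intro h0
    have := congrFun h0 x.1
    simp [ev_self] at this

def Cube : Set E3 := {x | ∀ i, 0 ≤ x i ∧ x i ≤ 1}

lemma inj_aux {p : E3} (hp : p ∈ Cube) (hb : ∀ q ∈ bad, lin q.1 q.2 p ≠ 0) (n : ℕ) :
    ∃ ν : List Idx, ν.length = n ∧ p ∈ (node ν).B := by
  induction n with
  | zero =>
    refine ⟨[], rfl, ?_⟩
    show p ∈ ball (fun _ => (1/2:ℝ)) (1/2)
    rw [mem_ball, dist_pi_lt_iff (by norm_num)]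
    intro i
    have h0 : p i ≠ 0 := by
      have := hb (ev i, ((0:ℚ):ℝ)) (Or.inr ⟨(i, 0), rfl⟩)
      simpa [lin_ev] using this
    have h1 : p i ≠ 1 := by
      have := hb (ev i, ((-1:ℚ):ℝ)) (Or.inr ⟨(i, -1), rfl⟩)
      simp only [lin_ev] at this
      intro e
      apply this
      rw [e]; push_cast; norm_num
    have h2 : 0 < p i := lt_of_le_of_ne (hp i).1 h0.symm
    have h3 : p i < 1 := lt_of_le_of_ne (hp i).2 h1
    rw [Real.dist_eq, abs_lt]
    constructor <;> linarith
  | succ n ih =>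
    obtain ⟨ν, hν, hp'⟩ := ih
    have : ∃ i, p ∈ (node (i :: ν)).B := by
      by_contra hc
      push Not at hc
      obtain ⟨q, hq, hq0⟩ := (St ν).cover p hp' hc
      exact hb q (Or.inl (Set.mem_iUnion.2 ⟨ν, hq⟩)) hq0
    obtain ⟨i, hi⟩ := this
    exact ⟨i :: ν, by simp [hν], hi⟩

theorem inj_off {p p' : E3} (hp : p ∈ Cube) (hb : ∀ q ∈ bad, lin q.1 q.2 p ≠ 0)
    (hg : ∀ ν, gg ν p = gg ν p') : p = p' := by
  rw [← dist_le_zero]
  refine le_of_forall_pos_lt_add fun ε hε => ?_
  obtain ⟨n, hn⟩ := exists_pow_lt_of_lt_one hε (by norm_num : (1/2:ℝ) < 1)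
  obtain ⟨ν, hν, hpν⟩ := inj_aux hp hb n
  have hpν' : p' ∈ (node ν).B := mem_of_gg (by rw [← hg]; exact gg_pos hpν)
  have h1 : dist p (node ν).c < (node ν).r := hpν
  have h2 : dist p' (node ν).c < (node ν).r := hpν'
  have h3 := node_rad ν
  rw [hν, pow_succ] at h3
  have h4 := dist_triangle_right p p' (node ν).c
  linarith

end

end Pool.Agent.Helper93.Be
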