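import Pool.Agent.Helper93.BeF

set_option autoImplicit false

namespace Pool.Agent.Helper93.Be

open Filter Topology Metric

noncomputable section

/-! tiles of the plane -/

def tα : Fin 4 → ℝ := ![0, -1/8, 1/8, -1/4]
def tβ : Fin 4 → ℝ := ![1, 1/8, 7/8, 1/4]
def tγ : Fin 4 → ℝ := ![0, 1/8, -1/8, -1/4]
def tδ : Fin 4 → ℝ := ![1, 7/8, 1/8, 1/4]
def cls : Fin 4 → Fin 3 := ![0, 1, 1, 2]

abbrev TT := Fin 4 × ℤ × ℤ

def tl (s : ℝ) (t : TT) : Set (ℝ × ℝ) :=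
  {w | (t.2.1 + tα t.1 < w.1/s ∧ w.1/s < t.2.1 + tβ t.1) ∧ (t.2.2 + tγ t.1 < w.2/s ∧ w.2/s < t.2.2 + tδ t.1)}

lemma tl_open (s : ℝ) (t : TT) : IsOpen (tl s t) := by
  unfold tl
  have c1 : Continuous fun w : ℝ × ℝ => w.1/s := by fun_prop
  have c2 : Continuous fun w : ℝ × ℝ => w.2/s := by fun_prop
  exact ((isOpen_lt continuous_const c1).inter (isOpen_lt c1 continuous_const)).inter
    ((isOpen_lt continuous_const c2).inter (isOpen_lt c2 continuous_const))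

lemma t_width (a : Fin 4) : tβ a - tα a ≤ 1 ∧ tδ a - tγ a ≤ 1 := by
  fin_cases a <;> simp [tα, tβ, tγ, tδ] <;> norm_num

lemma tl_diam {s : ℝ} (hs : 0 < s) {t : TT} {w w' : ℝ × ℝ} (h : w ∈ tl s t) (h' : w' ∈ tl s t) :
    ‖w - w'‖ ≤ s := by
  obtain ⟨⟨a1, a2⟩, a3, a4⟩ := h
  obtain ⟨⟨b1, b2⟩, b3, b4⟩ := h'
  have hw := t_width t.1
  have e1 : w.1 = s * (w.1/s) := by field_simp
  have e2 : w.2 = s * (w.2/s) := by field_simp
  have e3 : w'.1 = s * (w'.1/s) := by field_simp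
  have e4 : w'.2 = s * (w'.2/s) := by field_simp
  rw [Prod.norm_def, Prod.fst_sub, Prod.snd_sub, Real.norm_eq_abs, Real.norm_eq_abs]
  refine max_le ?_ ?_
  · rw [e1, e3, ← mul_sub, abs_mul, abs_of_pos hs]
    have : |w.1/s - w'.1/s| ≤ 1 := by rw [abs_le]; constructor <;> linarith [hw.1]
    nlinarith
  · rw [e2, e4, ← mul_sub, abs_mul, abs_of_pos hs]
    have : |w.2/s - w'.2/s| ≤ 1 := by rw [abs_le]; constructor <;> linarith [hw.2]
    nlinarith

lemma int_eq {x α β : ℝ} (h : β - α ≤ 1) {i j : ℤ} (h1 : i + α < x) (h2 : x < i + β)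
    (h3 : j + α < x) (h4 : x < j + β) : i = j := by
  have a1 : (i:ℝ) < j + 1 := by linarith
  have a2 : (j:ℝ) < i + 1 := by linarith
  have b1 : i < j + 1 := by exact_mod_cast a1
  have b2 : j < i + 1 := by exact_mod_cast a2
  omega

lemma tl_same {s : ℝ} {a : Fin 4} {m m' : ℤ × ℤ} {w : ℝ × ℝ} (h : w ∈ tl s (a, m)) (h' : w ∈ tl s (a, m')) :
    m = m' := by
  obtain ⟨⟨a1, a2⟩, a3, a4⟩ := h
  obtain ⟨⟨b1, b2⟩, b3, b4⟩ := h'
  have hw := t_width a
  exact Prod.ext (int_eq hw.1 a1 a2 b1 b2) (int_eq hw.2 a3 a4 b3 b4)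

lemma tl_12 {s : ℝ} {m m' : ℤ × ℤ} {w : ℝ × ℝ} (h : w ∈ tl s (1, m)) (h' : w ∈ tl s (2, m')) : False := by
  obtain ⟨⟨a1, a2⟩, a3, a4⟩ := h
  obtain ⟨⟨b1, b2⟩, b3, b4⟩ := h'
  simp [tα, tβ] at a1 a2 b1 b2
  have c1 : (m'.1:ℝ) < m.1 := by linarith
  have c2 : (m.1:ℝ) < m'.1 + 1 := by linarith
  have d1 : m'.1 < m.1 := by exact_mod_cast c1
  have d2 : m.1 < m'.1 + 1 := by exact_mod_cast c2
  omega

lemma tl_uniq {s : ℝ} {t t' : TT} {w : ℝ × ℝ} (h : w ∈ tl s t) (h' : w ∈ tl s t') (hc : cls t.1 = cls t'.1) :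
    t = t' := by
  obtain ⟨a, m⟩ := t
  obtain ⟨a', m'⟩ := t'
  have key : a = a' → (a, m) = (a', m') := by
    rintro rfl
    rw [tl_same h h']
  fin_cases a <;> fin_cases a' <;> first
    | exact key rfl
    | exact (tl_12 h h').elim
    | exact (tl_12 h' h).elim
    | (exfalso; revert hc; simp [cls])

lemma tl_cover (s : ℝ) (w : ℝ × ℝ) : ∃ t, w ∈ tl s t := by
  have x1 := Int.floor_le (w.1/s)
  have x2 := Int.lt_floor_add_one (w.1/s)
  have y1 := Int.floor_le (w.2/s)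
  have y2 := Int.lt_floor_add_one (w.2/s)
  set i := ⌊w.1/s⌋ with hi
  set j := ⌊w.2/s⌋ with hj
  rcases x1.lt_or_eq with hx | hx
  · rcases y1.lt_or_eq with hy | hy
    · refine ⟨(0, i, j), ⟨?_, ?_⟩, ?_, ?_⟩ <;> simp [tα, tβ, tγ, tδ] <;> linarith
    · rcases le_or_gt (w.1/s) (i + 1/8) with h | h
      · refine ⟨(3, i, j), ⟨?_, ?_⟩, ?_, ?_⟩ <;> simp [tα, tβ, tγ, tδ] <;> linarith
      · rcases le_or_gt (i + 7/8 : ℝ) (w.1/s) with h' | h'
        · refine ⟨(3, i + 1, j), ⟨?_, ?_⟩, ?_, ?_⟩ <;> simp [tα, tβ, tγ, tδ] <;> linarith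
        · refine ⟨(2, i, j), ⟨?_, ?_⟩, ?_, ?_⟩ <;> simp [tα, tβ, tγ, tδ] <;> linarith
  · rcases le_or_gt (w.2/s) (j + 1/8) with h | h
    · refine ⟨(3, i, j), ⟨?_, ?_⟩, ?_, ?_⟩ <;> simp [tα, tβ, tγ, tδ] <;> linarith
    · rcases le_or_gt (j + 7/8 : ℝ) (w.2/s) with h' | h'
      · refine ⟨(3, i, j + 1), ⟨?_, ?_⟩, ?_, ?_⟩ <;> simp [tα, tβ, tγ, tδ] <;> linarith
      · refine ⟨(1, i, j), ⟨?_, ?_⟩, ?_, ?_⟩ <;> simp [tα, tβ, tγ, tδ] <;> linarith

/-! the target space -/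

@[instance_reducible]
def seqMetric : MetricSpace (List Idx → ℝ) := PiCountable.metricSpace

attribute [local instance] seqMetric

def YY : Type := {y : (ℝ × ℝ) × (List Idx → ℝ) // ∀ ν, y.2 ν = 0 ∨ y.2 ν = psi ν y.1}

instance : MetricSpace YY :=
  inferInstanceAs (MetricSpace {y : (ℝ × ℝ) × (List Idx → ℝ) // ∀ ν, y.2 ν = 0 ∨ y.2 ν = psi ν y.1})

def prW (y : YY) : ℝ × ℝ := y.1.1
def prX (ν : List Idx) (y : YY) : ℝ := y.1.2 ν

lemma prW_cont : Continuous prW := by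
  have : Continuous fun y : {y : (ℝ × ℝ) × (List Idx → ℝ) // ∀ ν, y.2 ν = 0 ∨ y.2 ν = psi ν y.1} => y.1.1 :=
    continuous_fst.comp continuous_subtype_val
  exact this

lemma prX_cont (ν : List Idx) : Continuous (prX ν) := by
  have : Continuous fun y : {y : (ℝ × ℝ) × (List Idx → ℝ) // ∀ ν, y.2 ν = 0 ∨ y.2 ν = psi ν y.1} => y.1.2 ν :=
    (continuous_apply ν).comp (continuous_snd.comp continuous_subtype_val)
  exact this

def ff (p : E3) : YY := ⟨(hh p, fun ν => gg ν p), fun ν => gg_or ν p⟩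

lemma ff_cont : Continuous ff := by
  have : Continuous fun p : E3 => (⟨(hh p, fun ν => gg ν p), fun ν => gg_or ν p⟩ :
      {y : (ℝ × ℝ) × (List Idx → ℝ) // ∀ ν, y.2 ν = 0 ∨ y.2 ν = psi ν y.1}) :=
    Continuous.subtype_mk (hh_cont.prodMk (continuous_pi fun ν => gg_cont ν)) _
  exact this

lemma YY_dist (a b : YY) : dist a b = max (dist (prW a) (prW b))
    (∑' ν, min (2⁻¹ ^ Encodable.encode ν) (dist (prX ν a) (prX ν b))) := rfl

lemma prX_or (ν : List Idx) (y : YY) : prX ν y = 0 ∨ prX ν y = psi ν (prW y) := y.2 ν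

def act (s : ℝ) (t : TT) (ν : List Idx) : Prop := ∀ w ∈ tl s t, 0 < psi ν w

def UU (s : ℝ) (F : Finset (List Idx)) (tp : TT × Set (List Idx)) : Set YY :=
  {y | prW y ∈ tl s tp.1 ∧ (∀ ν ∈ F, act s tp.1 ν →
    (ν ∈ tp.2 → psi ν (prW y) / 2 < prX ν y) ∧ (ν ∉ tp.2 → prX ν y < psi ν (prW y) / 2)) ∧
    ∀ ν ∈ tp.2, ν ∈ F ∧ act s tp.1 ν}

lemma UU_open (s : ℝ) (F : Finset (List Idx)) (tp : TT × Set (List Idx)) : IsOpen (UU s F tp) := by
  unfold UU
  refine ((tl_open s tp.1).preimage prW_cont).inter (IsOpen.inter ?_ isOpen_const)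
  have : {y : YY | ∀ ν ∈ F, act s tp.1 ν →
      (ν ∈ tp.2 → psi ν (prW y) / 2 < prX ν y) ∧ (ν ∉ tp.2 → prX ν y < psi ν (prW y) / 2)} =
      ⋂ ν ∈ F, {y : YY | act s tp.1 ν →
      (ν ∈ tp.2 → psi ν (prW y) / 2 < prX ν y) ∧ (ν ∉ tp.2 → prX ν y < psi ν (prW y) / 2)} := by
    ext y; simp
  suffices h : IsOpen (⋂ ν ∈ F, {y : YY | act s tp.1 ν →
      (ν ∈ tp.2 → psi ν (prW y) / 2 < prX ν y) ∧ (ν ∉ tp.2 → prX ν y < psi ν (prW y) / 2)}) by
    rw [← this] at h; exact h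
  refine isOpen_biInter_finset fun ν _ => ?_
  have c1 : Continuous fun y => psi ν (prW y) / 2 := ((psi_cont ν).comp prW_cont).div_const 2
  by_cases h1 : act s tp.1 ν
  · by_cases h2 : ν ∈ tp.2
    · simp only [h1, h2, forall_const, not_true_eq_false, IsEmpty.forall_iff, and_true]
      exact isOpen_lt c1 (prX_cont ν)
    · simp only [h1, h2, forall_const, not_false_eq_true, IsEmpty.forall_iff, true_and]
      exact isOpen_lt (prX_cont ν) c1
  · simp only [h1, IsEmpty.forall_iff]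
    exact isOpen_univ

lemma UU_close {s : ℝ} (hs : 0 < s) {F : Finset (List Idx)} {tp : TT × Set (List Idx)} {a b : YY}
    (ha : a ∈ UU s F tp) (hb : b ∈ UU s F tp) : ∀ ν ∈ F, dist (prX ν a) (prX ν b) ≤ s := by
  intro ν hν
  have hd := tl_diam hs ha.1 hb.1
  have a0 := prX_or ν a
  have b0 := prX_or ν b
  rw [Real.dist_eq]
  by_cases h1 : act s tp.1 ν
  · have pa := h1 _ ha.1
    have pb := h1 _ hb.1
    by_cases h2 : ν ∈ tp.2
    · have qa := (ha.2.1 ν hν h1).1 h2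
      have qb := (hb.2.1 ν hν h1).1 h2
      rcases a0 with a0 | a0
      · rw [a0] at qa; linarith
      rcases b0 with b0 | b0
      · rw [b0] at qb; linarith
      rw [a0, b0]
      exact (psi_lip ν _ _).trans hd
    · have qa := (ha.2.1 ν hν h1).2 h2
      have qb := (hb.2.1 ν hν h1).2 h2
      rcases a0 with a0 | a0
      · rcases b0 with b0 | b0
        · rw [a0, b0]; simpa using hs.le
        · rw [b0] at qb; linarith
      · rw [a0] at qa; linarith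
  · unfold act at h1
    push Not at h1
    obtain ⟨w, hw, hw0⟩ := h1
    have hw1 : psi ν w = 0 := le_antisymm hw0 (psi_nonneg ν w)
    have ka := (psi_lip ν (prW a) w).trans (tl_diam hs ha.1 hw)
    have kb := (psi_lip ν (prW b) w).trans (tl_diam hs hb.1 hw)
    rw [hw1, sub_zero] at ka kb
    have ka' := (abs_le.1 ka).2
    have kb' := (abs_le.1 kb).2
    have na := psi_nonneg ν (prW a)
    have nb := psi_nonneg ν (prW b)
    rw [abs_le]
    rcases a0 with a0 | a0 <;> rcases b0 with b0 | b0 <;> rw [a0, b0] <;> constructor <;> linarith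

lemma UU_cover (s : ℝ) (F : Finset (List Idx)) (y : YY) : ∃ tp, y ∈ UU s F tp := by
  obtain ⟨t, ht⟩ := tl_cover s (prW y)
  refine ⟨(t, {ν | (ν ∈ F ∧ act s t ν) ∧ 0 < prX ν y}), ht, fun ν hν ha => ⟨?_, ?_⟩, fun ν h => h.1⟩
  · rintro ⟨_, h⟩
    have hp := ha _ ht
    rcases prX_or ν y with h0 | h0
    · rw [h0] at h; exact absurd h (lt_irrefl _)
    · rw [h0]; linarith
  · intro h
    have hp := ha _ ht
    rcases prX_or ν y with h0 | h0
    · rw [h0]; linarith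
    · exact absurd ⟨⟨hν, ha⟩, by rw [h0]; exact hp⟩ h

lemma UU_uniq {s : ℝ} {F : Finset (List Idx)} {tp tp' : TT × Set (List Idx)} {y : YY}
    (h : y ∈ UU s F tp) (h' : y ∈ UU s F tp') (hc : cls tp.1.1 = cls tp'.1.1) : tp = tp' := by
  obtain ⟨t, π⟩ := tp
  obtain ⟨t', π'⟩ := tp'
  have ht : t = t' := tl_uniq h.1 h'.1 hc
  subst ht
  have : π = π' := by
    ext ν
    constructor
    · intro hν
      obtain ⟨h1, h2⟩ := h.2.2 ν hν
      by_contra hn
      have k1 := (h.2.1 ν h1 h2).1 hν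
      have k2 := (h'.2.1 ν h1 h2).2 hn
      linarith
    · intro hν
      obtain ⟨h1, h2⟩ := h'.2.2 ν hν
      by_contra hn
      have k1 := (h'.2.1 ν h1 h2).1 hν
      have k2 := (h.2.1 ν h1 h2).2 hn
      linarith
  rw [this]

theorem YY_cover {K : Set YY} (hK : IsCompact K) {ε : ℝ} (hε : 0 < ε) :
    ∃ (n : ℕ) (U : Fin n → Set YY), (∀ j, IsOpen (U j)) ∧
      (∀ j, ∀ a ∈ U j, ∀ b ∈ U j, dist a b < ε) ∧ K ⊆ ⋃ j, U j ∧
      ∀ y ∈ K, {j : Fin n | y ∈ U j}.ncard ≤ 3 := by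
  have hsum : Summable fun ν : List Idx => (2⁻¹:ℝ)^Encodable.encode ν := by
    simpa [one_div] using summable_geometric_two_encode (ι := List Idx)
  obtain ⟨F, hF⟩ := ((tendsto_order.1 (tendsto_tsum_compl_atTop_zero
    (fun ν : List Idx => (2⁻¹:ℝ)^Encodable.encode ν))).2 (ε/2) (by positivity)).exists
  set s : ℝ := ε / (2*(F.card+1)) with hs
  have hs0 : 0 < s := by positivity
  have hs1 : F.card * s < ε/2 := by
    rw [hs]
    have : (0:ℝ) < F.card + 1 := by positivity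
    rw [mul_div_assoc', div_lt_div_iff₀ (by positivity) (by positivity)]
    nlinarith
  have hs2 : s < ε := by
    rw [hs, div_lt_iff₀ (by positivity)]
    have : (0:ℝ) ≤ F.card := by positivity
    nlinarith
  have hdist : ∀ tp, ∀ a ∈ UU s F tp, ∀ b ∈ UU s F tp, dist a b < ε := by
    intro tp a ha b hb
    rw [YY_dist]
    refine max_lt ?_ ?_
    · rw [dist_eq_norm]
      exact (tl_diam hs0 ha.1 hb.1).trans_lt hs2
    · have hsm : Summable fun ν : List Idx => min ((2⁻¹:ℝ)^Encodable.encode ν) (dist (prX ν a) (prX ν b)) :=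
        Summable.of_nonneg_of_le (fun ν => le_min (by positivity) dist_nonneg) (fun ν => min_le_left _ _) hsum
      rw [← hsm.sum_add_tsum_compl (s := F)]
      have h1 : ∑ ν ∈ F, min ((2⁻¹:ℝ)^Encodable.encode ν) (dist (prX ν a) (prX ν b)) ≤ F.card * s := by
        rw [← nsmul_eq_mul]
        exact Finset.sum_le_card_nsmul _ _ _ fun ν hν => (min_le_right _ _).trans (UU_close hs0 ha hb ν hν)
      have h2 : ∑' ν : ((F : Set (List Idx))ᶜ : Set (List Idx)),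
          min ((2⁻¹:ℝ)^Encodable.encode (ν : List Idx)) (dist (prX ν a) (prX ν b)) ≤
          ∑' ν : {ν // ν ∉ F}, (2⁻¹:ℝ)^Encodable.encode (ν : List Idx) :=
        Summable.tsum_le_tsum (fun ν => min_le_left _ _) (hsm.subtype _) (hsum.subtype _)
      linarith
  obtain ⟨A, hA⟩ := hK.elim_finite_subcover (UU s F) (fun tp => UU_open s F tp)
    (fun y _ => Set.mem_iUnion.2 (UU_cover s F y))
  refine ⟨A.card, fun j => UU s F (A.equivFin.symm j), fun j => UU_open _ _ _, fun j => hdist _, ?_, ?_⟩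
  · intro y hy
    obtain ⟨tp, htp, hy'⟩ := Set.mem_iUnion₂.1 (hA hy)
    refine Set.mem_iUnion.2 ⟨A.equivFin ⟨tp, htp⟩, ?_⟩
    simpa using hy'
  · intro y _
    have := Set.ncard_le_ncard_of_injOn (s := {j : Fin A.card | y ∈ UU s F (A.equivFin.symm j)})
      (t := (Set.univ : Set (Fin 3))) (fun j => cls ((A.equivFin.symm j).1.1.1)) (fun _ _ => Set.mem_univ _)
      (fun i hi j hj h => by
        have := UU_uniq hi hj h
        exact A.equivFin.symm.injective (Subtype.ext this)) Set.finite_univ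
    rw [Set.ncard_univ] at this
    simpa using this

/-! planes -/

def phi (u : E3) : E3 →ₗ[ℝ] ℝ where
  toFun p := u 0 * p 0 + u 1 * p 1 + u 2 * p 2
  map_add' p q := by simp; ring
  map_smul' c p := by simp; ring

lemma phi_ev (u : E3) (i : Fin 3) : phi u (ev i) = u i := by
  fin_cases i <;> simp [phi, ev]

lemma phi_surj {u : E3} (hu : u ≠ 0) : Function.Surjective (phi u) := by
  obtain ⟨i, hi⟩ := Function.ne_iff.1 hu
  intro x
  refine ⟨(x / u i) • ev i, ?_⟩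
  rw [map_smul, phi_ev, smul_eq_mul]
  have : u i ≠ 0 := hi
  field_simp

lemma exists_plane {q : E3 × ℝ} (hq : q.1 ≠ 0) : ∃ P : AffineSubspace ℝ E3,
    Module.finrank ℝ P.direction = 2 ∧ ∀ p, lin q.1 q.2 p = 0 → p ∈ P := by
  obtain ⟨p0, hp0⟩ := phi_surj hq (-q.2)
  refine ⟨AffineSubspace.mk' p0 (LinearMap.ker (phi q.1)), ?_, ?_⟩
  · rw [AffineSubspace.direction_mk']
    have h1 := LinearMap.finrank_range_add_finrank_ker (phi q.1)
    rw [LinearMap.range_eq_top.2 (phi_surj hq), finrank_top, Module.finrank_self, Module.finrank_fin_fun] at h1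
    linarith
  · intro p hp
    rw [AffineSubspace.mem_mk', LinearMap.mem_ker, vsub_eq_sub, map_sub, hp0]
    have : phi q.1 p + q.2 = 0 := hp
    linarith

theorem main :
    ∃ (Y : Type) (_ : MetricSpace Y) (f : (Fin 3 → ℝ) → Y) (P : ℕ → AffineSubspace ℝ (Fin 3 → ℝ)),
      ContinuousOn f {x : Fin 3 → ℝ | ∀ i, 0 ≤ x i ∧ x i ≤ 1} ∧
      (∀ i, Module.finrank ℝ (P i).direction = 2) ∧
      (∀ y : Y, (f ⁻¹' {y} ∩ {x : Fin 3 → ℝ | ∀ i, 0 ≤ x i ∧ x i ≤ 1}).Nontrivial →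
        f ⁻¹' {y} ∩ {x : Fin 3 → ℝ | ∀ i, 0 ≤ x i ∧ x i ≤ 1} ⊆ ⋃ k, (P k : Set (Fin 3 → ℝ))) ∧
      (∀ ε : ℝ, ε > 0 → ∃ (n : ℕ) (U : Fin n → Set Y),
          (∀ j, IsOpen (U j)) ∧
          (∀ j, ∀ a ∈ U j, ∀ b ∈ U j, dist a b < ε) ∧
          f '' {x : Fin 3 → ℝ | ∀ i, 0 ≤ x i ∧ x i ≤ 1} ⊆ ⋃ j, U j ∧
          ∀ y ∈ f '' {x : Fin 3 → ℝ | ∀ i, 0 ≤ x i ∧ x i ≤ 1},
            {j : Fin n | y ∈ U j}.ncard ≤ 3) := by
  have hbn : bad.Nonempty := ⟨_, Or.inr ⟨(0, 0), rfl⟩⟩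
  obtain ⟨e, he⟩ := bad_countable.exists_eq_range hbn
  have he' : ∀ k, (e k).1 ≠ 0 := fun k => bad_ne (by rw [he]; exact ⟨k, rfl⟩)
  choose P hP1 hP2 using fun k => exists_plane (he' k)
  refine ⟨YY, inferInstance, ff, P, ff_cont.continuousOn, hP1, ?_, ?_⟩
  · intro y hy p hp
    by_contra hc
    obtain ⟨p', hp', hne⟩ := hy.exists_ne p
    apply hne
    symm
    refine inj_off hp.2 (fun q hq h0 => hc ?_) (fun ν => ?_)
    · rw [he] at hq
      obtain ⟨k, rfl⟩ := hq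
      exact Set.mem_iUnion.2 ⟨k, hP2 k p h0⟩
    · have h1 : ff p = ff p' := (show ff p = y from hp.1).trans (show ff p' = y from hp'.1).symm
      exact congrArg (prX ν) h1
  · intro ε hε
    refine YY_cover ?_ hε
    have hcube : {x : Fin 3 → ℝ | ∀ i, 0 ≤ x i ∧ x i ≤ 1} = Set.Icc 0 1 := by
      ext x
      simp only [Set.mem_ofPred_eq, Set.mem_Icc, Pi.le_def, Pi.zero_apply, Pi.one_apply]
      exact forall_and
    rw [hcube]
    exact isCompact_Icc.image ff_cont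

end

end Pool.Agent.Helper93.Be
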