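import Pool.Agent.Helper93.JmDefs

set_option autoImplicit false

namespace Pool.Agent.Helper93.Jm

open Filter Topology Metric

noncomputable section


def ExAl (p : ℕ) : Prop := ∃ al : Fin (p+1) → ℝ → ℝ, (∀ i, Continuous (al i)) ∧
  (∀ i u, 0 ≤ al i u ∧ al i u ≤ 1) ∧
  (∀ i u, 0 < u → 0 < al i u → ⌊u⌋₊ % (p+1) ≠ i ∧ ∀ᶠ u' in 𝓝 u, nn p ⌊u'⌋₊ i = nn p ⌊u⌋₊ i) ∧
  (∀ u, 0 < u → {i | al i u ≠ 1}.ncard ≤ 3)

/-- the closed set of the intervals of the level changes of the coordinate `i` -/
def h399C (p : ℕ) (i : Fin (p+1)) : Set ℝ :=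
  {x : ℝ | ∃ l : ℤ, l % ((p : ℤ) + 1) = ((i : ℕ) : ℤ) ∧ (l : ℝ) ≤ x ∧ x ≤ l + 1}

/-- the cut-off functions -/
def h399al (p : ℕ) (i : Fin (p+1)) (u : ℝ) : ℝ := min 1 (2 * Metric.infDist u (h399C p i))

lemma h399nn (p m : ℕ) (i : Fin (p+1)) (h : m % (p+1) ≠ i) : nn p (m+1) i = nn p m i := by
  unfold nn
  have e : m + 1 + (p - (i : ℕ)) = (m + (p - (i : ℕ))) + 1 := by omega
  rw [e, Nat.succ_div_of_not_dvd]
  intro hd
  apply h
  have h1 : (m + (p - (i : ℕ)) + 1) % (p+1) = 0 := Nat.mod_eq_zero_of_dvd hd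
  have hi := i.2
  have h2 : m + (p+1) = (m + (p - (i : ℕ)) + 1) + i := by omega
  have h3 : (m + (p+1)) % (p+1) = m % (p+1) := Nat.add_mod_right _ _
  rw [← h3, h2, Nat.add_mod, h1, Nat.zero_add, Nat.mod_mod, Nat.mod_eq_of_lt hi]

lemma exists_al (p : ℕ) : ExAl p := by
  refine ⟨h399al p, fun i => ?_, fun i u => ?_, fun i u hu hpos => ?_, fun u hu => ?_⟩
  · exact continuous_const.min (continuous_const.mul (Metric.continuous_infDist_pt _))
  · exact ⟨le_min zero_le_one (mul_nonneg zero_le_two Metric.infDist_nonneg), min_le_left _ _⟩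
  · have hnot : u ∉ h399C p i := by
      intro h
      unfold h399al at hpos
      rw [Metric.infDist_zero_of_mem h, mul_zero, min_eq_right zero_le_one] at hpos
      exact lt_irrefl _ hpos
    have hk1 : ((⌊u⌋₊ : ℕ) : ℝ) ≤ u := Nat.floor_le hu.le
    have hk2 : u < (⌊u⌋₊ : ℕ) + 1 := Nat.lt_floor_add_one u
    refine ⟨fun h => hnot ⟨(⌊u⌋₊ : ℕ), ?_, ?_, ?_⟩, ?_⟩
    · rw [← h]
      push_cast
      rfl
    · push_cast
      exact hk1
    · push_cast
      exact hk2.le
    · rcases hk1.lt_or_eq with h | h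
      · filter_upwards [Ioo_mem_nhds h hk2] with u' hu'
        have : ⌊u'⌋₊ = ⌊u⌋₊ := by
          rw [Nat.floor_eq_iff (by
            have : (0:ℝ) ≤ (⌊u⌋₊ : ℕ) := Nat.cast_nonneg _
            linarith [hu'.1])]
          exact ⟨hu'.1.le, hu'.2⟩
        rw [this]
      · obtain ⟨m, hm⟩ : ∃ m, ⌊u⌋₊ = m + 1 := by
          have : ⌊u⌋₊ ≠ 0 := by
            intro h0
            rw [h0] at h
            rw [← h] at hu
            simp at hu
          exact ⟨⌊u⌋₊ - 1, by omega⟩
        have hum : u = m + 1 := by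
          rw [← h, hm]
          push_cast
          rfl
        have hmi : m % (p+1) ≠ i := by
          intro h'
          refine hnot ⟨(m : ℕ), ?_, ?_, ?_⟩
          · rw [← h']
            push_cast
            rfl
          · push_cast
            linarith
          · push_cast
            linarith
        rw [hm, h399nn p m i hmi]
        have c1 : (m : ℝ) < u := by linarith
        have c2 : u < m + 2 := by linarith
        filter_upwards [Ioo_mem_nhds c1 c2] with u' hu'
        have hm0 : (0:ℝ) ≤ m := Nat.cast_nonneg _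
        by_cases hc : (m : ℝ) + 1 ≤ u'
        · have : ⌊u'⌋₊ = m + 1 := by
            rw [Nat.floor_eq_iff (by linarith [hu'.1])]
            push_cast
            exact ⟨hc, by linarith [hu'.2]⟩
          rw [this, h399nn p m i hmi]
        · push Not at hc
          have : ⌊u'⌋₊ = m := by
            rw [Nat.floor_eq_iff (by linarith [hu'.1])]
            exact ⟨hu'.1.le, hc⟩
          rw [this]
  · have hq : (0 : ℤ) < (p : ℤ) + 1 := by positivity
    have hsub : {i | h399al p i u ≠ 1} ⊆
        (fun c : ℤ => (⟨(c % ((p : ℤ) + 1)).toNat, by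
          have h1 := Int.emod_nonneg c hq.ne'
          have h2 := Int.emod_lt_of_pos c hq
          omega⟩ : Fin (p+1))) '' (({⌊u⌋ - 1, ⌊u⌋, ⌊u⌋ + 1} : Finset ℤ) : Set ℤ) := by
      intro i hi
      have hi' : h399al p i u ≠ 1 := hi
      have h1 : 2 * Metric.infDist u (h399C p i) < 1 := by
        by_contra hcon
        push Not at hcon
        apply hi'
        unfold h399al
        exact min_eq_left hcon
      have hne : (h399C p i).Nonempty := by
        refine ⟨((i : ℕ) : ℝ), ((i : ℕ) : ℤ), ?_, ?_, ?_⟩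
        · refine Int.emod_eq_of_lt (by positivity) ?_
          have := i.2
          omega
        · push_cast
          exact le_rfl
        · push_cast
          linarith
      have h2 : Metric.infDist u (h399C p i) < 1/2 := by linarith
      rw [Metric.infDist_lt_iff hne] at h2
      obtain ⟨x, ⟨l, hl, hl1, hl2⟩, hx⟩ := h2
      rw [Real.dist_eq, abs_lt] at hx
      have f1 := Int.floor_le u
      have f2 := Int.lt_floor_add_one u
      have g1 : ⌊u⌋ - 1 ≤ l := by
        have : (⌊u⌋ : ℝ) - 2 < l := by linarith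
        have : ⌊u⌋ - 2 < l := by exact_mod_cast this
        omega
      have g2 : l ≤ ⌊u⌋ + 1 := by
        have : (l : ℝ) < ⌊u⌋ + 2 := by linarith
        have : l < ⌊u⌋ + 2 := by exact_mod_cast this
        omega
      refine ⟨l, ?_, ?_⟩
      · rw [Finset.mem_coe]
        simp only [Finset.mem_insert, Finset.mem_singleton]
        omega
      · refine Fin.ext ?_
        show (l % ((p : ℤ) + 1)).toNat = (i : ℕ)
        rw [hl]
        rfl
    refine (Set.ncard_le_ncard hsub (Set.toFinite _)).trans ?_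
    refine (Set.ncard_image_le (Finset.finite_toSet _)).trans ?_
    rw [Set.ncard_coe_finset]
    exact Finset.card_le_three

end

end Pool.Agent.Helper93.Jm
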