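import Pool.Agent.Helper93.JmDefs

set_option autoImplicit false

namespace Pool.Agent.Helper93.Jm

open Filter Topology Metric

noncomputable section


def h441LD {K : Type} [TopologicalSpace K] {q : ℕ} (H : K → Fin q → ℝ) (x : K) (i : Fin q) : Prop :=
  ∃ c : ℝ, Dy c ∧ ∀ᶠ z in 𝓝 x, H z i = c

lemma h441_open {K : Type} [TopologicalSpace K] {q : ℕ} (H : K → Fin q → ℝ) (i : Fin q) :
    IsOpen {x | h441LD H x i} := by
  rw [isOpen_iff_mem_nhds]
  rintro x ⟨c, hc, hx⟩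
  filter_upwards [eventually_eventually_nhds.mpr hx] with y hy
  exact ⟨c, hc, hy⟩

lemma h441_mu {K : Type} [MetricSpace K] {O : Set K} (hO : IsOpen O) :
    ∃ mu : K → ℝ, Continuous mu ∧ (∀ z, 0 ≤ mu z) ∧ (∀ z, mu z ≤ 1) ∧ ∀ z, 0 < mu z ↔ z ∈ O := by
  rcases (Oᶜ).eq_empty_or_nonempty with h | h
  · refine ⟨fun _ => 1, continuous_const, fun _ => zero_le_one, fun _ => le_rfl, fun z => ?_⟩
    have : O = Set.univ := Set.compl_empty_iff.mp h
    simp [this]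
  · refine ⟨fun z => min 1 (infDist z Oᶜ), ?_, fun z => le_min zero_le_one infDist_nonneg,
      fun z => min_le_left _ _, fun z => ?_⟩
    · exact continuous_const.min (continuous_infDist_pt _)
    · rw [lt_min_iff, ← hO.isClosed_compl.notMem_iff_infDist_pos h]
      simp

lemma h441_step {K : Type} [MetricSpace K] [CompactSpace K] {A : Set K} {p : ℕ}
    (h2 : ExS K A p) (H : K → Fin (p+1+1) → ℝ) (t : K → ℝ) (ht : Continuous t) (ht0 : ∀ z, 0 ≤ t z)
    (ht1 : ∀ z, t z ≤ 1) (k : ℕ) (hk : k < p + 2)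
    (hP : ∃ Hk : K → Fin (p+1+1) → ℝ, Continuous Hk ∧
      (∀ z i, |Hk z i - H z i| ≤ (k + 1) * (t z / (p + 3))) ∧
      ∀ x ∈ A, 0 < t x → (∃ a b, a ≠ b ∧ h441LD Hk x a ∧ h441LD Hk x b) ∨
        ∃ c : Fin (p+1+1), k ≤ c ∧ h441LD Hk x c) :
    ∃ Hk : K → Fin (p+1+1) → ℝ, Continuous Hk ∧
      (∀ z i, |Hk z i - H z i| ≤ ((k + 1 : ℕ) + 1) * (t z / (p + 3))) ∧
      ∀ x ∈ A, 0 < t x → (∃ a b, a ≠ b ∧ h441LD Hk x a ∧ h441LD Hk x b) ∨
        ∃ c : Fin (p+1+1), k + 1 ≤ c ∧ h441LD Hk x c := by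
  obtain ⟨Hk, hHc, hHb, hHA⟩ := hP
  have hp3 : (0 : ℝ) < p + 3 := by positivity
  obtain ⟨mu, hmc, hm0, hm1, hmO⟩ := h441_mu (h441_open Hk ⟨k, hk⟩)
  have hs0 : ∀ z, 0 ≤ t z / (p + 3) := fun z => div_nonneg (ht0 z) hp3.le
  have hHk : ∀ i, Continuous fun z => Hk z i := fun i => (continuous_pi_iff.mp hHc) i
  obtain ⟨h', hc', hb', hA', hl'⟩ := h2 (fun z j => Hk z (Fin.succAbove ⟨k, hk⟩ j))
    (fun z => min (t z / (p + 3)) (mu z)) (continuous_pi fun j => hHk _)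
    ((ht.div_const _).min hmc) (fun z => le_min (hs0 z) (hm0 z)) (fun z => (min_le_right _ _).trans (hm1 z))
  have hi1 : ∀ z, Fin.insertNth (α := fun _ => ℝ) (⟨k, hk⟩ : Fin (p+1+1)) (Hk z ⟨k, hk⟩) (h' z) ⟨k, hk⟩ =
    Hk z ⟨k, hk⟩ := fun z => Fin.insertNth_apply_same _ _ _
  have hi2 : ∀ z j, Fin.insertNth (α := fun _ => ℝ) (⟨k, hk⟩ : Fin (p+1+1)) (Hk z ⟨k, hk⟩) (h' z)
    (Fin.succAbove ⟨k, hk⟩ j) = h' z j := fun z j => Fin.insertNth_apply_succAbove _ _ _ _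
  refine ⟨fun z => Fin.insertNth (α := fun _ => ℝ) ⟨k, hk⟩ (Hk z ⟨k, hk⟩) (h' z), ?_, ?_, ?_⟩
  · apply continuous_pi
    intro c
    rcases Fin.eq_self_or_eq_succAbove (⟨k, hk⟩ : Fin (p+1+1)) c with rfl | ⟨j, rfl⟩
    · simp only [hi1]
      exact hHk _
    · simp only [hi2]
      exact (continuous_pi_iff.mp hc') j
  · intro z c
    have hz := hs0 z
    rcases Fin.eq_self_or_eq_succAbove (⟨k, hk⟩ : Fin (p+1+1)) c with rfl | ⟨j, rfl⟩
    · beta_reduce
      rw [hi1]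
      refine (hHb z _).trans ?_
      push_cast
      linarith
    · beta_reduce
      rw [hi2]
      have h3 := hHb z (Fin.succAbove ⟨k, hk⟩ j)
      have h4 : |h' z j - Hk z (Fin.succAbove ⟨k, hk⟩ j)| ≤ t z / (p + 3) :=
        (hb' z j).trans (min_le_left _ _)
      have h5 := abs_sub_le (h' z j) (Hk z (Fin.succAbove ⟨k, hk⟩ j)) (H z (Fin.succAbove ⟨k, hk⟩ j))
      push_cast
      linarith
  · intro x hxA hxt
    by_cases hxO : h441LD Hk x ⟨k, hk⟩
    · left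
      obtain ⟨j, c, hc, hj⟩ := hA' x hxA (lt_min (div_pos hxt hp3) ((hmO x).2 hxO))
      refine ⟨⟨k, hk⟩, Fin.succAbove ⟨k, hk⟩ j, (Fin.succAbove_ne _ _).symm, ?_, c, hc, ?_⟩
      · obtain ⟨c0, hc0, h0⟩ := hxO
        refine ⟨c0, hc0, ?_⟩
        filter_upwards [h0] with z hz
        rw [hi1]
        exact hz
      · filter_upwards [hj] with z hz
        rw [hi2]
        exact hz
    · have hsx : min (t x / (p + 3)) (mu x) = 0 := by
        have h6 : mu x = 0 := le_antisymm (not_lt.mp fun h => hxO ((hmO x).1 h)) (hm0 x)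
        rw [h6]
        exact min_eq_right (hs0 x)
      have hkeep : ∀ c, h441LD Hk x c → h441LD (fun z => Fin.insertNth (α := fun _ => ℝ) ⟨k, hk⟩
          (Hk z ⟨k, hk⟩) (h' z)) x c := by
        intro c hc
        rcases Fin.eq_self_or_eq_succAbove (⟨k, hk⟩ : Fin (p+1+1)) c with rfl | ⟨j, rfl⟩
        · exact absurd hc hxO
        · obtain ⟨c0, hc0, h0⟩ := hc
          refine ⟨c0, hc0, ?_⟩
          filter_upwards [hl' x j c0 hc0 hsx h0] with z hz
          rw [hi2]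
          exact hz
      rcases hHA x hxA hxt with ⟨a, b, hab, ha, hb⟩ | ⟨c, hkc, hc⟩
      · exact Or.inl ⟨a, b, hab, hkeep a ha, hkeep b hb⟩
      · refine Or.inr ⟨c, ?_, hkeep c hc⟩
        have : (c : ℕ) ≠ k := by
          intro h
          apply hxO
          have : c = ⟨k, hk⟩ := Fin.ext h
          rwa [this] at hc
        omega


/-- open sets are cozero sets -/
lemma exists_CR {K : Type} [MetricSpace K] [CompactSpace K] {A : Set K} {p : ℕ}
    (h1 : ExS K A (p+1)) (h2 : ExS K A p) : ExCR K A (p+1+1) := by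
  intro H t hH ht ht0 ht1
  have hp3 : (0 : ℝ) < p + 3 := by positivity
  have hmain : ∀ k : ℕ, k ≤ p + 2 → ∃ Hk : K → Fin (p+1+1) → ℝ, Continuous Hk ∧
      (∀ z i, |Hk z i - H z i| ≤ (k + 1) * (t z / (p + 3))) ∧
      ∀ x ∈ A, 0 < t x → (∃ a b, a ≠ b ∧ h441LD Hk x a ∧ h441LD Hk x b) ∨
        ∃ c : Fin (p+1+1), k ≤ c ∧ h441LD Hk x c := by
    intro k
    induction k with
    | zero =>
      intro _
      obtain ⟨H0, hc0, hb0, hA0, _⟩ := h1 H (fun z => t z / (p + 3)) hH (ht.div_const _)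
        (fun z => div_nonneg (ht0 z) hp3.le) (fun z => by
          rw [div_le_one hp3]
          have := ht1 z
          have : (0 : ℝ) ≤ p := Nat.cast_nonneg p
          linarith [ht1 z])
      refine ⟨H0, hc0, fun z i => ?_, fun x hx hxt => ?_⟩
      · push_cast
        rw [zero_add, one_mul]
        exact hb0 z i
      · right
        obtain ⟨i, c, hc, hi⟩ := hA0 x hx (div_pos hxt hp3)
        exact ⟨i, Nat.zero_le _, c, hc, hi⟩
    | succ k ih =>
      intro hk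
      exact h441_step h2 H t ht ht0 ht1 k (by omega) (ih (by omega))
  obtain ⟨H', hc', hb', hA'⟩ := hmain (p + 2) le_rfl
  refine ⟨H', hc', fun z i => ?_, fun x hx hxt => ?_⟩
  · refine (hb' z i).trans (le_of_eq ?_)
    push_cast
    field_simp
    ring
  · rcases hA' x hx hxt with ⟨a, b, hab, ⟨ca, _, ha⟩, ⟨cb, _, hb⟩⟩ | ⟨c, hc, _⟩
    · exact ⟨a, b, hab, ⟨ca, ha⟩, ⟨cb, hb⟩⟩
    · have := c.2
      omega

end

end Pool.Agent.Helper93.Jm
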