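import Pool.Agent.Helper93.JmDefs

set_option autoImplicit false

namespace Pool.Agent.Helper93.Jm

open Filter Topology Metric

noncomputable section



/-- annulus -/
def cvF {K : Type} (t : K → ℝ) (n : ℕ) : Set K := {z | (1/2 : ℝ) ^ (n+1) ≤ t z ∧ t z ≤ (1/2 : ℝ) ^ n}

structure CvP {K : Type} [TopologicalSpace K] (A : Set K) (t : K → ℝ) (U V : ℕ → Set K) : Prop where
  op : ∀ l, IsOpen (V l)
  sub : ∀ l, V l ⊆ U l
  pos : ∀ l, ∀ z ∈ V l, 0 < t z
  cov : ∀ z ∈ A, 0 < t z → ∃ l, z ∈ V l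

lemma cv_step {K : Type} [MetricSpace K] [CompactSpace K] {A : Set K} {m : ℕ} (hA : CP A m)
    (t : K → ℝ) (ht : Continuous t)
    (U : ℕ → Set K)
    (hfin : ∀ n : ℕ, {l | (U l ∩ {z | (1/2 : ℝ) ^ n ≤ t z}).Nonempty}.Finite)
    (n : ℕ) (V : ℕ → Set K) (hV : CvP A t U V) :
    ∃ V' : ℕ → Set K, CvP A t U V' ∧ (∀ l, V' l ⊆ V l) ∧
      (∀ l z, z ∉ cvF t n → z ∈ V l → z ∈ V' l) ∧
      (∀ z ∈ cvF t n, {l | z ∈ V' l}.ncard ≤ m + 1) := by
  classical
  have hFc : IsClosed (cvF t n) := by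
    have h1 : IsClosed {z | (1/2 : ℝ) ^ (n+1) ≤ t z} := isClosed_le continuous_const ht
    have h2 : IsClosed {z | t z ≤ (1/2 : ℝ) ^ n} := isClosed_le ht continuous_const
    exact h1.inter h2
  obtain ⟨M, hM⟩ := (hfin (n+1)).bddAbove
  have hM' : ∀ l z, z ∈ cvF t n → z ∈ V l → l < M + 1 := by
    intro l z hz hzl
    have : l ≤ M := hM ⟨z, hV.sub l hzl, hz.1⟩
    omega
  obtain ⟨W, hWo, hWs, hWc, hWn⟩ := hA (M + 2)
    (fun i => if (i : ℕ) < M + 1 then V i else (cvF t n)ᶜ)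
    (fun i => by
      by_cases h : (i : ℕ) < M + 1
      · simp only [h, if_true]; exact hV.op _
      · simp only [h, if_false]; exact hFc.isOpen_compl)
    (fun z hz => by
      rw [Set.mem_iUnion]
      by_cases hF : z ∈ cvF t n
      · have hpos : 0 < t z := lt_of_lt_of_le (by positivity) hF.1
        obtain ⟨l, hl⟩ := hV.cov z hz hpos
        have hlM := hM' l z hF hl
        refine ⟨⟨l, by omega⟩, ?_⟩
        simp only [hlM, if_true]
        exact hl
      · refine ⟨⟨M + 1, by omega⟩, ?_⟩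
        simp only [lt_irrefl, if_false]
        exact hF)
  have hWs1 : ∀ (i : Fin (M+2)), (i : ℕ) < M + 1 → W i ⊆ V i := by
    intro i hi
    have := hWs i
    simp only [hi, if_true] at this
    exact this
  have hWs2 : ∀ (i : Fin (M+2)), ¬ (i : ℕ) < M + 1 → W i ⊆ (cvF t n)ᶜ := by
    intro i hi
    have := hWs i
    simp only [hi, if_false] at this
    exact this
  set V' : ℕ → Set K := fun l => if h : l < M + 1 then W ⟨l, by omega⟩ ∪ (V l \ cvF t n) else V l with hV'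
  have hV'1 : ∀ l (h : l < M + 1), V' l = W ⟨l, by omega⟩ ∪ (V l \ cvF t n) := by
    intro l h; simp only [hV', h, dif_pos]
  have hV'2 : ∀ l, ¬ l < M + 1 → V' l = V l := by
    intro l h; simp only [hV', h, dif_neg, not_false_iff]
  have hsub : ∀ l, V' l ⊆ V l := by
    intro l
    by_cases h : l < M + 1
    · rw [hV'1 l h]
      exact Set.union_subset (hWs1 _ h) Set.diff_subset
    · rw [hV'2 l h]
  have hkeep : ∀ l z, z ∉ cvF t n → z ∈ V l → z ∈ V' l := by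
    intro l z hz hzl
    by_cases h : l < M + 1
    · rw [hV'1 l h]
      exact Or.inr ⟨hzl, hz⟩
    · rw [hV'2 l h]; exact hzl
  refine ⟨V', ⟨?_, fun l => (hsub l).trans (hV.sub l), fun l z hz => hV.pos l z (hsub l hz), ?_⟩, hsub, hkeep, ?_⟩
  · intro l
    by_cases h : l < M + 1
    · rw [hV'1 l h]
      exact (hWo _).union ((hV.op l).sdiff hFc)
    · rw [hV'2 l h]; exact hV.op l
  · intro z hz hpos
    by_cases hF : z ∈ cvF t n
    · have := hWc hz
      rw [Set.mem_iUnion] at this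
      obtain ⟨i, hi⟩ := this
      by_cases h : (i : ℕ) < M + 1
      · refine ⟨i, ?_⟩
        rw [hV'1 i h]
        exact Or.inl hi
      · exact absurd hF (hWs2 i h hi)
    · obtain ⟨l, hl⟩ := hV.cov z hz hpos
      exact ⟨l, hkeep l z hF hl⟩
  · intro z hz
    have h1 : {l | z ∈ V' l} ⊆ (fun i : Fin (M+2) => (i : ℕ)) '' {i : Fin (M+2) | z ∈ W i} := by
      intro l hl
      have hl' : z ∈ V' l := hl
      have hlM := hM' l z hz (hsub l hl')
      rw [hV'1 l hlM] at hl'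
      rcases hl' with hl' | hl'
      · exact ⟨⟨l, by omega⟩, hl', rfl⟩
      · exact absurd hz hl'.2
    calc {l | z ∈ V' l}.ncard ≤ ((fun i : Fin (M+2) => (i : ℕ)) '' {i : Fin (M+2) | z ∈ W i}).ncard :=
          Set.ncard_le_ncard h1 (Set.toFinite _)
      _ ≤ {i : Fin (M+2) | z ∈ W i}.ncard := Set.ncard_image_le (Set.toFinite _)
      _ ≤ m + 1 := hWn z

lemma cover_lemma {K : Type} [MetricSpace K] [CompactSpace K] {A : Set K} {m : ℕ} (hA : CP A m)
    (t : K → ℝ) (ht : Continuous t) (ht0 : ∀ z, 0 ≤ t z) (ht1 : ∀ z, t z ≤ 1)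
    (U : ℕ → Set K) (hU : ∀ l, IsOpen (U l)) (hcov : ∀ z, 0 < t z → ∃ l, z ∈ U l)
    (hfin : ∀ n : ℕ, {l | (U l ∩ {z | (1/2 : ℝ) ^ n ≤ t z}).Nonempty}.Finite) :
    ∃ V : ℕ → Set K, (∀ l, IsOpen (V l)) ∧ (∀ l, V l ⊆ U l) ∧ (∀ l, ∀ z ∈ V l, 0 < t z) ∧
      (∀ z ∈ A, 0 < t z → ∃ l, z ∈ V l) ∧
      ∀ z, {l | z ∈ V l}.Finite ∧ {l | z ∈ V l}.ncard ≤ m + 1 := by
  classical
  have hstart : CvP A t U (fun l => U l ∩ {z | 0 < t z}) :=
    ⟨fun l => (hU l).inter (isOpen_lt continuous_const ht), fun l => Set.inter_subset_left,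
      fun l z hz => hz.2, fun z _ hpos => by
        obtain ⟨l, hl⟩ := hcov z hpos
        exact ⟨l, hl, hpos⟩⟩
  choose f hf using fun (n : ℕ) (V : {V : ℕ → Set K // CvP A t U V}) =>
    cv_step hA t ht U hfin n V.1 V.2
  let sq : ℕ → {V : ℕ → Set K // CvP A t U V} := fun n =>
    Nat.rec ⟨_, hstart⟩ (fun n V => ⟨f n V, (hf n V).1⟩) n
  have hsq : ∀ n, (sq (n+1)).1 = f n (sq n) := fun n => rfl
  have hs1 : ∀ n l, (sq (n+1)).1 l ⊆ (sq n).1 l := by
    intro n l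
    rw [hsq]
    exact (hf n (sq n)).2.1 l
  have hs2 : ∀ n l z, z ∉ cvF t n → z ∈ (sq n).1 l → z ∈ (sq (n+1)).1 l := by
    intro n l z
    rw [hsq]
    exact (hf n (sq n)).2.2.1 l z
  have hs3 : ∀ n, ∀ z ∈ cvF t n, {l | z ∈ (sq (n+1)).1 l}.ncard ≤ m + 1 := by
    intro n z
    rw [hsq]
    exact (hf n (sq n)).2.2.2 z
  have hanti : ∀ l, Antitone (fun n => (sq n).1 l) := fun l =>
    antitone_nat_of_succ_le (fun n => hs1 n l)
  -- stabilisation
  have hstab : ∀ N l z, (1/2 : ℝ) ^ N < t z → z ∈ (sq N).1 l → ∀ n, z ∈ (sq n).1 l := by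
    intro N l z hz hN n
    rcases le_total n N with h | h
    · exact hanti l h hN
    · induction n, h using Nat.le_induction with
      | base => exact hN
      | succ n hn ih =>
        apply hs2 n l z _ ih
        intro hF
        have h1 : (1/2 : ℝ) ^ n ≤ (1/2 : ℝ) ^ N := pow_le_pow_of_le_one (by norm_num) (by norm_num) hn
        linarith [hF.2]
  have hNex : ∀ z, 0 < t z → ∃ N : ℕ, (1/2 : ℝ) ^ N < t z := fun z hz =>
    exists_pow_lt_of_lt_one hz (by norm_num)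
  have hUfin : ∀ z, 0 < t z → {l | z ∈ U l}.Finite := by
    intro z hz
    obtain ⟨N, hN⟩ := hNex z hz
    exact (hfin N).subset (fun l hl => ⟨z, hl, hN.le⟩)
  have hpos : ∀ l, ∀ z ∈ ⋂ n, (sq n).1 l, 0 < t z := by
    intro l z hz
    rw [Set.mem_iInter] at hz
    exact (sq 0).2.pos l z (hz 0)
  refine ⟨fun l => ⋂ n, (sq n).1 l, ?_, ?_, hpos, ?_, ?_⟩
  · intro l
    have : (⋂ n, (sq n).1 l) = ⋃ N : ℕ, ((sq N).1 l ∩ {z | (1/2 : ℝ) ^ N < t z}) := by
      ext z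
      rw [Set.mem_iUnion, Set.mem_iInter]
      constructor
      · intro hz
        obtain ⟨N, hN⟩ := hNex z ((sq 0).2.pos l z (hz 0))
        exact ⟨N, hz N, hN⟩
      · rintro ⟨N, h1, h2⟩
        exact hstab N l z h2 h1
    change IsOpen (⋂ n, (sq n).1 l)
    rw [this]
    exact isOpen_iUnion fun N => ((sq N).2.op l).inter (isOpen_lt continuous_const ht)
  · intro l z hz
    rw [Set.mem_iInter] at hz
    exact (sq 0).2.sub l (hz 0)
  · intro z hzA hz
    obtain ⟨N, hN⟩ := hNex z hz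
    obtain ⟨l, hl⟩ := (sq N).2.cov z hzA hz
    exact ⟨l, Set.mem_iInter.2 (hstab N l z hN hl)⟩
  · intro z
    by_cases hz : 0 < t z
    · obtain ⟨n, hn1, hn2⟩ := exists_nat_pow_near_of_lt_one hz (ht1 z) (by norm_num : (0:ℝ) < 1/2) (by norm_num)
      have hF : z ∈ cvF t n := ⟨hn1.le, hn2⟩
      have hfin1 : {l | z ∈ (sq (n+1)).1 l}.Finite :=
        (hUfin z hz).subset (fun l hl => (sq (n+1)).2.sub l hl)
      have hsub : {l | z ∈ ⋂ n, (sq n).1 l} ⊆ {l | z ∈ (sq (n+1)).1 l} := by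
        intro l hl
        exact Set.mem_iInter.1 hl (n+1)
      exact ⟨hfin1.subset hsub, (Set.ncard_le_ncard hsub hfin1).trans (hs3 n z hF)⟩
    · have : {l | z ∈ ⋂ n, (sq n).1 l} = ∅ := by
        ext l
        simp only [Set.mem_empty_iff_false, iff_false]
        intro h
        exact hz (hpos l z h)
      change {l | z ∈ ⋂ n, (sq n).1 l}.Finite ∧ {l | z ∈ ⋂ n, (sq n).1 l}.ncard ≤ m + 1
      rw [this]
      exact ⟨Set.finite_empty, by simp⟩

end

end Pool.Agent.Helper93.Jm
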