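import Mathlib

set_option autoImplicit false

namespace Pool.Agent.Helper93.Jm

open Filter Topology Metric

noncomputable section

/-- `c` lies on the grid of level `n` -/
def Gr (n : ℕ) (c : ℝ) : Prop := ∃ k : ℤ, c * 2 ^ n = k

/-- dyadic number -/
def Dy (c : ℝ) : Prop := ∃ n : ℕ, Gr n c

/-- the level of coordinate `i` after `l` steps: the number of `l' < l` with `l' % (p+1) = i` -/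
def nn (p l : ℕ) (i : Fin (p+1)) : ℕ := (l + (p - (i : ℕ))) / (p + 1)

def CP {K : Type} [TopologicalSpace K] (A : Set K) (m : ℕ) : Prop :=
  ∀ (j : ℕ) (U : Fin j → Set K), (∀ i, IsOpen (U i)) → A ⊆ ⋃ i, U i →
    ∃ V : Fin j → Set K, (∀ i, IsOpen (V i)) ∧ (∀ i, V i ⊆ U i) ∧ A ⊆ ⋃ i, V i ∧
      ∀ z, {i : Fin j | z ∈ V i}.ncard ≤ m + 1

def LC {K : Type} [TopologicalSpace K] {q : ℕ} (H : K → Fin q → ℝ) (x : K) (i : Fin q) : Prop :=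
  ∃ c : ℝ, ∀ᶠ z in 𝓝 x, H z i = c

def ExTau : Prop := ∃ t1 t2 : ℝ → ℝ → ℝ,
  Continuous (fun x : ℝ × ℝ => t1 x.1 x.2) ∧ Continuous (fun x : ℝ × ℝ => t2 x.1 x.2) ∧
  (∀ a b, 0 ≤ t1 a b ∧ t1 a b ≤ 1) ∧ (∀ a b, 0 ≤ t2 a b ∧ t2 a b ≤ 1) ∧
  (∀ a b, a ≤ 1/8 → t1 a b = 0) ∧ (∀ a b, 15/16 ≤ a → t1 a b = 1) ∧
  (∀ a b, b ≤ 1/6 → t2 a b = 0) ∧ (∀ a b, 8/9 ≤ b → t2 a b = 1) ∧
  (∀ b, t2 0 b = t2 1 b) ∧ (∀ a, t1 a 0 = t1 a 1) ∧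
  (∀ a b, t1 a b = 0 ∨ t1 a b = 1 ∨ t2 a b = 0 ∨ t2 a b = 1/2 ∨ t2 a b = 1 ∨
    (1/3 < b ∧ b < 2/3 ∧ (2 * t2 a b = 3 * b - 1 ∨ 2 * t2 a b = 3 * b)))

def ExG (p : ℕ) : Prop := ∃ G : ℕ → (Fin (p+1) → ℝ) → (Fin (p+1) → ℝ),
  (∀ l, Continuous (G l)) ∧
  (∀ l y i, |G l y i - y i| ≤ (1/2) ^ (nn p l i)) ∧
  (∀ l y i, Gr (nn p l i) (y i) → G l y i = y i ∧ ∀ᶠ y' in 𝓝 y, G l y' i = y i) ∧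
  (∀ l y i, i ≠ 0 → (∀ j, ¬ Gr (nn p l j) (y j)) → (∀ j, ¬ Gr (nn p (l+1) j) (G l y j)) →
    Int.fract (G l y i * 2 ^ (nn p (l+1) i)) - 1/2 = 3 * (Int.fract (y i * 2 ^ (nn p l i)) - 1/2)) ∧
  (∀ l y (i : Fin (p+1)), i ≠ 0 → l % (p+1) ≠ i →
    (Int.fract (y i * 2 ^ (nn p l i)) < 1/2 → (⌊y i * 2 ^ (nn p l i)⌋ : ℝ) ≤ G l y i * 2 ^ (nn p l i) ∧
      G l y i * 2 ^ (nn p l i) < (⌊y i * 2 ^ (nn p l i)⌋ : ℝ) + 1/2) ∧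
    (1/2 < Int.fract (y i * 2 ^ (nn p l i)) → (⌊y i * 2 ^ (nn p l i)⌋ : ℝ) + 1/2 < G l y i * 2 ^ (nn p l i) ∧
      G l y i * 2 ^ (nn p l i) ≤ (⌊y i * 2 ^ (nn p l i)⌋ : ℝ) + 1))

def ExW (p : ℕ) : Prop := ∃ W : (Fin (p+1) → ℝ) → ℝ → (Fin (p+1) → ℝ),
  Continuous (fun x : (Fin (p+1) → ℝ) × ℝ => W x.1 x.2) ∧
  (∀ y u i, 0 ≤ u → |W y u i - y i| ≤ 2 * (p+1) * (1/2) ^ (⌊u⌋₊ / (p+1))) ∧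
  (∀ y u i (k : ℕ), (k : ℝ) ≤ u → Gr (nn p k i) (y i) → W y u i = y i) ∧
  (∀ y u (i : Fin (p+1)), 0 ≤ u → i ≠ 0 → ⌊u⌋₊ % (p+1) ≠ i →
    Int.fract (y i * 2 ^ (nn p ⌊u⌋₊ i)) ≠ 1/2 →
    ∃ i' c, Dy c ∧ ∀ᶠ x : (Fin (p+1) → ℝ) × ℝ in 𝓝 (y, u), W x.1 x.2 i' = c)

def ee (u : ℝ) : ℝ := (2:ℝ) ^ (-u - 4)

def ExPsi (p : ℕ) : Prop :=
  ∃ Ψ : (Fin (p+1) → ℝ) → (Fin (p+1) → ℝ) → ℝ → ℝ → (Fin (p+1) → ℝ),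
  ContinuousOn (fun x : (Fin (p+1) → ℝ) × (Fin (p+1) → ℝ) × ℝ × ℝ => Ψ x.1 x.2.1 x.2.2.1 x.2.2.2)
    {x | 0 < x.2.2.2} ∧
  (∀ h P σ u i, 0 < u → 0 ≤ σ → σ ≤ 1 → (∀ i, |P i| ≤ σ * (ee u / 2)) →
    |Ψ h P σ u i - h i| ≤ 3 * ee u + 2 * (p+1) * (1/2) ^ (⌊u⌋₊ / (p+1))) ∧
  (∀ h P σ u i (k : ℕ), 0 < u → (k : ℝ) ≤ u → Gr (nn p k i) (h i) → Ψ h P σ u i = h i) ∧
  (∀ h P σ u, 0 < u → 0 < σ → σ ≤ 1 → (∀ i, |P i| ≤ σ * (ee u / 2)) →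
    {i | Dy (h i + P i / σ)}.ncard + 4 ≤ p →
    ∃ i' c, Dy c ∧ ∀ᶠ x : (Fin (p+1) → ℝ) × (Fin (p+1) → ℝ) × ℝ × ℝ in 𝓝 (h, P, σ, u),
      Ψ x.1 x.2.1 x.2.2.1 x.2.2.2 i' = c)

def Exg (K : Type) [MetricSpace K] [CompactSpace K] (A : Set K) (m p : ℕ) : Prop :=
  ∀ (h : K → Fin (p+1) → ℝ) (t : K → ℝ), Continuous h → Continuous t → (∀ z, 0 ≤ t z) → (∀ z, t z ≤ 1) →
    ∃ (W : Set K) (g : K → Fin (p+1) → ℝ), IsOpen W ∧ (∀ z ∈ W, 0 < t z) ∧ (∀ x ∈ A, 0 < t x → x ∈ W) ∧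
      ContinuousOn g W ∧ (∀ z ∈ W, ∀ i, |g z i - h z i| ≤ t z) ∧ ∀ z ∈ W, {i | Dy (g z i)}.ncard ≤ m

def ExS (K : Type) [MetricSpace K] [CompactSpace K] (A : Set K) (p : ℕ) : Prop :=
  ∀ (h : K → Fin (p+1) → ℝ) (s : K → ℝ), Continuous h → Continuous s → (∀ z, 0 ≤ s z) → (∀ z, s z ≤ 1) →
    ∃ h' : K → Fin (p+1) → ℝ, Continuous h' ∧ (∀ z i, |h' z i - h z i| ≤ s z) ∧
      (∀ x ∈ A, 0 < s x → ∃ i c, Dy c ∧ ∀ᶠ z in 𝓝 x, h' z i = c) ∧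
      (∀ z i c, Dy c → s z = 0 → (∀ᶠ z' in 𝓝 z, h z' i = c) → ∀ᶠ z' in 𝓝 z, h' z' i = c)

def ExCR (K : Type) [MetricSpace K] [CompactSpace K] (A : Set K) (d : ℕ) : Prop :=
  ∀ (H : K → Fin d → ℝ) (t : K → ℝ), Continuous H → Continuous t → (∀ z, 0 ≤ t z) → (∀ z, t z ≤ 1) →
    ∃ H' : K → Fin d → ℝ, Continuous H' ∧ (∀ z i, |H' z i - H z i| ≤ t z) ∧
      ∀ x ∈ A, 0 < t x → ∃ i j, i ≠ j ∧ LC H' x i ∧ LC H' x j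


end

end Pool.Agent.Helper93.Jm
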