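import Pool.Agent.Helper93.JmDefs

set_option autoImplicit false

namespace Pool.Agent.Helper93.Jm

open Filter Topology Metric

noncomputable section


lemma exists_family {K : Type} [MetricSpace K] [CompactSpace K] (q : ℕ) (h : K → Fin q → ℝ) (t : K → ℝ)
    (hh : Continuous h) (ht : Continuous t) (ht1 : ∀ z, t z ≤ 1) :
    ∃ (U : ℕ → Set K) (c : ℕ → Fin q → ℝ) (r : ℕ → ℝ), (∀ l, IsOpen (U l)) ∧ (∀ l, 0 < r l) ∧
      (∀ z, 0 < t z → ∃ l, z ∈ U l) ∧
      (∀ n : ℕ, {l | (U l ∩ {z | (1/2 : ℝ) ^ n ≤ t z}).Nonempty}.Finite) ∧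
      ∀ l, ∀ z ∈ U l, ∀ i, |c l i - h z i| + r l ≤ t z := by
  classical
  obtain ⟨O, hO⟩ : ∃ O : ℕ → K → Set K, ∀ n z0 z, z ∈ O n z0 ↔
      ((1/2 : ℝ) ^ (n + 2) < t z ∧ t z < 2 * (1/2) ^ n ∧ ∀ i, |h z i - h z0 i| < (1/2) ^ (n + 4)) :=
    ⟨fun n z0 => {z | (1/2 : ℝ) ^ (n + 2) < t z ∧ t z < 2 * (1/2) ^ n ∧
      ∀ i, |h z i - h z0 i| < (1/2) ^ (n + 4)}, fun n z0 z => Iff.rfl⟩
  have hOopen : ∀ n z0, IsOpen (O n z0) := by
    intro n z0
    have e : O n z0 = {z | (1/2 : ℝ) ^ (n + 2) < t z} ∩ ({z | t z < 2 * (1/2) ^ n} ∩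
        ⋂ i, {z | |h z i - h z0 i| < (1/2) ^ (n + 4)}) := by
      ext z
      rw [hO]
      simp only [Set.mem_inter_iff, Set.mem_ofPred_eq, Set.mem_iInter]
    rw [e]
    refine (isOpen_lt continuous_const ht).inter ((isOpen_lt ht continuous_const).inter
      (isOpen_iInter_of_finite fun i => isOpen_lt ?_ continuous_const))
    exact (((continuous_apply i).comp hh).sub continuous_const).abs
  obtain ⟨F, hF⟩ : ∃ F : ℕ → Set K, ∀ n z, z ∈ F n ↔
      ((1/2 : ℝ) ^ (n + 1) ≤ t z ∧ t z ≤ (1/2) ^ n) :=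
    ⟨fun n => {z | (1/2 : ℝ) ^ (n + 1) ≤ t z ∧ t z ≤ (1/2) ^ n}, fun n z => Iff.rfl⟩
  have hFc : ∀ n, IsCompact (F n) := by
    intro n
    apply IsClosed.isCompact
    have e : F n = {z | (1/2 : ℝ) ^ (n + 1) ≤ t z} ∩ {z | t z ≤ (1/2) ^ n} := by
      ext z
      rw [hF]
      simp only [Set.mem_inter_iff, Set.mem_ofPred_eq]
    rw [e]
    exact (isClosed_le continuous_const ht).inter (isClosed_le ht continuous_const)
  have hpos : ∀ n : ℕ, (0 : ℝ) < (1/2) ^ n := fun n => by positivity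
  have hself : ∀ n z0, z0 ∈ F n → z0 ∈ O n z0 := by
    intro n z0 hz
    rw [hF] at hz
    rw [hO]
    have h1 := hpos n
    have h2 : (1/2 : ℝ) ^ (n + 2) = (1/2) ^ n * (1/4) := by rw [pow_add]; norm_num
    have h3 : (1/2 : ℝ) ^ (n + 1) = (1/2) ^ n * (1/2) := by rw [pow_add]; norm_num
    refine ⟨by linarith [hz.1], by linarith [hz.2], fun i => ?_⟩
    rw [sub_self, abs_zero]
    exact hpos _
  have hcov : ∀ n, ∃ s : Finset K, F n ⊆ ⋃ z0 ∈ s, O n z0 := by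
    intro n
    obtain ⟨s, _, hs⟩ := (hFc n).elim_nhds_subcover (O n)
      (fun z hz => (hOopen n z).mem_nhds (hself n z hz))
    exact ⟨s, hs⟩
  choose s hs using hcov
  refine ⟨fun l => {z | ∃ z0, (s (Nat.unpair l).1).toList[(Nat.unpair l).2]? = some z0 ∧
      z ∈ O (Nat.unpair l).1 z0},
    fun l => ((s (Nat.unpair l).1).toList[(Nat.unpair l).2]?).elim 0 h,
    fun l => (1/2) ^ ((Nat.unpair l).1 + 4), ?_, fun l => hpos _, ?_, ?_, ?_⟩
  · intro l
    have e : {z | ∃ z0, (s (Nat.unpair l).1).toList[(Nat.unpair l).2]? = some z0 ∧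
      z ∈ O (Nat.unpair l).1 z0} = ⋃ z0, ⋃ (_ : (s (Nat.unpair l).1).toList[(Nat.unpair l).2]? = some z0),
        O (Nat.unpair l).1 z0 := by
      ext z
      simp only [Set.mem_ofPred_eq, Set.mem_iUnion, exists_prop]
    beta_reduce
    rw [e]
    exact isOpen_iUnion fun z0 => isOpen_iUnion fun _ => hOopen _ _
  · intro z hz
    obtain ⟨n, hn1, hn2⟩ := exists_nat_pow_near_of_lt_one hz (ht1 z) (y := (1/2 : ℝ)) (by norm_num)
      (by norm_num)
    have hzF : z ∈ F n := (hF n z).2 ⟨hn1.le, hn2⟩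
    have := hs n hzF
    simp only [Set.mem_iUnion, exists_prop] at this
    obtain ⟨z0, hz0, hzO⟩ := this
    obtain ⟨k, hk⟩ := List.mem_iff_getElem?.1 (Finset.mem_toList.2 hz0)
    refine ⟨Nat.pair n k, z0, ?_, ?_⟩
    · rw [Nat.unpair_pair]; exact hk
    · rw [Nat.unpair_pair]; exact hzO
  · intro N
    refine Set.Finite.subset (Finset.finite_toSet ((Finset.range (N + 1)).biUnion
      (fun n => (Finset.range (s n).toList.length).image (fun k => Nat.pair n k)))) ?_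
    rintro l ⟨z, ⟨z0, hz0, hzO⟩, hzN⟩
    have hzN' : (1/2 : ℝ) ^ N ≤ t z := hzN
    rw [hO] at hzO
    rw [Finset.mem_coe, Finset.mem_biUnion]
    refine ⟨(Nat.unpair l).1, ?_, ?_⟩
    · rw [Finset.mem_range]
      by_contra hcon
      have hle : N + 1 ≤ (Nat.unpair l).1 := by omega
      have h1 : (1/2 : ℝ) ^ (Nat.unpair l).1 ≤ (1/2) ^ (N + 1) :=
        pow_le_pow_of_le_one (by norm_num) (by norm_num) hle
      have h2 : (1/2 : ℝ) ^ (N + 1) = (1/2) ^ N * (1/2) := by rw [pow_succ]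
      linarith [hzO.2.1]
    · rw [Finset.mem_image]
      refine ⟨(Nat.unpair l).2, ?_, Nat.pair_unpair l⟩
      rw [Finset.mem_range]
      exact (List.getElem?_eq_some_iff.1 hz0).1
  · rintro l z ⟨z0, hz0, hzO⟩ i
    rw [hO] at hzO
    have e : ((s (Nat.unpair l).1).toList[(Nat.unpair l).2]?).elim 0 h = h z0 := by
      rw [hz0]; rfl
    show |((s (Nat.unpair l).1).toList[(Nat.unpair l).2]?).elim 0 h i - h z i| +
      (1/2) ^ ((Nat.unpair l).1 + 4) ≤ t z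
    rw [e, abs_sub_comm]
    have h1 := hzO.2.2 i
    have h2 := hpos (Nat.unpair l).1
    have h3 : (1/2 : ℝ) ^ ((Nat.unpair l).1 + 2) = (1/2) ^ (Nat.unpair l).1 * (1/4) := by
      rw [pow_add]; norm_num
    have h4 : (1/2 : ℝ) ^ ((Nat.unpair l).1 + 4) = (1/2) ^ (Nat.unpair l).1 * (1/16) := by
      rw [pow_add]; norm_num
    linarith [hzO.1]

end

end Pool.Agent.Helper93.Jm
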