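import Pool.Agent.Helper93.JmDefs

set_option autoImplicit false

namespace Pool.Agent.Helper93.Jm

open Filter Topology Metric

noncomputable section



def cl833 (x : ℝ) : ℝ := max 0 (min 1 x)

lemma cl833_nonneg (x : ℝ) : 0 ≤ cl833 x := le_max_left _ _

lemma cl833_le (x : ℝ) : cl833 x ≤ 1 := max_le zero_le_one (min_le_left _ _)

lemma cl833_zero {x : ℝ} (h : x ≤ 0) : cl833 x = 0 := by
  unfold cl833
  exact max_eq_left ((min_le_right _ _).trans h)

lemma cl833_one {x : ℝ} (h : 1 ≤ x) : cl833 x = 1 := by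
  unfold cl833
  rw [min_eq_left h]; norm_num

lemma cl833_mid {x : ℝ} (h0 : 0 ≤ x) (h1 : x ≤ 1) : cl833 x = x := by
  unfold cl833
  rw [min_eq_right h1, max_eq_right h0]

lemma cl833_cont : Continuous cl833 := by
  unfold cl833
  fun_prop

/-- the one variable map -/
def e833 (u : ℝ) : ℝ := (⌊u⌋ : ℝ) + cl833 (3 * Int.fract u - 1)

lemma e833_cont : Continuous e833 := by
  have h1 : e833 = fun u => u + (cl833 (3 * Int.fract u - 1) - Int.fract u) := by
    funext u
    unfold e833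
    have := Int.floor_add_fract u
    linarith
  rw [h1]
  refine continuous_id.add ?_
  refine ContinuousOn.comp_fract (s := fun u : ℝ => u) (f := fun (_ : ℝ) a => cl833 (3 * a - 1) - a) ?_ continuous_id ?_
  · apply Continuous.continuousOn
    have := cl833_cont
    simp only [Function.uncurry_def]
    fun_prop
  · intro s
    show cl833 (3 * 0 - 1) - 0 = cl833 (3 * 1 - 1) - 1
    rw [cl833_zero (by norm_num), cl833_one (by norm_num)]; norm_num

lemma pair833 (d : ℝ → ℝ → ℝ) (hd : Continuous (fun x : ℝ × ℝ => d x.1 x.2))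
    (h1 : ∀ b, d 0 b = d 1 b) (h2 : ∀ a, d a 0 = d a 1) :
    Continuous (fun x : ℝ × ℝ => d (Int.fract x.1) (Int.fract x.2)) := by
  have c1 : Continuous (fun x : ℝ × ℝ => d (Int.fract x.2) x.1) := by
    refine ContinuousOn.comp_fract (s := fun x : ℝ × ℝ => x.2)
      (f := fun (x : ℝ × ℝ) a => d a x.1) ?_ continuous_snd ?_
    · apply Continuous.continuousOn
      have : Continuous (fun z : (ℝ × ℝ) × ℝ => (z.2, z.1.1)) := by fun_prop
      exact hd.comp this
    · intro s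
      exact h1 _
  refine ContinuousOn.comp_fract (s := fun x : ℝ × ℝ => x.2)
      (f := fun (x : ℝ × ℝ) b => d (Int.fract x.1) b) ?_ continuous_snd ?_
  · apply Continuous.continuousOn
    have : Continuous (fun z : (ℝ × ℝ) × ℝ => (z.2, z.1.1)) := by fun_prop
    exact c1.comp this
  · intro s
    exact h2 _

lemma near833 {Y : ℝ} {k : ℤ} (h : |Y - k| < 1/16) :
    (⌊Y⌋ = k ∧ Int.fract Y < 1/16) ∨ (⌊Y⌋ = k - 1 ∧ 15/16 < Int.fract Y) := by
  rw [abs_lt] at h
  rcases le_or_gt (k : ℝ) Y with hk | hk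
  · left
    have : ⌊Y⌋ = k := by
      rw [Int.floor_eq_iff]
      constructor <;> linarith
    refine ⟨this, ?_⟩
    rw [Int.fract, this]
    linarith
  · right
    have : ⌊Y⌋ = k - 1 := by
      rw [Int.floor_eq_iff]
      push_cast
      constructor <;> linarith
    refine ⟨this, ?_⟩
    rw [Int.fract, this]
    push_cast
    linarith

lemma e833_near {Y : ℝ} {k : ℤ} (h : |Y - k| < 1/16) : e833 Y = k := by
  unfold e833
  rcases near833 h with ⟨h1, h2⟩ | ⟨h1, h2⟩
  · rw [h1, cl833_zero (by linarith)]; ring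
  · rw [h1, cl833_one (by linarith)]; push_cast; ring

lemma nn833 (p l : ℕ) (i : Fin (p+1)) :
    nn p (l+1) i = nn p l i + if l % (p+1) = (i : ℕ) then 1 else 0 := by
  unfold nn
  obtain ⟨a, b, hb, rfl⟩ : ∃ a b : ℕ, b < p + 1 ∧ l = b + (p+1) * a :=
    ⟨l / (p+1), l % (p+1), Nat.mod_lt _ (Nat.succ_pos p), (Nat.mod_add_div l (p+1)).symm⟩
  have hi : (i : ℕ) < p + 1 := i.2
  generalize (i : ℕ) = i' at hi
  have hm : (b + (p+1) * a) % (p+1) = b := by
    rw [Nat.add_mul_mod_self_left, Nat.mod_eq_of_lt hb]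
  rw [hm]
  have e1 : b + (p+1) * a + 1 + (p - i') = (b + 1 + (p - i')) + (p+1) * a := by ring
  have e2 : b + (p+1) * a + (p - i') = (b + (p - i')) + (p+1) * a := by ring
  rw [e1, e2, Nat.add_mul_div_left _ _ (Nat.succ_pos p), Nat.add_mul_div_left _ _ (Nat.succ_pos p)]
  have z0 : ∀ x, x < p + 1 → x / (p+1) = 0 := fun x hx => Nat.div_eq_of_lt hx
  have z1 : ∀ x, p + 1 ≤ x → x < 2 * (p + 1) → x / (p+1) = 1 := by
    intro x h1 h2
    rw [Nat.div_eq_iff (Nat.succ_pos p)]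
    simp only [one_mul]
    omega
  rcases lt_trichotomy b i' with h | h | h
  · rw [z0 _ (by omega), z0 _ (by omega), if_neg (by omega)]; ring
  · rw [z1 _ (by omega) (by omega), z0 _ (by omega), if_pos h]; ring
  · rw [z1 _ (by omega) (by omega), z1 _ (by omega) (by omega), if_neg (by omega)]; ring

/-- the residue as an element of `Fin` -/
def jj833 (p l : ℕ) : Fin (p+1) := ⟨l % (p+1), Nat.mod_lt _ (Nat.succ_pos p)⟩

/-- the normalised step -/
def E833 (p : ℕ) (t1 t2 : ℝ → ℝ → ℝ) (l : ℕ) (Y : Fin (p+1) → ℝ) (i : Fin (p+1)) : ℝ :=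
  if i = 0 then
    (if l % (p+1) = 0 then e833 (2 * Y 0) / 2
      else (⌊Y 0⌋ : ℝ) + t1 (Int.fract (Y 0)) (Int.fract (Y (jj833 p l))))
  else
    (if l % (p+1) = (i : ℕ) then (⌊Y i⌋ : ℝ) + t2 (Int.fract (Y 0)) (Int.fract (Y i))
      else e833 (Y i))

lemma e833_mem (u : ℝ) : (⌊u⌋ : ℝ) ≤ e833 u ∧ e833 u ≤ (⌊u⌋ : ℝ) + 1 := by
  unfold e833
  have h1 := cl833_nonneg (3 * Int.fract u - 1)
  have h2 := cl833_le (3 * Int.fract u - 1)
  constructor <;> linarith

lemma fl833 (u v : ℝ) (h : (⌊u⌋ : ℝ) ≤ v ∧ v ≤ (⌊u⌋ : ℝ) + 1) : |v - u| ≤ 1 := by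
  have h1 := Int.floor_le u
  have h2 := Int.lt_floor_add_one u
  rw [abs_le]
  constructor <;> linarith [h.1, h.2]

lemma cont_t833 (t : ℝ → ℝ → ℝ) (ht : Continuous (fun x : ℝ × ℝ => t x.1 x.2))
    (h0 : ∀ b, t 0 b = 0) (h1 : ∀ b, t 1 b = 1) (h2 : ∀ a, t a 0 = t a 1) :
    Continuous (fun x : ℝ × ℝ => (⌊x.1⌋ : ℝ) + t (Int.fract x.1) (Int.fract x.2)) := by
  have : (fun x : ℝ × ℝ => (⌊x.1⌋ : ℝ) + t (Int.fract x.1) (Int.fract x.2))
      = fun x : ℝ × ℝ => x.1 + (t (Int.fract x.1) (Int.fract x.2) - Int.fract x.1) := by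
    funext x
    have := Int.floor_add_fract x.1
    linarith
  rw [this]
  refine continuous_fst.add ?_
  apply pair833 (fun a b => t a b - a)
  · exact ht.sub continuous_fst
  · intro b
    show t 0 b - 0 = t 1 b - 1
    rw [h0, h1]; norm_num
  · intro a
    show t a 0 - a = t a 1 - a
    rw [h2]

lemma cont_t833' (t : ℝ → ℝ → ℝ) (ht : Continuous (fun x : ℝ × ℝ => t x.1 x.2))
    (h0 : ∀ a, t a 0 = 0) (h1 : ∀ a, t a 1 = 1) (h2 : ∀ b, t 0 b = t 1 b) :
    Continuous (fun x : ℝ × ℝ => (⌊x.2⌋ : ℝ) + t (Int.fract x.1) (Int.fract x.2)) := by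
  have := (cont_t833 (fun a b => t b a) (ht.comp continuous_swap) h0 h1 h2).comp
    (continuous_swap (X := ℝ) (Y := ℝ))
  exact this

lemma exists_G (p : ℕ) (hT : ExTau) : ExG p := by
  obtain ⟨t1, t2, c1, c2, r1, r2, a1, a2, b1, b2, s1, s2, alt⟩ := hT
  have pw : ∀ n : ℕ, (0:ℝ) < 2 ^ n := fun n => by positivity
  have hcE : ∀ l i, Continuous (fun Y : Fin (p+1) → ℝ => E833 p t1 t2 l Y i) := by
    intro l i
    unfold E833
    split_ifs with h1 h2 h3
    · exact (e833_cont.comp (continuous_const.mul (continuous_apply 0))).div_const _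
    · have h4 : Continuous (fun Y : Fin (p+1) → ℝ => (Y 0, Y (jj833 p l))) := by fun_prop
      exact (cont_t833 t1 c1 (fun b => a1 _ _ (by norm_num)) (fun b => a2 _ _ (by norm_num)) s2).comp h4
    · have h4 : Continuous (fun Y : Fin (p+1) → ℝ => (Y 0, Y i)) := by fun_prop
      exact (cont_t833' t2 c2 (fun b => b1 _ _ (by norm_num)) (fun b => b2 _ _ (by norm_num)) s1).comp h4
    · exact e833_cont.comp (continuous_apply i)
  have hE1 : ∀ l (Y : Fin (p+1) → ℝ) i, |E833 p t1 t2 l Y i - Y i| ≤ 1 := by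
    intro l Y i
    unfold E833
    split_ifs with h1 h2 h3
    · subst h1
      have := fl833 _ _ (e833_mem (2 * Y 0))
      rw [abs_le] at this ⊢
      constructor <;> linarith [this.1, this.2]
    · subst h1
      apply fl833
      have := r1 (Int.fract (Y 0)) (Int.fract (Y (jj833 p l)))
      constructor <;> linarith [this.1, this.2]
    · apply fl833
      have := r2 (Int.fract (Y 0)) (Int.fract (Y i))
      constructor <;> linarith [this.1, this.2]
    · exact fl833 _ _ (e833_mem _)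
  have hE2 : ∀ l (Y : Fin (p+1) → ℝ) i (k : ℤ), |Y i - k| < 1/32 → E833 p t1 t2 l Y i = k := by
    intro l Y i k hk
    have hk' : |Y i - k| < 1/16 := hk.trans (by norm_num)
    unfold E833
    split_ifs with h1 h2 h3
    · subst h1
      have : |2 * Y 0 - ((2 * k : ℤ) : ℝ)| < 1/16 := by
        push_cast
        rw [← mul_sub, abs_mul]
        have : |(2:ℝ)| = 2 := by norm_num
        rw [this]; linarith
      rw [e833_near this]
      push_cast; ring
    · subst h1
      rcases near833 hk' with ⟨q1, q2⟩ | ⟨q1, q2⟩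
      · rw [q1, a1 _ _ (by linarith)]; ring
      · rw [q1, a2 _ _ (by linarith)]; push_cast; ring
    · rcases near833 hk' with ⟨q1, q2⟩ | ⟨q1, q2⟩
      · rw [q1, b1 _ _ (by linarith)]; ring
      · rw [q1, b2 _ _ (by linarith)]; push_cast; ring
    · exact e833_near hk'
  -- the unnormalised map
  refine ⟨fun l y i => E833 p t1 t2 l (fun k => y k * 2 ^ (nn p l k)) i / 2 ^ (nn p l i), ?_, ?_, ?_, ?_, ?_⟩
  · intro l
    refine continuous_pi fun i => ?_
    refine Continuous.div_const ?_ _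
    have : Continuous (fun y : Fin (p+1) → ℝ => fun k => y k * 2 ^ (nn p l k)) := by fun_prop
    exact (hcE l i).comp this
  · intro l y i
    have h := hE1 l (fun k => y k * 2 ^ (nn p l k)) i
    simp only at h ⊢
    have e1 : E833 p t1 t2 l (fun k => y k * 2 ^ (nn p l k)) i / 2 ^ (nn p l i) - y i
        = (E833 p t1 t2 l (fun k => y k * 2 ^ (nn p l k)) i - y i * 2 ^ (nn p l i)) / 2 ^ (nn p l i) := by
      field_simp
    rw [e1, abs_div, abs_of_pos (pw _), div_le_iff₀ (pw _), ← mul_pow]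
    norm_num
    exact h
  · intro l y i hg
    obtain ⟨k, hk⟩ := hg
    have hyk : y i = (k:ℝ) / 2 ^ (nn p l i) := by
      rw [eq_div_iff (pw _).ne']; exact hk
    have key : ∀ y' : Fin (p+1) → ℝ, |y' i * 2 ^ (nn p l i) - k| < 1/32 →
        E833 p t1 t2 l (fun k => y' k * 2 ^ (nn p l k)) i / 2 ^ (nn p l i) = y i := by
      intro y' hy'
      rw [hE2 l (fun k => y' k * 2 ^ (nn p l k)) i k hy', hyk]
    refine ⟨key y (by rw [hk]; norm_num), ?_⟩
    have hc : Continuous (fun y' : Fin (p+1) → ℝ => |y' i * 2 ^ (nn p l i) - k|) := by fun_prop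
    have : ∀ᶠ y' : Fin (p+1) → ℝ in 𝓝 y, |y' i * 2 ^ (nn p l i) - (k:ℝ)| < 1/32 := by
      apply hc.continuousAt.eventually_lt_const
      show |y i * 2 ^ (nn p l i) - (k:ℝ)| < 1/32
      rw [hk]; norm_num
    exact this.mono key
  · intro l y i hi0 hy hG
    have hgen : ∀ k : Fin (p+1), l % (p+1) ≠ (k:ℕ) →
        ∀ m : ℤ, E833 p t1 t2 l (fun k => y k * 2 ^ (nn p l k)) k ≠ m := by
      intro k hk m hm
      apply hG k
      refine ⟨m, ?_⟩
      rw [nn833, if_neg hk, add_zero, div_mul_cancel₀ _ (pw _).ne']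
      exact hm
    by_cases hij : l % (p+1) = (i:ℕ)
    · -- case (b)
      have hi0' : (i : ℕ) ≠ 0 := fun h => hi0 (Fin.ext h)
      have hl0 : l % (p+1) ≠ 0 := by rw [hij]; exact hi0'
      have h0 := hgen 0 (by simpa using hl0)
      have hjj : jj833 p l = i := Fin.ext hij
      have E0 : E833 p t1 t2 l (fun k => y k * 2 ^ (nn p l k)) 0
          = (⌊y 0 * 2 ^ (nn p l 0)⌋ : ℝ) + t1 (Int.fract (y 0 * 2 ^ (nn p l 0)))
            (Int.fract (y i * 2 ^ (nn p l i))) := by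
        unfold E833
        rw [if_pos rfl, if_neg hl0, hjj]
      have Ei : E833 p t1 t2 l (fun k => y k * 2 ^ (nn p l k)) i
          = (⌊y i * 2 ^ (nn p l i)⌋ : ℝ) + t2 (Int.fract (y 0 * 2 ^ (nn p l 0)))
            (Int.fract (y i * 2 ^ (nn p l i))) := by
        unfold E833
        rw [if_neg hi0, if_pos hij]
      set a := Int.fract (y 0 * 2 ^ (nn p l 0)) with ha
      set b := Int.fract (y i * 2 ^ (nn p l i)) with hb
      rw [E0] at h0
      have hval : E833 p t1 t2 l (fun k => y k * 2 ^ (nn p l k)) i / 2 ^ (nn p l i) * 2 ^ (nn p (l+1) i)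
          = 2 * (⌊y i * 2 ^ (nn p l i)⌋ : ℝ) + 2 * t2 a b := by
        rw [nn833, if_pos hij, pow_succ, ← mul_assoc, div_mul_cancel₀ _ (pw _).ne', Ei]
        ring
      have hG' := hG i
      have hne : ∀ m : ℤ, 2 * (⌊y i * 2 ^ (nn p l i)⌋ : ℝ) + 2 * t2 a b ≠ m := by
        intro m hm
        apply hG'
        exact ⟨m, by rw [← hm]; exact hval⟩
      show Int.fract (E833 p t1 t2 l (fun k => y k * 2 ^ (nn p l k)) i / 2 ^ (nn p l i) * 2 ^ (nn p (l+1) i)) - 1/2
        = 3 * (b - 1/2)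
      rw [hval]
      have hfr : ∀ x : ℝ, Int.fract (2 * (⌊y i * 2 ^ (nn p l i)⌋ : ℝ) + x) = Int.fract x := by
        intro x
        have : (2 * (⌊y i * 2 ^ (nn p l i)⌋ : ℝ)) = ((2 * ⌊y i * 2 ^ (nn p l i)⌋ : ℤ) : ℝ) := by push_cast; ring
        rw [this, Int.fract_intCast_add]
      rw [hfr]
      rcases alt a b with h | h | h | h | h | ⟨hb1, hb2, h | h⟩
      · exact absurd (by rw [h, add_zero]) (h0 ⌊y 0 * 2 ^ (nn p l 0)⌋)
      · exact absurd (by rw [h]; push_cast; ring) (h0 (⌊y 0 * 2 ^ (nn p l 0)⌋ + 1))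
      · exact absurd (by rw [h]; push_cast; ring) (hne (2 * ⌊y i * 2 ^ (nn p l i)⌋))
      · exact absurd (by rw [h]; push_cast; ring) (hne (2 * ⌊y i * 2 ^ (nn p l i)⌋ + 1))
      · exact absurd (by rw [h]; push_cast; ring) (hne (2 * ⌊y i * 2 ^ (nn p l i)⌋ + 2))
      · rw [h, Int.fract_eq_self.mpr ⟨by linarith, by linarith⟩]; ring
      · have : (3 * b : ℝ) = (3 * b - 1) + ((1:ℤ):ℝ) := by push_cast; ring
        rw [h, this, Int.fract_add_intCast, Int.fract_eq_self.mpr ⟨by linarith, by linarith⟩]; ring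
    · -- case (a)
      have Ei : E833 p t1 t2 l (fun k => y k * 2 ^ (nn p l k)) i = e833 (y i * 2 ^ (nn p l i)) := by
        unfold E833
        rw [if_neg hi0, if_neg hij]
      have h0 := hgen i hij
      rw [Ei] at h0
      show Int.fract (E833 p t1 t2 l (fun k => y k * 2 ^ (nn p l k)) i / 2 ^ (nn p l i) * 2 ^ (nn p (l+1) i)) - 1/2
        = 3 * (Int.fract (y i * 2 ^ (nn p l i)) - 1/2)
      rw [nn833, if_neg hij, add_zero, div_mul_cancel₀ _ (pw _).ne', Ei]
      unfold e833 at h0 ⊢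
      set r := Int.fract (y i * 2 ^ (nn p l i)) with hr
      rw [Int.fract_intCast_add]
      have g0 : 0 < 3 * r - 1 := by
        by_contra hcon
        push Not at hcon
        exact h0 ⌊y i * 2 ^ (nn p l i)⌋ (by rw [cl833_zero hcon, add_zero])
      have g1 : 3 * r - 1 < 1 := by
        by_contra hcon
        push Not at hcon
        exact h0 (⌊y i * 2 ^ (nn p l i)⌋ + 1) (by rw [cl833_one hcon]; push_cast; ring)
      rw [cl833_mid g0.le g1.le, Int.fract_eq_self.mpr ⟨g0.le, g1⟩]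
      ring
  · intro l y i hi0 hij
    have Ei : E833 p t1 t2 l (fun k => y k * 2 ^ (nn p l k)) i = e833 (y i * 2 ^ (nn p l i)) := by
      unfold E833
      rw [if_neg hi0, if_neg hij]
    have hv : E833 p t1 t2 l (fun k => y k * 2 ^ (nn p l k)) i / 2 ^ (nn p l i) * 2 ^ (nn p l i)
        = e833 (y i * 2 ^ (nn p l i)) := by
      rw [div_mul_cancel₀ _ (pw _).ne', Ei]
    show (Int.fract (y i * 2 ^ (nn p l i)) < 1/2 → (⌊y i * 2 ^ (nn p l i)⌋ : ℝ) ≤ E833 p t1 t2 l (fun k => y k * 2 ^ (nn p l k)) i / 2 ^ (nn p l i) * 2 ^ (nn p l i) ∧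
      E833 p t1 t2 l (fun k => y k * 2 ^ (nn p l k)) i / 2 ^ (nn p l i) * 2 ^ (nn p l i) < (⌊y i * 2 ^ (nn p l i)⌋ : ℝ) + 1/2) ∧
    (1/2 < Int.fract (y i * 2 ^ (nn p l i)) → (⌊y i * 2 ^ (nn p l i)⌋ : ℝ) + 1/2 < E833 p t1 t2 l (fun k => y k * 2 ^ (nn p l k)) i / 2 ^ (nn p l i) * 2 ^ (nn p l i) ∧
      E833 p t1 t2 l (fun k => y k * 2 ^ (nn p l k)) i / 2 ^ (nn p l i) * 2 ^ (nn p l i) ≤ (⌊y i * 2 ^ (nn p l i)⌋ : ℝ) + 1)
    rw [hv]
    have hm := e833_mem (y i * 2 ^ (nn p l i))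
    refine ⟨fun h => ⟨hm.1, ?_⟩, fun h => ⟨?_, hm.2⟩⟩
    · unfold e833
      have : cl833 (3 * Int.fract (y i * 2 ^ (nn p l i)) - 1) < 1/2 := by
        unfold cl833
        apply max_lt (by norm_num)
        apply min_lt_of_right_lt
        linarith
      linarith
    · unfold e833
      have : 1/2 < cl833 (3 * Int.fract (y i * 2 ^ (nn p l i)) - 1) := by
        unfold cl833
        apply lt_max_of_lt_right
        apply lt_min (by norm_num)
        linarith
      linarith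

end

end Pool.Agent.Helper93.Jm
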