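import Pool.Agent.Helper93.JmDefs

set_option autoImplicit false

namespace Pool.Agent.Helper93.Jm

open Filter Topology Metric

noncomputable section


lemma dy_countable : Countable {x : ℝ // Dy x} := by
  have : {x : ℝ | Dy x} ⊆ Set.range (fun p : ℕ × ℤ => (p.2 : ℝ) / 2 ^ p.1) := by
    rintro x ⟨n, k, hk⟩
    refine ⟨(n, k), ?_⟩
    simp only
    rw [div_eq_iff (by positivity)]
    exact hk.symm
  exact ((Set.countable_range _).mono this).to_subtype

def resI {q : ℕ} (I : Finset (Fin q)) : (Fin q → ℝ) →ₗ[ℝ] (I → ℝ) :=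
  LinearMap.funLeft ℝ ℝ (fun i : I => (i : Fin q))

def badS {q : ℕ} (I : Finset (Fin q)) (e : Fin q → ℝ) (w : ℕ → Fin q → ℝ) (T : Finset ℕ) :
    Submodule ℝ (I → ℝ) :=
  Submodule.span ℝ ((fun k => resI I (w k - e)) '' (T : Set ℕ))

lemma badS_ne_top {q m : ℕ} (I : Finset (Fin q)) (e : Fin q → ℝ) (w : ℕ → Fin q → ℝ) (T : Finset ℕ)
    (hT : T.card ≤ m) (hI : I.card = m + 1) : badS I e w T ≠ ⊤ := by
  classical
  intro h
  have h1 : Module.finrank ℝ (badS I e w T) ≤ T.card := by
    unfold badS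
    rw [← Finset.coe_image]
    exact (finrank_span_finset_le_card _).trans Finset.card_image_le
  rw [h, finrank_top, Module.finrank_pi, Fintype.card_coe, hI] at h1
  omega

lemma null_bad {q m : ℕ} (I : Finset (Fin q)) (e : Fin q → ℝ) (w : ℕ → Fin q → ℝ) (T : Finset ℕ)
    (hT : T.card ≤ m) (hI : I.card = m + 1) :
    MeasureTheory.volume {v : Fin q → ℝ | resI I (v - e) ∈ badS I e w T} = 0 := by
  have hsurj : Function.Surjective (resI I) :=
    LinearMap.funLeft_surjective_of_injective ℝ ℝ _ Subtype.val_injective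
  have hne : (badS I e w T).comap (resI I) ≠ ⊤ := by
    intro h
    apply badS_ne_top I e w T hT hI
    rw [eq_top_iff]
    intro x _
    obtain ⟨y, rfl⟩ := hsurj x
    have : y ∈ (badS I e w T).comap (resI I) := by rw [h]; trivial
    exact this
  have hne2 : AffineSubspace.mk' e ((badS I e w T).comap (resI I)) ≠ ⊤ := by
    intro h
    apply hne
    have := congrArg AffineSubspace.direction h
    rwa [AffineSubspace.direction_mk', AffineSubspace.direction_top] at this
  have h3 := MeasureTheory.Measure.addHaar_affineSubspace MeasureTheory.volume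
    (AffineSubspace.mk' e ((badS I e w T).comap (resI I))) hne2
  convert h3 using 2
  ext v
  rw [Set.mem_setOf_eq, SetLike.mem_coe, AffineSubspace.mem_mk', vsub_eq_sub, Submodule.mem_comap]

lemma exists_avoid (q m : ℕ) (w : ℕ → Fin q → ℝ) (c : Fin q → ℝ) (r : ℝ) (hr : 0 < r) :
    ∃ v : Fin q → ℝ, (∀ i, |v i - c i| ≤ r) ∧
      ∀ (T : Finset ℕ) (I : Finset (Fin q)) (e : Fin q → {x : ℝ // Dy x}),
        T.card ≤ m → I.card = m + 1 →
        resI I (v - (fun i => (e i : ℝ))) ∉ badS I (fun i => (e i : ℝ)) w T := by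
  haveI := dy_countable
  by_contra hcon
  push Not at hcon
  have hsub : Metric.ball c r ⊆
      ⋃ p : {p : Finset ℕ × Finset (Fin q) × (Fin q → {x : ℝ // Dy x}) //
        p.1.card ≤ m ∧ p.2.1.card = m + 1},
        {v : Fin q → ℝ | resI p.1.2.1 (v - (fun i => (p.1.2.2 i : ℝ))) ∈
          badS p.1.2.1 (fun i => (p.1.2.2 i : ℝ)) w p.1.1} := by
    intro v hv
    have hv' : ∀ i, |v i - c i| ≤ r := by
      intro i
      rw [Metric.mem_ball] at hv
      have := dist_le_pi_dist v c i
      rw [Real.dist_eq] at this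
      linarith
    obtain ⟨T, I, e, hT, hI, hmem⟩ := hcon v hv'
    exact Set.mem_iUnion.2 ⟨⟨(T, I, e), hT, hI⟩, hmem⟩
  have hnull : MeasureTheory.volume (⋃ p : {p : Finset ℕ × Finset (Fin q) × (Fin q → {x : ℝ // Dy x}) //
        p.1.card ≤ m ∧ p.2.1.card = m + 1},
        {v : Fin q → ℝ | resI p.1.2.1 (v - (fun i => (p.1.2.2 i : ℝ))) ∈
          badS p.1.2.1 (fun i => (p.1.2.2 i : ℝ)) w p.1.1}) = 0 :=
    MeasureTheory.measure_iUnion_null (fun p => null_bad _ _ _ _ p.2.1 p.2.2)
  have hpos := Metric.measure_ball_pos MeasureTheory.volume c hr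
  exact absurd (MeasureTheory.measure_mono_null hsub hnull) hpos.ne'

lemma badS_congr {q : ℕ} (I : Finset (Fin q)) (e : Fin q → ℝ) (w w' : ℕ → Fin q → ℝ) (T : Finset ℕ)
    (h : ∀ k ∈ T, w k = w' k) : badS I e w T = badS I e w' T := by
  unfold badS
  congr 1
  apply Set.image_congr
  intro k hk
  rw [h k hk]

lemma exists_generic (q m : ℕ) (c : ℕ → Fin q → ℝ) (r : ℕ → ℝ) (hr : ∀ l, 0 < r l) :
    ∃ w : ℕ → Fin q → ℝ, (∀ l i, |w l i - c l i| ≤ r l) ∧
      ∀ (T : Finset ℕ) (a : ℕ → ℝ), T.card ≤ m + 1 → (∀ l ∈ T, 0 ≤ a l) → ∑ l ∈ T, a l = 1 →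
        {i | Dy (∑ l ∈ T, a l * w l i)}.ncard ≤ m := by
  classical
  choose f hf1 hf2 using fun (l : ℕ) (w : ℕ → Fin q → ℝ) => exists_avoid q m w (c l) (r l) (hr l)
  let F : ℕ → (ℕ → Fin q → ℝ) := fun l => Nat.rec (fun _ => 0)
    (fun l Fl => Function.update Fl l (f l Fl)) l
  have hF : ∀ l, F (l + 1) = Function.update (F l) l (f l (F l)) := fun l => rfl
  let w : ℕ → Fin q → ℝ := fun l => f l (F l)
  have hFw : ∀ l k, k < l → F l k = w k := by
    intro l
    induction l with
    | zero => intro k hk; omega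
    | succ l ih =>
      intro k hk
      rw [hF]
      by_cases hkl : k = l
      · subst hkl
        rw [Function.update_self]
      · rw [Function.update_of_ne hkl]
        exact ih k (by omega)
  refine ⟨w, fun l i => hf1 l (F l) i, ?_⟩
  intro T a hT ha hsum
  by_contra hlt
  push Not at hlt
  set x : Fin q → ℝ := fun i => ∑ l ∈ T, a l * w l i with hx
  have hD : ∃ I : Finset (Fin q), I.card = m + 1 ∧ ∀ i ∈ I, Dy (x i) := by
    have h1 : {i | Dy (x i)}.ncard = (Finset.univ.filter (fun i => Dy (x i))).card := by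
      rw [← Set.ncard_coe_finset]
      congr 1
      ext i
      simp
    have h2 : m + 1 ≤ (Finset.univ.filter (fun i => Dy (x i))).card := by
      rw [← h1]; exact hlt
    obtain ⟨I, hI1, hI2⟩ := Finset.exists_subset_card_eq h2
    exact ⟨I, hI2, fun i hi => (Finset.mem_filter.1 (hI1 hi)).2⟩
  obtain ⟨I, hI, hId⟩ := hD
  have h0 : Dy 0 := ⟨0, 0, by simp⟩
  let e : Fin q → {x : ℝ // Dy x} := fun i => if h : Dy (x i) then ⟨x i, h⟩ else ⟨0, h0⟩
  have he : ∀ i ∈ I, (e i : ℝ) = x i := by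
    intro i hi
    simp only [e]
    rw [dif_pos (hId i hi)]
  set T0 := T.filter (fun l => a l ≠ 0) with hT0
  have hne : T0.Nonempty := by
    by_contra hemp
    rw [Finset.not_nonempty_iff_eq_empty] at hemp
    have : ∑ l ∈ T, a l = 0 := by
      apply Finset.sum_eq_zero
      intro l hl
      by_contra hal
      have : l ∈ T0 := Finset.mem_filter.2 ⟨hl, hal⟩
      rw [hemp] at this
      simp at this
    linarith
  set L := T0.max' hne with hL
  have hLmem : L ∈ T0 := Finset.max'_mem _ _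
  have hLa : a L ≠ 0 := (Finset.mem_filter.1 hLmem).2
  have hcard : (T0.erase L).card ≤ m := by
    rw [Finset.card_erase_of_mem hLmem]
    have : T0.card ≤ T.card := Finset.card_filter_le _ _
    omega
  have hlt' : ∀ k ∈ T0.erase L, k < L := by
    intro k hk
    have h1 : k ≤ L := Finset.le_max' _ _ (Finset.mem_of_mem_erase hk)
    have h2 : k ≠ L := Finset.ne_of_mem_erase hk
    omega
  have hav := hf2 L (F L) (T0.erase L) I e hcard hI
  rw [badS_congr I _ (F L) w (T0.erase L) (fun k hk => hFw L k (hlt' k hk))] at hav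
  apply hav
  -- linear relation
  have hrel : ∑ l ∈ T0, a l • resI I (w l - (fun i => (e i : ℝ))) = 0 := by
    ext ⟨i, hi⟩
    simp only [Finset.sum_apply, Pi.smul_apply, smul_eq_mul, Pi.zero_apply]
    have h1 : ∀ l, resI I (w l - (fun i => (e i : ℝ))) ⟨i, hi⟩ = w l i - x i := by
      intro l
      simp [resI, LinearMap.funLeft_apply, he i hi]
    simp only [h1]
    have h2 : ∑ l ∈ T0, a l * (w l i - x i) = ∑ l ∈ T, a l * (w l i - x i) := by
      rw [hT0, Finset.sum_filter]
      apply Finset.sum_congr rfl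
      intro l _
      by_cases hal : a l = 0
      · simp [hal]
      · simp [hal]
    rw [h2]
    simp only [mul_sub, Finset.sum_sub_distrib]
    rw [← Finset.sum_mul, hsum, one_mul]
    simp [hx]
  rw [← Finset.add_sum_erase T0 _ hLmem] at hrel
  have h3 : resI I (w L - (fun i => (e i : ℝ))) =
      (a L)⁻¹ • (-(∑ l ∈ T0.erase L, a l • resI I (w l - (fun i => (e i : ℝ))))) := by
    rw [← eq_neg_of_add_eq_zero_left hrel, smul_smul, inv_mul_cancel₀ hLa, one_smul]
  show resI I (w L - (fun i => (e i : ℝ))) ∈ _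
  rw [h3]
  apply Submodule.smul_mem
  apply Submodule.neg_mem
  apply Submodule.sum_mem
  intro l hl
  apply Submodule.smul_mem
  exact Submodule.subset_span ⟨l, hl, rfl⟩

end

end Pool.Agent.Helper93.Jm
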