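import Pool.Agent.Helper93.JmDefs

set_option autoImplicit false

namespace Pool.Agent.Helper93.Jm

open Filter Topology Metric

noncomputable section


lemma exg_phi {K : Type} [MetricSpace K] (V : Set K) (hV : IsOpen V) :
    ∃ φ : K → ℝ, Continuous φ ∧ (∀ z, 0 ≤ φ z) ∧ (∀ z ∈ V, 0 < φ z) ∧ ∀ z, z ∉ V → φ z = 0 := by
  by_cases h : (Vᶜ).Nonempty
  · refine ⟨fun z => infDist z Vᶜ, continuous_infDist_pt _, fun z => infDist_nonneg, ?_, ?_⟩
    · intro z hz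
      exact (hV.isClosed_compl.notMem_iff_infDist_pos h).1 (fun h1 => h1 hz)
    · intro z hz
      exact infDist_zero_of_mem hz
  · refine ⟨fun _ => 1, continuous_const, fun _ => zero_le_one, fun _ _ => one_pos, ?_⟩
    intro z hz
    exact absurd ⟨z, hz⟩ h

lemma exists_g {K : Type} [MetricSpace K] [CompactSpace K] {A : Set K} {m : ℕ} (p : ℕ)
    (hcov : ∀ (t : K → ℝ), Continuous t → (∀ z, 0 ≤ t z) → (∀ z, t z ≤ 1) →
      ∀ U : ℕ → Set K, (∀ l, IsOpen (U l)) → (∀ z, 0 < t z → ∃ l, z ∈ U l) →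
      (∀ n : ℕ, {l | (U l ∩ {z | (1/2 : ℝ) ^ n ≤ t z}).Nonempty}.Finite) →
      ∃ V : ℕ → Set K, (∀ l, IsOpen (V l)) ∧ (∀ l, V l ⊆ U l) ∧ (∀ l, ∀ z ∈ V l, 0 < t z) ∧
        (∀ z ∈ A, 0 < t z → ∃ l, z ∈ V l) ∧ ∀ z, {l | z ∈ V l}.Finite ∧ {l | z ∈ V l}.ncard ≤ m + 1)
    (hgen : ∀ (q : ℕ) (c : ℕ → Fin q → ℝ) (r : ℕ → ℝ), (∀ l, 0 < r l) →
      ∃ w : ℕ → Fin q → ℝ, (∀ l i, |w l i - c l i| ≤ r l) ∧
        ∀ (T : Finset ℕ) (a : ℕ → ℝ), T.card ≤ m + 1 → (∀ l ∈ T, 0 ≤ a l) → ∑ l ∈ T, a l = 1 →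
          {i | Dy (∑ l ∈ T, a l * w l i)}.ncard ≤ m)
    (hfam : ∀ (q : ℕ) (h : K → Fin q → ℝ) (t : K → ℝ), Continuous h → Continuous t → (∀ z, t z ≤ 1) →
      ∃ (U : ℕ → Set K) (c : ℕ → Fin q → ℝ) (r : ℕ → ℝ), (∀ l, IsOpen (U l)) ∧ (∀ l, 0 < r l) ∧
        (∀ z, 0 < t z → ∃ l, z ∈ U l) ∧
        (∀ n : ℕ, {l | (U l ∩ {z | (1/2 : ℝ) ^ n ≤ t z}).Nonempty}.Finite) ∧
        ∀ l, ∀ z ∈ U l, ∀ i, |c l i - h z i| + r l ≤ t z) :
    Exg K A m p := by
  classical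
  intro h t hh ht ht0 ht1
  obtain ⟨U, c, r, hU, hr, hUc, hUf, hUb⟩ := hfam (p + 1) h t hh ht ht1
  obtain ⟨V, hV, hVU, hVt, hVA, hVf⟩ := hcov t ht ht0 ht1 U hU hUc hUf
  obtain ⟨w, hwc, hw⟩ := hgen (p + 1) c r hr
  choose φ hφc hφ0 hφp hφz using fun l => exg_phi (V l) (hV l)
  have hloc : ∀ z0, 0 < t z0 → ∃ F : Finset ℕ, ∀ᶠ z in 𝓝 z0, ∀ l, l ∉ F → φ l z = 0 := by
    intro z0 h0
    obtain ⟨n, hn⟩ := exists_pow_lt_of_lt_one h0 (by norm_num : (1 / 2 : ℝ) < 1)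
    refine ⟨(hUf n).toFinset, ?_⟩
    have h1 : ∀ᶠ z in 𝓝 z0, (1 / 2 : ℝ) ^ n < t z := ht.continuousAt.eventually (lt_mem_nhds hn)
    filter_upwards [h1] with z hz l hl
    apply hφz
    intro hzV
    apply hl
    rw [Set.Finite.mem_toFinset]
    exact ⟨z, hVU l hzV, hz.le⟩
  have hfs : ∀ (F : Finset ℕ) (z : K) (b : ℕ → ℝ), (∀ l, l ∉ F → φ l z = 0) →
      ∑ᶠ l, φ l z * b l = ∑ l ∈ F, φ l z * b l := by
    intro F z b hF
    apply finsum_eq_sum_of_support_subset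
    intro l hl
    by_contra h1
    apply hl
    show φ l z * b l = 0
    rw [hF l h1, zero_mul]
  have hpos : ∀ z ∈ ⋃ l, V l, 0 < t z := by
    intro z hz
    obtain ⟨l, hl⟩ := Set.mem_iUnion.1 hz
    exact hVt l z hl
  have hD : ∀ (F : Finset ℕ), ∀ z ∈ ⋃ l, V l, (∀ l, l ∉ F → φ l z = 0) →
      0 < ∑ l ∈ F, φ l z * 1 := by
    intro F z hz hF
    obtain ⟨l, hl⟩ := Set.mem_iUnion.1 hz
    have h1 := hφp l z hl
    have h2 : l ∈ F := by
      by_contra h3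
      exact h1.ne' (hF l h3)
    apply Finset.sum_pos' (fun k _ => by rw [mul_one]; exact hφ0 k z)
    exact ⟨l, h2, by rw [mul_one]; exact h1⟩
  refine ⟨⋃ l, V l, fun z i => (∑ᶠ l, φ l z * w l i) / (∑ᶠ l, φ l z * 1),
    isOpen_iUnion hV, hpos, ?_, ?_, ?_⟩
  · intro x hx h0
    obtain ⟨l, hl⟩ := hVA x hx h0
    exact Set.mem_iUnion.2 ⟨l, hl⟩
  · intro z0 hz0
    apply ContinuousAt.continuousWithinAt
    rw [continuousAt_pi]
    intro i
    obtain ⟨F, hF⟩ := hloc z0 (hpos z0 hz0)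
    have h1 : ContinuousAt (fun z => (∑ l ∈ F, φ l z * w l i) / (∑ l ∈ F, φ l z * 1)) z0 := by
      apply ContinuousAt.div
      · exact (continuous_finsetSum _ fun l _ => (hφc l).mul continuous_const).continuousAt
      · exact (continuous_finsetSum _ fun l _ => (hφc l).mul continuous_const).continuousAt
      · exact (hD F z0 hz0 hF.self_of_nhds).ne'
    apply h1.congr
    filter_upwards [hF] with z hz
    show _ = (∑ᶠ l, φ l z * w l i) / (∑ᶠ l, φ l z * 1)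
    rw [hfs F z (fun l => w l i) hz, hfs F z (fun _ => 1) hz]
  · rw [← forall₂_and]
    intro z hz
    obtain ⟨hTf, hTc⟩ := hVf z
    obtain ⟨T, hT⟩ : ∃ T : Finset ℕ, T = hTf.toFinset := ⟨_, rfl⟩
    have hTm : ∀ l, l ∈ T ↔ z ∈ V l := by
      intro l
      rw [hT, Set.Finite.mem_toFinset]
      rfl
    have hTz : ∀ l, l ∉ T → φ l z = 0 := fun l hl => hφz l z (fun h1 => hl ((hTm l).2 h1))
    have hTcard : T.card ≤ m + 1 := by
      rw [hT, ← Set.ncard_eq_toFinset_card _ hTf]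
      exact hTc
    obtain ⟨D, hDd⟩ : ∃ D, D = ∑ l ∈ T, φ l z * 1 := ⟨_, rfl⟩
    have hDp : 0 < D := by rw [hDd]; exact hD T z hz hTz
    have hsum : ∑ l ∈ T, φ l z / D = 1 := by
      rw [← Finset.sum_div, div_eq_one_iff_eq hDp.ne', hDd]
      simp
    have ha0 : ∀ l ∈ T, 0 ≤ φ l z / D := fun l _ => div_nonneg (hφ0 l z) hDp.le
    have hg : ∀ i, (∑ᶠ l, φ l z * w l i) / (∑ᶠ l, φ l z * 1) = ∑ l ∈ T, φ l z / D * w l i := by
      intro i
      rw [hfs T z (fun l => w l i) hTz, hfs T z (fun _ => 1) hTz, ← hDd, Finset.sum_div]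
      refine Finset.sum_congr rfl fun l _ => ?_
      ring
    constructor
    · intro i
      show |(∑ᶠ l, φ l z * w l i) / (∑ᶠ l, φ l z * 1) - h z i| ≤ t z
      rw [hg i]
      have h1 : ∑ l ∈ T, φ l z / D * w l i - h z i = ∑ l ∈ T, φ l z / D * (w l i - h z i) := by
        simp only [mul_sub, Finset.sum_sub_distrib]
        rw [← Finset.sum_mul, hsum, one_mul]
      rw [h1]
      calc |∑ l ∈ T, φ l z / D * (w l i - h z i)| ≤ ∑ l ∈ T, |φ l z / D * (w l i - h z i)| :=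
            Finset.abs_sum_le_sum_abs _ _
        _ ≤ ∑ l ∈ T, φ l z / D * t z := by
            apply Finset.sum_le_sum
            intro l hl
            rw [abs_mul, abs_of_nonneg (ha0 l hl)]
            apply mul_le_mul_of_nonneg_left _ (ha0 l hl)
            have h2 := hwc l i
            have h3 := hUb l z (hVU l ((hTm l).1 hl)) i
            have h4 : w l i - h z i = (w l i - c l i) + (c l i - h z i) := by ring
            rw [h4]
            exact (abs_add_le _ _).trans (by linarith)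
        _ = t z := by rw [← Finset.sum_mul, hsum, one_mul]
    · have h1 := hw T (fun l => φ l z / D) hTcard ha0 hsum
      simp only [hg]
      exact h1


end

end Pool.Agent.Helper93.Jm
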