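import Pool.Agent.Helper93.JmAl

set_option autoImplicit false

namespace Pool.Agent.Helper93.Jm

open Filter Topology Metric

noncomputable section



def ExHt (p : ℕ) : Prop :=
  ∃ ht : (Fin (p+1) → ℝ) → (Fin (p+1) → ℝ) → ℝ → ℝ → (Fin (p+1) → ℝ),
  ContinuousOn (fun x : (Fin (p+1) → ℝ) × (Fin (p+1) → ℝ) × ℝ × ℝ => ht x.1 x.2.1 x.2.2.1 x.2.2.2)
    {x | 0 < x.2.2.2} ∧
  (∀ h P σ u i, 0 < u → 0 ≤ σ → σ ≤ 1 → (∀ i, |P i| ≤ σ * (ee u / 2)) → |ht h P σ u i - h i| ≤ 3 * ee u) ∧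
  (∀ h P σ u i (k : ℕ), 0 < u → (k : ℝ) ≤ u → Gr (nn p k i) (h i) → ht h P σ u i = h i) ∧
  (∀ h P σ u, 0 < u → 0 < σ → σ ≤ 1 → (∀ i, |P i| ≤ σ * (ee u / 2)) →
    {i | Dy (h i + P i / σ)}.ncard + 4 ≤ p →
    ∃ i : Fin (p+1), i ≠ 0 ∧ ⌊u⌋₊ % (p+1) ≠ i ∧ Int.fract (ht h P σ u i * 2 ^ (nn p ⌊u⌋₊ i)) ≠ 1/2)

/-- the correction term (auxiliary) -/
def htk (N x P σ e : ℝ) : ℝ :=
  max 0 (min 1 (2 - |Int.fract (x * N) - 1/2| / N / e)) *
    (P - (1 - σ) * ((Int.fract (x * N) - 1/2) / N))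

lemma htk_w (N x : ℝ) (hN : 0 < N) :
    |(Int.fract (x * N) - 1/2) / N| = |Int.fract (x * N) - 1/2| / N := by
  rw [abs_div, abs_of_pos hN]

lemma htk_kap (t : ℝ) : 0 ≤ max 0 (min 1 (2 - t)) ∧ max 0 (min 1 (2 - t)) ≤ 1 :=
  ⟨le_max_left _ _, max_le zero_le_one (min_le_left _ _)⟩

lemma htk_kapmul (D e : ℝ) (he : 0 < e) (hD : 0 ≤ D) :
    max 0 (min 1 (2 - D / e)) * D ≤ 2 * e := by
  rcases le_total (2 * e) D with h | h
  · have h1 : 2 ≤ D / e := by rw [le_div_iff₀ he]; exact h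
    have h2 : max 0 (min 1 (2 - D / e)) = 0 := by
      apply max_eq_left
      exact (min_le_right _ _).trans (by linarith)
    rw [h2, zero_mul]
    positivity
  · have h1 := (htk_kap (D / e)).2
    nlinarith

lemma htk_bound (N x P σ e : ℝ) (hN : 0 < N) (he : 0 < e) :
    |htk N x P σ e| ≤ |P| + |1 - σ| * (2 * e) := by
  unfold htk
  have hk := htk_kap (|Int.fract (x * N) - 1/2| / N / e)
  have hm := htk_kapmul (|Int.fract (x * N) - 1/2| / N) e he (by positivity)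
  obtain ⟨k, hkd⟩ : ∃ k, k = max 0 (min 1 (2 - |Int.fract (x * N) - 1/2| / N / e)) := ⟨_, rfl⟩
  rw [← hkd] at hk hm ⊢
  rw [abs_mul, abs_of_nonneg hk.1]
  have h1 : |P - (1 - σ) * ((Int.fract (x * N) - 1/2) / N)| ≤
      |P| + |1 - σ| * (|Int.fract (x * N) - 1/2| / N) := by
    refine (abs_sub _ _).trans ?_
    rw [abs_mul, htk_w N x hN]
  have h2 : k * |P| ≤ |P| := by nlinarith [abs_nonneg P, hk.2]
  have h3 : |1 - σ| * (k * (|Int.fract (x * N) - 1/2| / N)) ≤ |1 - σ| * (2 * e) :=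
    mul_le_mul_of_nonneg_left hm (abs_nonneg _)
  calc k * |P - (1 - σ) * ((Int.fract (x * N) - 1/2) / N)| ≤
      k * (|P| + |1 - σ| * (|Int.fract (x * N) - 1/2| / N)) := mul_le_mul_of_nonneg_left h1 hk.1
    _ = k * |P| + |1 - σ| * (k * (|Int.fract (x * N) - 1/2| / N)) := by ring
    _ ≤ _ := by linarith

lemma htk_absfract : Continuous (fun x : ℝ => |Int.fract x - 1/2|) := by
  have h : ContinuousOn (fun x : ℝ => |x - 1/2|) (Set.Icc 0 1) := by fun_prop
  have := ContinuousOn.comp_fract'' h (by norm_num)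
  exact this

lemma htk_grid (N x P σ e : ℝ) (hN : 0 < N) (he : 0 < e) (hNe : N * e ≤ 1 / 16)
    (hx : Int.fract (x * N) = 0) : htk N x P σ e = 0 := by
  unfold htk
  have h1 : max 0 (min 1 (2 - |Int.fract (x * N) - 1/2| / N / e)) = 0 := by
    apply max_eq_left
    refine (min_le_right _ _).trans ?_
    rw [hx, div_div]
    have h2 : (2 : ℝ) ≤ |(0:ℝ) - 1/2| / (N * e) := by
      rw [le_div_iff₀ (by positivity)]
      norm_num
      linarith
    linarith
  rw [h1, zero_mul]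

lemma htk_cont (N : ℝ) (hN : 0 < N) (x P σ e : ℝ) (he : 0 < e) (hNe : N * e ≤ 1 / 16) :
    ContinuousAt (fun z : ℝ × ℝ × ℝ × ℝ => htk N z.1 z.2.1 z.2.2.1 z.2.2.2) (x, P, σ, e) := by
  have hk : ContinuousAt (fun z : ℝ × ℝ × ℝ × ℝ =>
      2 - |Int.fract (z.1 * N) - 1/2| / N / z.2.2.2) (x, P, σ, e) := by
    have h1 : Continuous (fun z : ℝ × ℝ × ℝ × ℝ => |Int.fract (z.1 * N) - 1/2|) :=
      htk_absfract.comp (continuous_fst.mul continuous_const)
    refine ContinuousAt.sub continuousAt_const (ContinuousAt.div ?_ ?_ he.ne')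
    · exact (h1.div_const N).continuousAt
    · fun_prop
  by_cases hx : Int.fract (x * N) = 0
  · -- locally zero
    have h2 : htk N x P σ e = 0 := htk_grid N x P σ e hN he hNe hx
    have h3 : (2 - |Int.fract (x * N) - 1/2| / N / e) < 0 := by
      rw [hx, div_div]
      have h2 : (8 : ℝ) ≤ |(0:ℝ) - 1/2| / (N * e) := by
        rw [le_div_iff₀ (by positivity)]
        norm_num
        linarith
      linarith
    have h4 : ∀ᶠ z : ℝ × ℝ × ℝ × ℝ in 𝓝 (x, P, σ, e),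
        2 - |Int.fract (z.1 * N) - 1/2| / N / z.2.2.2 < 0 := hk.eventually_lt continuousAt_const h3
    have h5 : (fun z : ℝ × ℝ × ℝ × ℝ => htk N z.1 z.2.1 z.2.2.1 z.2.2.2) =ᶠ[𝓝 (x, P, σ, e)]
        fun _ => (0:ℝ) := by
      filter_upwards [h4] with z hz
      unfold htk
      have : max 0 (min 1 (2 - |Int.fract (z.1 * N) - 1/2| / N / z.2.2.2)) = 0 := by
        apply max_eq_left
        exact (min_le_right _ _).trans hz.le
      rw [this, zero_mul]
    exact (continuousAt_const (y := (0:ℝ))).congr h5.symm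
  · have hfl : ContinuousAt (Int.fract : ℝ → ℝ) (x * N) := by
      refine (continuousOn_fract ⌊x * N⌋).continuousAt (Ico_mem_nhds ?_ ?_)
      · refine lt_of_le_of_ne (Int.floor_le _) (fun h => hx ?_)
        rw [Int.fract, ← h]
        simp
      · exact Int.lt_floor_add_one _
    have hfr : ContinuousAt (fun z : ℝ × ℝ × ℝ × ℝ => Int.fract (z.1 * N)) (x, P, σ, e) := by
      have h6 : ContinuousAt (fun z : ℝ × ℝ × ℝ × ℝ => z.1 * N) (x, P, σ, e) := by fun_prop
      exact ContinuousAt.comp (f := fun z : ℝ × ℝ × ℝ × ℝ => z.1 * N) (g := Int.fract) hfl h6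
    unfold htk
    refine ContinuousAt.mul ?_ ?_
    · exact continuousAt_const.max (continuousAt_const.min hk)
    · refine ContinuousAt.sub (by fun_prop) (ContinuousAt.mul (by fun_prop) ?_)
      exact (hfr.sub continuousAt_const).div_const N

lemma nn_le (p l : ℕ) (i : Fin (p+1)) : nn p l i ≤ l := by
  unfold nn
  have : (l + (p - (i : ℕ))) / (p + 1) < l + 1 := by
    rw [Nat.div_lt_iff_lt_mul (Nat.succ_pos p)]
    nlinarith [Nat.sub_le p (i : ℕ)]
  omega

lemma nn_mono' (p : ℕ) (i : Fin (p+1)) {k l : ℕ} (h : k ≤ l) : nn p k i ≤ nn p l i := by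
  unfold nn
  exact Nat.div_le_div_right (by omega)

lemma ee_pos (u : ℝ) : 0 < ee u := Real.rpow_pos_of_pos (by norm_num) _

lemma N_ee (p : ℕ) (i : Fin (p+1)) (u : ℝ) (hu : 0 < u) :
    (2:ℝ) ^ (nn p ⌊u⌋₊ i) * ee u ≤ 1 / 16 := by
  have h1 : (2:ℝ) ^ (nn p ⌊u⌋₊ i) ≤ (2:ℝ) ^ u := by
    rw [← Real.rpow_natCast]
    refine Real.rpow_le_rpow_of_exponent_le (by norm_num) ?_
    exact (Nat.cast_le.mpr (nn_le p _ i)).trans (Nat.floor_le hu.le)
  have h2 : (2:ℝ) ^ u * ee u = 1 / 16 := by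
    unfold ee
    rw [← Real.rpow_add (by norm_num)]
    have : u + (-u - 4) = -(4:ℕ) := by push_cast; ring
    rw [this, Real.rpow_neg (by norm_num), Real.rpow_natCast]
    norm_num
  calc (2:ℝ) ^ (nn p ⌊u⌋₊ i) * ee u ≤ (2:ℝ) ^ u * ee u :=
        mul_le_mul_of_nonneg_right h1 (ee_pos u).le
    _ = _ := h2

lemma Gr_fract {p : ℕ} {i : Fin (p+1)} {u : ℝ} {k : ℕ} {x : ℝ} (hk : (k:ℝ) ≤ u)
    (h : Gr (nn p k i) x) : Int.fract (x * 2 ^ (nn p ⌊u⌋₊ i)) = 0 := by
  obtain ⟨z, hz⟩ := h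
  have h1 : nn p k i ≤ nn p ⌊u⌋₊ i := nn_mono' p i (Nat.le_floor hk)
  obtain ⟨m, hm⟩ := Nat.exists_eq_add_of_le h1
  have h2 : x * 2 ^ (nn p ⌊u⌋₊ i) = ((z * 2 ^ m : ℤ) : ℝ) := by
    rw [hm, pow_add, ← mul_assoc, hz]
    push_cast
    ring
  rw [h2]
  exact Int.fract_intCast _

lemma exists_ht (p : ℕ) (hal : ExAl p) : ExHt p := by
  obtain ⟨al, hal1, hal2, hal3, hal4⟩ := hal
  refine ⟨fun h P σ u i => h i + al i u * htk (2 ^ (nn p ⌊u⌋₊ i)) (h i) (P i) σ (ee u),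
    ?_, ?_, ?_, ?_⟩
  · -- continuity
    refine continuousOn_pi.mpr (fun i => ?_)
    rintro ⟨h, P, σ, u⟩ hu
    have hu' : 0 < u := hu
    refine ContinuousAt.continuousWithinAt ?_
    have hee : Continuous ee := by
      unfold ee
      exact continuous_const.rpow (by fun_prop) (fun _ => Or.inl (by norm_num))
    have hu4 : Continuous (fun x : (Fin (p+1) → ℝ) × (Fin (p+1) → ℝ) × ℝ × ℝ => x.2.2.2) := by
      fun_prop
    have halc : Continuous (fun x : (Fin (p+1) → ℝ) × (Fin (p+1) → ℝ) × ℝ × ℝ => al i x.2.2.2) :=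
      (hal1 i).comp hu4
    have heec : Continuous (fun x : (Fin (p+1) → ℝ) × (Fin (p+1) → ℝ) × ℝ × ℝ => ee x.2.2.2) :=
      hee.comp hu4
    refine ContinuousAt.add (by fun_prop) ?_
    rcases (hal2 i u).1.eq_or_lt with h0 | h0
    · -- al = 0
      have hval : al i u * htk (2 ^ (nn p ⌊u⌋₊ i)) (h i) (P i) σ (ee u) = 0 := by
        rw [← h0, zero_mul]
      show Tendsto (fun x : (Fin (p+1) → ℝ) × (Fin (p+1) → ℝ) × ℝ × ℝ =>
        al i x.2.2.2 * htk (2 ^ (nn p ⌊x.2.2.2⌋₊ i)) (x.1 i) (x.2.1 i) x.2.2.1 (ee x.2.2.2))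
        (𝓝 (h, P, σ, u)) (𝓝 (al i u * htk (2 ^ (nn p ⌊u⌋₊ i)) (h i) (P i) σ (ee u)))
      rw [hval]
      have hB : Continuous (fun x : (Fin (p+1) → ℝ) × (Fin (p+1) → ℝ) × ℝ × ℝ =>
          al i x.2.2.2 * (|x.2.1 i| + |1 - x.2.2.1| * (2 * ee x.2.2.2))) := by
        refine halc.mul (Continuous.add (by fun_prop) (Continuous.mul (by fun_prop) ?_))
        exact continuous_const.mul heec
      have hlim : Tendsto (fun x : (Fin (p+1) → ℝ) × (Fin (p+1) → ℝ) × ℝ × ℝ =>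
          al i x.2.2.2 * (|x.2.1 i| + |1 - x.2.2.1| * (2 * ee x.2.2.2))) (𝓝 (h, P, σ, u)) (𝓝 0) := by
        have := hB.tendsto (h, P, σ, u)
        simp only [← h0, zero_mul] at this
        exact this
      refine squeeze_zero_norm (fun x => ?_) hlim
      rw [Real.norm_eq_abs, abs_mul, abs_of_nonneg (hal2 i _).1]
      exact mul_le_mul_of_nonneg_left (htk_bound _ _ _ _ _ (by positivity) (ee_pos _)) (hal2 i _).1
    · -- al > 0
      have hloc := (hal3 i u hu' h0).2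
      have hu4' : Tendsto (fun x : (Fin (p+1) → ℝ) × (Fin (p+1) → ℝ) × ℝ × ℝ => x.2.2.2)
          (𝓝 (h, P, σ, u)) (𝓝 u) := hu4.tendsto _
      have hev : ∀ᶠ x : (Fin (p+1) → ℝ) × (Fin (p+1) → ℝ) × ℝ × ℝ in 𝓝 (h, P, σ, u),
          nn p ⌊x.2.2.2⌋₊ i = nn p ⌊u⌋₊ i := hu4'.eventually hloc
      have hc : ContinuousAt (fun x : (Fin (p+1) → ℝ) × (Fin (p+1) → ℝ) × ℝ × ℝ =>
          al i x.2.2.2 * htk (2 ^ (nn p ⌊u⌋₊ i)) (x.1 i) (x.2.1 i) x.2.2.1 (ee x.2.2.2))
          (h, P, σ, u) := by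
        refine halc.continuousAt.mul ?_
        have h5 := htk_cont (2 ^ (nn p ⌊u⌋₊ i)) (by positivity) (h i) (P i) σ (ee u) (ee_pos u)
          (N_ee p i u hu')
        have h6 : Continuous (fun x : (Fin (p+1) → ℝ) × (Fin (p+1) → ℝ) × ℝ × ℝ =>
            ((x.1 i, x.2.1 i, x.2.2.1, ee x.2.2.2) : ℝ × ℝ × ℝ × ℝ)) :=
          Continuous.prodMk (by fun_prop) (Continuous.prodMk (by fun_prop)
            (Continuous.prodMk (by fun_prop) heec))
        exact ContinuousAt.comp (f := fun x : (Fin (p+1) → ℝ) × (Fin (p+1) → ℝ) × ℝ × ℝ =>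
            ((x.1 i, x.2.1 i, x.2.2.1, ee x.2.2.2) : ℝ × ℝ × ℝ × ℝ))
          (g := fun z : ℝ × ℝ × ℝ × ℝ => htk (2 ^ (nn p ⌊u⌋₊ i)) z.1 z.2.1 z.2.2.1 z.2.2.2)
          h5 h6.continuousAt
      refine hc.congr ?_
      filter_upwards [hev] with x hx
      rw [hx]
  · intro h P σ u i hu hσ0 hσ1 hP
    show |h i + al i u * htk (2 ^ (nn p ⌊u⌋₊ i)) (h i) (P i) σ (ee u) - h i| ≤ 3 * ee u
    rw [add_sub_cancel_left, abs_mul, abs_of_nonneg (hal2 i u).1]
    have h1 := htk_bound (2 ^ (nn p ⌊u⌋₊ i)) (h i) (P i) σ (ee u) (by positivity) (ee_pos u)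
    have h2 := (hal2 i u).2
    have h3 : |1 - σ| ≤ 1 := abs_le.mpr ⟨by linarith, by linarith⟩
    have h4 := hP i
    have h5 := ee_pos u
    have h6 : al i u * |htk (2 ^ (nn p ⌊u⌋₊ i)) (h i) (P i) σ (ee u)| ≤
        1 * |htk (2 ^ (nn p ⌊u⌋₊ i)) (h i) (P i) σ (ee u)| :=
      mul_le_mul_of_nonneg_right h2 (abs_nonneg _)
    nlinarith
  · intro h P σ u i k hu hk hg
    show h i + al i u * htk (2 ^ (nn p ⌊u⌋₊ i)) (h i) (P i) σ (ee u) = h i
    rw [htk_grid _ _ _ _ _ (by positivity) (ee_pos u) (N_ee p i u hu) (Gr_fract hk hg)]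
    ring
  · intro h P σ u hu hσ0 hσ1 hP hcard
    classical
    have hex : ∃ i : Fin (p+1), i ≠ 0 ∧ al i u = 1 ∧ ¬ Dy (h i + P i / σ) := by
      by_contra hcon
      push Not at hcon
      have hsub : (Set.univ : Set (Fin (p+1))) ⊆ ({0} ∪ {i | al i u ≠ 1}) ∪
          {i | Dy (h i + P i / σ)} := by
        intro i _
        by_cases h1 : i = 0
        · left; left; exact h1
        · by_cases h2 : al i u = 1
          · right; exact hcon i h1 h2
          · left; right; exact h2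
      have h3 := Set.ncard_le_ncard hsub (Set.toFinite _)
      rw [Set.ncard_univ, Nat.card_eq_fintype_card, Fintype.card_fin] at h3
      have h4 := Set.ncard_union_le ({0} ∪ {i | al i u ≠ 1}) {i : Fin (p+1) | Dy (h i + P i / σ)}
      have h5 := Set.ncard_union_le ({0} : Set (Fin (p+1))) {i | al i u ≠ 1}
      rw [Set.ncard_singleton] at h5
      have h6 := hal4 u hu
      omega
    obtain ⟨i, hi0, hi1, hiD⟩ := hex
    refine ⟨i, hi0, (hal3 i u hu (by rw [hi1]; norm_num)).1, ?_⟩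
    show Int.fract ((h i + al i u * htk (2 ^ (nn p ⌊u⌋₊ i)) (h i) (P i) σ (ee u)) *
      2 ^ (nn p ⌊u⌋₊ i)) ≠ 1/2
    rw [hi1, one_mul]
    have hNe := N_ee p i u hu
    have he := ee_pos u
    have hPi := hP i
    obtain ⟨n, hn⟩ : ∃ n, n = nn p ⌊u⌋₊ i := ⟨_, rfl⟩
    rw [← hn] at hNe ⊢
    obtain ⟨N, hN⟩ : ∃ N : ℝ, N = 2 ^ n := ⟨_, rfl⟩
    have hN0 : 0 < N := by rw [hN]; positivity
    rw [← hN] at hNe ⊢
    obtain ⟨e, hee⟩ : ∃ e, e = ee u := ⟨_, rfl⟩
    rw [← hee] at hNe he hPi ⊢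
    obtain ⟨x, hx⟩ : ∃ x, x = h i := ⟨_, rfl⟩
    obtain ⟨P', hP'⟩ : ∃ P', P' = P i := ⟨_, rfl⟩
    rw [← hx, ← hP'] at hiD ⊢
    rw [← hP'] at hPi
    obtain ⟨w, hw⟩ : ∃ w, w = (Int.fract (x * N) - 1/2) / N := ⟨_, rfl⟩
    have hwabs : |w| = |Int.fract (x * N) - 1/2| / N := by rw [hw]; exact htk_w N x hN0
    have hwN : w * N = Int.fract (x * N) - 1/2 := by rw [hw]; field_simp
    obtain ⟨k, hk⟩ : ∃ k, k = max 0 (min 1 (2 - |w| / e)) := ⟨_, rfl⟩
    have hhtk : htk N x P' σ e = k * (P' - (1 - σ) * w) := by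
      unfold htk
      rw [hk, hwabs, hw]
    have hk01 := htk_kap (|w| / e)
    have hkm := htk_kapmul |w| e he (abs_nonneg w)
    rw [← hk] at hk01 hkm
    rw [hhtk]
    -- v
    obtain ⟨v, hv⟩ : ∃ v, v = w + k * (P' - (1 - σ) * w) := ⟨_, rfl⟩
    have hvN : (x + k * (P' - (1 - σ) * w)) * N = (⌊x * N⌋ : ℝ) + 1/2 + v * N := by
      have h1 : x * N = (⌊x * N⌋ : ℝ) + Int.fract (x * N) := (Int.floor_add_fract _).symm
      rw [hv]
      linear_combination h1 - hwN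
    have hwN2 : |w| * N ≤ 1/2 := by
      have h1 : |w| * N = |Int.fract (x * N) - 1/2| := by
        rw [hwabs]; field_simp
      rw [h1]
      have h2 := Int.fract_nonneg (x * N)
      have h3 := (Int.fract_lt_one (x * N)).le
      exact abs_le.mpr ⟨by linarith, by linarith⟩
    have hPe : |P'| ≤ e / 2 := by nlinarith
    have hvlt : |v * N| < 1 := by
      rw [abs_mul, abs_of_pos hN0]
      have h1 : |v| ≤ |w| + (e / 2 + 2 * e) := by
        rw [hv]
        refine (abs_add_le _ _).trans ?_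
        have h2 : |k * (P' - (1 - σ) * w)| ≤ e / 2 + 2 * e := by
          rw [abs_mul, abs_of_nonneg hk01.1]
          have h3 : |P' - (1 - σ) * w| ≤ |P'| + |w| := by
            refine (abs_sub _ _).trans ?_
            rw [abs_mul, abs_of_nonneg (by linarith : 0 ≤ 1 - σ)]
            nlinarith [abs_nonneg w]
          nlinarith [abs_nonneg P', hk01.1, hk01.2]
        linarith
      nlinarith
    have hv0 : v ≠ 0 := by
      rcases le_or_gt |w| e with hwe | hwe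
      · have hk1 : k = 1 := by
          rw [hk]
          have : |w| / e ≤ 1 := by rw [div_le_one he]; exact hwe
          rw [min_eq_left (by linarith), max_eq_right zero_le_one]
        intro hv00
        apply hiD
        refine ⟨n + 1, 2 * ⌊x * N⌋ + 1, ?_⟩
        have h1 : x + P' / σ = x - w := by
          rw [hk1] at hv
          have h2 : P' + σ * w = 0 := by rw [← hv00, hv]; ring
          have h3 : P' / σ = -w := by
            rw [div_eq_iff hσ0.ne']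
            linarith
          rw [h3]; ring
        rw [h1, pow_succ, ← hN]
        push_cast
        have h4 : x * N = (⌊x * N⌋ : ℝ) + Int.fract (x * N) := (Int.floor_add_fract _).symm
        linear_combination 2 * h4 - 2 * hwN
      · rcases le_total 0 w with h1 | h1
        · rw [abs_of_nonneg h1] at hwe
          have h2 := (abs_le.mp hPi).1
          have h3 : 0 < v := by
            have h4 : v = w * (1 - k) + k * (σ * w + P') := by rw [hv]; ring
            rw [h4]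
            have h5 : 0 < σ * w + P' := by nlinarith
            rcases hk01.1.eq_or_lt with h6 | h6
            · rw [← h6]; nlinarith
            · have h7 : 0 ≤ w * (1 - k) := mul_nonneg h1 (by linarith [hk01.2])
              have h8 := mul_pos h6 h5
              linarith
          exact h3.ne'
        · rw [abs_of_nonpos h1] at hwe
          have h2 := (abs_le.mp hPi).2
          have h3 : v < 0 := by
            have h4 : v = w * (1 - k) + k * (σ * w + P') := by rw [hv]; ring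
            rw [h4]
            have h5 : σ * w + P' < 0 := by nlinarith
            rcases hk01.1.eq_or_lt with h6 | h6
            · rw [← h6]; nlinarith
            · have h7 : w * (1 - k) ≤ 0 := mul_nonpos_of_nonpos_of_nonneg h1 (by linarith [hk01.2])
              have h8 := mul_neg_of_pos_of_neg h6 h5
              linarith
          exact h3.ne
    intro hcon
    rw [hvN] at hcon
    have h1 : (⌊x * N⌋ : ℝ) + 1/2 + v * N = (⌊(⌊x * N⌋ : ℝ) + 1/2 + v * N⌋ : ℝ) + 1/2 := by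
      conv_lhs => rw [← Int.floor_add_fract ((⌊x * N⌋ : ℝ) + 1/2 + v * N)]
      rw [hcon]
    obtain ⟨m, hm⟩ : ∃ m : ℤ, v * N = m := by
      refine ⟨⌊(⌊x * N⌋ : ℝ) + 1/2 + v * N⌋ - ⌊x * N⌋, ?_⟩
      push_cast
      linarith
    rw [hm] at hvlt
    have h2 : |m| < 1 := by exact_mod_cast hvlt
    have h3 : m = 0 := Int.abs_lt_one_iff.mp h2
    rw [h3] at hm
    push_cast at hm
    rcases mul_eq_zero.mp hm with h4 | h4
    · exact hv0 h4
    · exact hN0.ne' h4


end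

end Pool.Agent.Helper93.Jm
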