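import Pool.Agent.Helper93.JmDefs

set_option autoImplicit false

namespace Pool.Agent.Helper93.Jm

open Filter Topology Metric

noncomputable section


lemma exists_sep_pt {K : Type} [MetricSpace K] [CompactSpace K] {A : Set K} {d : ℕ}
    (B : Set (Set K)) (hB : TopologicalSpace.IsTopologicalBasis B)
    (H : K → Fin d → ℝ) (hH : Continuous H)
    (hQ : ∀ x ∈ A, ∀ Q : Set K, IsPreconnected Q → IsClosed Q → x ∈ Q → (∀ z ∈ Q, H z = H x) → Q = {x})
    (x : K) (hx : x ∈ A) (z : K) (hzx : z ≠ x) (hz : H z = H x) :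
    ∃ (t : Set (Set K)) (c : Fin d → ℚ) (r : ℚ), t.Finite ∧ t ⊆ B ∧
      (∀ y ∈ frontier (⋃₀ t), (r : ℝ) ≤ ‖H y - fun i => (c i : ℝ)‖) ∧
      x ∈ ⋃₀ t ∧ z ∉ ⋃₀ t ∧ ‖H x - fun i => (c i : ℝ)‖ < r := by
  classical
  obtain ⟨F, hF⟩ : ∃ F : Set K, F = {y | H y = H x} := ⟨_, rfl⟩
  have hFc : IsClosed F := by
    rw [hF]
    exact isClosed_eq hH continuous_const
  have hxF : x ∈ F := by rw [hF]; simp
  have hzF : z ∈ F := by rw [hF]; exact hz
  have hFcomp : CompactSpace F := isCompact_iff_compactSpace.1 hFc.isCompact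
  -- the component of x in F
  have hcc : Subtype.val '' (connectedComponent (⟨x, hxF⟩ : F)) = {x} := by
    apply hQ x hx
    · exact isPreconnected_connectedComponent.image _ continuous_subtype_val.continuousOn
    · exact hFc.isClosedEmbedding_subtypeVal.isClosedMap _ isClosed_connectedComponent
    · exact ⟨_, mem_connectedComponent, rfl⟩
    · rintro y ⟨w, _, rfl⟩
      have h1 := hF.subset w.2
      exact h1
  have hznot : (⟨z, hzF⟩ : F) ∉ connectedComponent (⟨x, hxF⟩ : F) := by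
    intro h
    have h1 : z ∈ Subtype.val '' (connectedComponent (⟨x, hxF⟩ : F)) := ⟨_, h, rfl⟩
    rw [hcc] at h1
    exact hzx h1
  rw [connectedComponent_eq_iInter_isClopen, Set.mem_iInter] at hznot
  push Not at hznot
  obtain ⟨⟨C, hC, hxC⟩, hzC⟩ := hznot
  simp only at hzC
  have hC1 : IsClosed (Subtype.val '' C : Set K) :=
    hFc.isClosedEmbedding_subtypeVal.isClosedMap _ hC.isClosed
  have hC2 : IsClosed (Subtype.val '' Cᶜ : Set K) :=
    hFc.isClosedEmbedding_subtypeVal.isClosedMap _ hC.compl.isClosed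
  have hdisj : (Subtype.val '' C : Set K) ⊆ (Subtype.val '' Cᶜ)ᶜ := by
    rintro y ⟨w, hw, rfl⟩ ⟨w', hw', he⟩
    have : w' = w := Subtype.ext he
    subst this
    exact hw' hw
  obtain ⟨O1, hO1, hCO, hOD⟩ := normal_exists_closure_subset hC1 hC2.isOpen_compl hdisj
  obtain ⟨t, htb, htf, htc⟩ := hC1.isCompact.elim_finite_subcover_image
    (b := {s | s ∈ B ∧ s ⊆ O1}) (c := id) (fun s hs => hB.isOpen hs.1) (by
      intro y hy
      obtain ⟨s, hs, hys, hsO⟩ := hB.exists_subset_of_mem_open (hCO hy) hO1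
      simp only [Set.mem_iUnion]
      exact ⟨s, ⟨hs, hsO⟩, hys⟩)
  have hUopen : IsOpen (⋃₀ t) := isOpen_sUnion (fun s hs => hB.isOpen (htb hs).1)
  have hCU : (Subtype.val '' C : Set K) ⊆ ⋃₀ t := by
    intro y hy
    have := htc hy
    simp only [Set.mem_iUnion, id] at this
    obtain ⟨s, hs, hys⟩ := this
    exact ⟨s, hs, hys⟩
  have hUO : ⋃₀ t ⊆ O1 := Set.sUnion_subset (fun s hs => (htb hs).2)
  have hfr : ∀ y ∈ frontier (⋃₀ t), H y ≠ H x := by
    intro y hy he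
    have hyF : y ∈ F := by rw [hF]; exact he
    have h1 : y ∈ closure (⋃₀ t) := frontier_subset_closure hy
    have h2 : y ∉ (Subtype.val '' Cᶜ : Set K) := hOD (closure_mono hUO h1)
    have h3 : y ∈ (Subtype.val '' C : Set K) := by
      by_cases hc : (⟨y, hyF⟩ : F) ∈ C
      · exact ⟨_, hc, rfl⟩
      · exact absurd ⟨_, hc, rfl⟩ h2
    have h4 := hCU h3
    rw [hUopen.frontier_eq] at hy
    exact hy.2 h4
  have hcl : IsClosed (H '' frontier (⋃₀ t)) :=
    (isClosed_frontier.isCompact.image hH).isClosed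
  have hnot : H x ∈ (H '' frontier (⋃₀ t))ᶜ := by
    rintro ⟨y, hy, he⟩
    exact hfr y hy he
  obtain ⟨ε, hε, hball⟩ := Metric.isOpen_iff.1 hcl.isOpen_compl _ hnot
  have hfar : ∀ y ∈ frontier (⋃₀ t), ε ≤ ‖H y - H x‖ := by
    intro y hy
    by_contra hc
    push Not at hc
    have h1 : H y ∈ ball (H x) ε := by
      rw [mem_ball, dist_eq_norm]
      exact hc
    exact hball h1 ⟨y, hy, rfl⟩
  obtain ⟨r, hr1, hr2⟩ := exists_rat_btwn (show ε / 4 < ε / 2 by linarith)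
  have hci : ∀ i, ∃ c : ℚ, |H x i - c| < ε / 8 := by
    intro i
    obtain ⟨c, hc1, hc2⟩ := exists_rat_btwn (show H x i < H x i + ε / 8 by linarith)
    exact ⟨c, by rw [abs_lt]; constructor <;> linarith⟩
  choose c hc using hci
  have hcn : ‖H x - fun i => (c i : ℝ)‖ ≤ ε / 8 := by
    rw [pi_norm_le_iff_of_nonneg (by linarith)]
    intro i
    rw [Pi.sub_apply, Real.norm_eq_abs]
    exact (hc i).le
  refine ⟨t, c, r, htf, fun s hs => (htb hs).1, ?_, ?_, ?_, ?_⟩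
  · intro y hy
    have h1 := hfar y hy
    have h2 : ‖H y - H x‖ ≤ ‖H y - fun i => (c i : ℝ)‖ + ‖H x - fun i => (c i : ℝ)‖ := by
      have h3 : H y - H x = (H y - fun i => (c i : ℝ)) - (H x - fun i => (c i : ℝ)) := by
        abel
      rw [h3]
      exact norm_sub_le _ _
    linarith
  · exact hCU ⟨_, hxC, rfl⟩
  · intro hzU
    exact hOD (subset_closure (hUO hzU)) ⟨_, hzC, rfl⟩
  · linarith

lemma exists_sep {K : Type} [MetricSpace K] [CompactSpace K] {A : Set K} {d : ℕ}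
    (H : K → Fin d → ℝ) (hH : Continuous H)
    (hQ : ∀ x ∈ A, ∀ Q : Set K, IsPreconnected Q → IsClosed Q → x ∈ Q → (∀ z ∈ Q, H z = H x) → Q = {x}) :
    ∃ (U : ℕ → Set K) (c : ℕ → Fin d → ℝ) (r : ℕ → ℝ), (∀ n, IsOpen (U n)) ∧
      (∀ n, ∀ z ∈ frontier (U n), r n ≤ ‖H z - c n‖) ∧
      (∀ x ∈ A, ∀ z, z ≠ x → H z = H x → ∃ n, x ∈ U n ∧ z ∉ U n ∧ ‖H x - c n‖ < r n) := by
  classical
  have hBc : (TopologicalSpace.countableBasis K).Countable :=
    TopologicalSpace.countable_countableBasis K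
  have hB := TopologicalSpace.isBasis_countableBasis K
  obtain ⟨B, hBdef⟩ : ∃ B, B = TopologicalSpace.countableBasis K := ⟨_, rfl⟩
  rw [← hBdef] at hB hBc
  have hTc : {t : Set (Set K) | t.Finite ∧ t ⊆ B}.Countable :=
    Set.countable_ofPred_finite_subset hBc
  obtain ⟨G, hG⟩ : ∃ G : Set (Set K × (Fin d → ℝ) × ℝ), G =
      insert ((∅ : Set K), (0 : Fin d → ℝ), (0 : ℝ))
        {p | (∃ (t : Set (Set K)) (c : Fin d → ℚ) (r : ℚ), t.Finite ∧ t ⊆ B ∧
          p = (⋃₀ t, (fun i => (c i : ℝ)), (r : ℝ))) ∧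
          ∀ y ∈ frontier p.1, p.2.2 ≤ ‖H y - p.2.1‖} := ⟨_, rfl⟩
  have hGc : G.Countable := by
    rw [hG]
    apply Set.Countable.insert
    have h1 : ((fun q : Set (Set K) × (Fin d → ℚ) × ℚ =>
        ((⋃₀ q.1, (fun i => (q.2.1 i : ℝ)), (q.2.2 : ℝ)) : Set K × (Fin d → ℝ) × ℝ)) ''
          ({t : Set (Set K) | t.Finite ∧ t ⊆ B} ×ˢ
            (Set.univ : Set ((Fin d → ℚ) × ℚ)))).Countable :=
      (hTc.prod Set.countable_univ).image _
    apply h1.mono
    rintro p ⟨⟨t, c, r, htf, htB, rfl⟩, _⟩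
    exact ⟨(t, c, r), ⟨⟨htf, htB⟩, Set.mem_univ _⟩, rfl⟩
  obtain ⟨f, hf⟩ := hGc.exists_eq_range (by rw [hG]; exact Set.insert_nonempty _ _)
  have hmem : ∀ n, f n ∈ G := by
    intro n
    rw [hf]
    exact Set.mem_range_self n
  refine ⟨fun n => (f n).1, fun n => (f n).2.1, fun n => (f n).2.2, ?_, ?_, ?_⟩
  · intro n
    have h := hmem n
    rw [hG] at h
    show IsOpen (f n).1
    rcases h with h | ⟨⟨t, c, r, htf, htB, h⟩, _⟩
    · rw [h]
      exact isOpen_empty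
    · rw [h]
      exact isOpen_sUnion (fun s hs => hB.isOpen (htB hs))
  · intro n y hy
    have h := hmem n
    rw [hG] at h
    have hy : y ∈ frontier (f n).1 := hy
    rcases h with h | ⟨_, h⟩
    · rw [h] at hy
      simp at hy
    · exact h y hy
  · intro x hx z hzx hz
    obtain ⟨t, c, r, htf, htB, h1, h2, h3, h4⟩ := exists_sep_pt B hB H hH hQ x hx z hzx hz
    have hm : ((⋃₀ t, (fun i => (c i : ℝ)), (r : ℝ)) : Set K × (Fin d → ℝ) × ℝ) ∈ G := by
      rw [hG]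
      exact Or.inr ⟨⟨t, c, r, htf, htB, rfl⟩, h1⟩
    rw [hf] at hm
    obtain ⟨n, hn⟩ := hm
    refine ⟨n, ?_, ?_, ?_⟩
    · show x ∈ (f n).1
      rw [hn]; exact h2
    · show z ∉ (f n).1
      rw [hn]; exact h3
    · show ‖H x - (f n).2.1‖ < (f n).2.2
      rw [hn]; exact h4

end

end Pool.Agent.Helper93.Jm
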