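import Pool.Agent.Helper93.JmTiles

set_option autoImplicit false

namespace Pool.Agent.Helper93.Jm

open Filter Topology Metric

noncomputable section

@[instance_reducible]
def seqMet : MetricSpace (ℕ → ℝ) := PiCountable.metricSpace

attribute [local instance] seqMet

variable {d : ℕ} (c : ℕ → Fin d → ℝ) (r : ℕ → ℝ)

def psi (n : ℕ) (w : Fin d → ℝ) : ℝ := max 0 (r n - ‖w - c n‖)

variable {c r}

lemma psi_nonneg (n : ℕ) (w : Fin d → ℝ) : 0 ≤ psi c r n w := le_max_left _ _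

lemma psi_cont (n : ℕ) : Continuous (psi c r n) := by
  unfold psi
  fun_prop

lemma psi_lip (n : ℕ) (w w' : Fin d → ℝ) : |psi c r n w - psi c r n w'| ≤ ‖w - w'‖ := by
  unfold psi
  have h := abs_max_sub_max_le_abs (r n - ‖w - c n‖) (r n - ‖w' - c n‖) 0
  rw [max_comm 0, max_comm 0]
  refine h.trans ?_
  have h2 := abs_norm_sub_norm_le (w - c n) (w' - c n)
  have e1 : (w - c n) - (w' - c n) = w - w' := by abel
  rw [e1] at h2
  have e2 : r n - ‖w - c n‖ - (r n - ‖w' - c n‖) = -(‖w - c n‖ - ‖w' - c n‖) := by ring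
  rw [e2, abs_neg]
  exact h2

variable (c r)

def YY : Type := {y : (Fin d → ℝ) × (ℕ → ℝ) // ∀ n, y.2 n = 0 ∨ y.2 n = psi c r n y.1}

instance : MetricSpace (YY c r) :=
  inferInstanceAs (MetricSpace {y : (Fin d → ℝ) × (ℕ → ℝ) // ∀ n, y.2 n = 0 ∨ y.2 n = psi c r n y.1})

variable {c r}

def prW (y : YY c r) : Fin d → ℝ := y.1.1
def prX (n : ℕ) (y : YY c r) : ℝ := y.1.2 n

lemma prW_cont : Continuous (prW (c := c) (r := r)) := by
  have : Continuous fun y : {y : (Fin d → ℝ) × (ℕ → ℝ) // ∀ n, y.2 n = 0 ∨ y.2 n = psi c r n y.1} => y.1.1 :=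
    continuous_fst.comp continuous_subtype_val
  exact this

lemma prX_cont (n : ℕ) : Continuous (prX (c := c) (r := r) n) := by
  have : Continuous fun y : {y : (Fin d → ℝ) × (ℕ → ℝ) // ∀ n, y.2 n = 0 ∨ y.2 n = psi c r n y.1} => y.1.2 n :=
    (continuous_apply n).comp (continuous_snd.comp continuous_subtype_val)
  exact this

def mkY (w : Fin d → ℝ) (y : ℕ → ℝ) (h : ∀ n, y n = 0 ∨ y n = psi c r n w) : YY c r := ⟨(w, y), h⟩

lemma mkY_cont {K : Type} [TopologicalSpace K] {w : K → Fin d → ℝ} {y : K → ℕ → ℝ}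
    (h : ∀ z n, y z n = 0 ∨ y z n = psi c r n (w z)) (hw : Continuous w) (hy : ∀ n, Continuous fun z => y z n) :
    Continuous fun z => mkY (w z) (y z) (h z) := by
  have : Continuous fun z : K => (⟨(w z, y z), h z⟩ :
      {y : (Fin d → ℝ) × (ℕ → ℝ) // ∀ n, y.2 n = 0 ∨ y.2 n = psi c r n y.1}) :=
    Continuous.subtype_mk (hw.prodMk (continuous_pi hy)) _
  exact this

lemma prW_mkY (w : Fin d → ℝ) (y : ℕ → ℝ) (h : ∀ n, y n = 0 ∨ y n = psi c r n w) : prW (mkY w y h) = w := rfl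

lemma prX_mkY (w : Fin d → ℝ) (y : ℕ → ℝ) (h : ∀ n, y n = 0 ∨ y n = psi c r n w) (n : ℕ) :
    prX n (mkY w y h) = y n := rfl

lemma YY_dist (a b : YY c r) : dist a b = max (dist (prW a) (prW b))
    (∑' n : ℕ, min (2⁻¹ ^ Encodable.encode n) (dist (prX n a) (prX n b))) := rfl

lemma prX_or (n : ℕ) (y : YY c r) : prX n y = 0 ∨ prX n y = psi c r n (prW y) := y.2 n

variable (c r)

def act {T : Type} (tile : T → Set (Fin d → ℝ)) (t : T) (n : ℕ) : Prop := ∀ w ∈ tile t, 0 < psi c r n w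

def UU {T : Type} (tile : T → Set (Fin d → ℝ)) (F : Finset ℕ) (tp : T × Set ℕ) : Set (YY c r) :=
  {y | prW y ∈ tile tp.1 ∧ (∀ n ∈ F, act c r tile tp.1 n →
    (n ∈ tp.2 → psi c r n (prW y) / 2 < prX n y) ∧ (n ∉ tp.2 → prX n y < psi c r n (prW y) / 2)) ∧
    ∀ n ∈ tp.2, n ∈ F ∧ act c r tile tp.1 n}

variable {c r}

lemma UU_open {T : Type} {tile : T → Set (Fin d → ℝ)} (ho : ∀ t, IsOpen (tile t)) (F : Finset ℕ)
    (tp : T × Set ℕ) : IsOpen (UU c r tile F tp) := by
  unfold UU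
  refine ((ho tp.1).preimage prW_cont).inter (IsOpen.inter ?_ isOpen_const)
  have : {y : YY c r | ∀ n ∈ F, act c r tile tp.1 n →
      (n ∈ tp.2 → psi c r n (prW y) / 2 < prX n y) ∧ (n ∉ tp.2 → prX n y < psi c r n (prW y) / 2)} =
      ⋂ n ∈ F, {y : YY c r | act c r tile tp.1 n →
      (n ∈ tp.2 → psi c r n (prW y) / 2 < prX n y) ∧ (n ∉ tp.2 → prX n y < psi c r n (prW y) / 2)} := by
    ext y; simp
  suffices h : IsOpen (⋂ n ∈ F, {y : YY c r | act c r tile tp.1 n →
      (n ∈ tp.2 → psi c r n (prW y) / 2 < prX n y) ∧ (n ∉ tp.2 → prX n y < psi c r n (prW y) / 2)}) by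
    rw [← this] at h; exact h
  refine isOpen_biInter_finset fun n _ => ?_
  have c1 : Continuous fun y : YY c r => psi c r n (prW y) / 2 := ((psi_cont n).comp prW_cont).div_const 2
  by_cases h1 : act c r tile tp.1 n
  · by_cases h2 : n ∈ tp.2
    · simp only [h1, h2, forall_const, not_true_eq_false, IsEmpty.forall_iff, and_true]
      exact isOpen_lt c1 (prX_cont n)
    · simp only [h1, h2, forall_const, not_false_eq_true, IsEmpty.forall_iff, true_and]
      exact isOpen_lt (prX_cont n) c1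
  · simp only [h1, IsEmpty.forall_iff]
    exact isOpen_univ

lemma UU_close {T : Type} {tile : T → Set (Fin d → ℝ)} {s : ℝ} (hs : 0 < s)
    (hd : ∀ t, ∀ a ∈ tile t, ∀ b ∈ tile t, ‖a - b‖ ≤ s) {F : Finset ℕ}
    {tp : T × Set ℕ} {a b : YY c r}
    (ha : a ∈ UU c r tile F tp) (hb : b ∈ UU c r tile F tp) : ∀ n ∈ F, dist (prX n a) (prX n b) ≤ s := by
  intro ν hν
  have hd' := hd _ _ ha.1 _ hb.1
  have a0 := prX_or ν a
  have b0 := prX_or ν b
  rw [Real.dist_eq]
  by_cases h1 : act c r tile tp.1 ν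
  · have pa := h1 _ ha.1
    have pb := h1 _ hb.1
    by_cases h2 : ν ∈ tp.2
    · have qa := (ha.2.1 ν hν h1).1 h2
      have qb := (hb.2.1 ν hν h1).1 h2
      rcases a0 with a0 | a0
      · rw [a0] at qa; linarith
      rcases b0 with b0 | b0
      · rw [b0] at qb; linarith
      rw [a0, b0]
      exact (psi_lip ν _ _).trans hd'
    · have qa := (ha.2.1 ν hν h1).2 h2
      have qb := (hb.2.1 ν hν h1).2 h2
      rcases a0 with a0 | a0
      · rcases b0 with b0 | b0
        · rw [a0, b0]; simpa using hs.le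
        · rw [b0] at qb; linarith
      · rw [a0] at qa; linarith
  · unfold act at h1
    push Not at h1
    obtain ⟨w, hw, hw0⟩ := h1
    have hw1 : psi c r ν w = 0 := le_antisymm hw0 (psi_nonneg ν w)
    have ka := (psi_lip (c := c) (r := r) ν (prW a) w).trans (hd _ _ ha.1 _ hw)
    have kb := (psi_lip (c := c) (r := r) ν (prW b) w).trans (hd _ _ hb.1 _ hw)
    rw [hw1, sub_zero] at ka kb
    have ka' := (abs_le.1 ka).2
    have kb' := (abs_le.1 kb).2
    have na := psi_nonneg (c := c) (r := r) ν (prW a)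
    have nb := psi_nonneg (c := c) (r := r) ν (prW b)
    rw [abs_le]
    rcases a0 with a0 | a0 <;> rcases b0 with b0 | b0 <;> rw [a0, b0] <;> constructor <;> linarith

lemma UU_cover {T : Type} {tile : T → Set (Fin d → ℝ)} (hc : ∀ w, ∃ t, w ∈ tile t) (F : Finset ℕ)
    (y : YY c r) : ∃ tp, y ∈ UU c r tile F tp := by
  obtain ⟨t, ht⟩ := hc (prW y)
  refine ⟨(t, {n | (n ∈ F ∧ act c r tile t n) ∧ 0 < prX n y}), ht, fun ν hν ha => ⟨?_, ?_⟩, fun ν h => h.1⟩
  · rintro ⟨_, h⟩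
    have hp := ha _ ht
    rcases prX_or ν y with h0 | h0
    · rw [h0] at h; exact absurd h (lt_irrefl _)
    · rw [h0]; linarith
  · intro h
    have hp := ha _ ht
    rcases prX_or ν y with h0 | h0
    · rw [h0]; linarith
    · exact absurd ⟨⟨hν, ha⟩, by rw [h0]; exact hp⟩ h

lemma UU_uniq {T : Type} {tile : T → Set (Fin d → ℝ)} {col : T → Fin (d+1)}
    (hu : ∀ t t' w, w ∈ tile t → w ∈ tile t' → col t = col t' → t = t') {F : Finset ℕ}
    {tp tp' : T × Set ℕ} {y : YY c r}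
    (h : y ∈ UU c r tile F tp) (h' : y ∈ UU c r tile F tp') (hc : col tp.1 = col tp'.1) : tp = tp' := by
  obtain ⟨t, π⟩ := tp
  obtain ⟨t', π'⟩ := tp'
  have ht : t = t' := hu _ _ _ h.1 h'.1 hc
  subst ht
  have : π = π' := by
    ext ν
    constructor
    · intro hν
      obtain ⟨h1, h2⟩ := h.2.2 ν hν
      by_contra hn
      have k1 := (h.2.1 ν h1 h2).1 hν
      have k2 := (h'.2.1 ν h1 h2).2 hn
      linarith
    · intro hν
      obtain ⟨h1, h2⟩ := h'.2.2 ν hν
      by_contra hn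
      have k1 := (h'.2.1 ν h1 h2).1 hν
      have k2 := (h.2.1 ν h1 h2).2 hn
      linarith
  rw [this]

theorem YY_cover {K : Set (YY c r)} (hK : IsCompact K) {ε : ℝ} (hε : 0 < ε) :
    ∃ (n : ℕ) (U : Fin n → Set (YY c r)), (∀ j, IsOpen (U j)) ∧
      (∀ j, ∀ a ∈ U j, ∀ b ∈ U j, dist a b < ε) ∧ K ⊆ ⋃ j, U j ∧
      ∀ y, {j : Fin n | y ∈ U j}.ncard ≤ d + 1 := by
  have hsum : Summable fun ν : ℕ => (2⁻¹:ℝ)^Encodable.encode ν := by
    simpa [one_div] using summable_geometric_two_encode (ι := ℕ)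
  obtain ⟨F, hF⟩ := ((tendsto_order.1 (tendsto_tsum_compl_atTop_zero
    (fun ν : ℕ => (2⁻¹:ℝ)^Encodable.encode ν))).2 (ε/2) (by positivity)).exists
  set s : ℝ := ε / (2*(F.card+1)) with hs
  have hs0 : 0 < s := by positivity
  have hs1 : F.card * s < ε/2 := by
    rw [hs]
    have : (0:ℝ) < F.card + 1 := by positivity
    rw [mul_div_assoc', div_lt_div_iff₀ (by positivity) (by positivity)]
    nlinarith
  have hs2 : s < ε := by
    rw [hs, div_lt_iff₀ (by positivity)]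
    have : (0:ℝ) ≤ F.card := by positivity
    nlinarith
  obtain ⟨T, tile, col, ho, hd, hc, hu⟩ := exists_tiles d s hs0
  have hdist : ∀ tp, ∀ a ∈ UU c r tile F tp, ∀ b ∈ UU c r tile F tp, dist a b < ε := by
    intro tp a ha b hb
    rw [YY_dist]
    refine max_lt ?_ ?_
    · rw [dist_eq_norm]
      exact (hd _ _ ha.1 _ hb.1).trans_lt hs2
    · have hsm : Summable fun ν : ℕ => min ((2⁻¹:ℝ)^Encodable.encode ν) (dist (prX ν a) (prX ν b)) :=
        Summable.of_nonneg_of_le (fun ν => le_min (by positivity) dist_nonneg) (fun ν => min_le_left _ _) hsum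
      rw [← hsm.sum_add_tsum_compl (s := F)]
      have h1 : ∑ ν ∈ F, min ((2⁻¹:ℝ)^Encodable.encode ν) (dist (prX ν a) (prX ν b)) ≤ F.card * s := by
        rw [← nsmul_eq_mul]
        exact Finset.sum_le_card_nsmul _ _ _ fun ν hν => (min_le_right _ _).trans (UU_close hs0 hd ha hb ν hν)
      have h2 : ∑' ν : ((F : Set ℕ)ᶜ : Set ℕ),
          min ((2⁻¹:ℝ)^Encodable.encode (ν : ℕ)) (dist (prX ν a) (prX ν b)) ≤
          ∑' ν : {ν // ν ∉ F}, (2⁻¹:ℝ)^Encodable.encode (ν : ℕ) :=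
        Summable.tsum_le_tsum (fun ν => min_le_left _ _) (hsm.subtype _) (hsum.subtype _)
      linarith
  obtain ⟨A, hA⟩ := hK.elim_finite_subcover (UU c r tile F) (fun tp => UU_open ho F tp)
    (fun y _ => Set.mem_iUnion.2 (UU_cover hc F y))
  refine ⟨A.card, fun j => UU c r tile F (A.equivFin.symm j), fun j => UU_open ho _ _, fun j => hdist _, ?_, ?_⟩
  · intro y hy
    obtain ⟨tp, htp, hy'⟩ := Set.mem_iUnion₂.1 (hA hy)
    refine Set.mem_iUnion.2 ⟨A.equivFin ⟨tp, htp⟩, ?_⟩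
    simpa using hy'
  · intro y
    have := Set.ncard_le_ncard_of_injOn (s := {j : Fin A.card | y ∈ UU c r tile F (A.equivFin.symm j)})
      (t := (Set.univ : Set (Fin (d+1)))) (fun j => col ((A.equivFin.symm j).1.1)) (fun _ _ => Set.mem_univ _)
      (fun i hi j hj h => by
        have := UU_uniq hu hi hj h
        exact A.equivFin.symm.injective (Subtype.ext this)) Set.finite_univ
    rw [Set.ncard_univ] at this
    simpa using this

end

end Pool.Agent.Helper93.Jm
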