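import Pool.Agent.Helper93.JmL2

set_option autoImplicit false

namespace Pool.Agent.Helper93.Jm

open Filter Topology Metric

noncomputable section

attribute [local instance] seqMet

open Classical in
theorem exists_L {K : Type} [MetricSpace K] [CompactSpace K] {A : Set K} {d : ℕ}
    (H : K → Fin d → ℝ) (hH : Continuous H)
    (hsep : ∃ (U : ℕ → Set K) (c : ℕ → Fin d → ℝ) (r : ℕ → ℝ), (∀ n, IsOpen (U n)) ∧
      (∀ n, ∀ z ∈ frontier (U n), r n ≤ ‖H z - c n‖) ∧
      (∀ x ∈ A, ∀ z, z ≠ x → H z = H x → ∃ n, x ∈ U n ∧ z ∉ U n ∧ ‖H x - c n‖ < r n)) :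
    ∃ (L : Type) (_ : MetricSpace L) (_ : CompactSpace L) (f : K → L), Continuous f ∧ Function.Surjective f ∧
      (∀ x ∈ A, ∀ z, f z = f x → z = x) ∧
      ∀ ε > 0, ∃ (n : ℕ) (U : Fin n → Set L), (∀ j, IsOpen (U j)) ∧ (∀ j, ∀ a ∈ U j, ∀ b ∈ U j, dist a b < ε) ∧
        (⋃ j, U j) = Set.univ ∧ ∀ y, {j : Fin n | y ∈ U j}.ncard ≤ d + 1 := by
  obtain ⟨U, c, r, hU, hfr, hs⟩ := hsep
  set y : K → ℕ → ℝ := fun z n => if z ∈ U n then psi c r n (H z) else 0 with hy
  have hor : ∀ z n, y z n = 0 ∨ y z n = psi c r n (H z) := by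
    intro z n
    simp only [hy]
    split_ifs
    · exact Or.inr rfl
    · exact Or.inl rfl
  have hyc : ∀ n, Continuous fun z => y z n := by
    intro n
    simp only [hy]
    refine Continuous.if (p := fun z => z ∈ U n) ?_ ((psi_cont n).comp hH) continuous_const
    intro z hz
    have := hfr n z hz
    show max 0 (r n - ‖H z - c n‖) = 0
    exact max_eq_left (by linarith)
  set f : K → YY c r := fun z => mkY (H z) (y z) (hor z) with hf
  have hfc : Continuous f := mkY_cont hor hH hyc
  have hcomp : IsCompact (Set.range f) := isCompact_range hfc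
  refine ⟨Set.range f, inferInstance, isCompact_iff_compactSpace.1 hcomp, Set.rangeFactorization f,
    hfc.subtype_mk _, Set.rangeFactorization_surjective, ?_, ?_⟩
  · intro x hx z hz
    have h1 : f z = f x := congrArg Subtype.val hz
    by_contra hne
    have h2 : H z = H x := congrArg prW h1
    obtain ⟨n, hn1, hn2, hn3⟩ := hs x hx z hne h2
    have h3 : y z n = y x n := congrArg (prX n) h1
    simp only [hy, if_pos hn1, if_neg hn2] at h3
    have h4 : 0 < psi c r n (H x) := by
      unfold psi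
      exact lt_max_of_lt_right (by linarith)
    linarith
  · intro ε hε
    obtain ⟨n, V, hV, hd, hcov, hord⟩ := YY_cover hcomp hε
    refine ⟨n, fun j => Subtype.val ⁻¹' V j, fun j => (hV j).preimage continuous_subtype_val,
      fun j a ha b hb => hd j _ ha _ hb, ?_, fun y => hord y⟩
    rw [← Set.preimage_iUnion]
    exact Set.eq_univ_of_forall fun y => hcov y.2

end

end Pool.Agent.Helper93.Jm
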