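import Pool.Agent.Helper93.JmHt

set_option autoImplicit false

namespace Pool.Agent.Helper93.Jm

open Filter Topology Metric

noncomputable section



lemma exists_Psi (p : ℕ) (hW : ExW p) (hht : ExHt p) : ExPsi p := by
  obtain ⟨W, hWc, hWb, hWg, hWd⟩ := hW
  obtain ⟨ht, hc, hb, hg, hd⟩ := hht
  have hu : Continuous (fun x : (Fin (p+1) → ℝ) × (Fin (p+1) → ℝ) × ℝ × ℝ => x.2.2.2) := by
    fun_prop
  have hopen : IsOpen {x : (Fin (p+1) → ℝ) × (Fin (p+1) → ℝ) × ℝ × ℝ | 0 < x.2.2.2} :=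
    isOpen_lt continuous_const hu
  refine ⟨fun h P σ u => W (ht h P σ u) u, ?_, ?_, ?_, ?_⟩
  · exact hWc.comp_continuousOn (hc.prodMk hu.continuousOn)
  · intro h P σ u i hu0 hσ0 hσ1 hP
    have h1 := hb h P σ u i hu0 hσ0 hσ1 hP
    have h2 := hWb (ht h P σ u) u i hu0.le
    calc |W (ht h P σ u) u i - h i|
        = |(W (ht h P σ u) u i - ht h P σ u i) + (ht h P σ u i - h i)| := by ring_nf
      _ ≤ |W (ht h P σ u) u i - ht h P σ u i| + |ht h P σ u i - h i| := abs_add_le _ _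
      _ ≤ _ := by linarith
  · intro h P σ u i k hu0 hk hgr
    have h1 := hg h P σ u i k hu0 hk hgr
    show W (ht h P σ u) u i = h i
    rw [hWg (ht h P σ u) u i k hk (by rw [h1]; exact hgr), h1]
  · intro h P σ u hu0 hσ0 hσ1 hP hcard
    obtain ⟨i, hi0, hi1, hi2⟩ := hd h P σ u hu0 hσ0 hσ1 hP hcard
    obtain ⟨i', c, hc1, hc2⟩ := hWd (ht h P σ u) u i hu0.le hi0 hi1 hi2
    refine ⟨i', c, hc1, ?_⟩
    have hat : ContinuousAt (fun x : (Fin (p+1) → ℝ) × (Fin (p+1) → ℝ) × ℝ × ℝ =>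
        ht x.1 x.2.1 x.2.2.1 x.2.2.2) (h, P, σ, u) :=
      hc.continuousAt (hopen.mem_nhds hu0)
    exact (hat.prodMk hu.continuousAt).eventually hc2

end

end Pool.Agent.Helper93.Jm
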