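import Pool.Agent.Helper93.JmDefs

set_option autoImplicit false

namespace Pool.Agent.Helper93.Jm

open Filter Topology Metric

noncomputable section



lemma cont_of_bound {K : Type} [MetricSpace K] {F s : K → ℝ} (hs : Continuous s)
    (hs0 : ∀ z, 0 ≤ s z) (hF : ∀ z, |F z| ≤ s z) (hc : ∀ z, 0 < s z → ContinuousAt F z) :
    Continuous F := by
  rw [continuous_iff_continuousAt]
  intro z
  rcases (hs0 z).lt_or_eq with h | h
  · exact hc z h
  · have hFz : F z = 0 := by
      have := hF z
      rw [← h] at this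
      exact abs_nonpos_iff.1 this
    unfold ContinuousAt
    rw [hFz]
    have h1 : Tendsto s (𝓝 z) (𝓝 0) := by
      have := hs.continuousAt (x := z)
      unfold ContinuousAt at this
      rwa [← h] at this
    exact squeeze_zero_norm hF h1

lemma ee_pos_S (u : ℝ) : 0 < ee u := by
  unfold ee
  positivity

lemma ee_le {u : ℝ} (hu : 0 < u) : ee u ≤ 1 / (8 * u) := by
  unfold ee
  have h1 : u / 2 ≤ (2 : ℝ) ^ u := by
    rw [Real.rpow_def_of_pos (by norm_num)]
    have h2 := Real.add_one_le_exp (Real.log 2 * u)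
    have h3 := Real.log_two_gt_d9
    nlinarith
  have h4 : (2 : ℝ) ^ (-u - 4) = 1 / (16 * (2 : ℝ) ^ u) := by
    rw [Real.rpow_sub (by norm_num), Real.rpow_neg (by norm_num)]
    have : (2 : ℝ) ^ (4 : ℝ) = 16 := by
      rw [show (4 : ℝ) = ((4 : ℕ) : ℝ) by norm_num, Real.rpow_natCast]
      norm_num
    rw [this]
    field_simp
  rw [h4]
  refine one_div_le_one_div_of_le (by positivity) ?_
  linarith

lemma ee_cont : Continuous ee := by
  unfold ee
  exact Continuous.rpow continuous_const (by fun_prop) (fun x => Or.inl (by norm_num))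

lemma exists_S {K : Type} [MetricSpace K] [CompactSpace K] {A : Set K} {m p : ℕ} (hp : m + 4 ≤ p)
    (hg : Exg K A m p) (hΨ : ExPsi p) : ExS K A p := by
  classical
  intro h s hh hs hs0 hs1
  set B : ℝ := 8 * ((p : ℝ) + 1) ^ 2 with hB
  have hp0 : (0 : ℝ) ≤ p := Nat.cast_nonneg p
  have hB8 : 8 ≤ B := by
    rw [hB]
    nlinarith
  have hB0 : 0 < B := by linarith
  have hu : ∀ z, 0 < s z → 0 < B / s z := fun z hz => div_pos hB0 hz
  have hee : ∀ z, 0 < s z → ee (B / s z) ≤ s z / 64 := by
    intro z hz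
    refine (ee_le (hu z hz)).trans ?_
    have e : 1 / (8 * (B / s z)) = s z / (8 * B) := by
      field_simp
    rw [e]
    exact div_le_div_of_nonneg_left hz.le (by norm_num) (by linarith)
  have hsc : ∀ z, 0 < s z → ContinuousAt (fun z => B / s z) z := by
    intro z hz
    exact continuousAt_const.div hs.continuousAt hz.ne'
  have hsev : ∀ z, 0 < s z → ∀ᶠ z' in 𝓝 z, 0 < s z' := fun z hz =>
    hs.continuousAt.eventually (lt_mem_nhds hz)
  let t : K → ℝ := fun z => if 0 < s z then ee (B / s z) / 2 else 0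
  have htpos : ∀ z, 0 < s z → t z = ee (B / s z) / 2 := fun z hz => if_pos hz
  have htzero : ∀ z, ¬ 0 < s z → t z = 0 := fun z hz => if_neg hz
  have ht0 : ∀ z, 0 ≤ t z := by
    intro z
    by_cases hz : 0 < s z
    · rw [htpos z hz]
      have := ee_pos_S (B / s z)
      positivity
    · rw [htzero z hz]
  have hts : ∀ z, t z ≤ s z := by
    intro z
    by_cases hz : 0 < s z
    · rw [htpos z hz]
      have := hee z hz
      linarith
    · rw [htzero z hz]
      exact hs0 z
  have ht1 : ∀ z, t z ≤ 1 := fun z => (hts z).trans (hs1 z)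
  have htc : Continuous t := by
    refine cont_of_bound hs hs0 (fun z => by rw [abs_of_nonneg (ht0 z)]; exact hts z) ?_
    intro z hz
    have h1 : ContinuousAt (fun z => ee (B / s z) / 2) z :=
      (ee_cont.continuousAt.comp (hsc z hz)).div_const 2
    refine h1.congr ?_
    filter_upwards [hsev z hz] with z' hz'
    exact (htpos z' hz').symm
  obtain ⟨W, g, hWo, hWt, hAW, hgc, hgb, hgm⟩ := hg h t hh htc ht0 ht1
  have hWs : ∀ z ∈ W, 0 < s z := by
    intro z hz
    by_contra hcon
    have := hWt z hz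
    rw [htzero z hcon] at this
    exact lt_irrefl _ this
  obtain ⟨σ, hσc, hσ0, hσ1, hσW⟩ : ∃ σ : K → ℝ, Continuous σ ∧ (∀ z, 0 ≤ σ z) ∧ (∀ z, σ z ≤ 1) ∧
      ∀ z, 0 < σ z ↔ z ∈ W := by
    by_cases hW : Wᶜ.Nonempty
    · refine ⟨fun z => min 1 (infDist z Wᶜ), ?_, fun z => ?_, fun z => min_le_left _ _, fun z => ?_⟩
      · exact continuous_const.min (continuous_infDist_pt _)
      · exact le_min zero_le_one infDist_nonneg
      · rw [lt_min_iff]
        have h1 := (hWo.isClosed_compl).notMem_iff_infDist_pos hW (x := z)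
        rw [← h1]
        simp
    · rw [Set.not_nonempty_iff_eq_empty, Set.compl_empty_iff] at hW
      refine ⟨fun _ => 1, continuous_const, fun _ => zero_le_one, fun _ => le_rfl, fun z => ?_⟩
      rw [hW]
      simp
  have hσ0' : ∀ z, z ∉ W → σ z = 0 := by
    intro z hz
    by_contra hcon
    exact hz ((hσW z).1 (lt_of_le_of_ne (hσ0 z) (Ne.symm hcon)))
  let P : K → Fin (p+1) → ℝ := fun z i => σ z * (g z i - h z i)
  have hPt : ∀ z i, |P z i| ≤ σ z * t z := by
    intro z i
    show |σ z * (g z i - h z i)| ≤ σ z * t z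
    by_cases hz : z ∈ W
    · rw [abs_mul, abs_of_nonneg (hσ0 z)]
      exact mul_le_mul_of_nonneg_left (hgb z hz i) (hσ0 z)
    · rw [hσ0' z hz]
      simp
  have hPc : Continuous P := by
    refine continuous_pi fun i => ?_
    refine cont_of_bound hσc hσ0 (fun z => ?_) ?_
    · refine (hPt z i).trans ?_
      have h1 := mul_le_mul_of_nonneg_left (ht1 z) (hσ0 z)
      linarith
    · intro z hz
      have hzW := (hσW z).1 hz
      have h1 : ContinuousAt g z := hgc.continuousAt (hWo.mem_nhds hzW)
      have h2 : ContinuousAt (fun z => g z i) z := (continuous_apply i).continuousAt.comp h1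
      have h3 : ContinuousAt (fun z => h z i) z := ((continuous_apply i).comp hh).continuousAt
      exact hσc.continuousAt.mul (h2.sub h3)
  have hPe : ∀ z, 0 < s z → ∀ i, |P z i| ≤ σ z * (ee (B / s z) / 2) := by
    intro z hz i
    rw [← htpos z hz]
    exact hPt z i
  obtain ⟨Ψ, hΨc, hΨb, hΨg, hΨl⟩ := hΨ
  let h' : K → Fin (p+1) → ℝ := fun z => if 0 < s z then Ψ (h z) (P z) (σ z) (B / s z) else h z
  have hpos' : ∀ z, 0 < s z → h' z = Ψ (h z) (P z) (σ z) (B / s z) := fun z hz => if_pos hz
  have hzero' : ∀ z, ¬ 0 < s z → h' z = h z := fun z hz => if_neg hz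
  have hbound : ∀ z i, |h' z i - h z i| ≤ s z := by
    intro z i
    by_cases hz : 0 < s z
    · rw [hpos' z hz]
      refine (hΨb (h z) (P z) (σ z) (B / s z) i (hu z hz) (hσ0 z) (hσ1 z) (hPe z hz)).trans ?_
      have h1 := hee z hz
      set u := B / s z with hudef
      have hu0 : 0 < u := hu z hz
      set a : ℕ := ⌊u⌋₊ / (p + 1) with ha
      have h2 : (1 / 2 : ℝ) ^ a ≤ 1 / ((a : ℝ) + 1) := by
        rw [one_div_pow]
        refine one_div_le_one_div_of_le (by positivity) ?_
        have h3 : a + 1 ≤ 2 ^ a := Nat.lt_two_pow_self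
        exact_mod_cast h3
      have h3 : u ≤ ((a : ℝ) + 1) * ((p : ℝ) + 1) := by
        have h4 : ⌊u⌋₊ < (p + 1) * (a + 1) := by
          have := Nat.lt_mul_div_succ ⌊u⌋₊ (show 0 < p + 1 by omega)
          simpa [ha] using this
        have h5 : ((⌊u⌋₊ : ℕ) : ℝ) + 1 ≤ ((p : ℝ) + 1) * ((a : ℝ) + 1) := by exact_mod_cast h4
        have h6 := Nat.lt_floor_add_one u
        linarith
      have h4 : 1 / ((a : ℝ) + 1) ≤ ((p : ℝ) + 1) / u := by
        rw [div_le_div_iff₀ (by positivity) hu0]
        linarith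
      have h5 : 2 * ((p : ℝ) + 1) * (1 / 2) ^ a ≤ 2 * ((p : ℝ) + 1) * (((p : ℝ) + 1) / u) :=
        mul_le_mul_of_nonneg_left (h2.trans h4) (by positivity)
      have h6 : 2 * ((p : ℝ) + 1) * (((p : ℝ) + 1) / u) = s z / 4 := by
        rw [hudef, hB]
        field_simp
        norm_num
      have h7 : 2 * (↑p + 1) * (1 / 2 : ℝ) ^ (⌊u⌋₊ / (p + 1)) = 2 * ((p : ℝ) + 1) * (1 / 2) ^ a := rfl
      rw [h7]
      linarith
    · rw [hzero' z hz, sub_self, abs_zero]
      exact hs0 z
  have hcomp : ∀ z, 0 < s z → ContinuousAt (fun z => (h z, P z, σ z, B / s z)) z := by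
    intro z hz
    exact hh.continuousAt.prodMk (hPc.continuousAt.prodMk (hσc.continuousAt.prodMk (hsc z hz)))
  have hopen : IsOpen {x : (Fin (p+1) → ℝ) × (Fin (p+1) → ℝ) × ℝ × ℝ | 0 < x.2.2.2} :=
    isOpen_lt continuous_const (by fun_prop)
  have hcont : Continuous h' := by
    refine continuous_pi fun i => ?_
    have h1 : Continuous (fun z => h' z i - h z i) := by
      refine cont_of_bound hs hs0 (fun z => hbound z i) ?_
      intro z hz
      have h2 : ContinuousAt (fun x : (Fin (p+1) → ℝ) × (Fin (p+1) → ℝ) × ℝ × ℝ =>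
          Ψ x.1 x.2.1 x.2.2.1 x.2.2.2) (h z, P z, σ z, B / s z) :=
        hΨc.continuousAt (hopen.mem_nhds (hu z hz))
      have h3 : ContinuousAt (fun z => Ψ (h z) (P z) (σ z) (B / s z)) z :=
        ContinuousAt.comp (f := fun z => (h z, P z, σ z, B / s z)) h2 (hcomp z hz)
      have h4 : ContinuousAt h' z := by
        refine h3.congr ?_
        filter_upwards [hsev z hz] with z' hz'
        exact (hpos' z' hz').symm
      have h5 : ContinuousAt (fun z => h' z i) z := (continuous_apply i).continuousAt.comp h4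
      exact h5.sub ((continuous_apply i).comp hh).continuousAt
    have h2 := h1.add ((continuous_apply i).comp hh)
    refine h2.congr fun z => ?_
    show h' z i - h z i + h z i = h' z i
    ring
  refine ⟨h', hcont, hbound, ?_, ?_⟩
  · intro x hx hsx
    have htx : 0 < t x := by
      rw [htpos x hsx]
      have := ee_pos_S (B / s x)
      positivity
    have hxW := hAW x hx htx
    have hσx := (hσW x).2 hxW
    have hset : {i | Dy (h x i + P x i / σ x)} = {i | Dy (g x i)} := by
      ext i
      have : h x i + P x i / σ x = g x i := by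
        show h x i + σ x * (g x i - h x i) / σ x = g x i
        field_simp
        ring
      show Dy (h x i + P x i / σ x) ↔ Dy (g x i)
      rw [this]
    obtain ⟨i, c, hc, hev⟩ := hΨl (h x) (P x) (σ x) (B / s x) (hu x hsx) hσx (hσ1 x) (hPe x hsx) (by
      rw [hset]
      have := hgm x hxW
      omega)
    refine ⟨i, c, hc, ?_⟩
    filter_upwards [(hcomp x hsx).eventually hev, hsev x hsx] with z hz hsz
    rw [hpos' z hsz]
    exact hz
  · intro z i c hc hsz hev
    obtain ⟨n, hn⟩ := hc
    have hnn : nn p (n * (p + 1) + (i : ℕ)) i = n := by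
      unfold nn
      have hi : (i : ℕ) ≤ p := by have := i.2; omega
      have : n * (p + 1) + (i : ℕ) + (p - (i : ℕ)) = p + (p + 1) * n := by
        rw [mul_comm n]
        omega
      rw [this, Nat.add_mul_div_left _ _ (by omega), Nat.div_eq_of_lt (by omega), zero_add]
    set k := n * (p + 1) + (i : ℕ) with hk
    have hpos : 0 < B / ((k : ℝ) + 1) := by positivity
    have hsmall : ∀ᶠ z' in 𝓝 z, s z' < B / ((k : ℝ) + 1) := by
      refine hs.continuousAt.eventually (gt_mem_nhds ?_)
      rw [hsz]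
      exact hpos
    filter_upwards [hsmall, hev] with z' h1 h2
    by_cases hz' : 0 < s z'
    · rw [hpos' z' hz', hΨg (h z') (P z') (σ z') (B / s z') i k (hu z' hz') ?_ ?_]
      · exact h2
      · rw [le_div_iff₀ hz']
        have h3 : s z' * ((k : ℝ) + 1) < B := by
          rwa [lt_div_iff₀ (by positivity)] at h1
        have : (0 : ℝ) ≤ k := Nat.cast_nonneg k
        nlinarith
      · rw [hnn, h2]
        exact hn
    · rw [hzero' z' hz']
      exact h2

end

end Pool.Agent.Helper93.Jm
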