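import Pool.Agent.Helper93.JmDefs

set_option autoImplicit false

namespace Pool.Agent.Helper93.Jm

open Filter Topology Metric

noncomputable section


/-- truncation to `[0,1]` -/
def st_cl (x : ℝ) : ℝ := max 0 (min 1 x)

lemma st_cl_cont : Continuous st_cl := by unfold st_cl; fun_prop
lemma st_cl_nonneg (x : ℝ) : 0 ≤ st_cl x := le_max_left _ _
lemma st_cl_le (x : ℝ) : st_cl x ≤ 1 := max_le zero_le_one (min_le_left _ _)
lemma st_cl_zero {x : ℝ} (h : x ≤ 0) : st_cl x = 0 := by
  unfold st_cl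
  rw [min_eq_right (by linarith), max_eq_left h]
lemma st_cl_one {x : ℝ} (h : 1 ≤ x) : st_cl x = 1 := by
  unfold st_cl
  rw [min_eq_left h, max_eq_right zero_le_one]

def st_a {d : ℕ} (i : Fin d) (r : Fin d → ℝ) : ℝ :=
  st_cl (4 * r i - 1) * ∏ l ∈ Finset.univ.filter (· < i), st_cl (3 - 4 * r l)
def st_v {d : ℕ} (i : Fin d) (r : Fin d → ℝ) : ℝ :=
  st_cl (4 * r i - 1) * ∏ l ∈ Finset.univ.filter (i < ·), st_cl (3 - 4 * r l)

lemma st_a_cont {d : ℕ} (i : Fin d) : Continuous (st_a i) := by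
  unfold st_a
  refine Continuous.mul (st_cl_cont.comp (by fun_prop)) ?_
  exact continuous_finsetProd _ fun l _ => st_cl_cont.comp (by fun_prop)
lemma st_v_cont {d : ℕ} (i : Fin d) : Continuous (st_v i) := by
  unfold st_v
  refine Continuous.mul (st_cl_cont.comp (by fun_prop)) ?_
  exact continuous_finsetProd _ fun l _ => st_cl_cont.comp (by fun_prop)

lemma st_a_nonneg {d : ℕ} (i : Fin d) (r : Fin d → ℝ) : 0 ≤ st_a i r :=
  mul_nonneg (st_cl_nonneg _) (Finset.prod_nonneg fun _ _ => st_cl_nonneg _)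
lemma st_v_nonneg {d : ℕ} (i : Fin d) (r : Fin d → ℝ) : 0 ≤ st_v i r :=
  mul_nonneg (st_cl_nonneg _) (Finset.prod_nonneg fun _ _ => st_cl_nonneg _)
lemma st_a_le {d : ℕ} (i : Fin d) (r : Fin d → ℝ) : st_a i r ≤ 1 :=
  mul_le_one₀ (st_cl_le _) (Finset.prod_nonneg fun _ _ => st_cl_nonneg _)
    (Finset.prod_le_one (fun _ _ => st_cl_nonneg _) fun _ _ => st_cl_le _)
lemma st_v_le {d : ℕ} (i : Fin d) (r : Fin d → ℝ) : st_v i r ≤ 1 :=
  mul_le_one₀ (st_cl_le _) (Finset.prod_nonneg fun _ _ => st_cl_nonneg _)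
    (Finset.prod_le_one (fun _ _ => st_cl_nonneg _) fun _ _ => st_cl_le _)

lemma st_a_pos {d : ℕ} (i : Fin d) (r : Fin d → ℝ) (h : 0 < st_a i r) : 0 < r i := by
  by_contra hcon
  have h1 : st_cl (4 * r i - 1) = 0 := st_cl_zero (by linarith)
  unfold st_a at h
  rw [h1, zero_mul] at h
  exact lt_irrefl _ h
lemma st_v_pos {d : ℕ} (i : Fin d) (r : Fin d → ℝ) (h : 0 < st_v i r) : 0 < r i := by
  by_contra hcon
  have h1 : st_cl (4 * r i - 1) = 0 := st_cl_zero (by linarith)
  unfold st_v at h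
  rw [h1, zero_mul] at h
  exact lt_irrefl _ h

lemma st_av {d : ℕ} (j : Fin d) (r : Fin d → ℝ) {p q : Fin d} (hpq : p ≠ q) (hp : 1 ≤ r p)
    (hq : 1 ≤ r q) (h : 0 < st_a j r) : st_v j r = 0 := by
  obtain ⟨l, hl, hlr⟩ : ∃ l, l ≠ j ∧ 1 ≤ r l := by
    by_cases hpj : p = j
    · exact ⟨q, fun hqj => hpq (hpj.trans hqj.symm), hq⟩
    · exact ⟨p, hpj, hp⟩
  have h0 : st_cl (3 - 4 * r l) = 0 := st_cl_zero (by linarith)
  rcases lt_or_gt_of_ne hl with hlj | hlj
  · exfalso
    have h1 : ∏ l ∈ Finset.univ.filter (· < j), st_cl (3 - 4 * r l) = 0 :=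
      Finset.prod_eq_zero (Finset.mem_filter.mpr ⟨Finset.mem_univ l, hlj⟩) h0
    unfold st_a at h
    rw [h1, mul_zero] at h
    exact lt_irrefl _ h
  · have h1 : ∏ l ∈ Finset.univ.filter (j < ·), st_cl (3 - 4 * r l) = 0 :=
      Finset.prod_eq_zero (Finset.mem_filter.mpr ⟨Finset.mem_univ l, hlj⟩) h0
    unfold st_v
    rw [h1, mul_zero]

lemma st_a_one {d : ℕ} (r : Fin d → ℝ) {p : Fin d} (hp : 1 ≤ r p) : ∃ i, st_a i r = 1 := by
  classical
  set S : Finset (Fin d) := Finset.univ.filter (fun l => 1 / 2 ≤ r l) with hS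
  have hne : S.Nonempty := ⟨p, Finset.mem_filter.mpr ⟨Finset.mem_univ p, by linarith⟩⟩
  refine ⟨S.min' hne, ?_⟩
  have h1 : 1 / 2 ≤ r (S.min' hne) := (Finset.mem_filter.mp (S.min'_mem hne)).2
  unfold st_a
  rw [st_cl_one (by linarith), one_mul]
  refine Finset.prod_eq_one (fun l hl => ?_)
  have hl1 : l < S.min' hne := (Finset.mem_filter.mp hl).2
  have hl2 : ¬ 1 / 2 ≤ r l := by
    intro h
    have : S.min' hne ≤ l := S.min'_le l (Finset.mem_filter.mpr ⟨Finset.mem_univ l, h⟩)
    exact absurd hl1 (not_lt.mpr this)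
  rw [not_le] at hl2
  exact st_cl_one (by linarith)

lemma st_v_one {d : ℕ} (r : Fin d → ℝ) {p : Fin d} (hp : 1 ≤ r p) : ∃ i, st_v i r = 1 := by
  classical
  set S : Finset (Fin d) := Finset.univ.filter (fun l => 1 / 2 ≤ r l) with hS
  have hne : S.Nonempty := ⟨p, Finset.mem_filter.mpr ⟨Finset.mem_univ p, by linarith⟩⟩
  refine ⟨S.max' hne, ?_⟩
  have h1 : 1 / 2 ≤ r (S.max' hne) := (Finset.mem_filter.mp (S.max'_mem hne)).2
  unfold st_v
  rw [st_cl_one (by linarith), one_mul]
  refine Finset.prod_eq_one (fun l hl => ?_)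
  have hl1 : S.max' hne < l := (Finset.mem_filter.mp hl).2
  have hl2 : ¬ 1 / 2 ≤ r l := by
    intro h
    have : l ≤ S.max' hne := S.le_max' l (Finset.mem_filter.mpr ⟨Finset.mem_univ l, h⟩)
    exact absurd hl1 (not_lt.mpr this)
  rw [not_le] at hl2
  exact st_cl_one (by linarith)

/-- a bump function for an open set -/
lemma st_bump {K : Type} [MetricSpace K] (O : Set K) (hO : IsOpen O) :
    ∃ μ : K → ℝ, Continuous μ ∧ (∀ z, 0 ≤ μ z) ∧ (∀ z, μ z ≤ 1) ∧ ∀ z, 0 < μ z ↔ z ∈ O := by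
  by_cases hu : Oᶜ.Nonempty
  · refine ⟨fun z => min 1 (infDist z Oᶜ), continuous_const.min (continuous_infDist_pt _),
      fun z => le_min zero_le_one infDist_nonneg, fun z => min_le_left _ _, fun z => ?_⟩
    rw [lt_min_iff, ← hO.isClosed_compl.notMem_iff_infDist_pos hu]
    simp
  · rw [Set.not_nonempty_iff_eq_empty, Set.compl_empty_iff] at hu
    refine ⟨fun _ => 1, continuous_const, fun _ => zero_le_one, fun _ => le_rfl, fun z => ?_⟩
    rw [hu]
    simp

lemma st_mul_cont {K : Type} [TopologicalSpace K] (φ a : K → ℝ) (hφ : Continuous φ)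
    (hφ0 : ∀ z, 0 ≤ φ z) (ha0 : ∀ z, 0 ≤ a z) (ha1 : ∀ z, a z ≤ 1)
    (ha : ∀ z, 0 < φ z → ContinuousAt a z) : Continuous (fun z => φ z * a z) := by
  rw [continuous_iff_continuousAt]
  intro z
  rcases (hφ0 z).eq_or_lt with h | h
  · have h1 : Tendsto φ (𝓝 z) (𝓝 0) := by
      have := hφ.continuousAt (x := z)
      rwa [ContinuousAt, ← h] at this
    have h2 : Tendsto (fun z => φ z * a z) (𝓝 z) (𝓝 0) :=
      squeeze_zero (fun y => mul_nonneg (hφ0 y) (ha0 y))
        (fun y => mul_le_of_le_one_right (hφ0 y) (ha1 y)) h1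
    rw [ContinuousAt, ← h, zero_mul]
    exact h2
  · exact hφ.continuousAt.mul (ha z h)

lemma st_LC_open {K : Type} [TopologicalSpace K] {d : ℕ} (H : K → Fin d → ℝ) (i : Fin d) :
    IsOpen {x | LC H x i} := by
  have h1 : {x | LC H x i} = ⋃ c : ℝ, {x | ∀ᶠ z in 𝓝 x, H z i = c} := by
    ext x
    simp [LC]
  rw [h1]
  exact isOpen_iUnion fun c => isOpen_setOfPred_eventually_nhds

/-- the partition functions -/
lemma st_parts {K : Type} [MetricSpace K] {A : Set K} {d : ℕ} (H : K → Fin d → ℝ) (t : K → ℝ)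
    (ht : Continuous t) (ht0 : ∀ z, 0 ≤ t z) (htA : ∀ x ∈ A, 0 < t x)
    (hLC : ∀ x ∈ A, ∃ i j, i ≠ j ∧ LC H x i ∧ LC H x j) :
    ∃ (φ : K → ℝ) (a v : Fin d → K → ℝ), Continuous φ ∧ (∀ z, 0 ≤ φ z) ∧ (∀ z, φ z ≤ t z / 8) ∧
      (∀ x ∈ A, 0 < φ x) ∧ (∀ i, Continuous (fun z => φ z * a i z)) ∧
      (∀ i, Continuous (fun z => φ z * v i z)) ∧ (∀ i z, 0 ≤ a i z) ∧ (∀ i z, a i z ≤ 1) ∧
      (∀ i z, 0 ≤ v i z) ∧ (∀ i z, v i z ≤ 1) ∧
      (∀ i z, 0 < φ z → 0 < a i z → LC H z i) ∧ (∀ i z, 0 < φ z → 0 < v i z → LC H z i) ∧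
      (∀ i z, 0 < φ z → 0 < a i z → v i z = 0) ∧ (∀ z, 0 < φ z → ∃ i, a i z = 1) ∧
      (∀ z, 0 < φ z → ∃ i, v i z = 1) := by
  classical
  choose μ hμc hμ0 hμ1 hμO using fun i : Fin d => st_bump {x | LC H x i} (st_LC_open H i)
  set M2 : K → ℝ := fun z =>
    (∑ i : Fin d, ∑ j : Fin d, if i = j then 0 else min (μ i z) (μ j z)) / ((d : ℝ) ^ 2 + 1)
    with hM2
  have hD : (0 : ℝ) < (d : ℝ) ^ 2 + 1 := by positivity
  have hterm0 : ∀ z (i j : Fin d), 0 ≤ (if i = j then 0 else min (μ i z) (μ j z)) := by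
    intro z i j
    split_ifs
    · exact le_rfl
    · exact le_min (hμ0 i z) (hμ0 j z)
  have hM2c : Continuous M2 := by
    refine Continuous.div_const ?_ _
    refine continuous_finsetSum _ fun i _ => continuous_finsetSum _ fun j _ => ?_
    by_cases hij : i = j
    · simp only [if_pos hij]
      exact continuous_const
    · simp only [if_neg hij]
      exact (hμc i).min (hμc j)
  have hM20 : ∀ z, 0 ≤ M2 z := fun z =>
    div_nonneg (Finset.sum_nonneg fun i _ => Finset.sum_nonneg fun j _ => hterm0 z i j) hD.le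
  have hcard : ∀ c : ℝ, ∑ _i : Fin d, ∑ _j : Fin d, c = (d : ℝ) ^ 2 * c := by
    intro c
    rw [Finset.sum_const, Finset.sum_const, Finset.card_univ, Fintype.card_fin, nsmul_eq_mul,
      nsmul_eq_mul]
    ring
  have hM21 : ∀ z, M2 z ≤ 1 := by
    intro z
    simp only [hM2]
    rw [div_le_one hD]
    have h1 : ∑ i : Fin d, ∑ j : Fin d, (if i = j then 0 else min (μ i z) (μ j z)) ≤
        ∑ _i : Fin d, ∑ _j : Fin d, (1 : ℝ) := by
      refine Finset.sum_le_sum fun i _ => Finset.sum_le_sum fun j _ => ?_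
      split_ifs
      · exact zero_le_one
      · exact (min_le_left _ _).trans (hμ1 i z)
    rw [hcard 1] at h1
    linarith
  have hM2pair : ∀ z, 0 < M2 z → ∃ p q : Fin d, p ≠ q ∧ M2 z ≤ μ p z ∧ M2 z ≤ μ q z := by
    intro z hz
    by_contra hcon
    push Not at hcon
    have h1 : ∑ i : Fin d, ∑ j : Fin d, (if i = j then 0 else min (μ i z) (μ j z)) ≤
        ∑ _i : Fin d, ∑ _j : Fin d, M2 z := by
      refine Finset.sum_le_sum fun i _ => Finset.sum_le_sum fun j _ => ?_
      split_ifs with hij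
      · exact hz.le
      · by_cases h2 : M2 z ≤ μ i z
        · exact (min_le_right _ _).trans (hcon i j hij h2).le
        · exact (min_le_left _ _).trans (not_le.mp h2).le
    rw [hcard] at h1
    have h2 : ∑ i : Fin d, ∑ j : Fin d, (if i = j then 0 else min (μ i z) (μ j z)) =
        ((d : ℝ) ^ 2 + 1) * M2 z := by
      simp only [hM2]
      field_simp
    rw [h2] at h1
    linarith
  have hM2A : ∀ x ∈ A, 0 < M2 x := by
    intro x hx
    obtain ⟨i, j, hij, hi, hj⟩ := hLC x hx
    have h1 : 0 < μ i x := (hμO i x).mpr hi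
    have h2 : 0 < μ j x := (hμO j x).mpr hj
    refine div_pos ?_ hD
    refine lt_of_lt_of_le (lt_min h1 h2) ?_
    have h3 : min (μ i x) (μ j x) ≤ ∑ j : Fin d, (if i = j then 0 else min (μ i x) (μ j x)) := by
      have h4 := Finset.single_le_sum (f := fun j => if i = j then 0 else min (μ i x) (μ j x))
        (fun j _ => hterm0 x i j) (Finset.mem_univ j)
      simp only [if_neg hij] at h4
      exact h4
    refine h3.trans ?_
    exact Finset.single_le_sum
      (f := fun i => ∑ j : Fin d, (if i = j then 0 else min (μ i x) (μ j x)))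
      (fun i _ => Finset.sum_nonneg fun j _ => hterm0 x i j) (Finset.mem_univ i)
  set φ : K → ℝ := fun z => t z * M2 z / 8 with hφ
  set R : K → Fin d → ℝ := fun z l => μ l z / M2 z with hR
  have hφc : Continuous φ := (ht.mul hM2c).div_const _
  have hφ0 : ∀ z, 0 ≤ φ z := fun z => by
    have := mul_nonneg (ht0 z) (hM20 z)
    simp only [hφ]
    linarith
  have hφM : ∀ z, 0 < φ z → 0 < M2 z := by
    intro z hz
    rcases (hM20 z).eq_or_lt with h | h
    · simp only [hφ, ← h, mul_zero, zero_div] at hz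
      exact absurd hz (lt_irrefl _)
    · exact h
  have hRc : ∀ z, 0 < φ z → ContinuousAt R z := by
    intro z hz
    have h1 := (hφM z hz).ne'
    refine continuousAt_pi.mpr fun l => ?_
    exact (hμc l).continuousAt.div hM2c.continuousAt h1
  have hRpq : ∀ z, 0 < φ z → ∃ p q : Fin d, p ≠ q ∧ 1 ≤ R z p ∧ 1 ≤ R z q := by
    intro z hz
    have h1 := hφM z hz
    obtain ⟨p, q, hpq, hp, hq⟩ := hM2pair z h1
    exact ⟨p, q, hpq, (one_le_div h1).mpr hp, (one_le_div h1).mpr hq⟩
  have hRO : ∀ z i, 0 < φ z → 0 < R z i → LC H z i := by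
    intro z i hz hr
    have h1 := hφM z hz
    have h2 : 0 < μ i z := by
      have := mul_pos hr h1
      simp only [hR] at this
      rwa [div_mul_cancel₀ _ h1.ne'] at this
    exact (hμO i z).mp h2
  refine ⟨φ, fun i z => st_a i (R z), fun i z => st_v i (R z), hφc, hφ0, ?_, ?_, ?_, ?_,
    fun i z => st_a_nonneg _ _, fun i z => st_a_le _ _, fun i z => st_v_nonneg _ _,
    fun i z => st_v_le _ _, ?_, ?_, ?_, ?_, ?_⟩
  · intro z
    simp only [hφ]
    have := mul_le_of_le_one_right (ht0 z) (hM21 z)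
    linarith
  · intro x hx
    have := mul_pos (htA x hx) (hM2A x hx)
    simp only [hφ]
    linarith
  · intro i
    exact st_mul_cont φ _ hφc hφ0 (fun z => st_a_nonneg _ _) (fun z => st_a_le _ _)
      (fun z hz => (st_a_cont i).continuousAt.comp (hRc z hz))
  · intro i
    exact st_mul_cont φ _ hφc hφ0 (fun z => st_v_nonneg _ _) (fun z => st_v_le _ _)
      (fun z hz => (st_v_cont i).continuousAt.comp (hRc z hz))
  · intro i z hz ha
    exact hRO z i hz (st_a_pos i _ ha)
  · intro i z hz ha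
    exact hRO z i hz (st_v_pos i _ ha)
  · intro i z hz ha
    obtain ⟨p, q, hpq, hp, hq⟩ := hRpq z hz
    exact st_av i _ hpq hp hq ha
  · intro z hz
    obtain ⟨p, q, hpq, hp, hq⟩ := hRpq z hz
    exact st_a_one _ hp
  · intro z hz
    obtain ⟨p, q, hpq, hp, hq⟩ := hRpq z hz
    exact st_v_one _ hp

lemma stage {K : Type} [MetricSpace K] [CompactSpace K] {A : Set K} {d : ℕ} (H : K → Fin d → ℝ) (t b : K → ℝ)
    (hH : Continuous H) (ht : Continuous t) (hb : Continuous b) (ht0 : ∀ z, 0 ≤ t z) (ht1 : ∀ z, t z ≤ 1)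
    (hb0 : ∀ z, 0 ≤ b z) (hb1 : ∀ z, b z ≤ 1) (htA : ∀ x ∈ A, 0 < t x)
    (hLC : ∀ x ∈ A, ∃ i j, i ≠ j ∧ LC H x i ∧ LC H x j) :
    ∃ (H' : K → Fin d → ℝ) (t' : K → ℝ), Continuous H' ∧ Continuous t' ∧ (∀ z, 0 ≤ t' z) ∧ (∀ z, t' z ≤ t z / 2) ∧
      (∀ x ∈ A, 0 < t' x) ∧ (∀ z i, |H' z i - H z i| ≤ t z / 4) ∧
      ∀ (H'' : K → Fin d → ℝ), (∀ z i, |H'' z i - H' z i| ≤ t' z) →
        ∀ Q : Set K, IsPreconnected Q → IsClosed Q → (∀ z ∈ Q, ∀ w ∈ Q, H'' z = H'' w) →
          ∀ x ∈ Q, x ∈ A → b x = 1 → ∀ w ∈ Q, 0 < b w := by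
  obtain ⟨φ, a, v, hφc, hφ0, hφt, hφA, hac, hvc, ha0, ha1, hv0, hv1, haL, hvL, hav, haE, hvE⟩ :=
    st_parts H t ht ht0 htA hLC
  refine ⟨fun z i => H z i + (φ z * a i z + 1 / 8 * (b z * (φ z * v i z))),
    fun z => φ z / 100, ?_, hφc.div_const _, ?_, ?_, ?_, ?_, ?_⟩
  · refine continuous_pi fun i => ?_
    have h1 : Continuous fun z => H z i := (continuous_apply i).comp hH
    exact h1.add ((hac i).add (continuous_const.mul (hb.mul (hvc i))))
  · intro z
    have := hφ0 z
    positivity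
  · intro z
    have h1 := hφt z
    have h2 := hφ0 z
    linarith
  · intro x hx
    have := hφA x hx
    positivity
  · intro z i
    have e1 : H z i + (φ z * a i z + 1 / 8 * (b z * (φ z * v i z))) - H z i =
        φ z * a i z + 1 / 8 * (b z * (φ z * v i z)) := by ring
    change |H z i + (φ z * a i z + 1 / 8 * (b z * (φ z * v i z))) - H z i| ≤ _
    rw [e1]
    have h1 : 0 ≤ φ z * a i z := mul_nonneg (hφ0 z) (ha0 i z)
    have h2 : φ z * a i z ≤ φ z := mul_le_of_le_one_right (hφ0 z) (ha1 i z)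
    have h3 : 0 ≤ φ z * v i z := mul_nonneg (hφ0 z) (hv0 i z)
    have h4 : φ z * v i z ≤ φ z := mul_le_of_le_one_right (hφ0 z) (hv1 i z)
    have h5 : 0 ≤ b z * (φ z * v i z) := mul_nonneg (hb0 z) h3
    have h6 : b z * (φ z * v i z) ≤ φ z * v i z := mul_le_of_le_one_left h3 (hb1 z)
    have h7 := hφt z
    rw [abs_of_nonneg (by linarith)]
    linarith
  · intro H'' hH'' Q hQp hQc hQconst x hxQ hxA hbx w₁ hw₁
    have hφx : 0 < φ x := hφA x hxA
    obtain ⟨z, hzQ, hzmax⟩ := (hQc.isCompact).exists_isMaxOn ⟨x, hxQ⟩ hφc.continuousOn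
    have hzmax' : ∀ w ∈ Q, φ w ≤ φ z := fun w hw => hzmax hw
    have hM : 0 < φ z := lt_of_lt_of_le hφx (hzmax' x hxQ)
    -- comparison of values of `H'` on `Q`
    have hcmp : ∀ i, ∀ w ∈ Q, ∀ w' ∈ Q,
        |(H w i + (φ w * a i w + 1 / 8 * (b w * (φ w * v i w)))) -
          (H w' i + (φ w' * a i w' + 1 / 8 * (b w' * (φ w' * v i w'))))| ≤ φ z / 50 := by
      intro i w hw w' hw'
      have h1 := hH'' w i
      have h2 := hH'' w' i
      have h3 : H'' w i = H'' w' i := congrFun (hQconst w hw w' hw') i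
      have h4 := hzmax' w hw
      have h5 := hzmax' w' hw'
      simp only at h1 h2
      rw [h3] at h1
      rw [abs_le] at h1 h2 ⊢
      constructor
      · linarith [h1.1, h1.2, h2.1, h2.2]
      · linarith [h1.1, h1.2, h2.1, h2.2]
    obtain ⟨i, hi⟩ := haE z hM
    have hLz : LC H z i := haL i z hM (by rw [hi]; exact one_pos)
    obtain ⟨c, hc⟩ := hLz
    have hcz : H z i = c := hc.self_of_nhds
    have hviz : v i z = 0 := hav i z hM (by rw [hi]; exact one_pos)
    -- first claim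
    set U : Set K := {w | (∀ᶠ y in 𝓝 w, H y i = c)} ∩ {w | 97 / 100 * φ z < φ w * a i w} with hU
    have hUo : IsOpen U :=
      isOpen_setOfPred_eventually_nhds.inter (isOpen_lt continuous_const (hac i))
    have hQU : Q ⊆ U := by
      refine hQp.subset_of_closure_inter_subset hUo ⟨z, hzQ, hc, ?_⟩ ?_
      · change 97 / 100 * φ z < φ z * a i z
        rw [hi]
        linarith
      · rintro w ⟨hwU, hwQ⟩
        have h1 : 97 / 100 * φ z ≤ φ w * a i w := by
          have hcl : IsClosed {w | 97 / 100 * φ z ≤ φ w * a i w} :=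
            isClosed_le continuous_const (hac i)
          have hsub : U ⊆ {w | 97 / 100 * φ z ≤ φ w * a i w} := by
            intro y hy
            have h0 : 97 / 100 * φ z < φ y * a i y := hy.2
            exact h0.le
          exact (closure_minimal hsub hcl) hwU
        have h2 : 0 < φ w * a i w := lt_of_lt_of_le (by linarith) h1
        have h3 : 0 < φ w := by
          rcases (hφ0 w).eq_or_lt with h | h
          · rw [← h, zero_mul] at h2
            exact absurd h2 (lt_irrefl _)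
          · exact h
        have h4 : 0 < a i w := by
          rcases (ha0 i w).eq_or_lt with h | h
          · rw [← h, mul_zero] at h2
            exact absurd h2 (lt_irrefl _)
          · exact h
        obtain ⟨c1, hc1⟩ := haL i w h3 h4
        have h5 : c1 = c := by
          obtain ⟨y, hy1, hy2⟩ := mem_closure_iff_nhds.mp hwU _ hc1
          have e1 : H y i = c1 := hy1
          have e2 : H y i = c := hy2.1.self_of_nhds
          rw [← e1, e2]
        subst h5
        have h6 : H w i = c1 := hc1.self_of_nhds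
        have h7 : v i w = 0 := hav i w h3 h4
        have h8 := hcmp i w hwQ z hzQ
        rw [h6, hcz, h7, hviz, hi, abs_le] at h8
        refine ⟨hc1, ?_⟩
        change 97 / 100 * φ z < φ w * a i w
        linarith [h8.1]
    have hφQ : ∀ w ∈ Q, 97 / 100 * φ z < φ w := by
      intro w hw
      have h1 : 97 / 100 * φ z < φ w * a i w := (hQU hw).2
      have h2 : φ w * a i w ≤ φ w := mul_le_of_le_one_right (hφ0 w) (ha1 i w)
      linarith
    -- second claim
    obtain ⟨j, hj⟩ := hvE x hφx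
    have hLx : LC H x j := hvL j x hφx (by rw [hj]; exact one_pos)
    obtain ⟨c', hc'⟩ := hLx
    have hcx : H x j = c' := hc'.self_of_nhds
    have hajx : a j x = 0 := by
      rcases (ha0 j x).eq_or_lt with h | h
      · exact h.symm
      · have := hav j x hφx h
        rw [hj] at this
        norm_num at this
    have hbvc : Continuous fun w => b w * (φ w * v j w) := hb.mul (hvc j)
    set U' : Set K := {w | (∀ᶠ y in 𝓝 w, H y j = c')} ∩
      {w | 97 / 200 * φ z < b w * (φ w * v j w)} with hU'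
    have hUo' : IsOpen U' :=
      isOpen_setOfPred_eventually_nhds.inter (isOpen_lt continuous_const hbvc)
    have hQU' : Q ⊆ U' := by
      refine hQp.subset_of_closure_inter_subset hUo' ⟨x, hxQ, hc', ?_⟩ ?_
      · change 97 / 200 * φ z < b x * (φ x * v j x)
        rw [hbx, hj]
        have := hφQ x hxQ
        linarith
      · rintro w ⟨hwU, hwQ⟩
        have h1 : 97 / 200 * φ z ≤ b w * (φ w * v j w) := by
          have hcl : IsClosed {w | 97 / 200 * φ z ≤ b w * (φ w * v j w)} :=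
            isClosed_le continuous_const hbvc
          have hsub : U' ⊆ {w | 97 / 200 * φ z ≤ b w * (φ w * v j w)} := by
            intro y hy
            have h0 : 97 / 200 * φ z < b y * (φ y * v j y) := hy.2
            exact h0.le
          exact (closure_minimal hsub hcl) hwU
        have h2 : 0 < b w * (φ w * v j w) := lt_of_lt_of_le (by linarith) h1
        have h3 : 0 < φ w := by
          have := hφQ w hwQ
          linarith
        have h4 : 0 < v j w := by
          rcases (hv0 j w).eq_or_lt with h | h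
          · rw [← h, mul_zero, mul_zero] at h2
            exact absurd h2 (lt_irrefl _)
          · exact h
        obtain ⟨c1, hc1⟩ := hvL j w h3 h4
        have h5 : c1 = c' := by
          obtain ⟨y, hy1, hy2⟩ := mem_closure_iff_nhds.mp hwU _ hc1
          have e1 : H y j = c1 := hy1
          have e2 : H y j = c' := hy2.1.self_of_nhds
          rw [← e1, e2]
        subst h5
        have h6 : H w j = c1 := hc1.self_of_nhds
        have h7 : a j w = 0 := by
          rcases (ha0 j w).eq_or_lt with h | h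
          · exact h.symm
          · have := hav j w h3 h
            rw [this] at h4
            exact absurd h4 (lt_irrefl _)
        have h8 := hcmp j w hwQ x hxQ
        rw [h6, hcx, h7, hajx, hbx, hj, abs_le] at h8
        refine ⟨hc1, ?_⟩
        change 97 / 200 * φ z < b w * (φ w * v j w)
        have h9 := hφQ x hxQ
        linarith [h8.1]
    have hfin : 97 / 200 * φ z < b w₁ * (φ w₁ * v j w₁) := (hQU' hw₁).2
    rcases (hb0 w₁).eq_or_lt with h | h
    · rw [← h, zero_mul] at hfin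
      linarith
    · exact h

end

end Pool.Agent.Helper93.Jm
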