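import Pool.Agent.Helper93.JmDefs

set_option autoImplicit false

namespace Pool.Agent.Helper93.Jm

open Filter Topology Metric

noncomputable section


def ExStage (K : Type) [MetricSpace K] [CompactSpace K] (A : Set K) (d : ℕ) : Prop :=
  ∀ (H : K → Fin d → ℝ) (t b : K → ℝ)
    (_ : Continuous H) (_ : Continuous t) (_ : Continuous b) (_ : ∀ z, 0 ≤ t z) (_ : ∀ z, t z ≤ 1)
    (_ : ∀ z, 0 ≤ b z) (_ : ∀ z, b z ≤ 1) (_ : ∀ x ∈ A, 0 < t x)
    (_ : ∀ x ∈ A, ∃ i j, i ≠ j ∧ LC H x i ∧ LC H x j),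
    ∃ (H' : K → Fin d → ℝ) (t' : K → ℝ), Continuous H' ∧ Continuous t' ∧ (∀ z, 0 ≤ t' z) ∧ (∀ z, t' z ≤ t z / 2) ∧
      (∀ x ∈ A, 0 < t' x) ∧ (∀ z i, |H' z i - H z i| ≤ t z / 4) ∧
      ∀ (H'' : K → Fin d → ℝ), (∀ z i, |H'' z i - H' z i| ≤ t' z) →
        ∀ Q : Set K, IsPreconnected Q → IsClosed Q → (∀ z ∈ Q, ∀ w ∈ Q, H'' z = H'' w) →
          ∀ x ∈ Q, x ∈ A → b x = 1 → ∀ w ∈ Q, 0 < b w

def GoodT {K : Type} [TopologicalSpace K] (A : Set K) {d : ℕ} (s : (K → Fin d → ℝ) × (K → ℝ)) : Prop :=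
  Continuous s.1 ∧ Continuous s.2 ∧ (∀ z, 0 ≤ s.2 z) ∧ (∀ z, s.2 z ≤ 1) ∧ ∀ x ∈ A, 0 < s.2 x

def StarT {K : Type} [TopologicalSpace K] (A : Set K) {d : ℕ} (b : K → ℝ) (s : (K → Fin d → ℝ) × (K → ℝ)) : Prop :=
  ∀ (H'' : K → Fin d → ℝ), (∀ z i, |H'' z i - s.1 z i| ≤ s.2 z) →
    ∀ Q : Set K, IsPreconnected Q → IsClosed Q → (∀ z ∈ Q, ∀ w ∈ Q, H'' z = H'' w) →
      ∀ x ∈ Q, x ∈ A → b x = 1 → ∀ w ∈ Q, 0 < b w

lemma stepT {K : Type} [MetricSpace K] [CompactSpace K] {A : Set K} {d : ℕ}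
    (hCR : ExCR K A d) (hSt : ExStage K A d) (b : K → ℝ) (hb : Continuous b) (hb0 : ∀ z, 0 ≤ b z) (hb1 : ∀ z, b z ≤ 1)
    (s : (K → Fin d → ℝ) × (K → ℝ)) (hs : GoodT A s) :
    ∃ s' : (K → Fin d → ℝ) × (K → ℝ), GoodT A s' ∧ (∀ z, s'.2 z ≤ s.2 z / 2) ∧
      (∀ z i, |s'.1 z i - s.1 z i| ≤ s.2 z / 2) ∧ StarT A b s' := by
  obtain ⟨c1, c2, c3, c4, c5⟩ := hs
  obtain ⟨H1, d1, d2, d3⟩ := hCR s.1 (fun z => s.2 z / 4) c1 (c2.div_const 4) (fun z => by have := c3 z; positivity)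
    (fun z => by have := c4 z; linarith)
  obtain ⟨H2, t2, e1, e2, e3, e4, e5, e6, e7⟩ := hSt H1 s.2 b d1 c2 hb c3 c4 hb0 hb1 c5
    (fun x hx => d3 x hx (by have := c5 x hx; positivity))
  refine ⟨(H2, t2), ⟨e1, e2, e3, fun z => ?_, e5⟩, e4, fun z i => ?_, e7⟩
  · have := e4 z
    have := c4 z
    have := c3 z
    simp only
    linarith
  · have h1 := e6 z i
    have h2 := d2 z i
    simp only at h1 h2 ⊢
    have : H2 z i - s.1 z i = (H2 z i - H1 z i) + (H1 z i - s.1 z i) := by ring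
    rw [this]
    refine (abs_add_le _ _).trans ?_
    linarith

lemma theoremT {K : Type} [MetricSpace K] [CompactSpace K] {A : Set K} {d : ℕ}
    (hCR : ExCR K A d) (hSt : ExStage K A d) :
    ∃ H : K → Fin d → ℝ, Continuous H ∧ ∀ x ∈ A, ∀ Q : Set K, IsPreconnected Q → IsClosed Q → x ∈ Q →
      (∀ z ∈ Q, H z = H x) → Q = {x} := by
  rcases isEmpty_or_nonempty K with hK | hK
  · exact ⟨fun _ _ => 0, continuous_const, fun x => (hK.false x).elim⟩
  haveI : TopologicalSpace.SeparableSpace K := inferInstance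
  let p : ℕ → K := TopologicalSpace.denseSeq K
  have hp : DenseRange p := TopologicalSpace.denseRange_denseSeq K
  let b : ℕ → K → ℝ := fun k z => max 0 (min 1 (2 - ((k.unpair.2 : ℝ) + 1) * dist z (p k.unpair.1)))
  have hbc : ∀ k, Continuous (b k) := fun k => by
    refine continuous_const.max (continuous_const.min (continuous_const.sub (continuous_const.mul ?_)))
    exact continuous_id.dist continuous_const
  have hb0 : ∀ k z, 0 ≤ b k z := fun k z => le_max_left _ _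
  have hb1 : ∀ k z, b k z ≤ 1 := fun k z => max_le zero_le_one (min_le_left _ _)
  have step := fun (k : ℕ) (s : {s : (K → Fin d → ℝ) × (K → ℝ) // GoodT A s}) =>
    stepT hCR hSt (b k) (hbc k) (hb0 k) (hb1 k) s.1 s.2
  choose nx g1 g2 g3 g4 using step
  let s0 : {s : (K → Fin d → ℝ) × (K → ℝ) // GoodT A s} :=
    ⟨(fun _ _ => 0, fun _ => 1), continuous_const, continuous_const, fun _ => zero_le_one, fun _ => le_rfl,
      fun _ _ => one_pos⟩
  let sq : ℕ → {s : (K → Fin d → ℝ) × (K → ℝ) // GoodT A s} := fun n =>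
    Nat.rec s0 (fun k s => ⟨nx k s, g1 k s⟩) n
  have hsq : ∀ k, (sq (k + 1)).1 = nx k (sq k) := fun k => rfl
  have ht2 : ∀ k z, (sq (k + 1)).1.2 z ≤ (sq k).1.2 z / 2 := fun k z => by rw [hsq]; exact g2 k (sq k) z
  have hH2 : ∀ k z i, |(sq (k + 1)).1.1 z i - (sq k).1.1 z i| ≤ (sq k).1.2 z / 2 := fun k z i => by
    rw [hsq]; exact g3 k (sq k) z i
  have htl : ∀ k l z, (sq (k + l)).1.2 z ≤ (sq k).1.2 z / 2 ^ l := by
    intro k l z
    induction l with
    | zero => simp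
    | succ l ih =>
      have h1 := ht2 (k + l) z
      rw [← add_assoc]
      have h2 : (sq k).1.2 z / 2 ^ (l + 1) = (sq k).1.2 z / 2 ^ l / 2 := by rw [pow_succ]; field_simp
      rw [h2]
      linarith
  have hdist : ∀ k z i l, dist ((sq (k + l)).1.1 z i) ((sq (k + (l + 1))).1.1 z i) ≤ (sq k).1.2 z / 2 / 2 ^ l := by
    intro k z i l
    rw [dist_comm, Real.dist_eq]
    have h1 := hH2 (k + l) z i
    have h2 := htl k l z
    have h3 : (sq k).1.2 z / 2 / 2 ^ l = (sq k).1.2 z / 2 ^ l / 2 := by ring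
    rw [h3]
    rw [← add_assoc]
    linarith
  have hcau : ∀ z i, ∃ a, Tendsto (fun k => (sq k).1.1 z i) atTop (𝓝 a) := by
    intro z i
    have h1 := hdist 0 z i
    simp only [Nat.zero_add] at h1
    exact cauchySeq_tendsto_of_complete (cauchySeq_of_le_geometric_two h1)
  choose Hinf hlim using hcau
  have hclose : ∀ k z i, |Hinf z i - (sq k).1.1 z i| ≤ (sq k).1.2 z := by
    intro k z i
    have h1 : Tendsto (fun l => (sq (k + l)).1.1 z i) atTop (𝓝 (Hinf z i)) := by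
      have := (hlim z i).comp (tendsto_add_atTop_nat k)
      refine this.congr fun l => ?_
      simp only [Function.comp]
      rw [add_comm]
    have h2 := dist_le_of_le_geometric_two_of_tendsto₀ (hdist k z i) h1
    rw [dist_comm, Real.dist_eq] at h2
    simpa using h2
  have hcont : Continuous Hinf := by
    refine continuous_pi fun i => ?_
    have hunif : TendstoUniformly (fun k z => (sq k).1.1 z i) (fun z => Hinf z i) atTop := by
      rw [Metric.tendstoUniformly_iff]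
      intro ε hε
      obtain ⟨N, hN⟩ := exists_pow_lt_of_lt_one hε (by norm_num : (1 / 2 : ℝ) < 1)
      filter_upwards [eventually_ge_atTop N] with k hk
      intro z
      rw [Real.dist_eq]
      refine (hclose k z i).trans_lt ?_
      have h1 := htl 0 k z
      rw [Nat.zero_add] at h1
      have h2 : (sq 0).1.2 z = 1 := rfl
      rw [h2] at h1
      have h3 : (1 : ℝ) / 2 ^ k = (1 / 2) ^ k := by rw [one_div_pow]
      rw [h3] at h1
      have h4 : (1 / 2 : ℝ) ^ k ≤ (1 / 2) ^ N := pow_le_pow_of_le_one (by norm_num) (by norm_num) hk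
      linarith
    exact hunif.continuous (Frequently.of_forall fun k => (continuous_apply i).comp (sq k).2.1)
  refine ⟨Hinf, hcont, fun x hx Q hQ1 hQ2 hxQ hconst => ?_⟩
  refine Set.eq_singleton_iff_unique_mem.2 ⟨hxQ, fun w hw => ?_⟩
  by_contra hne
  have hd : 0 < dist w x := dist_pos.2 hne
  obtain ⟨n, hn⟩ := exists_nat_gt (3 / dist w x)
  have hn1 : (0 : ℝ) < (n : ℝ) + 1 := by positivity
  obtain ⟨j, hj⟩ := hp.exists_dist_lt x (show (0 : ℝ) < 1 / ((n : ℝ) + 1) by positivity)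
  have hstar : StarT A (b (Nat.pair j n)) (sq (Nat.pair j n + 1)).1 := by
    rw [hsq]; exact g4 _ _
  have hbx : b (Nat.pair j n) x = 1 := by
    simp only [b, Nat.unpair_pair]
    have h1 : ((n : ℝ) + 1) * dist x (p j) < 1 := by
      rw [lt_div_iff₀ hn1] at hj
      linarith
    rw [min_eq_left (by linarith), max_eq_right zero_le_one]
  have hbw := hstar Hinf (fun z i => hclose (Nat.pair j n + 1) z i) Q hQ1 hQ2
    (fun z hz w hw => by rw [hconst z hz, hconst w hw]) x hxQ hx hbx w hw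
  have h2 : ((n : ℝ) + 1) * dist w (p j) < 2 := by
    by_contra hcon
    push Not at hcon
    have h3 : b (Nat.pair j n) w = 0 := by
      simp only [b, Nat.unpair_pair]
      refine max_eq_left ((min_le_right _ _).trans ?_)
      linarith
    rw [h3] at hbw
    exact lt_irrefl _ hbw
  have h1 : ((n : ℝ) + 1) * dist x (p j) < 1 := by
    rw [lt_div_iff₀ hn1] at hj
    linarith
  have h4 : dist w x ≤ dist w (p j) + dist x (p j) := by
    rw [dist_comm x (p j)]
    exact dist_triangle _ _ _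
  have h5 : ((n : ℝ) + 1) * dist w x < 3 := by nlinarith
  rw [div_lt_iff₀ hd] at hn
  nlinarith

end

end Pool.Agent.Helper93.Jm
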