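import Pool.Agent.Helper93.JmDefs

set_option autoImplicit false

namespace Pool.Agent.Helper93.Jm

open Filter Topology Metric

noncomputable section


/-- cut-off -/
def thh (l : ℕ) (u : ℝ) : ℝ := max 0 (min 1 ((l : ℝ) + 1 - u))

lemma thh_cont (l : ℕ) : Continuous (thh l) := by unfold thh; fun_prop

lemma thh_nonneg (l : ℕ) (u : ℝ) : 0 ≤ thh l u := le_max_left _ _

lemma thh_le_one (l : ℕ) (u : ℝ) : thh l u ≤ 1 := max_le zero_le_one (min_le_left _ _)

lemma thh_zero {l : ℕ} {u : ℝ} (h : (l : ℝ) + 1 ≤ u) : thh l u = 0 := by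
  unfold thh
  rw [max_eq_left]
  exact (min_le_right _ _).trans (by linarith)

lemma thh_one {l : ℕ} {u : ℝ} (h : u ≤ l) : thh l u = 1 := by
  unfold thh
  rw [min_eq_left (by linarith), max_eq_right zero_le_one]

/-- finite compositions -/
def TT {p : ℕ} (G : ℕ → (Fin (p+1) → ℝ) → (Fin (p+1) → ℝ)) :
    ℕ → (Fin (p+1) → ℝ) → ℝ → (Fin (p+1) → ℝ)
  | 0, y, _ => y
  | l+1, y, u => fun i => TT G l y u i + thh l u * (G l (TT G l y u) i - TT G l y u i)

lemma TT_succ {p : ℕ} (G : ℕ → (Fin (p+1) → ℝ) → (Fin (p+1) → ℝ)) (l : ℕ) (y : Fin (p+1) → ℝ)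
    (u : ℝ) (i : Fin (p+1)) :
    TT G (l+1) y u i = TT G l y u i + thh l u * (G l (TT G l y u) i - TT G l y u i) := rfl

lemma TT_cont {p : ℕ} {G : ℕ → (Fin (p+1) → ℝ) → (Fin (p+1) → ℝ)} (hc : ∀ l, Continuous (G l))
    (l : ℕ) : Continuous (fun x : (Fin (p+1) → ℝ) × ℝ => TT G l x.1 x.2) := by
  induction l with
  | zero => exact continuous_fst
  | succ l ih =>
    refine continuous_pi fun i => ?_
    have h1 : Continuous (fun x : (Fin (p+1) → ℝ) × ℝ => TT G l x.1 x.2 i) :=
      (continuous_apply i).comp ih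
    have h2 : Continuous (fun x : (Fin (p+1) → ℝ) × ℝ => G l (TT G l x.1 x.2) i) :=
      (continuous_apply i).comp ((hc l).comp ih)
    have h3 : Continuous (fun x : (Fin (p+1) → ℝ) × ℝ => thh l x.2) :=
      (thh_cont l).comp continuous_snd
    exact h1.add (h3.mul (h2.sub h1))

lemma TT_init {p : ℕ} (G : ℕ → (Fin (p+1) → ℝ) → (Fin (p+1) → ℝ)) (y : Fin (p+1) → ℝ) (u : ℝ) :
    ∀ l : ℕ, (l : ℝ) ≤ u → TT G l y u = y := by
  intro l
  induction l with
  | zero => intro _; rfl
  | succ l ih =>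
    intro h
    push_cast at h
    have h1 := ih (by linarith)
    funext i
    rw [TT_succ, thh_zero h, zero_mul, add_zero, h1]

/-- tail bound -/
def BB (q k : ℕ) : ℝ := (2 * q - ((k % q : ℕ) : ℝ)) * (1/2) ^ (k / q)

lemma BB_step (q k : ℕ) (hq : 0 < q) : BB q k - BB q (k+1) = (1/2) ^ (k / q) := by
  have hr : k % q < q := Nat.mod_lt _ hq
  have hk : q * (k / q) + k % q = k := Nat.div_add_mod k q
  unfold BB
  rcases Nat.lt_or_ge (k % q + 1) q with h | h
  · have h1 := (Nat.div_mod_unique (a := k + 1) (d := k / q) (c := k % q + 1) hq).2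
      ⟨by omega, h⟩
    rw [h1.1, h1.2]
    push_cast
    ring
  · have hr1 : k % q + 1 = q := by omega
    have h1 := (Nat.div_mod_unique (a := k + 1) (d := k / q + 1) (c := 0) hq).2
      ⟨by rw [Nat.mul_add, Nat.mul_one]; omega, hq⟩
    rw [h1.1, h1.2]
    have hr2 : ((k % q : ℕ) : ℝ) = q - 1 := by
      have : ((k % q + 1 : ℕ) : ℝ) = q := by rw [hr1]
      push_cast at this
      linarith
    rw [hr2, pow_succ]
    push_cast
    ring

lemma BB_nonneg (q k : ℕ) (hq : 0 < q) : 0 ≤ BB q k := by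
  have hr : ((k % q : ℕ) : ℝ) < q := by exact_mod_cast Nat.mod_lt k hq
  have hq' : (0 : ℝ) < q := by exact_mod_cast hq
  unfold BB
  have : (0 : ℝ) ≤ 2 * q - ((k % q : ℕ) : ℝ) := by linarith
  positivity

lemma BB_le (q k : ℕ) : BB q k ≤ 2 * q * (1/2) ^ (k / q) := by
  unfold BB
  have : (0 : ℝ) ≤ ((k % q : ℕ) : ℝ) := Nat.cast_nonneg _
  have h2 : (0 : ℝ) ≤ (1/2) ^ (k / q) := by positivity
  nlinarith [mul_nonneg this h2]

lemma Gr_mono {n m : ℕ} {c : ℝ} (h : Gr n c) (hnm : n ≤ m) : Gr m c := by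
  obtain ⟨k, hk⟩ := h
  refine ⟨k * 2 ^ (m - n), ?_⟩
  push_cast
  rw [← hk, mul_assoc, ← pow_add, Nat.add_sub_cancel' hnm]

lemma nn_mono (p : ℕ) {l l' : ℕ} (i : Fin (p+1)) (h : l ≤ l') : nn p l i ≤ nn p l' i :=
  Nat.div_le_div_right (by omega)

lemma nn_ge (p l : ℕ) (i : Fin (p+1)) : l / (p+1) ≤ nn p l i :=
  Nat.div_le_div_right (by omega)

lemma nn_succ (p k : ℕ) (i : Fin (p+1)) (h : k % (p+1) ≠ i) : nn p (k+1) i = nn p k i := by
  unfold nn
  have e : k + 1 + (p - (i : ℕ)) = (k + (p - (i : ℕ))) + 1 := by ring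
  rw [e, Nat.succ_div, if_neg, add_zero]
  rintro ⟨t, ht⟩
  have hi : (i : ℕ) < p + 1 := i.2
  have ht0 : t ≠ 0 := by rintro rfl; omega
  obtain ⟨s, rfl⟩ := Nat.exists_eq_succ_of_ne_zero ht0
  have h1 : k = (p + 1) * s + i := by
    rw [Nat.succ_eq_add_one, mul_add, mul_one] at ht
    omega
  apply h
  rw [h1, Nat.mul_add_mod, Nat.mod_eq_of_lt hi]

lemma exists_W (p : ℕ) (hG : ExG p) : ExW p := by
  obtain ⟨G, hc, hd, hgr, h4, h5⟩ := hG
  have hstep : ∀ (l : ℕ) (y : Fin (p+1) → ℝ) (u : ℝ) (i : Fin (p+1)),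
      |TT G (l+1) y u i - TT G l y u i| ≤ (1/2) ^ (l / (p+1)) := by
    intro l y u i
    rw [TT_succ, add_sub_cancel_left, abs_mul, abs_of_nonneg (thh_nonneg l u)]
    calc thh l u * |G l (TT G l y u) i - TT G l y u i|
        ≤ 1 * (1/2) ^ (nn p l i) :=
          mul_le_mul (thh_le_one l u) (hd l _ i) (abs_nonneg _) zero_le_one
      _ = (1/2) ^ (nn p l i) := one_mul _
      _ ≤ (1/2) ^ (l / (p+1)) :=
          pow_le_pow_of_le_one (by norm_num) (by norm_num) (nn_ge p l i)
  have hq : 0 < p + 1 := Nat.succ_pos p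
  have hdist : ∀ (k N : ℕ), k ≤ N → ∀ (y : Fin (p+1) → ℝ) (u : ℝ) (i : Fin (p+1)),
      |TT G N y u i - TT G k y u i| ≤ BB (p+1) k - BB (p+1) N := by
    intro k N hkN y u i
    induction N, hkN using Nat.le_induction with
    | base => simp
    | succ N hN ih =>
      have h1 := hstep N y u i
      have h2 := BB_step (p+1) N hq
      have h3 : TT G (N+1) y u i - TT G k y u i =
        (TT G (N+1) y u i - TT G N y u i) + (TT G N y u i - TT G k y u i) := by ring
      rw [h3]
      refine (abs_add_le _ _).trans ?_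
      linarith
  have hsum : Summable (fun l : ℕ => ((1:ℝ)/2) ^ (l / (p+1))) := by
    refine summable_of_sum_range_le (c := BB (p+1) 0) (fun n => by positivity) (fun n => ?_)
    have : ∑ i ∈ Finset.range n, ((1:ℝ)/2) ^ (i / (p+1)) = BB (p+1) 0 - BB (p+1) n := by
      induction n with
      | zero => simp
      | succ n ih => rw [Finset.sum_range_succ, ih, ← BB_step (p+1) n hq]; ring
    rw [this]
    have := BB_nonneg (p+1) n hq
    linarith
  let W : (Fin (p+1) → ℝ) → ℝ → (Fin (p+1) → ℝ) := fun y u i =>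
    y i + ∑' l : ℕ, (TT G (l+1) y u i - TT G l y u i)
  have hWlim : ∀ (y : Fin (p+1) → ℝ) (u : ℝ) (i : Fin (p+1)),
      Tendsto (fun N => TT G N y u i) atTop (𝓝 (W y u i)) := by
    intro y u i
    have hs : Summable (fun l : ℕ => TT G (l+1) y u i - TT G l y u i) :=
      Summable.of_norm_bounded hsum (fun l => hstep l y u i)
    have h1 := hs.hasSum.tendsto_sum_nat.const_add (y i)
    refine h1.congr fun N => ?_
    rw [Finset.sum_range_sub (fun l => TT G l y u i)]
    show y i + (TT G N y u i - y i) = _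
    ring
  have hWcont : Continuous (fun x : (Fin (p+1) → ℝ) × ℝ => W x.1 x.2) := by
    refine continuous_pi fun i => ?_
    have h1 : ∀ l, Continuous (fun x : (Fin (p+1) → ℝ) × ℝ => TT G l x.1 x.2 i) := fun l =>
      (continuous_apply i).comp (TT_cont hc l)
    have h2 : Continuous (fun x : (Fin (p+1) → ℝ) × ℝ =>
        ∑' l : ℕ, (TT G (l+1) x.1 x.2 i - TT G l x.1 x.2 i)) :=
      continuous_tsum (fun l => (h1 (l+1)).sub (h1 l)) hsum (fun l x => hstep l x.1 x.2 i)
    exact ((continuous_apply i).comp continuous_fst).add h2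
  have hWdist : ∀ (k : ℕ) (y : Fin (p+1) → ℝ) (u : ℝ) (i : Fin (p+1)),
      |W y u i - TT G k y u i| ≤ BB (p+1) k := by
    intro k y u i
    have h1 : Tendsto (fun N => |TT G N y u i - TT G k y u i|) atTop
        (𝓝 |W y u i - TT G k y u i|) := ((hWlim y u i).sub_const _).abs
    refine le_of_tendsto h1 ?_
    filter_upwards [eventually_ge_atTop k] with N hN
    have := hdist k N hN y u i
    have := BB_nonneg (p+1) N hq
    linarith
  -- constancy from a grid point on
  have hconst : ∀ (l : ℕ) (y : Fin (p+1) → ℝ) (u : ℝ) (i : Fin (p+1)),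
      Gr (nn p l i) (TT G l y u i) → W y u i = TT G l y u i := by
    intro l y u i hl
    have h1 : ∀ N, l ≤ N → TT G N y u i = TT G l y u i := by
      intro N hN
      induction N, hN using Nat.le_induction with
      | base => rfl
      | succ N hN ih =>
        have hg : Gr (nn p N i) (TT G N y u i) := by
          rw [ih]; exact Gr_mono hl (nn_mono p i hN)
        rw [TT_succ, (hgr N _ i hg).1, sub_self, mul_zero, add_zero, ih]
    refine tendsto_nhds_unique (hWlim y u i) ?_
    refine tendsto_const_nhds.congr' ?_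
    filter_upwards [eventually_ge_atTop l] with N hN
    exact (h1 N hN).symm
  have hkey : ∀ (l : ℕ) (y : Fin (p+1) → ℝ) (u : ℝ) (i : Fin (p+1)), u < l →
      Gr (nn p l i) (TT G l y u i) →
      ∃ i' c, Dy c ∧ ∀ᶠ x : (Fin (p+1) → ℝ) × ℝ in 𝓝 (y, u), W x.1 x.2 i' = c := by
    intro l y u i hul hl
    refine ⟨i, TT G l y u i, ⟨_, hl⟩, ?_⟩
    have h1 := (hgr l _ i hl).2
    have h2 : Tendsto (fun x : (Fin (p+1) → ℝ) × ℝ => TT G l x.1 x.2) (𝓝 (y, u))
        (𝓝 (TT G l y u)) := (TT_cont hc l).tendsto (y, u)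
    have h3 := h2.eventually h1
    have h4' : ∀ᶠ x : (Fin (p+1) → ℝ) × ℝ in 𝓝 (y, u), x.2 < l :=
      (continuous_snd.tendsto (y, u)).eventually (gt_mem_nhds hul)
    filter_upwards [h3, h4'] with x hx1 hx2
    have h5' : TT G (l+1) x.1 x.2 i = TT G l y u i := by
      rw [TT_succ, thh_one hx2.le, hx1]; ring
    have h6 : Gr (nn p (l+1) i) (TT G (l+1) x.1 x.2 i) := by
      rw [h5']; exact Gr_mono hl (nn_mono p i (Nat.le_succ l))
    rw [hconst (l+1) x.1 x.2 i h6, h5']
  refine ⟨W, hWcont, ?_, ?_, ?_⟩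
  · intro y u i hu
    have h1 := hWdist ⌊u⌋₊ y u i
    rw [TT_init G y u ⌊u⌋₊ (Nat.floor_le hu)] at h1
    refine h1.trans ((BB_le _ _).trans (le_of_eq ?_))
    push_cast; ring
  · intro y u i k hk hg
    have h0 := TT_init G y u k hk
    have h1 := hconst k y u i (by rw [h0]; exact hg)
    rw [h1, h0]
  · intro y u i hu hi hmod hfr
    by_cases hA : ∃ l, ⌊u⌋₊ + 1 ≤ l ∧ ∃ j, Gr (nn p l j) (TT G l y u j)
    · obtain ⟨l, hl, j, hj⟩ := hA
      refine hkey l y u j ?_ hj
      have h1 : u < (⌊u⌋₊ : ℝ) + 1 := Nat.lt_floor_add_one u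
      have h2 : ((⌊u⌋₊ : ℝ) + 1) ≤ l := by exact_mod_cast hl
      linarith
    · exfalso
      push Not at hA
      set k := ⌊u⌋₊ with hk
      have huk : u < (k : ℝ) + 1 := Nat.lt_floor_add_one u
      have hTG : ∀ l, k + 1 ≤ l → TT G (l+1) y u = G l (TT G l y u) := by
        intro l hl
        funext j
        have h2 : ((k : ℝ) + 1) ≤ l := by exact_mod_cast hl
        rw [TT_succ, thh_one (by linarith)]; ring
      have hz : ∀ m : ℕ, Int.fract (TT G (k + 1 + m) y u i * 2 ^ (nn p (k + 1 + m) i)) - 1/2 =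
          3 ^ m * (Int.fract (TT G (k + 1) y u i * 2 ^ (nn p (k + 1) i)) - 1/2) := by
        intro m
        induction m with
        | zero => simp
        | succ m ih =>
          have hl : k + 1 ≤ k + 1 + m := by omega
          have e := hTG (k + 1 + m) hl
          have h := h4 (k + 1 + m) (TT G (k + 1 + m) y u) i hi (hA _ hl) (by
            intro j
            rw [← e]
            exact hA (k + 1 + m + 1) (by omega) j)
          rw [← e] at h
          rw [← add_assoc, h, ih, pow_succ]; ring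
      have hz0 : Int.fract (TT G (k + 1) y u i * 2 ^ (nn p (k + 1) i)) = 1/2 := by
        by_contra hne
        have hpos : 0 < |Int.fract (TT G (k + 1) y u i * 2 ^ (nn p (k + 1) i)) - 1/2| :=
          abs_pos.2 (sub_ne_zero.2 hne)
        obtain ⟨m, hm⟩ := pow_unbounded_of_one_lt
          (1 / |Int.fract (TT G (k + 1) y u i * 2 ^ (nn p (k + 1) i)) - 1/2|)
          (by norm_num : (1 : ℝ) < 3)
        have h1 : 1 < 3 ^ m * |Int.fract (TT G (k + 1) y u i * 2 ^ (nn p (k + 1) i)) - 1/2| := by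
          rwa [div_lt_iff₀ hpos] at hm
        have h2 : |Int.fract (TT G (k + 1 + m) y u i * 2 ^ (nn p (k + 1 + m) i)) - 1/2| ≤ 1/2 := by
          have a := Int.fract_nonneg (TT G (k + 1 + m) y u i * 2 ^ (nn p (k + 1 + m) i))
          have b := Int.fract_lt_one (TT G (k + 1 + m) y u i * 2 ^ (nn p (k + 1 + m) i))
          rw [abs_le]; constructor <;> linarith
        rw [hz m, abs_mul, abs_of_pos (by positivity : (0 : ℝ) < 3 ^ m)] at h2
        linarith
      have hT1 : TT G (k + 1) y u i = y i + thh k u * (G k y i - y i) := by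
        rw [TT_succ, TT_init G y u k (Nat.floor_le hu)]
      rw [nn_succ p k i hmod] at hz0
      set n := nn p k i with hn
      set Y := y i * 2 ^ n with hY
      set Z := G k y i * 2 ^ n with hZ
      have hT2 : TT G (k + 1) y u i * 2 ^ n = Y + thh k u * (Z - Y) := by
        rw [hT1, hY, hZ]; ring
      rw [hT2] at hz0
      have t0 := thh_nonneg k u
      have t1 := thh_le_one k u
      have f1 := Int.floor_le Y
      have f2 := Int.lt_floor_add_one Y
      have f3 : Int.fract Y = Y - ⌊Y⌋ := rfl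
      obtain ⟨ha, hb⟩ := h5 k y i hi hmod
      rcases lt_trichotomy (Int.fract Y) (1/2) with hlt | heq | hgt
      · obtain ⟨g1, g2⟩ := ha hlt
        have c1 : (⌊Y⌋ : ℝ) ≤ Y + thh k u * (Z - Y) := by nlinarith
        have c2 : Y + thh k u * (Z - Y) < ⌊Y⌋ + 1/2 := by
          rw [f3] at hlt
          by_cases ht : thh k u = 1
          · rw [ht]; linarith
          · have : thh k u < 1 := lt_of_le_of_ne t1 ht
            nlinarith
        have c3 : ⌊Y + thh k u * (Z - Y)⌋ = ⌊Y⌋ := by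
          rw [Int.floor_eq_iff]; constructor
          · exact c1
          · linarith
        have c4 : Int.fract (Y + thh k u * (Z - Y)) = Y + thh k u * (Z - Y) - ⌊Y⌋ := by
          rw [Int.fract, c3]
        linarith
      · exact hfr heq
      · obtain ⟨g1, g2⟩ := hb hgt
        have c1 : (⌊Y⌋ : ℝ) + 1/2 < Y + thh k u * (Z - Y) := by
          rw [f3] at hgt
          by_cases ht : thh k u = 1
          · rw [ht]; linarith
          · have : thh k u < 1 := lt_of_le_of_ne t1 ht
            nlinarith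
        have c2 : Y + thh k u * (Z - Y) ≤ ⌊Y⌋ + 1 := by nlinarith
        rcases eq_or_lt_of_le c2 with c2 | c2
        · have : Int.fract (Y + thh k u * (Z - Y)) = 0 := by
            rw [c2]
            have : ((⌊Y⌋ : ℝ) + 1) = ((⌊Y⌋ + 1 : ℤ) : ℝ) := by push_cast; ring
            rw [this, Int.fract_intCast]
          rw [this] at hz0
          norm_num at hz0
        · have c3 : ⌊Y + thh k u * (Z - Y)⌋ = ⌊Y⌋ := by
            rw [Int.floor_eq_iff]; constructor
            · linarith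
            · exact c2
          have c4 : Int.fract (Y + thh k u * (Z - Y)) = Y + thh k u * (Z - Y) - ⌊Y⌋ := by
            rw [Int.fract, c3]
          linarith

end

end Pool.Agent.Helper93.Jm
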