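import Pool.Agent.Helper93.JmTau
import Pool.Agent.Helper93.JmG
import Pool.Agent.Helper93.JmW
import Pool.Agent.Helper93.JmAl
import Pool.Agent.Helper93.JmHt
import Pool.Agent.Helper93.JmPsi
import Pool.Agent.Helper93.JmCover
import Pool.Agent.Helper93.JmGen
import Pool.Agent.Helper93.JmFam
import Pool.Agent.Helper93.JmGg
import Pool.Agent.Helper93.JmS
import Pool.Agent.Helper93.JmCR
import Pool.Agent.Helper93.JmStage
import Pool.Agent.Helper93.JmT
import Pool.Agent.Helper93.JmL1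
import Pool.Agent.Helper93.JmL3

set_option autoImplicit false

namespace Pool.Agent.Helper93.Jm

open Filter Topology Metric

noncomputable section

lemma allPsi (p : ℕ) : ExPsi p :=
  exists_Psi p (exists_W p (exists_G p exists_tau)) (exists_ht p (exists_al p))

lemma allg {K : Type} [MetricSpace K] [CompactSpace K] {A : Set K} {m : ℕ} (hA : CP A m) (p : ℕ) :
    Exg K A m p :=
  exists_g p (fun t ht h0 h1 U hU hc hf => cover_lemma hA t ht h0 h1 U hU hc hf)
    (fun q c r hr => exists_generic q m c r hr)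
    (fun q h t hh ht h1 => exists_family q h t hh ht h1)

lemma allS {K : Type} [MetricSpace K] [CompactSpace K] {A : Set K} {m : ℕ} (hA : CP A m) (p : ℕ)
    (hp : m + 4 ≤ p) : ExS K A p :=
  exists_S hp (allg hA p) (allPsi p)

theorem mainH {K : Type} [MetricSpace K] [CompactSpace K] {A : Set K} {m : ℕ} (hA : CP A m) :
    ∃ H : K → Fin (m+6) → ℝ, Continuous H ∧ ∀ x ∈ A, ∀ Q : Set K, IsPreconnected Q → IsClosed Q → x ∈ Q →
      (∀ z ∈ Q, H z = H x) → Q = {x} :=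
  theoremT (d := m+6) (exists_CR (p := m+4) (allS hA (m+4+1) (by omega)) (allS hA (m+4) le_rfl))
    (fun H t b h1 h2 h3 h4 h5 h6 h7 h8 h9 => stage H t b h1 h2 h3 h4 h5 h6 h7 h8 h9)

theorem mainL {K : Type} [MetricSpace K] [CompactSpace K] {A : Set K} {m : ℕ} (hA : CP A m) :
    ∃ (L : Type) (_ : MetricSpace L) (_ : CompactSpace L) (f : K → L), Continuous f ∧ Function.Surjective f ∧
      (∀ x ∈ A, ∀ z, f z = f x → z = x) ∧
      ∀ ε > 0, ∃ (n : ℕ) (U : Fin n → Set L), (∀ j, IsOpen (U j)) ∧ (∀ j, ∀ a ∈ U j, ∀ b ∈ U j, dist a b < ε) ∧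
        (⋃ j, U j) = Set.univ ∧ ∀ y, {j : Fin n | y ∈ U j}.ncard ≤ (m + 6) + 1 := by
  obtain ⟨H, hH, hQ⟩ := mainH hA
  exact exists_L H hH (exists_sep H hH hQ)

/-- the covering property passes from a dense embedded space to its image -/
lemma cp_of_dense {X K : Type} [TopologicalSpace X] [TopologicalSpace K] {c : X → K} (hc : IsEmbedding c)
    (hd : DenseRange c) {m : ℕ}
    (hX : ∀ (j : ℕ) (U : Fin j → Set X), (∀ i, IsOpen (U i)) → (⋃ i, U i) = Set.univ →
        ∃ V : Fin j → Set X, (∀ i, IsOpen (V i)) ∧ (∀ i, V i ⊆ U i) ∧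
          (⋃ i, V i) = Set.univ ∧ ∀ x : X, Set.ncard {i : Fin j | x ∈ V i} ≤ m + 1) :
    CP (Set.range c) m := by
  intro j U hU hcov
  obtain ⟨V, hV, hVU, hVc, hVo⟩ := hX j (fun i => c ⁻¹' U i) (fun i => (hU i).preimage hc.continuous)
    (by
      rw [← Set.preimage_iUnion]
      exact Set.eq_univ_of_forall fun x => hcov ⟨x, rfl⟩)
  choose V' hV' hVV using fun i => hc.isInducing.isOpen_iff.1 (hV i)
  have key : ∀ i x, c x ∈ V' i ∩ U i ↔ x ∈ V i := by
    intro i x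
    constructor
    · rintro ⟨h, _⟩
      rw [← hVV i]; exact h
    · intro h
      refine ⟨?_, hVU i h⟩
      rw [← hVV i] at h; exact h
  refine ⟨fun i => V' i ∩ U i, fun i => (hV' i).inter (hU i), fun i => Set.inter_subset_right, ?_, ?_⟩
  · rintro _ ⟨x, rfl⟩
    have : x ∈ ⋃ i, V i := by rw [hVc]; trivial
    obtain ⟨i, hi⟩ := Set.mem_iUnion.1 this
    exact Set.mem_iUnion.2 ⟨i, (key i x).2 hi⟩
  · intro z
    have ho : IsOpen (⋂ i ∈ {i : Fin j | z ∈ V' i ∩ U i}, V' i ∩ U i) :=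
      (Set.toFinite _).isOpen_biInter fun i _ => (hV' i).inter (hU i)
    obtain ⟨x, hx⟩ := hd.exists_mem_open ho ⟨z, Set.mem_iInter₂.2 fun i hi => hi⟩
    refine le_trans (Set.ncard_le_ncard ?_ (Set.toFinite _)) (hVo x)
    intro i hi
    exact (key i x).1 (Set.mem_iInter₂.1 hx i hi)

/-- fine covers of order `k+1` give shrinkings of order `k+1` -/
lemma dim_of_fine {L : Type} [MetricSpace L] [CompactSpace L] {k : ℕ}
    (h : ∀ ε > 0, ∃ (n : ℕ) (U : Fin n → Set L), (∀ j, IsOpen (U j)) ∧ (∀ j, ∀ a ∈ U j, ∀ b ∈ U j, dist a b < ε) ∧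
        (⋃ j, U j) = Set.univ ∧ ∀ y, {j : Fin n | y ∈ U j}.ncard ≤ k + 1) :
    ∀ (j : ℕ) (U : Fin j → Set L), (∀ i, IsOpen (U i)) → (⋃ i, U i) = Set.univ →
        ∃ V : Fin j → Set L, (∀ i, IsOpen (V i)) ∧ (∀ i, V i ⊆ U i) ∧
          (⋃ i, V i) = Set.univ ∧ ∀ x : L, Set.ncard {i : Fin j | x ∈ V i} ≤ k + 1 := by
  intro j U hU hcov
  by_cases hL : Nonempty L
  swap
  · exact ⟨U, hU, fun i => le_rfl, hcov, fun x => (hL ⟨x⟩).elim⟩
  obtain ⟨δ, hδ, hleb⟩ := lebesgue_number_lemma_of_metric (s := (Set.univ : Set L)) isCompact_univ hU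
    (by rw [hcov])
  obtain ⟨n, W, hW, hWd, hWc, hWo⟩ := h δ hδ
  have hj : Nonempty (Fin j) := by
    obtain ⟨x⟩ := hL
    obtain ⟨i, _⟩ := hleb x trivial
    exact ⟨i⟩
  have hg : ∀ i : Fin n, ∃ a : Fin j, W i ⊆ U a := by
    intro i
    rcases (W i).eq_empty_or_nonempty with he | ⟨a, ha⟩
    · exact ⟨hj.some, by rw [he]; exact Set.empty_subset _⟩
    · obtain ⟨b, hb⟩ := hleb a trivial
      exact ⟨b, fun w hw => hb (hWd i w hw a ha)⟩
  choose g hg using hg
  refine ⟨fun a => ⋃ i ∈ {i : Fin n | g i = a}, W i, fun a => isOpen_biUnion fun i _ => hW i, ?_, ?_, ?_⟩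
  · intro a x hx
    obtain ⟨i, hi, hx⟩ := Set.mem_iUnion₂.1 hx
    have hi' : g i = a := hi
    rw [← hi']
    exact hg i hx
  · refine Set.eq_univ_of_forall fun x => ?_
    have : x ∈ ⋃ j, W j := by rw [hWc]; trivial
    obtain ⟨i, hi⟩ := Set.mem_iUnion.1 this
    exact Set.mem_iUnion.2 ⟨g i, Set.mem_iUnion₂.2 ⟨i, rfl, hi⟩⟩
  · intro x
    refine le_trans ?_ (hWo x)
    have hsub : {a : Fin j | x ∈ ⋃ i ∈ {i : Fin n | g i = a}, W i} ⊆ g '' {i : Fin n | x ∈ W i} := by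
      intro a ha
      obtain ⟨i, hi, hx⟩ := Set.mem_iUnion₂.1 ha
      exact ⟨i, hx, hi⟩
    exact (Set.ncard_le_ncard hsub (Set.toFinite _)).trans (Set.ncard_image_le (Set.toFinite _))

lemma comp_embedding {X K L : Type} [TopologicalSpace X] [TopologicalSpace K] [CompactSpace K]
    [TopologicalSpace L] [T2Space L] {c : X → K} (hc : IsEmbedding c) {f : K → L} (hf : Continuous f)
    (h1 : ∀ x ∈ Set.range c, ∀ z, f z = f x → z = x) : IsEmbedding (f ∘ c) := by
  refine ⟨?_, ?_⟩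
  · rw [isInducing_iff_nhds]
    intro x
    have h2 : comap f (𝓝 (f (c x))) = 𝓝 (c x) := by
      rw [hf.isClosedMap.comap_nhds_eq hf]
      have : f ⁻¹' {f (c x)} = {c x} := by
        ext z
        constructor
        · intro hz
          exact h1 _ ⟨x, rfl⟩ z hz
        · rintro rfl
          rfl
      rw [this, nhdsSet_singleton]
    rw [← Filter.comap_comap]
    show 𝓝 x = comap c (comap f (𝓝 (f (c x))))
    rw [h2]
    exact hc.isInducing.nhds_eq_comap x
  · intro x y hxy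
    exact hc.injective (h1 _ ⟨y, rfl⟩ _ hxy)

end

end Pool.Agent.Helper93.Jm
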