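import Pool.Agent.Helper93.JmDefs

set_option autoImplicit false

namespace Pool.Agent.Helper93.Jm

open Filter Topology Metric

noncomputable section


def cl (x : ℝ) : ℝ := max 0 (min 1 x)

def R (k : ℝ) (a : ℝ) : ℝ := cl (16 * a - 2 * k)

def mm (a b : ℝ) : ℝ := min (cl (6*b-1)) ((R 3 a + R 4 a - R 6 a - R 7 a)/2)

def tau1 (a b : ℝ) : ℝ :=
  if b ≤ 1/3 then R 2 a - cl (2 * mm a b - 1)
  else if b ≤ 2/3 then R 2 a - R 4 a + R 6 a
  else min (cl (7 - 9*b)) (R 2 a - R 4 a) + (1 - cl (18*b-16)) * R 6 a + cl (18*b-16) * R 2 a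

def tau2 (a b : ℝ) : ℝ :=
  if b ≤ 1/3 then cl (2 * mm a b) / 2
  else if b ≤ 2/3 then (3*b-1)/2 * R 1 a + (2-3*b)/2 * R 3 a + (3*b-1)/2 * R 5 a - (3*b)/2 * R 7 a
  else max (cl (9*b-7)) (R 1 a / 2 + R 5 a / 2 - R 7 a)

lemma cl_nonpos {x : ℝ} (h : x ≤ 0) : cl x = 0 := by
  unfold cl
  rw [min_eq_right (by linarith), max_eq_left h]

lemma cl_ge {x : ℝ} (h : 1 ≤ x) : cl x = 1 := by
  unfold cl
  rw [min_eq_left h, max_eq_right zero_le_one]

lemma cl_mid {x : ℝ} (h0 : 0 ≤ x) (h1 : x ≤ 1) : cl x = x := by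
  unfold cl
  rw [min_eq_right h1, max_eq_right h0]

lemma cl_nonneg (x : ℝ) : 0 ≤ cl x := le_max_left _ _

lemma cl_le_one (x : ℝ) : cl x ≤ 1 := max_le zero_le_one (min_le_left _ _)

lemma cl_cont : Continuous cl := by
  unfold cl
  fun_prop

lemma R_cont (k : ℝ) : Continuous (R k) := by
  unfold R
  exact cl_cont.comp (by fun_prop)

lemma R_cases (a : ℝ) : ∃ t : ℝ, 0 ≤ t ∧ t ≤ 1 ∧
    ((R 1 a = t ∧ R 2 a = 0 ∧ R 3 a = 0 ∧ R 4 a = 0 ∧ R 5 a = 0 ∧ R 6 a = 0 ∧ R 7 a = 0) ∨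
     (R 1 a = 1 ∧ R 2 a = t ∧ R 3 a = 0 ∧ R 4 a = 0 ∧ R 5 a = 0 ∧ R 6 a = 0 ∧ R 7 a = 0) ∨
     (R 1 a = 1 ∧ R 2 a = 1 ∧ R 3 a = t ∧ R 4 a = 0 ∧ R 5 a = 0 ∧ R 6 a = 0 ∧ R 7 a = 0) ∨
     (R 1 a = 1 ∧ R 2 a = 1 ∧ R 3 a = 1 ∧ R 4 a = t ∧ R 5 a = 0 ∧ R 6 a = 0 ∧ R 7 a = 0) ∨
     (R 1 a = 1 ∧ R 2 a = 1 ∧ R 3 a = 1 ∧ R 4 a = 1 ∧ R 5 a = t ∧ R 6 a = 0 ∧ R 7 a = 0) ∨
     (R 1 a = 1 ∧ R 2 a = 1 ∧ R 3 a = 1 ∧ R 4 a = 1 ∧ R 5 a = 1 ∧ R 6 a = t ∧ R 7 a = 0) ∨
     (R 1 a = 1 ∧ R 2 a = 1 ∧ R 3 a = 1 ∧ R 4 a = 1 ∧ R 5 a = 1 ∧ R 6 a = 1 ∧ R 7 a = t)) := by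
  unfold R
  by_cases h2 : 16 * a ≤ 4
  · refine ⟨cl (16 * a - 2 * 1), cl_nonneg _, cl_le_one _, Or.inl ⟨rfl, ?_⟩⟩
    refine ⟨?_, ?_, ?_, ?_, ?_, ?_⟩ <;> exact cl_nonpos (by linarith)
  by_cases h3 : 16 * a ≤ 6
  · refine ⟨cl (16 * a - 2 * 2), cl_nonneg _, cl_le_one _, Or.inr (Or.inl ⟨?_, rfl, ?_⟩)⟩
    · exact cl_ge (by linarith)
    refine ⟨?_, ?_, ?_, ?_, ?_⟩ <;> exact cl_nonpos (by linarith)
  by_cases h4 : 16 * a ≤ 8
  · refine ⟨cl (16 * a - 2 * 3), cl_nonneg _, cl_le_one _,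
      Or.inr (Or.inr (Or.inl ⟨?_, ?_, rfl, ?_⟩))⟩
    · exact cl_ge (by linarith)
    · exact cl_ge (by linarith)
    refine ⟨?_, ?_, ?_, ?_⟩ <;> exact cl_nonpos (by linarith)
  by_cases h5 : 16 * a ≤ 10
  · refine ⟨cl (16 * a - 2 * 4), cl_nonneg _, cl_le_one _,
      Or.inr (Or.inr (Or.inr (Or.inl ⟨?_, ?_, ?_, rfl, ?_⟩)))⟩
    · exact cl_ge (by linarith)
    · exact cl_ge (by linarith)
    · exact cl_ge (by linarith)
    refine ⟨?_, ?_, ?_⟩ <;> exact cl_nonpos (by linarith)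
  by_cases h6 : 16 * a ≤ 12
  · refine ⟨cl (16 * a - 2 * 5), cl_nonneg _, cl_le_one _,
      Or.inr (Or.inr (Or.inr (Or.inr (Or.inl ⟨?_, ?_, ?_, ?_, rfl, ?_⟩))))⟩
    · exact cl_ge (by linarith)
    · exact cl_ge (by linarith)
    · exact cl_ge (by linarith)
    · exact cl_ge (by linarith)
    refine ⟨?_, ?_⟩ <;> exact cl_nonpos (by linarith)
  by_cases h7 : 16 * a ≤ 14
  · refine ⟨cl (16 * a - 2 * 6), cl_nonneg _, cl_le_one _,
      Or.inr (Or.inr (Or.inr (Or.inr (Or.inr (Or.inl ⟨?_, ?_, ?_, ?_, ?_, rfl, ?_⟩)))))⟩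
    · exact cl_ge (by linarith)
    · exact cl_ge (by linarith)
    · exact cl_ge (by linarith)
    · exact cl_ge (by linarith)
    · exact cl_ge (by linarith)
    exact cl_nonpos (by linarith)
  · refine ⟨cl (16 * a - 2 * 7), cl_nonneg _, cl_le_one _,
      Or.inr (Or.inr (Or.inr (Or.inr (Or.inr (Or.inr ⟨?_, ?_, ?_, ?_, ?_, ?_, rfl⟩)))))⟩
    · exact cl_ge (by linarith)
    · exact cl_ge (by linarith)
    · exact cl_ge (by linarith)
    · exact cl_ge (by linarith)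
    · exact cl_ge (by linarith)
    · exact cl_ge (by linarith)

/-- the tent in the lower zone -/
def TTw (a : ℝ) : ℝ := (R 3 a + R 4 a - R 6 a - R 7 a) / 2

lemma TT_facts (a : ℝ) : 0 ≤ TTw a ∧ TTw a ≤ 1 ∧ (0 < TTw a → R 2 a = 1) := by
  unfold TTw
  obtain ⟨t, ht0, ht1, h | h | h | h | h | h | h⟩ := R_cases a <;>
    obtain ⟨h1, h2, h3, h4, h5, h6, h7⟩ := h <;>
    rw [h2, h3, h4, h6, h7] <;>
    refine ⟨by linarith, by linarith, fun h => ?_⟩ <;>
    first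
      | rfl
      | (exfalso; linarith)

lemma R2_nn (k a : ℝ) : 0 ≤ R k a := cl_nonneg _
lemma R2_le (k a : ℝ) : R k a ≤ 1 := cl_le_one _

/-- facts in the lower zone -/
lemma low_facts (a b : ℝ) :
    0 ≤ R 2 a - cl (2 * mm a b - 1) ∧ R 2 a - cl (2 * mm a b - 1) ≤ 1 ∧
    0 ≤ cl (2 * mm a b) / 2 ∧ cl (2 * mm a b) / 2 ≤ 1 ∧
    (cl (2 * mm a b) / 2 = 0 ∨ R 2 a - cl (2 * mm a b - 1) = 1 ∨ cl (2 * mm a b) / 2 = 1 / 2) := by
  obtain ⟨hT0, hT1, hT2⟩ := TT_facts a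
  have hm : mm a b = min (cl (6 * b - 1)) (TTw a) := rfl
  have hmT : mm a b ≤ TTw a := by rw [hm]; exact min_le_right _ _
  have hm0 : 0 ≤ mm a b := by rw [hm]; exact le_min (cl_nonneg _) hT0
  have h1 := cl_nonneg (2 * mm a b - 1)
  have h2 := cl_le_one (2 * mm a b - 1)
  have h3 := cl_nonneg (2 * mm a b)
  have h4 := cl_le_one (2 * mm a b)
  have h5 := R2_nn 2 a
  have h6 := R2_le 2 a
  by_cases h0 : mm a b ≤ 0
  · have e1 : cl (2 * mm a b - 1) = 0 := cl_nonpos (by linarith)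
    have e2 : cl (2 * mm a b) = 0 := cl_nonpos (by linarith)
    rw [e1, e2]
    exact ⟨by linarith, by linarith, by norm_num, by norm_num, Or.inl (by norm_num)⟩
  · have e2 : R 2 a = 1 := hT2 (by linarith)
    rw [e2]
    refine ⟨by linarith, by linarith, by linarith, by linarith, ?_⟩
    by_cases h7 : mm a b ≤ 1 / 2
    · right; left
      rw [cl_nonpos (by linarith)]
      norm_num
    · right; right
      rw [cl_ge (by linarith)]

/-- facts in the middle zone -/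
lemma mid_facts (a b : ℝ) (hb1 : 1 / 3 ≤ b) (hb2 : b ≤ 2 / 3) :
    0 ≤ R 2 a - R 4 a + R 6 a ∧ R 2 a - R 4 a + R 6 a ≤ 1 ∧
    0 ≤ (3*b-1)/2 * R 1 a + (2-3*b)/2 * R 3 a + (3*b-1)/2 * R 5 a - (3*b)/2 * R 7 a ∧
    (3*b-1)/2 * R 1 a + (2-3*b)/2 * R 3 a + (3*b-1)/2 * R 5 a - (3*b)/2 * R 7 a ≤ 1 ∧
    (R 2 a - R 4 a + R 6 a = 0 ∨ R 2 a - R 4 a + R 6 a = 1 ∨
      (3*b-1)/2 * R 1 a + (2-3*b)/2 * R 3 a + (3*b-1)/2 * R 5 a - (3*b)/2 * R 7 a = 1 / 2 ∨
      2 * ((3*b-1)/2 * R 1 a + (2-3*b)/2 * R 3 a + (3*b-1)/2 * R 5 a - (3*b)/2 * R 7 a) = 3 * b - 1 ∨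
      2 * ((3*b-1)/2 * R 1 a + (2-3*b)/2 * R 3 a + (3*b-1)/2 * R 5 a - (3*b)/2 * R 7 a) = 3 * b) := by
  obtain ⟨t, ht0, ht1, h | h | h | h | h | h | h⟩ := R_cases a <;>
    obtain ⟨h1, h2, h3, h4, h5, h6, h7⟩ := h <;>
    rw [h1, h2, h3, h4, h5, h6, h7]
  · refine ⟨by linarith, by linarith, by nlinarith, by nlinarith, Or.inl (by ring)⟩
  · refine ⟨by linarith, by linarith, by nlinarith, by nlinarith,
      Or.inr (Or.inr (Or.inr (Or.inl (by ring))))⟩
  · refine ⟨by linarith, by linarith, by nlinarith, by nlinarith, Or.inr (Or.inl (by ring))⟩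
  · refine ⟨by linarith, by linarith, by nlinarith, by nlinarith,
      Or.inr (Or.inr (Or.inl (by ring)))⟩
  · refine ⟨by linarith, by linarith, by nlinarith, by nlinarith, Or.inl (by ring)⟩
  · refine ⟨by linarith, by linarith, by nlinarith, by nlinarith,
      Or.inr (Or.inr (Or.inr (Or.inr (by ring))))⟩
  · refine ⟨by linarith, by linarith, by nlinarith, by nlinarith, Or.inr (Or.inl (by ring))⟩

/-- facts in the upper zone, abstract form -/
lemma up_abs (p q s : ℝ) (r : ℝ → ℝ) (t : ℝ) (ht0 : 0 ≤ t) (ht1 : t ≤ 1) (hp0 : 0 ≤ p)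
    (hp1 : p ≤ 1) (hq0 : 0 ≤ q) (hq1 : q ≤ 1) (hs0 : 0 ≤ s) (hs1 : s ≤ 1)
    (hpq : p = 0 ∨ q = 0) (hsp : s = 0 ∨ p = 0) (hqs : q = 0 ∨ s = 1)
    (h : (r 1 = t ∧ r 2 = 0 ∧ r 4 = 0 ∧ r 5 = 0 ∧ r 6 = 0 ∧ r 7 = 0) ∨
     (r 1 = 1 ∧ r 2 = t ∧ r 4 = 0 ∧ r 5 = 0 ∧ r 6 = 0 ∧ r 7 = 0) ∨
     (r 1 = 1 ∧ r 2 = 1 ∧ r 4 = 0 ∧ r 5 = 0 ∧ r 6 = 0 ∧ r 7 = 0) ∨
     (r 1 = 1 ∧ r 2 = 1 ∧ r 4 = t ∧ r 5 = 0 ∧ r 6 = 0 ∧ r 7 = 0) ∨
     (r 1 = 1 ∧ r 2 = 1 ∧ r 4 = 1 ∧ r 5 = t ∧ r 6 = 0 ∧ r 7 = 0) ∨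
     (r 1 = 1 ∧ r 2 = 1 ∧ r 4 = 1 ∧ r 5 = 1 ∧ r 6 = t ∧ r 7 = 0) ∨
     (r 1 = 1 ∧ r 2 = 1 ∧ r 4 = 1 ∧ r 5 = 1 ∧ r 6 = 1 ∧ r 7 = t)) :
    0 ≤ min p (r 2 - r 4) + (1 - q) * r 6 + q * r 2 ∧
    min p (r 2 - r 4) + (1 - q) * r 6 + q * r 2 ≤ 1 ∧
    0 ≤ max s (r 1 / 2 + r 5 / 2 - r 7) ∧ max s (r 1 / 2 + r 5 / 2 - r 7) ≤ 1 ∧
    (min p (r 2 - r 4) + (1 - q) * r 6 + q * r 2 = 0 ∨
      min p (r 2 - r 4) + (1 - q) * r 6 + q * r 2 = 1 ∨
      max s (r 1 / 2 + r 5 / 2 - r 7) = 1 / 2 ∨ max s (r 1 / 2 + r 5 / 2 - r 7) = 1) := by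
  have hq1' : 0 ≤ 1 - q := by linarith
  refine ⟨?_, ?_, hs0.trans (le_max_left _ _), ?_, ?_⟩
  · have h1 : 0 ≤ min p (r 2 - r 4) := by
      refine le_min hp0 ?_
      rcases h with h | h | h | h | h | h | h <;> obtain ⟨h1, h2, h4, h5, h6, h7⟩ := h <;>
        rw [h2, h4] <;> linarith
    have h2 : 0 ≤ r 6 := by
      rcases h with h | h | h | h | h | h | h <;> obtain ⟨h1, h2, h4, h5, h6, h7⟩ := h <;>
        rw [h6] <;> linarith
    have h3 : 0 ≤ r 2 := by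
      rcases h with h | h | h | h | h | h | h <;> obtain ⟨h1, h2, h4, h5, h6, h7⟩ := h <;>
        rw [h2] <;> linarith
    have h4 := mul_nonneg hq1' h2
    have h5 := mul_nonneg hq0 h3
    linarith
  · rcases hpq with hpq | hpq
    · have h0 : min p (r 2 - r 4) ≤ 0 := by rw [hpq]; exact min_le_left _ _
      rcases h with h | h | h | h | h | h | h <;> obtain ⟨h1, h2, h4, h5, h6, h7⟩ := h <;>
        rw [h6, h2] <;> rw [h2] at h0 <;> nlinarith
    · have h0 : min p (r 2 - r 4) ≤ r 2 - r 4 := min_le_right _ _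
      have h0' : min p (r 2 - r 4) ≤ p := min_le_left _ _
      rcases h with h | h | h | h | h | h | h <;> obtain ⟨h1, h2, h4, h5, h6, h7⟩ := h <;>
        rw [h2, h4] at h0 h0' <;>
        rw [h6, h2, h4, hpq] <;> linarith
  · refine max_le hs1 ?_
    rcases h with h | h | h | h | h | h | h <;> obtain ⟨h1, h2, h4, h5, h6, h7⟩ := h <;>
      rw [h1, h5, h7] <;> linarith
  · rcases h with h | h | h | h | h | h | h <;> obtain ⟨h1, h2, h4, h5, h6, h7⟩ := h
    · left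
      rw [h2, h4, h6, min_eq_right (by linarith)]
      ring
    · rcases hsp with hs | hp
      · right; right; left
        rw [hs, h1, h5, h7, max_eq_right (by norm_num)]
        norm_num
      · rcases hqs with hq | hs
        · left
          rw [hp, hq, h2, h4, h6, min_eq_left (by linarith)]
          ring
        · right; right; right
          rw [hs, h1, h5, h7, max_eq_left (by norm_num)]
    · rcases hsp with hs | hp
      · right; right; left
        rw [hs, h1, h5, h7, max_eq_right (by norm_num)]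
        norm_num
      · rcases hqs with hq | hs
        · left
          rw [hp, hq, h2, h4, h6, min_eq_left (by linarith)]
          ring
        · right; right; right
          rw [hs, h1, h5, h7, max_eq_left (by norm_num)]
    · rcases hsp with hs | hp
      · right; right; left
        rw [hs, h1, h5, h7, max_eq_right (by norm_num)]
        norm_num
      · rcases hqs with hq | hs
        · left
          rw [hp, hq, h2, h4, h6, min_eq_left (by linarith)]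
          ring
        · right; right; right
          rw [hs, h1, h5, h7, max_eq_left (by norm_num)]
    · rcases hqs with hq | hs
      · left
        rw [hq, h2, h4, h6, min_eq_right (by linarith)]
        ring
      · right; right; right
        rw [hs, h1, h5, h7, max_eq_left (by linarith)]
    · right; right; right
      rw [h1, h5, h7, max_eq_right (by linarith)]
      norm_num
    · right; left
      rw [h2, h4, h6, min_eq_right (by linarith)]
      ring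

lemma up_facts (a b : ℝ) :
    0 ≤ min (cl (7 - 9*b)) (R 2 a - R 4 a) + (1 - cl (18*b-16)) * R 6 a + cl (18*b-16) * R 2 a ∧
    min (cl (7 - 9*b)) (R 2 a - R 4 a) + (1 - cl (18*b-16)) * R 6 a + cl (18*b-16) * R 2 a ≤ 1 ∧
    0 ≤ max (cl (9*b-7)) (R 1 a / 2 + R 5 a / 2 - R 7 a) ∧
    max (cl (9*b-7)) (R 1 a / 2 + R 5 a / 2 - R 7 a) ≤ 1 ∧
    (min (cl (7 - 9*b)) (R 2 a - R 4 a) + (1 - cl (18*b-16)) * R 6 a + cl (18*b-16) * R 2 a = 0 ∨
      min (cl (7 - 9*b)) (R 2 a - R 4 a) + (1 - cl (18*b-16)) * R 6 a + cl (18*b-16) * R 2 a = 1 ∨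
      max (cl (9*b-7)) (R 1 a / 2 + R 5 a / 2 - R 7 a) = 1 / 2 ∨
      max (cl (9*b-7)) (R 1 a / 2 + R 5 a / 2 - R 7 a) = 1) := by
  obtain ⟨t, ht0, ht1, hc⟩ := R_cases a
  refine up_abs (cl (7 - 9*b)) (cl (18*b-16)) (cl (9*b-7)) (fun k => R k a) t ht0 ht1
    (cl_nonneg _) (cl_le_one _) (cl_nonneg _) (cl_le_one _) (cl_nonneg _) (cl_le_one _) ?_ ?_ ?_ ?_
  · rcases le_total b (7/9) with h | h
    · right; exact cl_nonpos (by linarith)
    · left; exact cl_nonpos (by linarith)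
  · rcases le_total b (7/9) with h | h
    · left; exact cl_nonpos (by linarith)
    · right; exact cl_nonpos (by linarith)
  · rcases le_total b (8/9) with h | h
    · left; exact cl_nonpos (by linarith)
    · right; exact cl_ge (by linarith)
  · rcases hc with h | h | h | h | h | h | h <;> obtain ⟨h1, h2, h3, h4, h5, h6, h7⟩ := h
    · exact Or.inl ⟨h1, h2, h4, h5, h6, h7⟩
    · exact Or.inr (Or.inl ⟨h1, h2, h4, h5, h6, h7⟩)
    · exact Or.inr (Or.inr (Or.inl ⟨h1, h2, h4, h5, h6, h7⟩))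
    · exact Or.inr (Or.inr (Or.inr (Or.inl ⟨h1, h2, h4, h5, h6, h7⟩)))
    · exact Or.inr (Or.inr (Or.inr (Or.inr (Or.inl ⟨h1, h2, h4, h5, h6, h7⟩))))
    · exact Or.inr (Or.inr (Or.inr (Or.inr (Or.inr (Or.inl ⟨h1, h2, h4, h5, h6, h7⟩)))))
    · exact Or.inr (Or.inr (Or.inr (Or.inr (Or.inr (Or.inr ⟨h1, h2, h4, h5, h6, h7⟩)))))

lemma R_zero (k a : ℝ) (h : 8 * a ≤ k) : R k a = 0 := cl_nonpos (by linarith)
lemma R_one (k a : ℝ) (h : 2 * k + 1 ≤ 16 * a) : R k a = 1 := cl_ge (by linarith)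

lemma mm_TT0 (a b : ℝ) (h : TTw a = 0) : mm a b = 0 := by
  have : mm a b = min (cl (6 * b - 1)) (TTw a) := rfl
  rw [this, h, min_eq_right (cl_nonneg _)]

lemma cont1 : Continuous (fun x : ℝ × ℝ => tau1 x.1 x.2) := by
  have hR : ∀ k : ℝ, Continuous (fun x : ℝ × ℝ => R k x.1) := fun k => (R_cont k).comp continuous_fst
  have hR2 := hR 2
  have hR3 := hR 3
  have hR4 := hR 4
  have hR6 := hR 6
  have hR7 := hR 7
  have hmm : Continuous (fun x : ℝ × ℝ => mm x.1 x.2) := by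
    unfold mm
    refine Continuous.min (cl_cont.comp (by fun_prop)) ?_
    exact (((hR3.add hR4).sub hR6).sub hR7).div_const 2
  unfold tau1
  refine Continuous.if_le ?_ ?_ continuous_snd continuous_const ?_
  · exact hR2.sub (cl_cont.comp ((continuous_const.mul hmm).sub continuous_const))
  · refine Continuous.if_le ?_ ?_ continuous_snd continuous_const ?_
    · exact (hR2.sub hR4).add hR6
    · refine ((Continuous.min (cl_cont.comp (by fun_prop)) (hR2.sub hR4)).add ?_).add ?_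
      · exact (continuous_const.sub (cl_cont.comp (by fun_prop))).mul hR6
      · exact (cl_cont.comp (by fun_prop)).mul hR2
    · rintro ⟨a, b⟩ hb
      simp only at hb ⊢
      subst hb
      rw [cl_ge (by norm_num), cl_nonpos (by norm_num)]
      have h1 := R2_le 2 a
      have h2 := R2_nn 4 a
      rw [min_eq_right (by linarith)]
      ring
  · rintro ⟨a, b⟩ hb
    simp only at hb ⊢
    subst hb
    rw [if_pos (by norm_num)]
    have hm : mm a (1/3) = TTw a := by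
      have : mm a (1/3) = min (cl (6 * (1/3) - 1)) (TTw a) := rfl
      rw [this, cl_ge (by norm_num), min_eq_right (TT_facts a).2.1]
    rw [hm]
    unfold TTw
    obtain ⟨t, ht0, ht1, h | h | h | h | h | h | h⟩ := R_cases a <;>
      obtain ⟨h1, h2, h3, h4, h5, h6, h7⟩ := h <;>
      rw [h2, h3, h4, h6, h7]
    · rw [cl_nonpos (by norm_num)]; ring
    · rw [cl_nonpos (by norm_num)]; ring
    · rw [cl_nonpos (by linarith)]; ring
    · rw [cl_mid (by linarith) (by linarith)]; ring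
    · rw [cl_ge (by norm_num)]; ring
    · rw [cl_mid (by linarith) (by linarith)]; ring
    · rw [cl_nonpos (by linarith)]; ring

lemma cont2 : Continuous (fun x : ℝ × ℝ => tau2 x.1 x.2) := by
  have hR : ∀ k : ℝ, Continuous (fun x : ℝ × ℝ => R k x.1) := fun k => (R_cont k).comp continuous_fst
  have hR1 := hR 1
  have hR3 := hR 3
  have hR4 := hR 4
  have hR5 := hR 5
  have hR6 := hR 6
  have hR7 := hR 7
  have hmm : Continuous (fun x : ℝ × ℝ => mm x.1 x.2) := by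
    unfold mm
    refine Continuous.min (cl_cont.comp (by fun_prop)) ?_
    exact (((hR3.add hR4).sub hR6).sub hR7).div_const 2
  unfold tau2
  refine Continuous.if_le ?_ ?_ continuous_snd continuous_const ?_
  · exact (cl_cont.comp (continuous_const.mul hmm)).div_const 2
  · refine Continuous.if_le ?_ ?_ continuous_snd continuous_const ?_
    · refine (((Continuous.mul (by fun_prop) hR1).add (Continuous.mul (by fun_prop) hR3)).add
        (Continuous.mul (by fun_prop) hR5)).sub (Continuous.mul (by fun_prop) hR7)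
    · exact Continuous.max (cl_cont.comp (by fun_prop))
        (((hR1.div_const 2).add (hR5.div_const 2)).sub hR7)
    · rintro ⟨a, b⟩ hb
      simp only at hb ⊢
      subst hb
      rw [cl_nonpos (by norm_num)]
      obtain ⟨t, ht0, ht1, h | h | h | h | h | h | h⟩ := R_cases a <;>
        obtain ⟨h1, h2, h3, h4, h5, h6, h7⟩ := h <;>
        rw [h1, h3, h5, h7, max_eq_right (by linarith)] <;> ring
  · rintro ⟨a, b⟩ hb
    simp only at hb ⊢
    subst hb
    rw [if_pos (by norm_num)]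
    have hm : mm a (1/3) = TTw a := by
      have : mm a (1/3) = min (cl (6 * (1/3) - 1)) (TTw a) := rfl
      rw [this, cl_ge (by norm_num), min_eq_right (TT_facts a).2.1]
    rw [hm]
    unfold TTw
    obtain ⟨t, ht0, ht1, h | h | h | h | h | h | h⟩ := R_cases a <;>
      obtain ⟨h1, h2, h3, h4, h5, h6, h7⟩ := h <;>
      rw [h1, h3, h4, h5, h6, h7]
    · rw [cl_nonpos (by norm_num)]; ring
    · rw [cl_nonpos (by norm_num)]; ring
    · rw [cl_mid (by linarith) (by linarith)]; ring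
    · rw [cl_ge (by linarith)]; ring
    · rw [cl_ge (by norm_num)]; ring
    · rw [cl_ge (by linarith)]; ring
    · rw [cl_mid (by linarith) (by linarith)]; ring

lemma exists_tau : ExTau := by
  refine ⟨tau1, tau2, cont1, cont2, ?_, ?_, ?_, ?_, ?_, ?_, ?_, ?_, ?_⟩
  · intro a b
    unfold tau1
    split_ifs with hb1 hb2
    · exact ⟨(low_facts a b).1, (low_facts a b).2.1⟩
    · have := mid_facts a b (le_of_lt (not_le.mp hb1)) hb2
      exact ⟨this.1, this.2.1⟩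
    · exact ⟨(up_facts a b).1, (up_facts a b).2.1⟩
  · intro a b
    unfold tau2
    split_ifs with hb1 hb2
    · exact ⟨(low_facts a b).2.2.1, (low_facts a b).2.2.2.1⟩
    · have := mid_facts a b (le_of_lt (not_le.mp hb1)) hb2
      exact ⟨this.2.2.1, this.2.2.2.1⟩
    · exact ⟨(up_facts a b).2.2.1, (up_facts a b).2.2.2.1⟩
  · intro a b ha
    have h2 := R_zero 2 a (by linarith)
    have h3 := R_zero 3 a (by linarith)
    have h4 := R_zero 4 a (by linarith)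
    have h6 := R_zero 6 a (by linarith)
    have h7 := R_zero 7 a (by linarith)
    have hT : TTw a = 0 := by unfold TTw; rw [h3, h4, h6, h7]; norm_num
    unfold tau1
    rw [mm_TT0 a b hT, h2, h4, h6]
    split_ifs
    · rw [cl_nonpos (by norm_num)]; norm_num
    · norm_num
    · rw [min_eq_right (by rw [sub_zero]; exact cl_nonneg _)]; ring
  · intro a b ha
    have h2 := R_one 2 a (by linarith)
    have h3 := R_one 3 a (by linarith)
    have h4 := R_one 4 a (by linarith)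
    have h6 := R_one 6 a (by linarith)
    have h7 := R_one 7 a (by linarith)
    have hT : TTw a = 0 := by unfold TTw; rw [h3, h4, h6, h7]; norm_num
    unfold tau1
    rw [mm_TT0 a b hT, h2, h4, h6]
    split_ifs
    · rw [cl_nonpos (by norm_num)]; norm_num
    · norm_num
    · rw [min_eq_right (by rw [sub_self]; exact cl_nonneg _)]; ring
  · intro a b hb
    unfold tau2
    rw [if_pos (by linarith)]
    have : mm a b = min (cl (6 * b - 1)) (TTw a) := rfl
    rw [this, cl_nonpos (by linarith : 6 * b - 1 ≤ 0), min_eq_left (TT_facts a).1,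
      cl_nonpos (by norm_num)]
    norm_num
  · intro a b hb
    unfold tau2
    rw [if_neg (by linarith), if_neg (by linarith), cl_ge (by linarith)]
    obtain ⟨t, ht0, ht1, h | h | h | h | h | h | h⟩ := R_cases a <;>
      obtain ⟨h1, h2, h3, h4, h5, h6, h7⟩ := h <;>
      rw [h1, h5, h7, max_eq_left (by linarith)]
  · intro b
    have a0 : ∀ k : ℝ, 0 ≤ k → R k 0 = 0 := fun k hk => R_zero k 0 (by linarith)
    have a1 : ∀ k : ℝ, k ≤ 7 → R k 1 = 1 := fun k hk => R_one k 1 (by linarith)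
    have hT0 : TTw 0 = 0 := by
      unfold TTw
      rw [a0 3 (by norm_num), a0 4 (by norm_num), a0 6 (by norm_num), a0 7 (by norm_num)]
      norm_num
    have hT1 : TTw 1 = 0 := by
      unfold TTw
      rw [a1 3 (by norm_num), a1 4 (by norm_num), a1 6 (by norm_num), a1 7 (by norm_num)]
      norm_num
    unfold tau2
    rw [mm_TT0 0 b hT0, mm_TT0 1 b hT1, a0 1 (by norm_num), a0 3 (by norm_num), a0 5 (by norm_num),
      a0 7 (by norm_num), a1 1 (by norm_num), a1 3 (by norm_num), a1 5 (by norm_num),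
      a1 7 (by norm_num)]
    split_ifs
    · rfl
    · ring
    · norm_num
  · intro a
    unfold tau1
    rw [if_pos (by norm_num), if_neg (by norm_num), if_neg (by norm_num)]
    have : mm a 0 = min (cl (6 * 0 - 1)) (TTw a) := rfl
    rw [this, cl_nonpos (by norm_num : (6 : ℝ) * 0 - 1 ≤ 0), min_eq_left (TT_facts a).1,
      cl_nonpos (by norm_num : (2 : ℝ) * 0 - 1 ≤ 0), cl_nonpos (by norm_num : (7 : ℝ) - 9 * 1 ≤ 0),
      cl_ge (by norm_num : (1 : ℝ) ≤ 18 * 1 - 16)]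
    have h24 : 0 ≤ R 2 a - R 4 a := by
      obtain ⟨t, ht0, ht1, h | h | h | h | h | h | h⟩ := R_cases a <;>
        obtain ⟨h1, h2, h3, h4, h5, h6, h7⟩ := h <;>
        rw [h2, h4] <;> linarith
    rw [min_eq_left h24]
    ring
  · intro a b
    unfold tau1 tau2
    split_ifs with hb1 hb2
    · rcases (low_facts a b).2.2.2.2 with h | h | h
      · exact Or.inr (Or.inr (Or.inl h))
      · exact Or.inr (Or.inl h)
      · exact Or.inr (Or.inr (Or.inr (Or.inl h)))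
    · have hb1' := not_le.mp hb1
      rcases hb2.lt_or_eq with hb3 | hb3
      · rcases (mid_facts a b hb1'.le hb2).2.2.2.2 with h | h | h | h | h
        · exact Or.inl h
        · exact Or.inr (Or.inl h)
        · exact Or.inr (Or.inr (Or.inr (Or.inl h)))
        · exact Or.inr (Or.inr (Or.inr (Or.inr (Or.inr ⟨hb1', hb3, Or.inl h⟩))))
        · exact Or.inr (Or.inr (Or.inr (Or.inr (Or.inr ⟨hb1', hb3, Or.inr h⟩))))
      · rcases (mid_facts a b hb1'.le hb2).2.2.2.2 with h | h | h | h | h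
        · exact Or.inl h
        · exact Or.inr (Or.inl h)
        · exact Or.inr (Or.inr (Or.inr (Or.inl h)))
        · refine Or.inr (Or.inr (Or.inr (Or.inl ?_)))
          linarith
        · refine Or.inr (Or.inr (Or.inr (Or.inr (Or.inl ?_))))
          linarith
    · rcases (up_facts a b).2.2.2.2 with h | h | h | h
      · exact Or.inl h
      · exact Or.inr (Or.inl h)
      · exact Or.inr (Or.inr (Or.inr (Or.inl h)))
      · exact Or.inr (Or.inr (Or.inr (Or.inr (Or.inl h))))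

end

end Pool.Agent.Helper93.Jm
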