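import Pool.Agent.Helper93.JmDefs

set_option autoImplicit false

namespace Pool.Agent.Helper93.Jm

open Filter Topology Metric

noncomputable section


lemma exists_tiles (d : ℕ) (s : ℝ) (hs : 0 < s) :
    ∃ (T : Type) (tile : T → Set (Fin d → ℝ)) (col : T → Fin (d+1)), (∀ t, IsOpen (tile t)) ∧
      (∀ t, ∀ a ∈ tile t, ∀ b ∈ tile t, ‖a - b‖ ≤ s) ∧ (∀ w, ∃ t, w ∈ tile t) ∧
      ∀ t t' w, w ∈ tile t → w ∈ tile t' → col t = col t' → t = t' := by
  classical
  set D : ℝ := 4 * ((d : ℝ) + 1) with hD
  have hDpos : 0 < D := by positivity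
  let R : ℕ → ℝ := fun c => 2 * (c : ℝ) / D
  let rho : ℕ → ℝ := fun c => (2 * (c : ℝ) + 1) / D
  have hRrho : ∀ c, R c < rho c := fun c => by
    simp only [R, rho]
    apply div_lt_div_of_pos_right _ hDpos
    linarith
  have hrhoR : ∀ c, rho c < R (c + 1) := fun c => by
    simp only [R, rho]
    apply div_lt_div_of_pos_right _ hDpos
    push_cast
    linarith
  have hRhalf : ∀ c, c ≤ d → R c < 1 / 2 := fun c hc => by
    have hc' : (c : ℝ) ≤ d := by exact_mod_cast hc
    simp only [R]
    rw [div_lt_iff₀ hDpos]
    rw [hD]
    linarith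
  have hR0 : ∀ c, 0 ≤ R c := fun c => by simp only [R]; positivity
  have hrho0 : ∀ c, 0 < rho c := fun c => by simp only [rho]; positivity
  have hRmono : ∀ c, R c ≤ R (c + 1) := fun c => ((hRrho c).trans (hrhoR c)).le
  let tile : Finset (Fin d) × (Fin d → ℤ) → Set (Fin d → ℝ) := fun t =>
    {w | ∀ i, (i ∈ t.1 → |w i / s - t.2 i| < R t.1.card) ∧
      (i ∉ t.1 → (t.2 i : ℝ) + rho t.1.card < w i / s ∧ w i / s < (t.2 i : ℝ) + 1 - rho t.1.card)}
  have hcard : ∀ S : Finset (Fin d), S.card ≤ d := fun S => by
    simpa using Finset.card_le_univ S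
  refine ⟨Finset (Fin d) × (Fin d → ℤ), tile,
    fun t => ⟨t.1.card, Nat.lt_succ_of_le (hcard t.1)⟩, ?_, ?_, ?_, ?_⟩
  · intro t
    have e : tile t = ⋂ i, {w : Fin d → ℝ | (i ∈ t.1 → |w i / s - t.2 i| < R t.1.card) ∧
      (i ∉ t.1 → (t.2 i : ℝ) + rho t.1.card < w i / s ∧
        w i / s < (t.2 i : ℝ) + 1 - rho t.1.card)} := by
      ext w
      simp only [tile, Set.mem_setOf_eq, Set.mem_iInter]
    rw [e]
    refine isOpen_iInter_of_finite fun i => ?_
    have hcont : Continuous (fun w : Fin d → ℝ => w i / s) :=
      Continuous.div_const (continuous_apply (A := fun _ : Fin d => ℝ) i) s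
    by_cases hi : i ∈ t.1
    · simp only [hi, forall_const, not_true_eq_false, false_imp_iff, and_true]
      exact isOpen_lt ((hcont.sub continuous_const).abs) continuous_const
    · simp only [hi, false_imp_iff, not_false_eq_true, forall_const, true_and]
      exact (isOpen_lt continuous_const hcont).inter (isOpen_lt hcont continuous_const)
  · intro t a ha b hb
    rw [pi_norm_le_iff_of_nonneg hs.le]
    intro i
    rw [Pi.sub_apply, Real.norm_eq_abs]
    have h1 : |a i / s - b i / s| ≤ 1 := by
      by_cases hi : i ∈ t.1
      · have h2 := (ha i).1 hi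
        have h3 := (hb i).1 hi
        have h4 := hRhalf _ (hcard t.1)
        rw [abs_lt] at h2 h3
        rw [abs_le]
        constructor <;> linarith
      · have h2 := (ha i).2 hi
        have h3 := (hb i).2 hi
        have h4 := hrho0 t.1.card
        rw [abs_le]
        constructor <;> linarith
    have h5 : a i - b i = (a i / s - b i / s) * s := by field_simp
    rw [h5, abs_mul, abs_of_pos hs]
    calc |a i / s - b i / s| * s ≤ 1 * s := by gcongr
      _ = s := one_mul s
  · intro w
    let δ : Fin d → ℝ := fun i => |w i / s - round (w i / s)|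
    let P : ℕ → Prop := fun c => c ≤ (Finset.univ.filter (fun i => δ i < R c)).card
    have hP0 : P 0 := Nat.zero_le _
    have hPc : P (Nat.findGreatest P d) := Nat.findGreatest_spec (Nat.zero_le d) hP0
    have hcd : Nat.findGreatest P d ≤ d := Nat.findGreatest_le d
    have hmax : ∀ k, Nat.findGreatest P d < k → k ≤ d → ¬ P k :=
      fun k h1 h2 => Nat.findGreatest_is_greatest h1 h2
    generalize Nat.findGreatest P d = c at hPc hcd hmax
    rcases eq_or_lt_of_le hcd with hc | hc
    · subst hc
      have hu : Finset.univ.filter (fun i => δ i < R c) = Finset.univ := by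
        apply Finset.eq_univ_of_card
        rw [Fintype.card_fin]
        exact le_antisymm (hcard _) hPc
      refine ⟨(Finset.univ, fun i => round (w i / s)), fun i => ⟨fun _ => ?_, fun h => ?_⟩⟩
      · have hi : i ∈ Finset.univ.filter (fun i => δ i < R c) := by rw [hu]; exact Finset.mem_univ i
        have h1 := (Finset.mem_filter.mp hi).2
        have h2 : (Finset.univ : Finset (Fin c)).card = c := by simp
        simp only [h2]
        exact h1
      · exact absurd (Finset.mem_univ i) h
    · have hn : ¬ P (c + 1) := hmax (c + 1) (Nat.lt_succ_self c) hc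
      have hn' : (Finset.univ.filter (fun i => δ i < R (c + 1))).card < c + 1 := not_le.mp hn
      have hsub : Finset.univ.filter (fun i => δ i < R c) ⊆
          Finset.univ.filter (fun i => δ i < R (c + 1)) := by
        intro i hi
        rw [Finset.mem_filter] at hi ⊢
        exact ⟨hi.1, hi.2.trans_le (hRmono c)⟩
      have hle := Finset.card_le_card hsub
      have hPc' : c ≤ (Finset.univ.filter (fun i => δ i < R c)).card := hPc
      have heq : Finset.univ.filter (fun i => δ i < R c) =
          Finset.univ.filter (fun i => δ i < R (c + 1)) :=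
        Finset.eq_of_subset_of_card_le hsub (by omega)
      have hScard : (Finset.univ.filter (fun i => δ i < R c)).card = c := by omega
      refine ⟨(Finset.univ.filter (fun i => δ i < R c), fun i => if i ∈ Finset.univ.filter
        (fun i => δ i < R c) then round (w i / s) else ⌊w i / s⌋), fun i => ⟨fun hi => ?_,
        fun hi => ?_⟩⟩
      · simp only at hi
        simp only [hScard]
        rw [if_pos hi]
        exact (Finset.mem_filter.mp hi).2
      · simp only at hi
        simp only [hScard]
        rw [if_neg hi]
        rw [heq, Finset.mem_filter, not_and] at hi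
        have h1 : R (c + 1) ≤ δ i := not_lt.mp (hi (Finset.mem_univ i))
        have h2 : δ i = min (Int.fract (w i / s)) (1 - Int.fract (w i / s)) :=
          abs_sub_round_eq_min _
        rw [h2, le_min_iff] at h1
        have h3 := hrhoR c
        have h4 := Int.floor_add_fract (w i / s)
        constructor <;> linarith [h1.1, h1.2]
  · rintro ⟨S, k⟩ ⟨S', k'⟩ w hw hw' hcol
    simp only [Fin.mk.injEq] at hcol
    have key : ∀ (S S' : Finset (Fin d)) (k k' : Fin d → ℤ), S.card = S'.card →
        w ∈ tile (S, k) → w ∈ tile (S', k') → S ⊆ S' := by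
      intro S S' k k' hc hw hw' i hi
      by_contra hi'
      have h1 := (hw i).1 hi
      have h2 := (hw' i).2 hi'
      simp only at h1 h2
      rw [← hc] at h2
      have h3 := hRrho S.card
      rw [abs_lt] at h1
      rcases le_or_gt (k i) (k' i) with h4 | h4
      · have h5 : (k i : ℝ) ≤ k' i := by exact_mod_cast h4
        linarith [h1.2, h2.1]
      · have h5 : (k' i : ℝ) + 1 ≤ k i := by exact_mod_cast h4
        linarith [h1.1, h2.2]
    have hSS : S = S' := (key S S' k k' hcol hw hw').antisymm (key S' S k' k hcol.symm hw' hw)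
    subst hSS
    congr 1
    funext i
    by_cases hi : i ∈ S
    · have h1 := (hw i).1 hi
      have h2 := (hw' i).1 hi
      simp only at h1 h2
      have h3 := hRhalf _ (hcard S)
      rw [abs_lt] at h1 h2
      have h4 : (k i : ℝ) < k' i + 1 := by linarith [h1.1, h2.2]
      have h5 : (k' i : ℝ) < k i + 1 := by linarith [h1.2, h2.1]
      have h6 : k i < k' i + 1 := by exact_mod_cast h4
      have h7 : k' i < k i + 1 := by exact_mod_cast h5
      omega
    · have h1 := (hw i).2 hi
      have h2 := (hw' i).2 hi
      simp only at h1 h2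
      have h3 := hrho0 S.card
      have h4 : (k i : ℝ) < k' i + 1 := by linarith [h1.1, h2.2]
      have h5 : (k' i : ℝ) < k i + 1 := by linarith [h1.2, h2.1]
      have h6 : k i < k' i + 1 := by exact_mod_cast h4
      have h7 : k' i < k i + 1 := by exact_mod_cast h5
      omega


end

end Pool.Agent.Helper93.Jm
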