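import Mathlib

set_option autoImplicit false
set_option linter.unusedVariables false
open scoped NNReal ENNReal

namespace Pool.Agent.Helper93.NoFinite

open MeasureTheory Set Filter Topology

/-! ### Sets that are Lebesgue null through the distribution function -/

section cdf

variable (μ : Measure ℝ) [IsFiniteMeasure μ]

/-- The distribution function. -/
noncomputable def F (x : ℝ) : ℝ := (μ (Iic x)).toReal

theorem F_mono : Monotone (F μ) := fun x y h =>
  ENNReal.toReal_mono (measure_ne_top _ _) (measure_mono (Iic_subset_Iic.mpr h))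

theorem F_sub (hat : ∀ x, μ {x} = 0) (x y : ℝ) (h : x ≤ y) :
    μ (Icc x y) = ENNReal.ofReal (F μ y - F μ x) := by
  have h1 : μ (Ioc x y) = μ (Iic y) - μ (Iic x) := by
    have e : Ioc x y = Iic y \ Iic x := by
      ext z
      simp only [mem_Ioc, Set.mem_sdiff, mem_Iic, not_le]
      exact and_comm
    rw [e]
    exact measure_sdiff (Iic_subset_Iic.mpr h) measurableSet_Iic.nullMeasurableSet
      (measure_ne_top _ _)
  have h2 : μ (Icc x y) = μ (Ioc x y) := by
    apply le_antisymm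
    · have : Icc x y ⊆ {x} ∪ Ioc x y := by
        intro z hz
        rcases hz.1.eq_or_lt with h3 | h3
        · exact Or.inl h3.symm
        · exact Or.inr ⟨h3, hz.2⟩
      refine (measure_mono this).trans ((measure_union_le _ _).trans ?_)
      rw [hat, zero_add]
    · exact measure_mono Ioc_subset_Icc_self
  rw [h2, h1]
  unfold F
  rw [← ENNReal.toReal_sub_of_le (measure_mono (Iic_subset_Iic.mpr h)) (measure_ne_top _ _)]
  rw [ENNReal.ofReal_toReal]
  exact ne_top_of_le_ne_top (measure_ne_top μ (Iic y)) tsub_le_self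

theorem map_le_volume (hat : ∀ x, μ {x} = 0) : μ.map (F μ) ≤ volume := by
  have hm : Measurable (F μ) := (F_mono μ).measurable
  rw [← hausdorffMeasure_real]
  apply Measure.le_hausdorffMeasure 1 _ 1 (by norm_num)
  intro s hs
  rcases s.eq_empty_or_nonempty with h0 | h0
  · rw [h0]; simp
  rw [ENNReal.rpow_one]
  have hb : Bornology.IsBounded s := by
    rw [Metric.isBounded_iff_ediam_ne_top]
    exact ne_top_of_le_ne_top ENNReal.one_ne_top hs
  obtain ⟨hbb, hba⟩ := isBounded_iff_bddBelow_bddAbove.mp hb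
  have hsub : s ⊆ Icc (sInf s) (sSup s) := fun x hx => ⟨csInf_le hbb hx, le_csSup hba hx⟩
  have hd : Metric.ediam s = ENNReal.ofReal (sSup s - sInf s) := Real.ediam_eq hb
  refine (measure_mono hsub).trans ?_
  rw [hd, Measure.map_apply hm measurableSet_Icc]
  by_contra hcon
  push Not at hcon
  obtain ⟨K, hKT, hK, hKm⟩ := (hm measurableSet_Icc).exists_lt_isCompact hcon
  have hKne : K.Nonempty := by
    by_contra h
    rw [not_nonempty_iff_eq_empty] at h
    rw [h] at hKm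
    simp at hKm
  obtain ⟨x, hxK, hx⟩ := hK.exists_isLeast hKne
  obtain ⟨y, hyK, hy⟩ := hK.exists_isGreatest hKne
  have hKsub : K ⊆ Icc x y := fun z hz => ⟨hx hz, hy hz⟩
  have h1 := measure_mono (μ := μ) hKsub
  rw [F_sub μ hat x y (hx hyK)] at h1
  have h2 : F μ y - F μ x ≤ sSup s - sInf s := by
    have := (hKT hxK).1
    have := (hKT hyK).2
    linarith
  have h3 := h1.trans (ENNReal.ofReal_le_ofReal h2)
  exact absurd hKm (not_lt.mpr h3)

theorem null_of_image (hat : ∀ x, μ {x} = 0) (C : Set ℝ) (hC : volume (F μ '' C) = 0) :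
    μ C = 0 := by
  have hm : Measurable (F μ) := (F_mono μ).measurable
  have h1 : μ.map (F μ) (F μ '' C) = 0 :=
    le_antisymm ((map_le_volume μ hat (F μ '' C)).trans hC.le) bot_le
  have h2 := Measure.le_map_apply hm.aemeasurable (μ := μ) (F μ '' C)
  have h3 : μ C ≤ μ (F μ ⁻¹' (F μ '' C)) := measure_mono (subset_preimage_image _ _)
  exact le_antisymm (h3.trans (h2.trans h1.le)) bot_le

end cdf

/-! ### Binary digits -/

section digits

/-- The digits of a number in the unit interval are not eventually equal to one. -/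
theorem exists_zero_digit (y : ℝ) (hy : y ∈ Ico (0 : ℝ) 1) (n : ℕ) :
    ∃ i ≥ n, Real.digits y 2 i = 0 := by
  by_contra hcon
  push Not at hcon
  have h1 : ∀ i, Real.digits y 2 (i + n) = 1 := by
    intro i
    have := hcon (i + n) (by omega)
    generalize Real.digits y 2 (i + n) = d at this
    fin_cases d
    · exact absurd rfl this
    · rfl
  have h2 : Real.ofDigits (fun i => Real.digits y 2 (i + n)) = 1 := by
    have h3 := Real.ofDigits_const_last_eq_one' (b := 2) (by norm_num)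
    rw [← h3]
    congr 1
    funext i
    rw [h1 i]
    rfl
  have h4 := Real.ofDigits_eq_sum_add_ofDigits (Real.digits y 2) n
  rw [h2, Real.ofDigits_digits (by norm_num) hy] at h4
  have h5 := Real.ofDigits_digits_sum_eq (b := 2) hy n
  have h6 := Nat.lt_floor_add_one (((2 : ℕ) : ℝ) ^ n * y)
  have h7 : (0 : ℝ) < ((2 : ℕ) : ℝ) ^ n := by positivity
  have h8 : ((2 : ℕ) : ℝ) ^ n * y =
      ((2 : ℕ) : ℝ) ^ n * ∑ i ∈ Finset.range n, Real.ofDigitsTerm (Real.digits y 2) i + 1 := by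
    conv_lhs => rw [h4]
    rw [mul_add]
    congr 1
    field_simp
  rw [h5] at h8
  linarith

theorem ofDigits_lt_one (z : ℕ → Fin 2) (hz : ∀ n, ∃ i ≥ n, z i = 0) (n : ℕ) :
    Real.ofDigits (fun i => z (i + n)) < 1 := by
  obtain ⟨i, hi, hzi⟩ := hz n
  have h3 := Real.ofDigits_const_last_eq_one' (b := 2) (by norm_num)
  rw [← h3]
  unfold Real.ofDigits
  apply Summable.tsum_lt_tsum (i := i - n)
  · intro j
    unfold Real.ofDigitsTerm
    have : ((z (j + n) : ℕ) : ℝ) ≤ 1 := by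
      exact_mod_cast Nat.lt_succ_iff.mp (z (j + n)).2
    have h4 : (0 : ℝ) < (((2 : ℕ) : ℝ) ^ (j + 1))⁻¹ := by positivity
    have e : (((⟨2 - 1, Nat.sub_one_lt_of_lt (by norm_num : 1 < 2)⟩ : Fin 2) : ℕ) : ℝ) = 1 := by
      norm_num
    rw [e]
    exact mul_le_mul_of_nonneg_right this h4.le
  · unfold Real.ofDigitsTerm
    have h5 : i - n + n = i := by omega
    simp only [h5, hzi]
    have h4 : (0 : ℝ) < (((2 : ℕ) : ℝ) ^ (i - n + 1))⁻¹ := by positivity
    simp
  · exact Real.summable_ofDigitsTerm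
  · exact Real.summable_ofDigitsTerm

theorem digits_ofDigits (z : ℕ → Fin 2) (hz : ∀ n, ∃ i ≥ n, z i = 0) :
    Real.ofDigits z ∈ Ico (0 : ℝ) 1 ∧ Real.digits (Real.ofDigits z) 2 = z := by
  have hmem : Real.ofDigits z ∈ Ico (0 : ℝ) 1 := by
    refine ⟨Real.ofDigits_nonneg z, ?_⟩
    have := ofDigits_lt_one z hz 0
    simpa using this
  refine ⟨hmem, ?_⟩
  set x := Real.ofDigits z with hx
  have hsum : ∀ n, ∑ i ∈ Finset.range n, Real.ofDigitsTerm (Real.digits x 2) i =
      ∑ i ∈ Finset.range n, Real.ofDigitsTerm z i := by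
    intro n
    have h5 := Real.ofDigits_digits_sum_eq (b := 2) hmem n
    have h4 := Real.ofDigits_eq_sum_add_ofDigits z n
    have h7 : (0 : ℝ) < ((2 : ℕ) : ℝ) ^ n := by positivity
    have hint : ∃ k : ℕ, ((2 : ℕ) : ℝ) ^ n * ∑ i ∈ Finset.range n, Real.ofDigitsTerm z i = k := by
      refine ⟨∑ i ∈ Finset.range n, (z i : ℕ) * 2 ^ (n - (i + 1)), ?_⟩
      rw [Finset.mul_sum]
      push_cast
      apply Finset.sum_congr rfl
      intro i hi
      unfold Real.ofDigitsTerm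
      have hi' : i + 1 ≤ n := by simpa using hi
      have : (2 : ℝ) ^ n = 2 ^ (n - (i + 1)) * 2 ^ (i + 1) := by
        rw [← pow_add]; congr 1; omega
      push_cast
      rw [this]
      field_simp
    obtain ⟨k, hk⟩ := hint
    have h8 : ((2 : ℕ) : ℝ) ^ n * x = k + Real.ofDigits (fun i => z (i + n)) := by
      rw [hx, h4, mul_add, hk]
      congr 1
      field_simp
    have h9 : ⌊((2 : ℕ) : ℝ) ^ n * x⌋₊ = k := by
      rw [h8]
      rw [Nat.floor_eq_iff (by have := Real.ofDigits_nonneg (fun i => z (i + n)); positivity)]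
      constructor
      · have := Real.ofDigits_nonneg (fun i => z (i + n))
        linarith
      · have := ofDigits_lt_one z hz n
        linarith
    rw [h9, ← hk] at h5
    exact mul_left_cancel₀ h7.ne' h5
  funext i
  have h1 := hsum (i + 1)
  rw [Finset.sum_range_succ, Finset.sum_range_succ, hsum i] at h1
  have h2 := add_left_cancel h1
  unfold Real.ofDigitsTerm at h2
  have h3 : (0 : ℝ) < (((2 : ℕ) : ℝ) ^ (i + 1))⁻¹ := by positivity
  have h4 := mul_right_cancel₀ h3.ne' h2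
  exact Fin.ext (by exact_mod_cast h4)

/-- Numbers with the same integer part at level `n` have the same first digits. -/
theorem digits_eq_of_floor {r r' : ℝ} (n : ℕ) (h : ⌊r * 2 ^ n⌋₊ = ⌊r' * 2 ^ n⌋₊) (i : ℕ)
    (hi : i < n) : Real.digits r 2 i = Real.digits r' 2 i := by
  unfold Real.digits
  have key : ∀ s : ℝ, ⌊s * ((2 : ℕ) : ℝ) ^ (i + 1)⌋₊ = ⌊s * 2 ^ n⌋₊ / (2 ^ (n - (i + 1))) := by
    intro s
    rw [← Nat.floor_div_natCast]
    congr 1
    have : (2 : ℝ) ^ n = 2 ^ (n - (i + 1)) * 2 ^ (i + 1) := by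
      rw [← pow_add]; congr 1; omega
    rw [this]
    push_cast
    field_simp
  rw [key r, key r', h]

theorem measurable_digits : Measurable (fun r : ℝ => Real.digits r 2) := by
  apply measurable_pi_lambda
  intro i
  unfold Real.digits
  have h1 : Measurable (fun r : ℝ => ⌊r * ((2 : ℕ) : ℝ) ^ (i + 1)⌋₊) :=
    Nat.measurable_floor.comp (measurable_id.mul_const _)
  exact (measurable_from_nat (f := fun m : ℕ => Fin.ofNat 2 m)).comp h1

end digits

/-! ### Interleaving -/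

section interleave

variable (nk : ℕ → ℕ)

/-- The number whose digits are the digits of `r` at the positions outside the range of `nk`. -/
noncomputable def q (r : ℝ) : ℝ :=
  Real.ofDigits (fun j => Real.digits r 2 (Nat.nth (fun i => i ∉ range nk) j))

variable (hnk : StrictMono nk) (heven : ∀ k, Even (nk k))

include heven in
theorem compl_infinite : {i : ℕ | i ∉ range nk}.Infinite := by
  have : range (fun n : ℕ => 2 * n + 1) ⊆ {i : ℕ | i ∉ range nk} := by
    rintro _ ⟨n, rfl⟩ ⟨k, hk⟩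
    have h1 := heven k
    rw [hk] at h1
    exact (Nat.not_even_iff_odd.mpr ⟨n, rfl⟩) h1
  refine Set.Infinite.mono this ?_
  apply infinite_range_of_injective
  intro a b h
  have : 2 * a + 1 = 2 * b + 1 := h
  omega

include hnk heven in
theorem exists_interleave (x : ℕ → Fin 2) (y : ℝ) (hy : y ∈ Ico (0 : ℝ) 1) :
    ∃ r ∈ Ico (0 : ℝ) 1, (∀ k, Real.digits r 2 (nk k) = x k) ∧ q nk r = y := by
  classical
  let P : ℕ → Prop := fun i => i ∉ range nk
  have hinf : {i : ℕ | P i}.Infinite := compl_infinite nk heven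
  let z : ℕ → Fin 2 := fun i =>
    if h : ∃ k, nk k = i then x h.choose else Real.digits y 2 (Nat.count P i)
  have hz1 : ∀ k, z (nk k) = x k := by
    intro k
    have h : ∃ k', nk k' = nk k := ⟨k, rfl⟩
    have h2 : h.choose = k := hnk.injective h.choose_spec
    simp only [z]
    rw [dif_pos h, h2]
  have hz2 : ∀ j, z (Nat.nth P j) = Real.digits y 2 j := by
    intro j
    have h1 : P (Nat.nth P j) := Nat.nth_mem_of_infinite hinf j
    have h2 : ¬ ∃ k, nk k = Nat.nth P j := fun h => h1 h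
    simp only [z]
    rw [dif_neg h2, Nat.count_nth_of_infinite hinf]
  have hz0 : ∀ n, ∃ i ≥ n, z i = 0 := by
    intro n
    obtain ⟨j, hj, hj0⟩ := exists_zero_digit y hy n
    refine ⟨Nat.nth P j, ?_, ?_⟩
    · exact le_trans hj (Nat.nth_strictMono hinf).le_apply
    · rw [hz2, hj0]
  obtain ⟨hr, hd⟩ := digits_ofDigits z hz0
  refine ⟨Real.ofDigits z, hr, ?_, ?_⟩
  · intro k
    rw [hd, hz1]
  · unfold q
    rw [hd]
    have : (fun j => z (Nat.nth (fun i => i ∉ range nk) j)) = Real.digits y 2 := funext hz2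
    rw [this, Real.ofDigits_digits (by norm_num) hy]

open Classical in
theorem q_near {r r' : ℝ} (n : ℕ) (h : ⌊r * 2 ^ n⌋₊ = ⌊r' * 2 ^ n⌋₊) :
    |q nk r - q nk r'| ≤ (((2 : ℕ) : ℝ) ^ (Nat.count (fun i => i ∉ range nk) n))⁻¹ := by
  apply Real.abs_ofDigits_sub_ofDigits_le
  intro j hj
  exact digits_eq_of_floor n h _ (Nat.nth_lt_of_lt_count hj)

open Classical in
include hnk in
theorem count_bound (n K : ℕ) (h : n ≤ nk K) :
    n ≤ Nat.count (fun i => i ∉ range nk) n + K := by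
  rw [Nat.count_eq_card_filter_range]
  have h1 : ((Finset.range n).filter (fun i => ¬ (i ∉ range nk))).card ≤ K := by
    have : (Finset.range n).filter (fun i => ¬ (i ∉ range nk)) ⊆ (Finset.range K).image nk := by
      intro i hi
      simp only [Finset.mem_filter, Finset.mem_range, not_not] at hi
      obtain ⟨hi, k, rfl⟩ := hi
      apply Finset.mem_image_of_mem
      rw [Finset.mem_range]
      exact hnk.lt_iff_lt.mp (lt_of_lt_of_le hi h)
    refine (Finset.card_le_card this).trans (Finset.card_image_le.trans ?_)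
    simp
  have h2 := Finset.card_filter_add_card_filter_not (s := Finset.range n) (fun i => i ∉ range nk)
  rw [Finset.card_range] at h2
  omega

include hnk in
theorem volume_image_le (f : ℝ≥0 → ℝ≥0)
    (hf : ∀ k, ∀ t : ℝ≥0, 0 < t → t < (1 / 2) ^ (nk k) → 2 ^ (k + 3) * t ≤ f t)
    (s : Set ℝ) (hs : s ⊆ Ico (0 : ℝ) 1) (hd : Metric.ediam s < (((1 / 2) ^ (nk 0) : ℝ≥0) : ℝ≥0∞)) :
    volume (q nk '' s) ≤ f (Metric.ediam s).toNNReal := by
  classical
  have hfin : Metric.ediam s ≠ ∞ := ne_top_of_lt hd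
  obtain ⟨t, ht⟩ : ∃ t : ℝ≥0, Metric.ediam s = t := ⟨_, (ENNReal.coe_toNNReal hfin).symm⟩
  rw [ht, ENNReal.toNNReal_coe]
  rw [ht, ENNReal.coe_lt_coe] at hd
  rcases s.eq_empty_or_nonempty with h0 | h0
  · rw [h0]; simp
  rcases eq_or_ne t 0 with ht0 | ht0
  · have : s.Subsingleton := by
      rw [ht0] at ht
      exact Metric.ediam_eq_zero_iff.mp ht
    have := (this.image (q nk)).measure_zero volume
    rw [this]
    exact bot_le
  have htpos : 0 < t := pos_iff_ne_zero.mpr ht0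
  have ht1 : (t : ℝ) ≤ 1 := by
    have h1 : ((1 / 2 : ℝ≥0)) ^ (nk 0) ≤ 1 := pow_le_one₀ (by positivity) (by
      rw [div_le_one₀ (by norm_num)]; norm_num)
    exact_mod_cast (hd.le.trans h1)
  obtain ⟨n, hn1, hn2⟩ := exists_nat_pow_near_of_lt_one (x := (t : ℝ)) (y := 1 / 2)
    (by exact_mod_cast htpos) ht1 (by norm_num) (by norm_num)
  -- the two cells
  have hdist : ∀ r ∈ s, ∀ r' ∈ s, |r - r'| ≤ t := by
    intro r hr r' hr'
    have h1 := Metric.edist_le_ediam_of_mem hr hr'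
    rw [ht, edist_dist, Real.dist_eq] at h1
    rw [ENNReal.ofReal_le_iff_le_toReal ENNReal.coe_ne_top] at h1
    simpa using h1
  have hfl : ∀ r ∈ s, ∀ r' ∈ s, ⌊r * 2 ^ n⌋₊ ≤ ⌊r' * 2 ^ n⌋₊ + 1 := by
    intro r hr r' hr'
    have h1 := hdist r hr r' hr'
    have h2 : r * 2 ^ n ≤ r' * 2 ^ n + 1 := by
      have h3 : r - r' ≤ (1 / 2) ^ n := (le_abs_self _).trans (h1.trans hn2)
      have h4 : (0 : ℝ) < 2 ^ n := by positivity
      have h5 : (r - r') * 2 ^ n ≤ (1 / 2) ^ n * 2 ^ n := mul_le_mul_of_nonneg_right h3 h4.le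
      rw [← mul_pow] at h5
      norm_num at h5
      linarith
    have h6 : 0 ≤ r' * 2 ^ n := mul_nonneg (hs hr').1 (by positivity)
    calc ⌊r * 2 ^ n⌋₊ ≤ ⌊r' * 2 ^ n + 1⌋₊ := Nat.floor_mono h2
      _ = ⌊r' * 2 ^ n⌋₊ + 1 := Nat.floor_add_one h6
  obtain ⟨c, ⟨r0, hr0, hc0⟩, hcmin⟩ : ∃ c, (∃ r ∈ s, ⌊r * 2 ^ n⌋₊ = c) ∧
      ∀ r ∈ s, c ≤ ⌊r * 2 ^ n⌋₊ := by
    have hex : ∃ c, ∃ r ∈ s, ⌊r * 2 ^ n⌋₊ = c := by
      obtain ⟨r, hr⟩ := h0
      exact ⟨_, r, hr, rfl⟩
    refine ⟨Nat.find hex, Nat.find_spec hex, fun r hr => Nat.find_min' hex ⟨r, hr, rfl⟩⟩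
  have hcell : ∀ c' : ℕ, volume (q nk '' (s ∩ {r | ⌊r * 2 ^ n⌋₊ = c'})) ≤
      ENNReal.ofReal ((((2 : ℕ) : ℝ) ^ (Nat.count (fun i => i ∉ range nk) n))⁻¹) := by
    intro c'
    refine (Real.volume_le_diam _).trans ?_
    apply Metric.ediam_le
    rintro _ ⟨r, ⟨hr, hrc⟩, rfl⟩ _ ⟨r', ⟨hr', hrc'⟩, rfl⟩
    rw [edist_dist, Real.dist_eq]
    apply ENNReal.ofReal_le_ofReal
    apply q_near
    rw [show ⌊r * 2 ^ n⌋₊ = c' from hrc, show ⌊r' * 2 ^ n⌋₊ = c' from hrc']
  have hcover : q nk '' s ⊆ q nk '' (s ∩ {r | ⌊r * 2 ^ n⌋₊ = c}) ∪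
      q nk '' (s ∩ {r | ⌊r * 2 ^ n⌋₊ = c + 1}) := by
    rintro _ ⟨r, hr, rfl⟩
    have h1 := hcmin r hr
    have h2 := hfl r hr r0 hr0
    rw [hc0] at h2
    rcases h1.eq_or_lt with h3 | h3
    · exact Or.inl ⟨r, ⟨hr, h3.symm⟩, rfl⟩
    · exact Or.inr ⟨r, ⟨hr, by simp only [mem_ofPred_eq]; omega⟩, rfl⟩
  refine (measure_mono hcover).trans ((measure_union_le _ _).trans
    ((add_le_add (hcell c) (hcell (c + 1))).trans ?_))
  -- the count
  have hex : ∃ K, n ≤ nk K := ⟨n, hnk.le_apply⟩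
  set K := Nat.find hex with hK
  have hKn : n ≤ nk K := Nat.find_spec hex
  have hcnt := count_bound nk hnk n K hKn
  set m := Nat.count (fun i => i ∉ range nk) n with hm
  have hft : 2 ^ (K + 2) * t ≤ f t := by
    rcases Nat.eq_zero_or_pos K with hK0 | hK0
    · have h1 := hf 0 t htpos hd
      rw [hK0]
      refine le_trans ?_ h1
      gcongr
      · norm_num
      · norm_num
    · have h1 : ¬ n ≤ nk (K - 1) := Nat.find_min hex (by omega)
      push Not at h1
      have h2 : t < (1 / 2) ^ (nk (K - 1)) := by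
        rw [← NNReal.coe_lt_coe]
        refine lt_of_le_of_lt hn2 ?_
        push_cast
        exact pow_lt_pow_right_of_lt_one₀ (by norm_num) (by norm_num) h1
      have h3 := hf (K - 1) t htpos h2
      have h4 : K - 1 + 3 = K + 2 := by omega
      rwa [h4] at h3
  rw [← ENNReal.ofReal_add (by positivity) (by positivity)]
  rw [← ENNReal.ofReal_coe_nnreal]
  apply ENNReal.ofReal_le_ofReal
  have hft' : (2 : ℝ) ^ (K + 2) * t ≤ f t := by exact_mod_cast hft
  refine le_trans ?_ hft'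
  have h5 : ((((2 : ℕ) : ℝ) ^ m)⁻¹) ≤ 2 ^ K * (1 / 2) ^ n := by
    rw [one_div, inv_pow, ← div_eq_mul_inv, inv_eq_one_div, div_le_div_iff₀ (by positivity)
      (by positivity), one_mul]
    push_cast
    rw [← pow_add]
    exact pow_le_pow_right₀ (by norm_num) (by omega)
  have h6 : (1 / 2 : ℝ) ^ n ≤ 2 * t := by
    rw [pow_succ] at hn1
    linarith
  have h7 : (0 : ℝ) < 2 ^ K := by positivity
  calc (((2 : ℕ) : ℝ) ^ m)⁻¹ + (((2 : ℕ) : ℝ) ^ m)⁻¹ ≤ 2 * (2 ^ K * (1 / 2) ^ n) := by linarith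
    _ ≤ 2 * (2 ^ K * (2 * t)) := by
        have := mul_le_mul_of_nonneg_left h6 h7.le
        linarith
    _ = 2 ^ (K + 2) * t := by ring

end interleave

/-! ### Coding null sets -/

section codes

/-- The null set coded by `c`. -/
def Nc (U : ℕ → Set ℝ) (c : ℕ → Fin 2) : Set ℝ := {y | ∀ n, ∃ j, c (Nat.pair n j) = 1 ∧ y ∈ U j}

theorem exists_basis : ∃ U : ℕ → Set ℝ, TopologicalSpace.IsTopologicalBasis (range U) := by
  obtain ⟨b, hbc, -, hb⟩ := TopologicalSpace.exists_countable_basis ℝ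
  have hne : b.Nonempty := by
    by_contra h
    rw [not_nonempty_iff_eq_empty] at h
    have := hb.sUnion_eq
    rw [h, sUnion_empty] at this
    have h2 : (0 : ℝ) ∈ (∅ : Set ℝ) := by rw [this]; trivial
    exact h2
  obtain ⟨U, hU⟩ := hbc.exists_eq_range hne
  exact ⟨U, hU ▸ hb⟩

theorem exists_code (U : ℕ → Set ℝ) (hU : TopologicalSpace.IsTopologicalBasis (range U))
    (Z : Set ℝ) (hZ : volume Z = 0) : ∃ c : ℕ → Fin 2, Z ⊆ Nc U c ∧ volume (Nc U c) = 0 := by
  classical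
  have h1 : ∀ n : ℕ, ∃ O, O ⊇ Z ∧ IsOpen O ∧ volume O < ((n : ℝ≥0∞) + 1)⁻¹ := by
    intro n
    apply Set.exists_isOpen_lt_of_lt
    rw [hZ]
    apply ENNReal.inv_pos.mpr
    exact ENNReal.add_ne_top.mpr ⟨ENNReal.natCast_ne_top n, ENNReal.one_ne_top⟩
  choose O hOZ hO hOm using h1
  refine ⟨fun k => if U k.unpair.2 ⊆ O k.unpair.1 then 1 else 0, ?_, ?_⟩
  · intro y hy n
    obtain ⟨_, ⟨j, rfl⟩, hyj, hj⟩ := hU.exists_subset_of_mem_open (hOZ n hy) (hO n)
    refine ⟨j, ?_, hyj⟩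
    simp only [Nat.unpair_pair]
    rw [if_pos hj]
  · apply le_antisymm _ bot_le
    have hsub : ∀ n, Nc U (fun k => if U k.unpair.2 ⊆ O k.unpair.1 then 1 else 0) ⊆ O n := by
      intro n y hy
      obtain ⟨j, hj, hyj⟩ := hy n
      simp only [Nat.unpair_pair] at hj
      by_cases h : U j ⊆ O n
      · exact h hyj
      · rw [if_neg h] at hj
        exact absurd hj (by decide)
    have h2 : ∀ n : ℕ, volume (Nc U (fun k => if U k.unpair.2 ⊆ O k.unpair.1 then 1 else 0)) ≤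
        ((n : ℝ≥0∞) + 1)⁻¹ := fun n => (measure_mono (hsub n)).trans (hOm n).le
    have h3 : Tendsto (fun n : ℕ => ((n : ℝ≥0∞) + 1)⁻¹) atTop (𝓝 0) := by
      have h4 := (ENNReal.tendsto_inv_nat_nhds_zero).comp (tendsto_add_atTop_nat 1)
      refine h4.congr ?_
      intro n
      simp
    exact ge_of_tendsto' h3 h2

theorem measurable_Nc (U : ℕ → Set ℝ) (hU : TopologicalSpace.IsTopologicalBasis (range U)) :
    MeasurableSet {p : (ℕ → Fin 2) × ℝ | p.2 ∈ Nc U p.1} := by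
  have : {p : (ℕ → Fin 2) × ℝ | p.2 ∈ Nc U p.1} =
      ⋂ n, ⋃ j, ({p | p.1 (Nat.pair n j) = 1} ∩ {p | p.2 ∈ U j}) := by
    ext p
    simp only [Nc, mem_ofPred_eq, mem_iInter, mem_iUnion, mem_inter_iff]
  rw [this]
  apply MeasurableSet.iInter
  intro n
  apply MeasurableSet.iUnion
  intro j
  apply MeasurableSet.inter
  · have h1 : Measurable (fun p : (ℕ → Fin 2) × ℝ => p.1 (Nat.pair n j)) :=
      (measurable_pi_apply _).comp measurable_fst
    exact h1 (measurableSet_singleton (1 : Fin 2))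
  · exact measurable_snd (hU.isOpen ⟨j, rfl⟩).measurableSet

end codes

/-! ### The construction -/

section main

open Cardinal

/-- The least cardinality of a non-null set. -/
noncomputable def kap : Cardinal.{0} := sInf {c | ∃ Y : Set ℝ, volume Y ≠ 0 ∧ #Y = c}

theorem small_null (C : Set ℝ) (hC : #C < kap) : volume C = 0 := by
  by_contra h
  exact absurd hC (not_lt.mpr (csInf_le' ⟨C, h, rfl⟩))

theorem exists_Y : ∃ Y : Set ℝ, Y ⊆ Ico (0 : ℝ) 1 ∧ volume Y ≠ 0 ∧ #Y ≤ kap := by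
  have hne : {c : Cardinal.{0} | ∃ Y : Set ℝ, volume Y ≠ 0 ∧ #Y = c}.Nonempty :=
    ⟨_, univ, by simp, rfl⟩
  obtain ⟨Y0, hY0, hc⟩ := csInf_mem hne
  have hcov : Y0 ⊆ ⋃ n : ℤ, (Y0 ∩ Ico (n : ℝ) (n + 1)) := by
    intro y hy
    exact mem_iUnion.mpr ⟨⌊y⌋, hy, Int.floor_le y, Int.lt_floor_add_one y⟩
  have hex : ∃ n : ℤ, volume (Y0 ∩ Ico (n : ℝ) (n + 1)) ≠ 0 := by
    by_contra hcon
    push Not at hcon
    exact hY0 (measure_mono_null hcov (measure_iUnion_null hcon))
  obtain ⟨n, hn⟩ := hex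
  refine ⟨(fun x => x + (-(n : ℝ))) '' (Y0 ∩ Ico (n : ℝ) (n + 1)), ?_, ?_, ?_⟩
  · rintro _ ⟨y, ⟨-, hy1, hy2⟩, rfl⟩
    constructor
    · simp only; linarith
    · simp only; linarith
  · rw [image_add_right, neg_neg, measure_preimage_add_right]
    exact hn
  · refine mk_image_le.trans ?_
    refine (mk_le_mk_of_subset inter_subset_left).trans ?_
    exact hc.le

variable (f : ℝ≥0 → ℝ≥0)

theorem singleton_null (hf0 : f 0 = 0) (x : ℝ) :
    (Measure.mkMetric (fun r : ℝ≥0∞ => ((f r.toNNReal : ℝ≥0) : ℝ≥0∞)) : Measure ℝ) {x} = 0 := by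
  apply le_antisymm _ bot_le
  have := Measure.mkMetric_le_liminf_tsum (X := ℝ) {x} (l := (atTop : Filter ℕ))
    (fun _ => 0) tendsto_const_nhds (ι := fun _ => Unit) (fun _ _ => {x})
    (Eventually.of_forall fun n i => by simp) (Eventually.of_forall fun n => by simp)
    (fun r : ℝ≥0∞ => ((f r.toNNReal : ℝ≥0) : ℝ≥0∞))
  refine this.trans ?_
  simp [hf0]

theorem exists_bad (hmono : Monotone f) (hf0 : f 0 = 0) (nk : ℕ → ℕ) (hnk : StrictMono nk)
    (heven : ∀ k, Even (nk k))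
    (hf : ∀ k, ∀ t : ℝ≥0, 0 < t → t < (1 / 2) ^ (nk k) → 2 ^ (k + 3) * t ≤ f t) :
    ∃ A : Set ℝ,
      0 < (Measure.mkMetric (fun r : ℝ≥0∞ => ((f r.toNNReal : ℝ≥0) : ℝ≥0∞)) : Measure ℝ) A ∧
      ∀ A0 ⊆ A,
        (Measure.mkMetric (fun r : ℝ≥0∞ => ((f r.toNNReal : ℝ≥0) : ℝ≥0∞)) : Measure ℝ) A0 < ∞ →
        (Measure.mkMetric (fun r : ℝ≥0∞ => ((f r.toNNReal : ℝ≥0) : ℝ≥0∞)) : Measure ℝ) A0 = 0 := by
  classical
  obtain ⟨U, hU⟩ := exists_basis
  obtain ⟨Y, hY01, hYne, hYk⟩ := exists_Y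
  -- a well-ordering of `Y` with small initial segments
  obtain ⟨e⟩ : Nonempty ((#Y).ord.ToType ≃ Y) := by
    rw [← Cardinal.eq]
    simp
  set ι := (#Y).ord.ToType with hι
  have hIio : ∀ i : ι, #(Iio i) < #Y := fun i => Cardinal.mk_Iio_toType_ord_lt i
  let y : ι → ℝ := fun i => (e i : ℝ)
  have hy01 : ∀ i, y i ∈ Ico (0 : ℝ) 1 := fun i => hY01 (e i).2
  have hcode : ∀ i : ι, ∃ c : ℕ → Fin 2, y '' (Iio i) ⊆ Nc U c ∧ volume (Nc U c) = 0 := by
    intro i
    apply exists_code U hU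
    apply small_null
    exact mk_image_le.trans_lt ((hIio i).trans_le hYk)
  choose c hc1 hc2 using hcode
  have hr : ∀ i : ι, ∃ r ∈ Ico (0 : ℝ) 1, (∀ k, Real.digits r 2 (nk k) = c i k) ∧ q nk r = y i :=
    fun i => exists_interleave nk hnk heven (c i) (y i) (hy01 i)
  choose r hr01 hrc hrq using hr
  set m : ℝ≥0∞ → ℝ≥0∞ := fun r : ℝ≥0∞ => ((f r.toNNReal : ℝ≥0) : ℝ≥0∞) with hm
  refine ⟨range r, ?_, ?_⟩
  · -- positivity
    let ν : OuterMeasure ℝ := OuterMeasure.restrict (Ico (0 : ℝ) 1)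
      (OuterMeasure.comap (q nk) (volume : Measure ℝ).toOuterMeasure)
    have hν : ∀ s, ν s = volume (q nk '' (s ∩ Ico (0 : ℝ) 1)) := by
      intro s
      simp only [ν]
      rw [OuterMeasure.restrict_apply, OuterMeasure.comap_apply, Measure.toOuterMeasure_apply]
    have hle : ν ≤ (OuterMeasure.mkMetric m : OuterMeasure ℝ) := by
      apply OuterMeasure.le_mkMetric m ν (((1 / 2) ^ (nk 0 + 1) : ℝ≥0) : ℝ≥0∞)
      · rw [ENNReal.coe_pos]; positivity
      · intro s hs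
        rw [hν]
        have h1 : Metric.ediam (s ∩ Ico (0 : ℝ) 1) ≤ Metric.ediam s :=
          Metric.ediam_mono inter_subset_left
        have h2 : ((((1 / 2) ^ (nk 0 + 1) : ℝ≥0)) : ℝ≥0∞) < (((1 / 2) ^ (nk 0) : ℝ≥0) : ℝ≥0∞) := by
          rw [ENNReal.coe_lt_coe]
          exact pow_lt_pow_right_of_lt_one₀ (by positivity)
            (by rw [div_lt_one₀ (by norm_num)]; norm_num) (Nat.lt_succ_self _)
        refine (volume_image_le nk hnk f hf _ inter_subset_right
          (lt_of_le_of_lt (h1.trans hs) h2)).trans ?_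
        rw [hm]
        simp only
        rw [ENNReal.coe_le_coe]
        apply hmono
        exact ENNReal.toNNReal_mono (ne_top_of_le_ne_top ENNReal.coe_ne_top hs) h1
    have h3 := hle (range r)
    rw [hν, OuterMeasure.coe_mkMetric] at h3
    refine lt_of_lt_of_le ?_ h3
    have h4 : q nk '' (range r ∩ Ico (0 : ℝ) 1) = Y := by
      ext z
      constructor
      · rintro ⟨_, ⟨⟨i, rfl⟩, -⟩, rfl⟩
        rw [hrq]
        exact (e i).2
      · intro hz
        refine ⟨r (e.symm ⟨z, hz⟩), ⟨⟨_, rfl⟩, hr01 _⟩, ?_⟩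
        rw [hrq]
        simp [y]
    rw [h4]
    exact pos_iff_ne_zero.mpr hYne
  · -- no subset of positive finite measure
    intro A0 hA0 hfin
    set M : Measure ℝ := Measure.mkMetric m with hM
    set B := toMeasurable M A0 with hB
    have hBm : MeasurableSet B := measurableSet_toMeasurable _ _
    have hBA : A0 ⊆ B := subset_toMeasurable _ _
    have hBfin : M B < ∞ := by rw [hB, measure_toMeasurable]; exact hfin
    let μ : Measure ℝ := M.restrict B
    have hμfin : IsFiniteMeasure μ := ⟨by simpa [μ] using hBfin⟩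
    have hat : ∀ x, μ {x} = 0 := by
      intro x
      refine le_antisymm ((Measure.restrict_apply_le B {x}).trans ?_) bot_le
      rw [hM, singleton_null f hf0]
    let X : ℝ → (ℕ → Fin 2) := fun r k => Real.digits r 2 (nk k)
    have hX : Measurable X := by
      apply measurable_pi_lambda
      intro k
      exact (measurable_pi_apply (nk k)).comp measurable_digits
    let ν : Measure (ℕ → Fin 2) := μ.map X
    have hνfin : IsFiniteMeasure ν := Measure.isFiniteMeasure_map μ X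
    -- the relation restricted to codes of null sets
    let R : Set ((ℕ → Fin 2) × ℝ) := {p | p.2 ∈ Nc U p.1} ∩ {p | volume (Nc U p.1) = 0}
    have hRm : MeasurableSet R := by
      apply (measurable_Nc U hU).inter
      have h1 : Measurable (fun c : ℕ → Fin 2 =>
          volume (Prod.mk c ⁻¹' {p : (ℕ → Fin 2) × ℝ | p.2 ∈ Nc U p.1})) :=
        measurable_measure_prodMk_left (measurable_Nc U hU)
      have h2 : {p : (ℕ → Fin 2) × ℝ | volume (Nc U p.1) = 0} =
          Prod.fst ⁻¹' ((fun c : ℕ → Fin 2 =>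
          volume (Prod.mk c ⁻¹' {p : (ℕ → Fin 2) × ℝ | p.2 ∈ Nc U p.1})) ⁻¹' {0}) := by
        ext p
        rfl
      rw [h2]
      exact measurable_fst (h1 (measurableSet_singleton 0))
    have hae : ∀ᵐ c ∂ν, ∀ᵐ z ∂(volume : Measure ℝ), ¬ ((c, z) ∈ R) := by
      apply Eventually.of_forall
      intro c
      rw [ae_iff]
      simp only [not_not]
      by_cases h : volume (Nc U c) = 0
      · refine measure_mono_null ?_ h
        rintro z hz
        exact hz.1
      · have : {z | (c, z) ∈ R} = ∅ := by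
          ext z
          simp only [mem_ofPred_eq, mem_empty_iff_false, iff_false]
          rintro ⟨-, h2⟩
          exact h h2
        rw [this]
        exact measure_empty
    have hae2 : ∀ᵐ z ∂(volume : Measure ℝ), ∀ᵐ c ∂ν, ¬ ((c, z) ∈ R) := by
      have hmR : MeasurableSet {p : (ℕ → Fin 2) × ℝ | ¬ ((p.1, p.2) ∈ R)} := hRm.compl
      exact (Measure.ae_ae_comm hmR).mp hae
    -- an element of `Y` which is generic
    have hexi : ∃ i0 : ι, ∀ᵐ c ∂ν, ¬ ((c, y i0) ∈ R) := by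
      by_contra hcon
      push Not at hcon
      apply hYne
      rw [ae_iff] at hae2
      refine measure_mono_null ?_ hae2
      intro z hz
      have h5 := hcon (e.symm ⟨z, hz⟩)
      have h6 : y (e.symm ⟨z, hz⟩) = z := by simp [y]
      rw [h6] at h5
      simp only [mem_ofPred_eq]
      intro h7
      exact h5 h7
    obtain ⟨i0, hi0⟩ := hexi
    -- the three parts
    have hA1 : μ (r '' (Iio i0)) = 0 := by
      apply null_of_image μ hat
      apply small_null
      exact mk_image_le.trans_lt (mk_image_le.trans_lt ((hIio i0).trans_le hYk))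
    have hA3 : μ (r '' (Ioi i0)) = 0 := by
      rw [ae_iff] at hi0
      simp only [not_not] at hi0
      have hms : MeasurableSet {c : ℕ → Fin 2 | (c, y i0) ∈ R} :=
        (measurable_id.prodMk measurable_const) hRm
      have h8 : μ (X ⁻¹' {c : ℕ → Fin 2 | (c, y i0) ∈ R}) = 0 := by
        rw [← Measure.map_apply hX hms]
        exact hi0
      refine measure_mono_null ?_ h8
      rintro _ ⟨i, hi, rfl⟩
      have h9 : X (r i) = c i := funext (hrc i)
      show (X (r i), y i0) ∈ R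
      rw [h9]
      exact ⟨hc1 i ⟨i0, hi, rfl⟩, hc2 i⟩
    have hcov : range r ⊆ r '' (Iio i0) ∪ ({r i0} ∪ r '' (Ioi i0)) := by
      rintro _ ⟨i, rfl⟩
      rcases lt_trichotomy i i0 with h | h | h
      · exact Or.inl ⟨i, h, rfl⟩
      · exact Or.inr (Or.inl (by rw [h]; rfl))
      · exact Or.inr (Or.inr ⟨i, h, rfl⟩)
    have hμA0 : μ A0 = 0 :=
      measure_mono_null (hA0.trans hcov) (measure_union_null hA1 (measure_union_null (hat _) hA3))
    have h10 : M (A0 ∩ B) ≤ μ A0 := Measure.le_restrict_apply B A0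
    rw [inter_eq_left.mpr hBA, hμA0] at h10
    exact le_antisymm h10 bot_le

end main

/-! ### The characterization -/

section final

variable (f : ℝ≥0 → ℝ≥0)

theorem exists_nk (ht : Tendsto (fun t : ℝ≥0 => f t / t) (𝓝[>] 0) atTop) :
    ∃ nk : ℕ → ℕ, StrictMono nk ∧ (∀ k, Even (nk k)) ∧
      ∀ k, ∀ t : ℝ≥0, 0 < t → t < (1 / 2) ^ (nk k) → 2 ^ (k + 3) * t ≤ f t := by
  have h1 : ∀ k : ℕ, ∃ N : ℕ, ∀ t : ℝ≥0, 0 < t → t < (1 / 2) ^ N → 2 ^ (k + 3) * t ≤ f t := by
    intro k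
    have h2 := tendsto_atTop.mp ht (2 ^ (k + 3))
    obtain ⟨u, hu, hsub⟩ := (mem_nhdsGT_iff_exists_Ioo_subset).mp h2
    have hu' : (0 : ℝ) < u := by exact_mod_cast hu
    obtain ⟨N, hN⟩ := exists_pow_lt_of_lt_one hu' (by norm_num : (1 / 2 : ℝ) < 1)
    refine ⟨N, fun t ht0 htN => ?_⟩
    have h3 : t < u := by
      refine htN.trans ?_
      rw [← NNReal.coe_lt_coe]
      push_cast
      exact hN
    have h4 : (2 : ℝ≥0) ^ (k + 3) ≤ f t / t := hsub ⟨ht0, h3⟩
    rwa [le_div_iff₀ ht0] at h4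
  choose N hN using h1
  refine ⟨fun k => 2 * ∑ i ∈ Finset.range (k + 1), (N i + 1), ?_, ?_, ?_⟩
  · apply strictMono_nat_of_lt_succ
    intro k
    rw [Finset.sum_range_succ _ (k + 1)]
    omega
  · intro k
    exact even_two_mul _
  · intro k t ht0 htk
    apply hN k t ht0
    refine htk.trans_le ?_
    apply pow_le_pow_of_le_one (by positivity)
    · rw [div_le_one₀ (by norm_num)]; norm_num
    · show N k ≤ 2 * ∑ i ∈ Finset.range (k + 1), (N i + 1)
      rw [Finset.sum_range_succ]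
      omega

theorem finite_on_Icc (C : ℝ≥0) (hC : ∃ᶠ t in 𝓝[>] (0 : ℝ≥0), f t / t < C)
    (hmono : Monotone f) (n : ℕ) :
    (Measure.mkMetric (fun r : ℝ≥0∞ => ((f r.toNNReal : ℝ≥0) : ℝ≥0∞)) : Measure ℝ)
      (Icc (-(n : ℝ)) n) < ∞ := by
  let l : Filter ℝ≥0 := 𝓝[>] (0 : ℝ≥0) ⊓ 𝓟 {t | f t / t < C}
  have hl : l.NeBot := frequently_iff_neBot.mp hC
  have hl0 : ∀ᶠ t in l, 0 < t :=
    (self_mem_nhdsWithin : {t : ℝ≥0 | 0 < t} ∈ 𝓝[>] (0 : ℝ≥0)) |> fun h => mem_inf_of_left h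
  have hl1 : ∀ᶠ t in l, t ≤ 1 := by
    apply mem_inf_of_left
    apply mem_nhdsWithin_of_mem_nhds
    exact Iic_mem_nhds (by norm_num)
  have hlC : ∀ᶠ t in l, f t / t < C := mem_inf_of_right (mem_principal_self _)
  have htend : Tendsto (fun t : ℝ≥0 => (t : ℝ≥0∞)) l (𝓝 0) := by
    have h1 : Tendsto (fun t : ℝ≥0 => (t : ℝ≥0∞)) (𝓝 0) (𝓝 ((0 : ℝ≥0) : ℝ≥0∞)) :=
      ENNReal.continuous_coe.tendsto 0
    rw [ENNReal.coe_zero] at h1
    exact h1.mono_left (inf_le_left.trans nhdsWithin_le_nhds)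
  let T : (t : ℝ≥0) → Fin (⌈2 * (n : ℝ) / t⌉₊ + 1) → Set ℝ := fun t i =>
    Icc (-(n : ℝ) + (i : ℕ) * t) (-(n : ℝ) + (i : ℕ) * t + t)
  have hdiam : ∀ t i, Metric.ediam (T t i) ≤ (t : ℝ≥0∞) := by
    intro t i
    simp only [T]
    rw [Real.ediam_Icc]
    rw [add_sub_cancel_left, ENNReal.ofReal_coe_nnreal]
  have h := Measure.mkMetric_le_liminf_sum (Icc (-(n : ℝ)) n) (l := l) (fun t => (t : ℝ≥0∞)) htend
    T (Eventually.of_forall hdiam) (by
      filter_upwards [hl0] with t ht0 x hx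
      have ht0' : (0 : ℝ) < t := by exact_mod_cast ht0
      have hx1 := hx.1
      have hx2 := hx.2
      have hxn : 0 ≤ (x + n) / t := div_nonneg (by linarith) ht0'.le
      have h1 : ⌊(x + n) / t⌋₊ < ⌈2 * (n : ℝ) / t⌉₊ + 1 := by
        rw [Nat.lt_succ_iff]
        have : (x + n) / t ≤ 2 * (n : ℝ) / t := by
          apply div_le_div_of_nonneg_right _ ht0'.le
          linarith
        exact (Nat.floor_mono this).trans (Nat.floor_le_ceil _)
      refine mem_iUnion.mpr ⟨⟨⌊(x + n) / t⌋₊, h1⟩, ?_⟩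
      simp only [T]
      have h2 := Nat.floor_le hxn
      have h3 := Nat.lt_floor_add_one ((x + n) / t)
      rw [le_div_iff₀ ht0'] at h2
      rw [div_lt_iff₀ ht0'] at h3
      constructor
      · linarith
      · nlinarith)
    (fun r : ℝ≥0∞ => ((f r.toNNReal : ℝ≥0) : ℝ≥0∞))
  refine lt_of_le_of_lt h ?_
  have hbound : ∀ᶠ t in l, ∑ i, ((f (Metric.ediam (T t i)).toNNReal : ℝ≥0) : ℝ≥0∞) ≤
      ((C * (2 * n + 2) : ℝ≥0) : ℝ≥0∞) := by
    filter_upwards [hl0, hl1, hlC] with t ht0 ht1 htC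
    have ht0' : (0 : ℝ) < t := by exact_mod_cast ht0
    have h1 : ∀ i, ((f (Metric.ediam (T t i)).toNNReal : ℝ≥0) : ℝ≥0∞) ≤ ((f t : ℝ≥0) : ℝ≥0∞) := by
      intro i
      rw [ENNReal.coe_le_coe]
      apply hmono
      have := ENNReal.toNNReal_mono ENNReal.coe_ne_top (hdiam t i)
      simpa using this
    refine (Finset.sum_le_sum (fun i _ => h1 i)).trans ?_
    rw [Finset.sum_const, Finset.card_univ, Fintype.card_fin, nsmul_eq_mul]
    have h2 : f t ≤ C * t := by
      have := htC.le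
      rwa [div_le_iff₀ ht0] at this
    have h3 : ((⌈2 * (n : ℝ) / t⌉₊ + 1 : ℕ) : ℝ≥0) * f t ≤ C * (2 * n + 2) := by
      rw [← NNReal.coe_le_coe]
      push_cast
      have h4 : (⌈2 * (n : ℝ) / t⌉₊ : ℝ) < 2 * (n : ℝ) / t + 1 :=
        Nat.ceil_lt_add_one (by positivity)
      have h5 : (f t : ℝ) ≤ C * t := by exact_mod_cast h2
      have h6 : (t : ℝ) ≤ 1 := by exact_mod_cast ht1
      have h7 : (0 : ℝ) ≤ C := C.2
      have h8 : (0 : ℝ) ≤ f t := (f t).2
      calc ((⌈2 * (n : ℝ) / t⌉₊ : ℝ) + 1) * (f t : ℝ)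
          ≤ (2 * (n : ℝ) / t + 2) * (C * t) := by
            apply mul_le_mul _ h5 h8 (by positivity)
            linarith
        _ = C * (2 * n + 2 * t) := by field_simp
        _ ≤ C * (2 * n + 2) := by
            apply mul_le_mul_of_nonneg_left _ h7
            linarith
    calc ((⌈2 * (n : ℝ) / t⌉₊ + 1 : ℕ) : ℝ≥0∞) * ((f t : ℝ≥0) : ℝ≥0∞)
        = ((((⌈2 * (n : ℝ) / t⌉₊ + 1 : ℕ) : ℝ≥0) * f t : ℝ≥0) : ℝ≥0∞) := by
          push_cast
          rfl
      _ ≤ _ := ENNReal.coe_le_coe.mpr h3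
  refine lt_of_le_of_lt (liminf_le_liminf hbound) ?_
  rw [liminf_const]
  exact ENNReal.coe_lt_top

theorem characterization (hmono : Monotone f) (hf0 : f 0 = 0) :
    (∀ A : Set ℝ,
      0 < (OuterMeasure.mkMetric (fun r : ℝ≥0∞ => ((f r.toNNReal : ℝ≥0) : ℝ≥0∞)) :
        OuterMeasure ℝ) A →
      ∃ A₀ ⊆ A,
        0 < (OuterMeasure.mkMetric (fun r : ℝ≥0∞ => ((f r.toNNReal : ℝ≥0) : ℝ≥0∞)) :
          OuterMeasure ℝ) A₀ ∧
        (OuterMeasure.mkMetric (fun r : ℝ≥0∞ => ((f r.toNNReal : ℝ≥0) : ℝ≥0∞)) :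
          OuterMeasure ℝ) A₀ < ∞) ↔
    ¬ Tendsto (fun t : ℝ≥0 => f t / t) (𝓝[>] 0) atTop := by
  simp only [OuterMeasure.coe_mkMetric]
  constructor
  · intro h ht
    obtain ⟨nk, h1, h2, h3⟩ := exists_nk f ht
    obtain ⟨A, hA, hbad⟩ := exists_bad f hmono hf0 nk h1 h2 h3
    obtain ⟨A0, hA0, hpos, hfin⟩ := h A hA
    rw [hbad A0 hA0 hfin] at hpos
    exact lt_irrefl _ hpos
  · intro ht A hA
    rw [tendsto_atTop] at ht
    push Not at ht
    obtain ⟨C, hC⟩ := ht
    have hcov : A ⊆ ⋃ n : ℕ, (A ∩ Icc (-(n : ℝ)) n) := by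
      intro x hx
      obtain ⟨n, hn⟩ := exists_nat_ge |x|
      exact mem_iUnion.mpr ⟨n, hx, abs_le.mp hn⟩
    have hex : ∃ n : ℕ, (Measure.mkMetric (fun r : ℝ≥0∞ => ((f r.toNNReal : ℝ≥0) : ℝ≥0∞)) :
        Measure ℝ) (A ∩ Icc (-(n : ℝ)) n) ≠ 0 := by
      by_contra hcon
      push Not at hcon
      have := measure_mono_null hcov (measure_iUnion_null hcon)
      rw [this] at hA
      exact lt_irrefl _ hA
    obtain ⟨n, hn⟩ := hex
    refine ⟨_, inter_subset_left, pos_iff_ne_zero.mpr hn, ?_⟩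
    exact lt_of_le_of_lt (measure_mono inter_subset_right) (finite_on_Icc f C hC hmono n)

/-- The square root gauge. -/
theorem sqrt_tendsto : Tendsto (fun t : ℝ≥0 => NNReal.sqrt t / t) (𝓝[>] 0) atTop := by
  rw [tendsto_atTop]
  intro b
  have h1 : ∀ᶠ t : ℝ≥0 in 𝓝[>] 0, t ≤ ((b + 1) ^ 2)⁻¹ := by
    apply mem_nhdsWithin_of_mem_nhds
    exact Iic_mem_nhds (by positivity)
  filter_upwards [h1, self_mem_nhdsWithin] with t ht1 ht0
  have ht0' : 0 < t := ht0
  rw [le_div_iff₀ ht0']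
  have h2 : b * NNReal.sqrt t ≤ 1 := by
    have h3 : NNReal.sqrt t ≤ (b + 1)⁻¹ := by
      rw [NNReal.sqrt_le_iff_le_sq, inv_pow]
      exact ht1
    calc b * NNReal.sqrt t ≤ (b + 1) * (b + 1)⁻¹ := by
          apply mul_le_mul' _ h3
          exact le_self_add
      _ = 1 := mul_inv_cancel₀ (by positivity)
  calc b * t = (b * NNReal.sqrt t) * NNReal.sqrt t := by
        rw [mul_assoc, NNReal.mul_self_sqrt]
    _ ≤ 1 * NNReal.sqrt t := mul_le_mul_left h2 _
    _ = NNReal.sqrt t := one_mul _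

end final

end Pool.Agent.Helper93.NoFinite
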